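import Mathlib

/-!
# Symmetric operators: the first two singular values and the traces of the powers
-/

open MeasureTheory Filter
open scoped Topology RealInnerProductSpace

namespace Pool.Agent.T2H02.Gap

set_option linter.unusedSectionVars false
set_option linter.unusedVariables false

noncomputable section

variable {H : Type*} [SeminormedAddCommGroup H] [InnerProductSpace ℝ H]

/-- square of the first singular value -/
def top2 (T : H →ₗ[ℝ] H) : ℝ := sSup {s | ∃ f : H, ‖f‖ ^ 2 = 1 ∧ ‖T f‖ ^ 2 = s}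

/-- the set of the lower bounds on planes -/
def secSet (T : H →ₗ[ℝ] H) : Set ℝ := {s | ∃ f g : H, ‖f‖ ^ 2 = 1 ∧ ‖g‖ ^ 2 = 1 ∧ ⟪f, g⟫ = 0 ∧
  ∀ a b : ℝ, s * (a ^ 2 + b ^ 2) ≤ ‖T (a • f + b • g)‖ ^ 2}

/-- square of the second singular value -/
def sec2 (T : H →ₗ[ℝ] H) : ℝ := sSup (secSet T)

/-- A kernel for the operator: `c V` is the column at `V`. -/
structure Kern (T : H →ₗ[ℝ] H) {Ω : Type*} [MeasurableSpace Ω] (ν : Measure Ω) (c : Ω → H) :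
    Prop where
  symm : ∀ f g, ⟪T f, g⟫ = ⟪f, T g⟫
  int : ∀ k : ℕ, Integrable (fun V => ‖(T ^ k) (c V)‖ ^ 2) ν
  intf : ∀ (k : ℕ) (f : H), Integrable (fun V => ⟪f, (T ^ k) (c V)⟫ ^ 2) ν
  eq : ∀ (k : ℕ) (f : H), ∫ V, ⟪f, (T ^ k) (c V)⟫ ^ 2 ∂ν = ‖(T ^ (k + 1)) f‖ ^ 2

variable {T : H →ₗ[ℝ] H} {Ω : Type*} [MeasurableSpace Ω] {ν : Measure Ω} {c : Ω → H}

/-- traces of the even powers: `zt k` is the trace of `T ^ (2 (k + 1))` -/
def zt (T : H →ₗ[ℝ] H) (ν : Measure Ω) (c : Ω → H) (k : ℕ) : ℝ := ∫ V, ‖(T ^ k) (c V)‖ ^ 2 ∂ν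

lemma zt_nonneg (k : ℕ) : 0 ≤ zt T ν c k := integral_nonneg fun _ => sq_nonneg _

lemma pow_succ_apply (k : ℕ) (f : H) : (T ^ (k + 1)) f = T ((T ^ k) f) := by
  rw [pow_succ']; rfl

lemma pow_add_apply (j k : ℕ) (f : H) : (T ^ (j + k)) f = (T ^ j) ((T ^ k) f) := by
  rw [pow_add]; rfl

lemma pow_one_apply (f : H) : (T ^ 1) f = T f := by rw [pow_one]

lemma real_inner_sq_le (f g : H) : ⟪f, g⟫ ^ 2 ≤ ‖f‖ ^ 2 * ‖g‖ ^ 2 := by
  have h := abs_real_inner_le_norm f g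
  rw [← sq_abs, ← mul_pow]
  exact pow_le_pow_left₀ (abs_nonneg _) h 2

/-- one function: Bessel -/
lemma bessel1 (hT : Kern T ν c) (k : ℕ) (f : H) : ‖(T ^ (k + 1)) f‖ ^ 2 ≤ zt T ν c k * ‖f‖ ^ 2 := by
  rw [← hT.eq k f, mul_comm]
  unfold zt
  rw [← integral_const_mul]
  exact integral_mono (hT.intf k f) ((hT.int k).const_mul _) fun V => real_inner_sq_le _ _

lemma norm_sq_T_le (hT : Kern T ν c) (f : H) : ‖T f‖ ^ 2 ≤ zt T ν c 0 * ‖f‖ ^ 2 := by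
  have := bessel1 hT 0 f
  rwa [zero_add, pow_one] at this

lemma bdd_top (hT : Kern T ν c) : BddAbove {s | ∃ f : H, ‖f‖ ^ 2 = 1 ∧ ‖T f‖ ^ 2 = s} := by
  refine ⟨zt T ν c 0, ?_⟩
  rintro s ⟨f, hf, rfl⟩
  have := norm_sq_T_le hT f
  rwa [hf, mul_one] at this

lemma le_top (hT : Kern T ν c) (f : H) : ‖T f‖ ^ 2 ≤ top2 T * ‖f‖ ^ 2 := by
  by_cases hf : ‖f‖ = 0
  · have := norm_sq_T_le hT f
    rw [hf] at this ⊢
    simpa using this
  · have hfp : 0 < ‖f‖ := lt_of_le_of_ne (norm_nonneg _) (Ne.symm hf)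
    have h1 : ‖T (‖f‖⁻¹ • f)‖ ^ 2 ≤ top2 T := by
      refine le_csSup (bdd_top hT) ⟨‖f‖⁻¹ • f, ?_, rfl⟩
      rw [norm_smul, norm_inv, norm_norm, inv_mul_cancel₀ hf, one_pow]
    rw [map_smul, norm_smul, norm_inv, norm_norm, mul_pow, inv_pow] at h1
    rwa [inv_mul_le_iff₀ (by positivity), mul_comm] at h1

lemma top_nonneg (hT : Kern T ν c) : 0 ≤ top2 T := by
  unfold top2
  refine Real.sSup_nonneg ?_
  rintro s ⟨f, hf, rfl⟩
  positivity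

lemma le_top_pow (hT : Kern T ν c) (j : ℕ) (f : H) : ‖(T ^ j) f‖ ^ 2 ≤ top2 T ^ j * ‖f‖ ^ 2 := by
  induction j with
  | zero => simp
  | succ j ih =>
    rw [pow_succ_apply]
    refine (le_top hT _).trans ?_
    rw [pow_succ' (top2 T) j, mul_assoc]
    exact mul_le_mul_of_nonneg_left ih (top_nonneg hT)

lemma zt_add_le (hT : Kern T ν c) (j k : ℕ) : zt T ν c (j + k) ≤ top2 T ^ j * zt T ν c k := by
  unfold zt
  rw [← integral_const_mul]
  refine integral_mono (hT.int _) ((hT.int k).const_mul _) fun V => ?_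
  simp only
  rw [pow_add_apply]
  exact le_top_pow hT _ _

/-- Bessel for two functions -/
lemma bessel2 (hT : Kern T ν c) (k : ℕ) (f g : H) (hf : ‖f‖ ^ 2 = 1) (hg : ‖g‖ ^ 2 = 1)
    (hfg : ⟪f, g⟫ = 0) : ‖(T ^ (k + 1)) f‖ ^ 2 + ‖(T ^ (k + 1)) g‖ ^ 2 ≤ zt T ν c k := by
  rw [← hT.eq k f, ← hT.eq k g, ← integral_add (hT.intf k f) (hT.intf k g)]
  refine integral_mono ((hT.intf k f).add (hT.intf k g)) (hT.int k) fun V => ?_
  simp only [Pi.add_apply]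
  obtain ⟨x, hx⟩ : ∃ x, x = (T ^ k) (c V) := ⟨_, rfl⟩
  rw [← hx]
  have h1 : 0 ≤ ‖x - ⟪f, x⟫ • f - ⟪g, x⟫ • g‖ ^ 2 := sq_nonneg _
  have h2 : ‖x - ⟪f, x⟫ • f - ⟪g, x⟫ • g‖ ^ 2 = ‖x‖ ^ 2 - ⟪f, x⟫ ^ 2 - ⟪g, x⟫ ^ 2 := by
    rw [← real_inner_self_eq_norm_sq, ← real_inner_self_eq_norm_sq]
    simp only [inner_sub_left, inner_sub_right, inner_smul_left, inner_smul_right,
      real_inner_self_eq_norm_sq, hf, hg, hfg, real_inner_comm f g, real_inner_comm f x,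
      real_inner_comm g x, conj_trivial]
    ring
  linarith

/-- convexity of the moments -/
lemma moment_convex (hT : Kern T ν c) (f : H) (k : ℕ) :
    (‖(T ^ (k + 1)) f‖ ^ 2) ^ 2 ≤ ‖(T ^ k) f‖ ^ 2 * ‖(T ^ (k + 2)) f‖ ^ 2 := by
  have h1 : ‖(T ^ (k + 1)) f‖ ^ 2 = ⟪(T ^ k) f, (T ^ (k + 2)) f⟫ := by
    rw [← real_inner_self_eq_norm_sq, pow_succ_apply, hT.symm, pow_succ_apply (k + 1),
      pow_succ_apply k]
  rw [h1]
  exact real_inner_sq_le _ _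

lemma moment_le (hT : Kern T ν c) (f : H) (hf : ‖f‖ ^ 2 = 1) (k : ℕ) :
    (‖T f‖ ^ 2) ^ k ≤ ‖(T ^ k) f‖ ^ 2 := by
  obtain ⟨m, hm⟩ : ∃ m : ℕ → ℝ, m = fun k => ‖(T ^ k) f‖ ^ 2 := ⟨_, rfl⟩
  have hm0 : m 0 = 1 := by rw [hm]; simpa using hf
  have hm1 : m 1 = ‖T f‖ ^ 2 := by rw [hm]; simp
  have hnn : ∀ k, 0 ≤ m k := fun k => by rw [hm]; positivity
  have hcv : ∀ k, m (k + 1) ^ 2 ≤ m k * m (k + 2) := fun k => by
    rw [hm]; exact moment_convex hT f k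
  have key : ∀ k, m 1 * m k ≤ m (k + 1) := by
    intro k
    induction k with
    | zero => rw [hm0, mul_one]
    | succ k ih =>
      rcases (hnn k).eq_or_lt with h | h
      · have h2 := hcv k
        rw [← h, zero_mul] at h2
        have h3 : m (k + 1) = 0 := by
          have := sq_nonneg (m (k + 1))
          exact pow_eq_zero_iff (two_ne_zero) |>.1 (le_antisymm h2 this)
        rw [h3, mul_zero]; exact hnn _
      · have h2 := hcv k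
        have h3 : m k * (m 1 * m (k + 1)) ≤ m k * m (k + 2) := by
          calc m k * (m 1 * m (k + 1)) = (m 1 * m k) * m (k + 1) := by ring
            _ ≤ m (k + 1) * m (k + 1) := mul_le_mul_of_nonneg_right ih (hnn _)
            _ = m (k + 1) ^ 2 := by ring
            _ ≤ _ := h2
        exact le_of_mul_le_mul_left h3 h
  have fin : ∀ k, m 1 ^ k ≤ m k := by
    intro k
    induction k with
    | zero => rw [pow_zero, hm0]
    | succ k ih =>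
      calc m 1 ^ (k + 1) = m 1 * m 1 ^ k := by ring
        _ ≤ m 1 * m k := mul_le_mul_of_nonneg_left ih (hnn 1)
        _ ≤ _ := key k
  have := fin k
  rw [hm1] at this
  rw [hm] at this
  exact this

lemma nonempty_top (hH : ∃ f : H, ‖f‖ ^ 2 = 1) :
    {s | ∃ f : H, ‖f‖ ^ 2 = 1 ∧ ‖T f‖ ^ 2 = s}.Nonempty := by
  obtain ⟨f, hf⟩ := hH
  exact ⟨_, f, hf, rfl⟩

/-- near maximisers -/
lemma near_max (hH : ∃ f : H, ‖f‖ ^ 2 = 1) {η : ℝ} (hη : 0 < η) :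
    ∃ f : H, ‖f‖ ^ 2 = 1 ∧ top2 T - η < ‖T f‖ ^ 2 := by
  obtain ⟨s, ⟨f, hf, rfl⟩, h⟩ := exists_lt_of_lt_csSup (nonempty_top (T := T) hH)
    (show top2 T - η < sSup {s | ∃ f : H, ‖f‖ ^ 2 = 1 ∧ ‖T f‖ ^ 2 = s} by
      show top2 T - η < top2 T
      linarith)
  exact ⟨f, hf, h⟩

lemma secSet_le (hT : Kern T ν c) {s : ℝ} (hs : s ∈ secSet T) : s ≤ top2 T := by
  obtain ⟨f, g, hf, hg, hfg, h⟩ := hs
  have h1 := h 1 0
  have h2 := le_top hT f
  simp only [one_smul, zero_smul, add_zero] at h1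
  rw [hf, mul_one] at h2
  linarith

lemma bdd_sec (hT : Kern T ν c) : BddAbove (secSet T) := ⟨top2 T, fun _ hs => secSet_le hT hs⟩

/-- `tr T^{2k} ≥ t^k + u^k` -/
lemma top_add_sec_le (hT : Kern T ν c) (hH : ∃ f : H, ‖f‖ ^ 2 = 1) (k : ℕ) {s : ℝ}
    (hs : s ∈ secSet T) (hs0 : 0 ≤ s) : top2 T ^ (k + 1) + s ^ (k + 1) ≤ zt T ν c k := by
  obtain ⟨f, g, hf, hg, hfg, h⟩ := hs
  have key : ∀ η : ℝ, 0 < η → η ≤ top2 T → (top2 T - η) ^ (k + 1) + s ^ (k + 1) ≤ zt T ν c k := by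
    intro η hη hηt
    obtain ⟨f0, hf0, h0⟩ := near_max (T := T) hH hη
    -- a unit vector of the plane orthogonal to f0
    obtain ⟨w, hw, hw0, hwT⟩ : ∃ w : H, ‖w‖ ^ 2 = 1 ∧ ⟪f0, w⟫ = 0 ∧ s ≤ ‖T w‖ ^ 2 := by
      obtain ⟨p, hp⟩ : ∃ p, p = ⟪f0, f⟫ := ⟨_, rfl⟩
      obtain ⟨q, hq⟩ : ∃ q, q = ⟪f0, g⟫ := ⟨_, rfl⟩
      obtain ⟨a, b, hab, hpq⟩ : ∃ a b : ℝ, a ^ 2 + b ^ 2 = 1 ∧ a * p + b * q = 0 := by
        rcases eq_or_ne (p ^ 2 + q ^ 2) 0 with h1 | h1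
        · have hp0 : p = 0 := by nlinarith [sq_nonneg p, sq_nonneg q]
          have hq0 : q = 0 := by nlinarith [sq_nonneg p, sq_nonneg q]
          exact ⟨1, 0, by norm_num, by rw [hp0, hq0]; ring⟩
        · have h2 : 0 < p ^ 2 + q ^ 2 := lt_of_le_of_ne (by positivity) (Ne.symm h1)
          have h3 := Real.sq_sqrt h2.le
          have h4 := (Real.sqrt_pos.2 h2).ne'
          refine ⟨q / Real.sqrt (p ^ 2 + q ^ 2), -p / Real.sqrt (p ^ 2 + q ^ 2), ?_, ?_⟩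
          · rw [div_pow, div_pow, h3]
            field_simp
            ring
          · field_simp
            ring
      refine ⟨a • f + b • g, ?_, ?_, ?_⟩
      · rw [← real_inner_self_eq_norm_sq]
        simp only [inner_add_left, inner_add_right, inner_smul_left, inner_smul_right,
          real_inner_self_eq_norm_sq, hf, hg, hfg, real_inner_comm f g, conj_trivial]
        nlinarith
      · rw [inner_add_right, inner_smul_right, inner_smul_right, ← hp, ← hq]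
        exact hpq
      · have := h a b
        rw [hab, mul_one] at this
        exact this
    have h1 := bessel2 hT k f0 w hf0 hw hw0
    have h2 := moment_le hT f0 hf0 (k + 1)
    have h3 := moment_le hT w hw (k + 1)
    have h4 : (top2 T - η) ^ (k + 1) ≤ (‖T f0‖ ^ 2) ^ (k + 1) :=
      pow_le_pow_left₀ (by linarith) h0.le _
    have h5 : s ^ (k + 1) ≤ (‖T w‖ ^ 2) ^ (k + 1) := pow_le_pow_left₀ hs0 hwT _
    linarith
  rcases (top_nonneg hT).eq_or_lt with h0 | h0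
  · have hs1 : s ≤ top2 T := secSet_le hT ⟨f, g, hf, hg, hfg, h⟩
    have hs2 : s = 0 := by linarith
    rw [← h0, hs2]
    simp [zt_nonneg]
  · have hl : Tendsto (fun η : ℝ => (top2 T - η) ^ (k + 1) + s ^ (k + 1)) (𝓝[>] 0)
        (𝓝 ((top2 T - 0) ^ (k + 1) + s ^ (k + 1))) := by
      have : Continuous fun η : ℝ => (top2 T - η) ^ (k + 1) + s ^ (k + 1) := by fun_prop
      exact (this.tendsto 0).mono_left nhdsWithin_le_nhds
    rw [sub_zero] at hl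
    refine le_of_tendsto hl ?_
    have : Set.Ioc 0 (top2 T) ∈ 𝓝[>] (0 : ℝ) := Ioc_mem_nhdsGT h0
    filter_upwards [this] with η hη
    exact key η hη.1 hη.2

lemma top_pow_le (hT : Kern T ν c) (hH : ∃ f : H, ‖f‖ ^ 2 = 1) (k : ℕ) :
    top2 T ^ (k + 1) ≤ zt T ν c k := by
  have key : ∀ η : ℝ, 0 < η → η ≤ top2 T → (top2 T - η) ^ (k + 1) ≤ zt T ν c k := by
    intro η hη hηt
    obtain ⟨f0, hf0, h0⟩ := near_max (T := T) hH hη
    have h1 := bessel1 hT k f0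
    rw [hf0, mul_one] at h1
    have h2 := moment_le hT f0 hf0 (k + 1)
    have h4 : (top2 T - η) ^ (k + 1) ≤ (‖T f0‖ ^ 2) ^ (k + 1) :=
      pow_le_pow_left₀ (by linarith) h0.le _
    linarith
  rcases (top_nonneg hT).eq_or_lt with h0 | h0
  · rw [← h0]
    simp [zt_nonneg]
  · have hl : Tendsto (fun η : ℝ => (top2 T - η) ^ (k + 1)) (𝓝[>] 0)
        (𝓝 ((top2 T - 0) ^ (k + 1))) := by
      have : Continuous fun η : ℝ => (top2 T - η) ^ (k + 1) := by fun_prop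
      exact (this.tendsto 0).mono_left nhdsWithin_le_nhds
    rw [sub_zero] at hl
    refine le_of_tendsto hl ?_
    have : Set.Ioc 0 (top2 T) ∈ 𝓝[>] (0 : ℝ) := Ioc_mem_nhdsGT h0
    filter_upwards [this] with η hη
    exact key η hη.1 hη.2

/-! ### the second singular value from below -/

/-- the part orthogonal to `f0` -/
def oc (f0 x : H) : H := x - ⟪f0, x⟫ • f0

lemma oc_orth {f0 : H} (hf0 : ‖f0‖ ^ 2 = 1) (x : H) : ⟪f0, oc f0 x⟫ = 0 := by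
  unfold oc
  rw [inner_sub_right, inner_smul_right, real_inner_self_eq_norm_sq, hf0]; ring

lemma norm_oc {f0 : H} (hf0 : ‖f0‖ ^ 2 = 1) (x : H) : ‖oc f0 x‖ ^ 2 = ‖x‖ ^ 2 - ⟪f0, x⟫ ^ 2 := by
  unfold oc
  rw [← real_inner_self_eq_norm_sq, ← real_inner_self_eq_norm_sq]
  simp only [inner_sub_left, inner_sub_right, inner_smul_left, inner_smul_right,
    real_inner_self_eq_norm_sq, hf0, real_inner_comm f0 x, conj_trivial]
  ring

lemma norm_oc_le {f0 : H} (hf0 : ‖f0‖ ^ 2 = 1) (x : H) : ‖oc f0 x‖ ≤ ‖x‖ := by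
  have h := norm_oc hf0 x
  have h1 := sq_nonneg ⟪f0, x⟫
  have h2 := norm_nonneg x
  have h3 := norm_nonneg (oc f0 x)
  nlinarith

/-- the defect of an almost maximiser -/
lemma defect (hT : Kern T ν c) {f0 : H} (hf0 : ‖f0‖ ^ 2 = 1) {η : ℝ}
    (h0 : top2 T - η ≤ ‖T f0‖ ^ 2) : ‖T (T f0) - top2 T • f0‖ ^ 2 ≤ top2 T * η := by
  have h1 := le_top hT (T f0)
  have h2 : ‖T (T f0) - top2 T • f0‖ ^ 2 = ‖T (T f0)‖ ^ 2 - 2 * top2 T * ‖T f0‖ ^ 2 +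
      top2 T ^ 2 := by
    rw [← real_inner_self_eq_norm_sq]
    simp only [inner_sub_left, inner_sub_right, inner_smul_left, inner_smul_right,
      real_inner_self_eq_norm_sq, hf0, conj_trivial]
    rw [hT.symm, real_inner_comm, hT.symm, real_inner_self_eq_norm_sq]
    ring
  rw [h2]
  have h3 := top_nonneg hT
  nlinarith

/-- functions orthogonal to an almost maximiser -/
lemma orth_le (hT : Kern T ν c) {f0 : H} (hf0 : ‖f0‖ ^ 2 = 1) {η : ℝ} (hη : 0 ≤ η)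
    (h0 : top2 T - η ≤ ‖T f0‖ ^ 2)
    (hsm : sec2 T + Real.sqrt (top2 T * η) < top2 T - η) {f : H} (hf : ⟪f0, f⟫ = 0) :
    ‖T f‖ ^ 2 ≤ (sec2 T + Real.sqrt (top2 T * η)) * ‖f‖ ^ 2 := by
  obtain ⟨ε, hε⟩ : ∃ ε, ε = Real.sqrt (top2 T * η) := ⟨_, rfl⟩
  have hε0 : 0 ≤ ε := by rw [hε]; exact Real.sqrt_nonneg _
  rw [← hε] at hsm ⊢
  by_cases hfz : ‖f‖ = 0
  · have := le_top hT f
    rw [hfz] at this ⊢
    simpa using this
  have hfp : 0 < ‖f‖ := lt_of_le_of_ne (norm_nonneg _) (Ne.symm hfz)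
  -- reduce to unit vectors
  suffices hu : ∀ w : H, ‖w‖ ^ 2 = 1 → ⟪f0, w⟫ = 0 → ‖T w‖ ^ 2 ≤ sec2 T + ε by
    have h1 := hu (‖f‖⁻¹ • f) (by rw [norm_smul, norm_inv, norm_norm, inv_mul_cancel₀ hfz, one_pow])
      (by rw [inner_smul_right, hf, mul_zero])
    rw [map_smul, norm_smul, norm_inv, norm_norm, mul_pow, inv_pow] at h1
    rwa [inv_mul_le_iff₀ (by positivity), mul_comm] at h1
  intro w hw hw0
  by_contra hcon
  push Not at hcon
  obtain ⟨m, hm⟩ : ∃ m, m = min (top2 T - η) (‖T w‖ ^ 2) - ε := ⟨_, rfl⟩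
  have hmem : m ∈ secSet T := by
    refine ⟨f0, w, hf0, hw, hw0, fun a b => ?_⟩
    have hd := defect hT hf0 h0
    have hcr : |⟪T f0, T w⟫| ≤ ε := by
      have e1 : ⟪T f0, T w⟫ = ⟪T (T f0) - top2 T • f0, w⟫ := by
        rw [inner_sub_left, inner_smul_left, hw0, mul_zero, sub_zero, hT.symm (T f0) w]
      rw [e1]
      have e2 := abs_real_inner_le_norm (T (T f0) - top2 T • f0) w
      have e3 : ‖T (T f0) - top2 T • f0‖ ≤ ε := by
        rw [hε]; exact Real.le_sqrt_of_sq_le hd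
      have e4 : ‖w‖ = 1 := by
        have := norm_nonneg w
        nlinarith
      rw [e4, mul_one] at e2
      exact e2.trans e3
    have hexp : ‖T (a • f0 + b • w)‖ ^ 2 = a ^ 2 * ‖T f0‖ ^ 2 + b ^ 2 * ‖T w‖ ^ 2 +
        2 * (a * b) * ⟪T f0, T w⟫ := by
      rw [map_add, map_smul, map_smul, ← real_inner_self_eq_norm_sq]
      simp only [inner_add_left, inner_add_right, inner_smul_left, inner_smul_right,
        real_inner_self_eq_norm_sq, real_inner_comm (T f0) (T w), conj_trivial]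
      ring
    rw [hexp]
    have h1 : m + ε ≤ ‖T f0‖ ^ 2 := by
      rw [hm]; have := min_le_left (top2 T - η) (‖T w‖ ^ 2); linarith
    have h2 : m + ε ≤ ‖T w‖ ^ 2 := by
      rw [hm]; have := min_le_right (top2 T - η) (‖T w‖ ^ 2); linarith
    have h3 : |2 * (a * b) * ⟪T f0, T w⟫| ≤ (a ^ 2 + b ^ 2) * ε := by
      rw [abs_mul]
      have h4 : |2 * (a * b)| ≤ a ^ 2 + b ^ 2 := by
        rw [abs_le]; constructor <;> nlinarith [sq_nonneg (a + b), sq_nonneg (a - b)]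
      exact mul_le_mul h4 hcr (abs_nonneg _) (by positivity)
    have h5 := (abs_le.1 h3).1
    nlinarith [mul_le_mul_of_nonneg_left h1 (sq_nonneg a), mul_le_mul_of_nonneg_left h2 (sq_nonneg b)]
  have hle : m ≤ sec2 T := le_csSup (bdd_sec hT) hmem
  rcases min_choice (top2 T - η) (‖T w‖ ^ 2) with h | h
  · rw [h] at hm; linarith
  · rw [h] at hm; linarith

/-- `T ^ 2` on the orthogonal complement -/
lemma oc_T2_le (hT : Kern T ν c) {f0 : H} (hf0 : ‖f0‖ ^ 2 = 1) {u' : ℝ} (hu' : 0 ≤ u')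
    (ho : ∀ f : H, ⟪f0, f⟫ = 0 → ‖T f‖ ^ 2 ≤ u' * ‖f‖ ^ 2) {y : H} (hy : ⟪f0, y⟫ = 0) :
    ‖oc f0 (T (T y))‖ ≤ u' * ‖y‖ := by
  obtain ⟨w, hw⟩ : ∃ w, w = oc f0 (T (T y)) := ⟨_, rfl⟩
  have hw0 : ⟪f0, w⟫ = 0 := by rw [hw]; exact oc_orth hf0 _
  have h1 : ‖w‖ ^ 2 = ⟪T w, T y⟫ := by
    have e1 : ⟪w, T (T y)⟫ = ‖w‖ ^ 2 := by
      have e2 : T (T y) = w + ⟪f0, T (T y)⟫ • f0 := by rw [hw]; unfold oc; abel
      rw [e2, inner_add_right, inner_smul_right, real_inner_comm f0 w, hw0, mul_zero, add_zero,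
        real_inner_self_eq_norm_sq]
    rw [← e1, hT.symm]
  have h2 : ⟪T w, T y⟫ ≤ ‖T w‖ * ‖T y‖ := real_inner_le_norm _ _
  have h3 : ‖T w‖ ≤ Real.sqrt u' * ‖w‖ := by
    rw [← Real.sqrt_sq (norm_nonneg (T w)), ← Real.sqrt_sq (norm_nonneg w), ← Real.sqrt_mul hu']
    exact Real.sqrt_le_sqrt (ho w hw0)
  have h4 : ‖T y‖ ≤ Real.sqrt u' * ‖y‖ := by
    rw [← Real.sqrt_sq (norm_nonneg (T y)), ← Real.sqrt_sq (norm_nonneg y), ← Real.sqrt_mul hu']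
    exact Real.sqrt_le_sqrt (ho y hy)
  have h5 : ‖w‖ * ‖w‖ ≤ ‖w‖ * (u' * ‖y‖) := by
    calc ‖w‖ * ‖w‖ = ‖w‖ ^ 2 := by ring
      _ = ⟪T w, T y⟫ := h1
      _ ≤ ‖T w‖ * ‖T y‖ := h2
      _ ≤ (Real.sqrt u' * ‖w‖) * (Real.sqrt u' * ‖y‖) :=
          mul_le_mul h3 h4 (norm_nonneg _) (by positivity)
      _ = (Real.sqrt u' * Real.sqrt u') * (‖w‖ * ‖y‖) := by ring
      _ = ‖w‖ * (u' * ‖y‖) := by rw [Real.mul_self_sqrt hu']; ring
  rw [← hw]
  rcases (norm_nonneg w).eq_or_lt with h | h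
  · rw [← h]; positivity
  · exact le_of_mul_le_mul_left h5 h

/-- iteration -/
lemma oc_iter (hT : Kern T ν c) {f0 : H} (hf0 : ‖f0‖ ^ 2 = 1) {η u' M : ℝ} (hη : 0 ≤ η)
    (h0 : top2 T - η ≤ ‖T f0‖ ^ 2) (hu' : 0 ≤ u') (hM1 : 1 ≤ M) (hMt : top2 T ≤ M) (hMu : u' ≤ M)
    (ho : ∀ f : H, ⟪f0, f⟫ = 0 → ‖T f‖ ^ 2 ≤ u' * ‖f‖ ^ 2) (j : ℕ) (x : H) :
    ‖oc f0 ((T ^ (2 * j)) x)‖ ≤ u' ^ j * ‖oc f0 x‖ + j * M ^ j * Real.sqrt (M * η) * ‖x‖ := by
  have hM0 : 0 ≤ M := by linarith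
  induction j with
  | zero => simp
  | succ j ih =>
    obtain ⟨y, hy⟩ : ∃ y, y = (T ^ (2 * j)) x := ⟨_, rfl⟩
    have e1 : (T ^ (2 * (j + 1))) x = T (T y) := by
      rw [hy, show 2 * (j + 1) = 2 * j + 1 + 1 from rfl, pow_succ_apply, pow_succ_apply]
    rw [← hy] at ih
    obtain ⟨r, hr⟩ : ∃ r, r = T (T f0) - top2 T • f0 := ⟨_, rfl⟩
    have e2 : oc f0 (T (T y)) = oc f0 (T (T (oc f0 y))) + ⟪f0, y⟫ • oc f0 r := by
      have e3 : y = oc f0 y + ⟪f0, y⟫ • f0 := by unfold oc; abel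
      have e4 : T (T y) = T (T (oc f0 y)) + ⟪f0, y⟫ • T (T f0) := by
        conv_lhs => rw [e3]
        rw [map_add, map_add, map_smul, map_smul]
      have e5 : oc f0 (T (T f0)) = oc f0 r := by
        rw [hr]
        unfold oc
        rw [inner_sub_right, inner_smul_right, real_inner_self_eq_norm_sq, hf0, mul_one, sub_smul]
        abel
      rw [e4, ← e5]
      unfold oc
      rw [inner_add_right, inner_smul_right, add_smul, smul_sub, smul_smul]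
      abel
    rw [e1, e2]
    refine (norm_add_le _ _).trans ?_
    have h1 := oc_T2_le hT hf0 hu' ho (oc_orth hf0 y)
    have h2 : ‖⟪f0, y⟫ • oc f0 r‖ ≤ M ^ j * ‖x‖ * Real.sqrt (M * η) := by
      rw [norm_smul]
      have h3 : ‖⟪f0, y⟫‖ ≤ ‖y‖ := by
        have h4 := norm_inner_le_norm (𝕜 := ℝ) f0 y
        have h5 : ‖f0‖ = 1 := by
          have := norm_nonneg f0
          nlinarith
        rwa [h5, one_mul] at h4
      have h6 : ‖y‖ ≤ M ^ j * ‖x‖ := by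
        have h7 := le_top_pow hT (2 * j) x
        rw [← hy] at h7
        have h8 : top2 T ^ (2 * j) ≤ (M ^ j) ^ 2 := by
          rw [← pow_mul, mul_comm j 2]
          exact pow_le_pow_left₀ (top_nonneg hT) hMt _
        have h9 : ‖y‖ ^ 2 ≤ (M ^ j * ‖x‖) ^ 2 := by
          rw [mul_pow]
          exact h7.trans (mul_le_mul_of_nonneg_right h8 (sq_nonneg _))
        exact abs_le_of_sq_le_sq' h9 (by positivity) |>.2
      have h10 : ‖oc f0 r‖ ≤ Real.sqrt (M * η) := by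
        refine (norm_oc_le hf0 r).trans ?_
        refine Real.le_sqrt_of_sq_le ?_
        rw [hr]
        exact (defect hT hf0 h0).trans (mul_le_mul_of_nonneg_right hMt hη)
      exact mul_le_mul (h3.trans h6) h10 (norm_nonneg _) (by positivity)
    have h11 : u' * ‖oc f0 y‖ ≤ u' * (u' ^ j * ‖oc f0 x‖ + j * M ^ j * Real.sqrt (M * η) * ‖x‖) :=
      mul_le_mul_of_nonneg_left ih hu'
    have h12 : u' * (j * M ^ j * Real.sqrt (M * η) * ‖x‖) ≤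
        j * M ^ (j + 1) * Real.sqrt (M * η) * ‖x‖ := by
      have h13 : 0 ≤ j * M ^ j * Real.sqrt (M * η) * ‖x‖ := by positivity
      calc u' * (j * M ^ j * Real.sqrt (M * η) * ‖x‖) ≤ M * (j * M ^ j * Real.sqrt (M * η) * ‖x‖) :=
            mul_le_mul_of_nonneg_right hMu h13
        _ = _ := by ring
    have h14 : M ^ j * ‖x‖ * Real.sqrt (M * η) ≤ M ^ (j + 1) * Real.sqrt (M * η) * ‖x‖ := by
      have h15 : M ^ j ≤ M ^ (j + 1) := pow_le_pow_right₀ hM1 (Nat.le_succ j)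
      calc M ^ j * ‖x‖ * Real.sqrt (M * η) = M ^ j * (Real.sqrt (M * η) * ‖x‖) := by ring
        _ ≤ M ^ (j + 1) * (Real.sqrt (M * η) * ‖x‖) :=
            mul_le_mul_of_nonneg_right h15 (by positivity)
        _ = _ := by ring
    push_cast
    calc _ ≤ u' * (u' ^ j * ‖oc f0 x‖ + j * M ^ j * Real.sqrt (M * η) * ‖x‖) +
          M ^ j * ‖x‖ * Real.sqrt (M * η) := by linarith
      _ = u' ^ (j + 1) * ‖oc f0 x‖ + u' * (j * M ^ j * Real.sqrt (M * η) * ‖x‖) +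
          M ^ j * ‖x‖ * Real.sqrt (M * η) := by ring
      _ ≤ u' ^ (j + 1) * ‖oc f0 x‖ + j * M ^ (j + 1) * Real.sqrt (M * η) * ‖x‖ +
          M ^ (j + 1) * Real.sqrt (M * η) * ‖x‖ := by linarith
      _ = _ := by ring

lemma int_oc (hT : Kern T ν c) {f0 : H} (hf0 : ‖f0‖ ^ 2 = 1) (k : ℕ) :
    Integrable (fun V => ‖oc f0 ((T ^ k) (c V))‖ ^ 2) ν ∧
      ∫ V, ‖oc f0 ((T ^ k) (c V))‖ ^ 2 ∂ν = zt T ν c k - ‖(T ^ (k + 1)) f0‖ ^ 2 := by
  have h1 : (fun V => ‖oc f0 ((T ^ k) (c V))‖ ^ 2) =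
      fun V => ‖(T ^ k) (c V)‖ ^ 2 - ⟪f0, (T ^ k) (c V)⟫ ^ 2 := by
    funext V
    exact norm_oc hf0 _
  rw [h1]
  refine ⟨(hT.int k).sub (hT.intf k f0), ?_⟩
  rw [integral_sub (hT.int k) (hT.intf k f0), hT.eq]
  rfl

/-- `tr T^{2(k+2j)} - t^{k+2j} ≤ u^{2j} (tr T^{2k} - t^k)` -/
lemma zt_sub_le (hT : Kern T ν c) (hH : ∃ f : H, ‖f‖ ^ 2 = 1) (hu : sec2 T < top2 T)
    (hu0 : 0 ≤ sec2 T) (k j : ℕ) :
    zt T ν c (k + 2 * j) - top2 T ^ (k + 2 * j + 1) ≤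
      sec2 T ^ (2 * j) * (zt T ν c k - top2 T ^ (k + 1)) := by
  obtain ⟨t, ht⟩ : ∃ t, t = top2 T := ⟨_, rfl⟩
  obtain ⟨u, hud⟩ : ∃ u, u = sec2 T := ⟨_, rfl⟩
  obtain ⟨M, hM⟩ : ∃ M, M = max 1 t := ⟨_, rfl⟩
  have hM1 : 1 ≤ M := by rw [hM]; exact le_max_left _ _
  have hMt : t ≤ M := by rw [hM]; exact le_max_right _ _
  have ht0 : 0 < t := by rw [ht]; linarith
  rw [← ht, ← hud] at hu ⊢
  rw [← hud] at hu0
  -- the smallness of η
  have hcont : Continuous fun η : ℝ => u + Real.sqrt (t * η) - (t - η) := by fun_prop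
  have hev : ∀ᶠ η in 𝓝[>] (0 : ℝ), u + Real.sqrt (t * η) - (t - η) < 0 := by
    have h1 : Tendsto (fun η : ℝ => u + Real.sqrt (t * η) - (t - η)) (𝓝[>] 0)
        (𝓝 (u + Real.sqrt (t * 0) - (t - 0))) := (hcont.tendsto 0).mono_left nhdsWithin_le_nhds
    rw [mul_zero, Real.sqrt_zero, add_zero, sub_zero] at h1
    exact h1.eventually_lt_const (by linarith)
  have hev2 : ∀ᶠ η in 𝓝[>] (0 : ℝ), η ∈ Set.Ioc 0 t := Ioc_mem_nhdsGT ht0
  obtain ⟨Zk, hZk⟩ : ∃ Zk, Zk = zt T ν c k := ⟨_, rfl⟩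
  have hZk0 : 0 ≤ Zk := by rw [hZk]; exact zt_nonneg k
  -- the bound for every small η
  have key : ∀ᶠ η in 𝓝[>] (0 : ℝ), zt T ν c (k + 2 * j) - t ^ (k + 2 * j + 1) ≤
      (u + Real.sqrt (t * η)) ^ (2 * j) * (Zk - (t - η) ^ (k + 1)) +
      (2 * M ^ j * (j * M ^ j * Real.sqrt (M * η)) + (j * M ^ j * Real.sqrt (M * η)) ^ 2) * Zk := by
    filter_upwards [hev, hev2] with η h1 h2
    have hη : 0 < η := h2.1
    obtain ⟨f0, hf0, h0⟩ := near_max (T := T) hH hη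
    rw [← ht] at h0
    obtain ⟨u', hu'⟩ : ∃ u', u' = u + Real.sqrt (t * η) := ⟨_, rfl⟩
    have hu'0 : 0 ≤ u' := by rw [hu']; positivity
    have hu'M : u' ≤ M := by
      have : u' ≤ t := by rw [hu']; linarith
      linarith
    have ho : ∀ f : H, ⟪f0, f⟫ = 0 → ‖T f‖ ^ 2 ≤ u' * ‖f‖ ^ 2 := by
      intro f hf
      have := orth_le hT hf0 hη.le (by rw [← ht]; exact h0.le) (by rw [← ht, ← hud]; linarith) hf
      rwa [← ht, ← hud, ← hu'] at this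
    obtain ⟨δ, hδ⟩ : ∃ δ, δ = j * M ^ j * Real.sqrt (M * η) := ⟨_, rfl⟩
    have hδ0 : 0 ≤ δ := by rw [hδ]; positivity
    have hpt : ∀ V, ‖oc f0 ((T ^ (k + 2 * j)) (c V))‖ ^ 2 ≤
        u' ^ (2 * j) * ‖oc f0 ((T ^ k) (c V))‖ ^ 2 + (2 * M ^ j * δ + δ ^ 2) * ‖(T ^ k) (c V)‖ ^ 2 := by
      intro V
      have h3 := oc_iter hT hf0 hη.le (by rw [← ht]; exact h0.le) hu'0 hM1 (by rw [← ht]; exact hMt)
        hu'M ho j ((T ^ k) (c V))
      rw [← pow_add_apply, add_comm (2 * j) k, ← hδ] at h3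
      obtain ⟨A, hA⟩ : ∃ A, A = ‖oc f0 ((T ^ k) (c V))‖ := ⟨_, rfl⟩
      obtain ⟨X, hX⟩ : ∃ X, X = ‖(T ^ k) (c V)‖ := ⟨_, rfl⟩
      have hA0 : 0 ≤ A := by rw [hA]; exact norm_nonneg _
      have hX0 : 0 ≤ X := by rw [hX]; exact norm_nonneg _
      have hAX : A ≤ X := by rw [hA, hX]; exact norm_oc_le hf0 _
      rw [← hA, ← hX] at h3 ⊢
      have h4 : ‖oc f0 ((T ^ (k + 2 * j)) (c V))‖ ^ 2 ≤ (u' ^ j * A + δ * X) ^ 2 :=
        pow_le_pow_left₀ (norm_nonneg _) h3 2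
      refine h4.trans ?_
      have h5 : u' ^ j * A ≤ M ^ j * X :=
        mul_le_mul (pow_le_pow_left₀ hu'0 hu'M _) hAX hA0 (by positivity)
      have h6 : (u' ^ j * A + δ * X) ^ 2 = u' ^ (2 * j) * A ^ 2 + 2 * (u' ^ j * A) * (δ * X) +
          δ ^ 2 * X ^ 2 := by
        rw [mul_comm 2 j, pow_mul]; ring
      rw [h6]
      have h7 : 2 * (u' ^ j * A) * (δ * X) ≤ 2 * (M ^ j * X) * (δ * X) := by
        refine mul_le_mul_of_nonneg_right ?_ (by positivity)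
        linarith
      nlinarith
    have h8 := int_oc hT hf0 (k + 2 * j)
    have h9 := int_oc hT hf0 k
    have h10 : ∫ V, ‖oc f0 ((T ^ (k + 2 * j)) (c V))‖ ^ 2 ∂ν ≤
        ∫ V, (u' ^ (2 * j) * ‖oc f0 ((T ^ k) (c V))‖ ^ 2 +
          (2 * M ^ j * δ + δ ^ 2) * ‖(T ^ k) (c V)‖ ^ 2) ∂ν :=
      integral_mono h8.1 ((h9.1.const_mul _).add ((hT.int k).const_mul _)) hpt
    rw [integral_add (h9.1.const_mul _) ((hT.int k).const_mul _), integral_const_mul,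
      integral_const_mul, h8.2, h9.2] at h10
    have h11 : ‖(T ^ (k + 2 * j + 1)) f0‖ ^ 2 ≤ t ^ (k + 2 * j + 1) := by
      have := le_top_pow hT (k + 2 * j + 1) f0
      rwa [hf0, mul_one, ← ht] at this
    have h12 : (t - η) ^ (k + 1) ≤ ‖(T ^ (k + 1)) f0‖ ^ 2 := by
      have h13 := moment_le hT f0 hf0 (k + 1)
      exact (pow_le_pow_left₀ (by linarith [h2.2]) h0.le _).trans h13
    have h14 : u' ^ (2 * j) * (zt T ν c k - ‖(T ^ (k + 1)) f0‖ ^ 2) ≤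
        u' ^ (2 * j) * (Zk - (t - η) ^ (k + 1)) := by
      refine mul_le_mul_of_nonneg_left ?_ (by positivity)
      rw [hZk]; linarith
    have h15 : ∫ V, ‖(T ^ k) (c V)‖ ^ 2 ∂ν = Zk := by rw [hZk]; rfl
    rw [h15] at h10
    rw [← hu', ← hδ]
    linarith
  -- the limit
  have hc2 : Continuous fun η : ℝ => (u + Real.sqrt (t * η)) ^ (2 * j) * (Zk - (t - η) ^ (k + 1)) +
      (2 * M ^ j * (j * M ^ j * Real.sqrt (M * η)) + (j * M ^ j * Real.sqrt (M * η)) ^ 2) * Zk := by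
    fun_prop
  have hl := (hc2.tendsto 0).mono_left (nhdsWithin_le_nhds (s := Set.Ioi (0 : ℝ)))
  simp only [mul_zero, Real.sqrt_zero, add_zero, sub_zero, ne_eq, OfNat.ofNat_ne_zero,
    not_false_eq_true, zero_pow, zero_mul] at hl
  rw [hZk] at hl
  exact ge_of_tendsto hl (by rw [hZk] at key; exact key)

end

end Pool.Agent.T2H02.Gap
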