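import Mathlib
import Pool.Agent.T2H02.Gap.Op

/-!
# Integral operators with continuous symmetric kernels
-/

open MeasureTheory Filter Function
open scoped Topology RealInnerProductSpace

namespace Pool.Agent.T2H02.Gap

set_option linter.unusedSectionVars false
set_option linter.unusedVariables false

noncomputable section

section fub

variable {X Y : Type*} [TopologicalSpace X] [CompactSpace X] [T2Space X] [SecondCountableTopology X]
  [MeasurableSpace X] [BorelSpace X] [TopologicalSpace Y] [CompactSpace Y] [T2Space Y]
  [SecondCountableTopology Y] [MeasurableSpace Y] [BorelSpace Y]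

lemma cint {X : Type*} [TopologicalSpace X] [CompactSpace X] [MeasurableSpace X] [BorelSpace X]
    (ν : Measure X) [IsFiniteMeasure ν] {f : X → ℝ} (hf : Continuous f) : Integrable f ν := by
  obtain ⟨M, hM⟩ := (isCompact_range hf).isBounded.exists_norm_le
  exact Integrable.of_bound hf.aestronglyMeasurable M
    (Eventually.of_forall fun U => hM _ (Set.mem_range_self U))

lemma cswap (μ : Measure X) (ν : Measure Y) [IsFiniteMeasure μ] [IsFiniteMeasure ν] {f : X → Y → ℝ}
    (hf : Continuous (uncurry f)) : ∫ x, ∫ y, f x y ∂ν ∂μ = ∫ y, ∫ x, f x y ∂μ ∂ν :=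
  integral_integral_swap (cint (μ.prod ν) hf)

lemma ccont {Z : Type*} [TopologicalSpace Z] [FirstCountableTopology Z] [LocallyCompactSpace Z]
    (ν : Measure Y) [IsFiniteMeasure ν] {f : Z → Y → ℝ}
    (hf : Continuous (uncurry f)) : Continuous fun x => ∫ y, f x y ∂ν := by
  have h := continuous_parametric_integral_of_continuous (μ := ν) hf isCompact_univ
  simpa using h

end fub

variable {X : Type*} [TopologicalSpace X] [CompactSpace X] [T2Space X] [SecondCountableTopology X]
  [MeasurableSpace X] [BorelSpace X]

/-- composition of kernels -/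
def cmp (ν : Measure X) (a b : X → X → ℝ) (U V : X) : ℝ := ∫ W, a U W * b W V ∂ν

/-- iterated kernels: `it ν a m` is the kernel of the power `m + 1` -/
def it (ν : Measure X) (a : X → X → ℝ) : ℕ → X → X → ℝ
  | 0 => a
  | m + 1 => cmp ν a (it ν a m)

lemma it_succ (ν : Measure X) (a : X → X → ℝ) (m : ℕ) (U V : X) :
    it ν a (m + 1) U V = ∫ W, a U W * it ν a m W V ∂ν := rfl

variable (ν : Measure X) [IsFiniteMeasure ν]

lemma cmp_cont {a b : X → X → ℝ} (ha : Continuous (uncurry a)) (hb : Continuous (uncurry b)) :
    Continuous (uncurry (cmp ν a b)) := by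
  have h : Continuous (uncurry fun (p : X × X) W => a p.1 W * b W p.2) := by
    have e1 : Continuous fun q : (X × X) × X => uncurry a (q.1.1, q.2) := ha.comp (by fun_prop)
    have e2 : Continuous fun q : (X × X) × X => uncurry b (q.2, q.1.2) := hb.comp (by fun_prop)
    exact e1.mul e2
  exact ccont ν h

lemma it_cont {a : X → X → ℝ} (ha : Continuous (uncurry a)) (m : ℕ) :
    Continuous (uncurry (it ν a m)) := by
  induction m with
  | zero => exact ha
  | succ m ih => exact cmp_cont ν ha ih

lemma left_cont {a : X → X → ℝ} (ha : Continuous (uncurry a)) (U : X) : Continuous fun V => a U V :=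
  ha.comp (by fun_prop : Continuous fun V : X => (U, V))

lemma right_cont {a : X → X → ℝ} (ha : Continuous (uncurry a)) (V : X) : Continuous fun U => a U V :=
  ha.comp (by fun_prop : Continuous fun U : X => (U, V))

lemma cmp_assoc {a b c : X → X → ℝ} (ha : Continuous (uncurry a)) (hb : Continuous (uncurry b))
    (hc : Continuous (uncurry c)) : cmp ν (cmp ν a b) c = cmp ν a (cmp ν b c) := by
  funext U V
  unfold cmp
  simp only [← integral_const_mul, ← integral_mul_const]
  rw [cswap]
  · refine integral_congr_ae (Eventually.of_forall fun R => ?_)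
    refine integral_congr_ae (Eventually.of_forall fun W => ?_)
    simp only; ring
  · have e1 : Continuous fun q : X × X => uncurry a (U, q.2) := ha.comp (by fun_prop)
    have e2 : Continuous fun q : X × X => uncurry b (q.2, q.1) := hb.comp (by fun_prop)
    have e3 : Continuous fun q : X × X => uncurry c (q.1, V) := hc.comp (by fun_prop)
    exact (e1.mul e2).mul e3

lemma it_add {a : X → X → ℝ} (ha : Continuous (uncurry a)) (m k : ℕ) :
    cmp ν (it ν a m) (it ν a k) = it ν a (m + k + 1) := by
  induction m with
  | zero => rw [zero_add]; rfl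
  | succ m ih =>
    have h1 : it ν a (m + 1) = cmp ν a (it ν a m) := rfl
    rw [h1, cmp_assoc ν ha (it_cont ν ha m) (it_cont ν ha k), ih]
    have h2 : m + 1 + k + 1 = (m + k + 1) + 1 := by ring
    rw [h2]; rfl

lemma it_symm {a : X → X → ℝ} (ha : Continuous (uncurry a)) (hs : ∀ U V, a U V = a V U) (m : ℕ)
    (U V : X) : it ν a m U V = it ν a m V U := by
  induction m generalizing U V with
  | zero => exact hs U V
  | succ m ih =>
    have h1 := congrFun (congrFun (it_add ν ha m 0) V) U
    rw [add_zero] at h1
    rw [← h1]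
    show ∫ W, a U W * it ν a m W V ∂ν = ∫ W, it ν a m V W * a W U ∂ν
    refine integral_congr_ae (Eventually.of_forall fun W => ?_)
    simp only
    rw [hs U W, ih W V]; ring

/-- trace of an even power -/
lemma trace_sq {a : X → X → ℝ} (ha : Continuous (uncurry a)) (hs : ∀ U V, a U V = a V U) (k : ℕ) :
    ∫ V, ∫ U, it ν a k U V ^ 2 ∂ν ∂ν = ∫ V, it ν a (2 * k + 1) V V ∂ν := by
  refine integral_congr_ae (Eventually.of_forall fun V => ?_)
  have h1 := congrFun (congrFun (it_add ν ha k k) V) V
  have h2 : 2 * k + 1 = k + k + 1 := by ring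
  simp only
  rw [h2, ← h1]
  refine integral_congr_ae (Eventually.of_forall fun U => ?_)
  simp only
  rw [it_symm ν ha hs k V U]; ring

/-! ### the space of continuous functions with the scalar product of `L²` -/

/-- continuous functions, with the scalar product of `L²(ν)` -/
def CF (X : Type*) [TopologicalSpace X] [MeasurableSpace X] (ν : Measure X) : Type _ := C(X, ℝ)

instance : AddCommGroup (CF X ν) := inferInstanceAs (AddCommGroup C(X, ℝ))

instance : Module ℝ (CF X ν) := inferInstanceAs (Module ℝ C(X, ℝ))

/-- the function -/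
def CF.fn {ν : Measure X} (f : CF X ν) : X → ℝ := fun x => (show C(X, ℝ) from f) x

lemma CF.cont (f : CF X ν) : Continuous f.fn := (show C(X, ℝ) from f).continuous

/-- constructor -/
def CF.mk (f : X → ℝ) (hf : Continuous f) : CF X ν := (⟨f, hf⟩ : C(X, ℝ))

lemma CF.fn_mk (f : X → ℝ) (hf : Continuous f) : (CF.mk ν f hf).fn = f := rfl

lemma CF.fn_add (f g : CF X ν) (x : X) : (f + g).fn x = f.fn x + g.fn x := rfl

lemma CF.fn_smul (s : ℝ) (f : CF X ν) (x : X) : (s • f).fn x = s * f.fn x := rfl

lemma CF.ext' {f g : CF X ν} (h : ∀ x, f.fn x = g.fn x) : f = g :=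
  ContinuousMap.ext (f := (show C(X, ℝ) from f)) (g := (show C(X, ℝ) from g)) h

/-- the scalar product -/
@[instance_reducible]
def cfCore : PreInnerProductSpace.Core ℝ (CF X ν) where
  inner f g := ∫ x, f.fn x * g.fn x ∂ν
  conj_inner_symm f g := by
    simp only [conj_trivial]
    exact integral_congr_ae (Eventually.of_forall fun x => mul_comm _ _)
  re_inner_nonneg f := by
    simp only [RCLike.re_to_real]
    exact integral_nonneg fun x => mul_self_nonneg _
  add_left f g h := by
    have h1 : Integrable (fun x => f.fn x * h.fn x) ν := cint ν ((CF.cont ν f).mul (CF.cont ν h))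
    have h2 : Integrable (fun x => g.fn x * h.fn x) ν := cint ν ((CF.cont ν g).mul (CF.cont ν h))
    rw [← integral_add h1 h2]
    refine integral_congr_ae (Eventually.of_forall fun x => ?_)
    simp only [CF.fn_add]; ring
  smul_left f g r := by
    simp only [conj_trivial]
    rw [← integral_const_mul]
    refine integral_congr_ae (Eventually.of_forall fun x => ?_)
    simp only [CF.fn_smul]; ring

instance : SeminormedAddCommGroup (CF X ν) :=
  @InnerProductSpace.Core.toSeminormedAddCommGroup ℝ (CF X ν) _ _ _ (cfCore ν)

instance : InnerProductSpace ℝ (CF X ν) := InnerProductSpace.ofCore (cfCore ν)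

lemma inner_cf (f g : CF X ν) : ⟪f, g⟫ = ∫ x, f.fn x * g.fn x ∂ν := rfl

lemma norm_cf (f : CF X ν) : ‖f‖ ^ 2 = ∫ x, f.fn x ^ 2 ∂ν := by
  rw [← real_inner_self_eq_norm_sq, inner_cf]
  exact integral_congr_ae (Eventually.of_forall fun x => (sq _).symm)

/-- the integral operator -/
def opT (a : X → X → ℝ) (ha : Continuous (uncurry a)) : CF X ν →ₗ[ℝ] CF X ν where
  toFun f := CF.mk ν (fun U => ∫ V, a U V * f.fn V ∂ν) (ccont ν (by
    have e : Continuous fun q : X × X => f.fn q.2 := (CF.cont ν f).comp continuous_snd
    exact ha.mul e))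
  map_add' f g := by
    refine CF.ext' ν fun U => ?_
    have h1 : Integrable (fun V => a U V * f.fn V) ν := cint ν ((left_cont ha U).mul (CF.cont ν f))
    have h2 : Integrable (fun V => a U V * g.fn V) ν := cint ν ((left_cont ha U).mul (CF.cont ν g))
    rw [CF.fn_add, CF.fn_mk, CF.fn_mk, CF.fn_mk, ← integral_add h1 h2]
    refine integral_congr_ae (Eventually.of_forall fun x => ?_)
    simp only [CF.fn_add]; ring
  map_smul' s f := by
    refine CF.ext' ν fun U => ?_
    simp only [RingHom.id_apply]
    rw [CF.fn_smul, CF.fn_mk, CF.fn_mk, ← integral_const_mul]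
    refine integral_congr_ae (Eventually.of_forall fun x => ?_)
    simp only [CF.fn_smul]; ring

lemma opT_fn (a : X → X → ℝ) (ha : Continuous (uncurry a)) (f : CF X ν) (U : X) :
    (opT ν a ha f).fn U = ∫ V, a U V * f.fn V ∂ν := rfl

/-- the columns -/
def col (a : X → X → ℝ) (ha : Continuous (uncurry a)) (V : X) : CF X ν :=
  CF.mk ν (fun U => a U V) (right_cont ha V)

variable {a : X → X → ℝ}

lemma pow_col (ha : Continuous (uncurry a)) (k : ℕ) (V U : X) :
    ((opT ν a ha ^ k) (col ν a ha V)).fn U = it ν a k U V := by
  induction k generalizing U with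
  | zero => rfl
  | succ k ih =>
    rw [pow_succ_apply, opT_fn]
    show _ = ∫ W, a U W * it ν a k W V ∂ν
    refine integral_congr_ae (Eventually.of_forall fun W => ?_)
    simp only [ih]

lemma pow_fn (ha : Continuous (uncurry a)) (k : ℕ) (f : CF X ν) (U : X) :
    ((opT ν a ha ^ (k + 1)) f).fn U = ∫ V, it ν a k U V * f.fn V ∂ν := by
  induction k generalizing U with
  | zero => rw [zero_add, pow_one, opT_fn]; rfl
  | succ k ih =>
    rw [pow_succ_apply, opT_fn]
    simp only [ih]
    simp only [← integral_const_mul]
    rw [cswap]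
    · refine integral_congr_ae (Eventually.of_forall fun V => ?_)
      show _ = (∫ W, a U W * it ν a k W V ∂ν) * f.fn V
      simp only
      rw [← integral_mul_const]
      refine integral_congr_ae (Eventually.of_forall fun W => ?_)
      simp only; ring
    · have e1 : Continuous fun q : X × X => uncurry a (U, q.1) := ha.comp (by fun_prop)
      have e2 : Continuous fun q : X × X => uncurry (it ν a k) (q.1, q.2) := it_cont ν ha k
      have e3 : Continuous fun q : X × X => f.fn q.2 := (CF.cont ν f).comp continuous_snd
      exact e1.mul (e2.mul e3)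

/-- **The integral operator and its kernel.** -/
theorem kern_opT (ha : Continuous (uncurry a)) (hs : ∀ U V, a U V = a V U) :
    Kern (opT ν a ha) ν (col ν a ha) where
  symm f g := by
    rw [inner_cf, inner_cf]
    simp only [opT_fn, ← integral_mul_const, ← integral_const_mul]
    rw [cswap]
    · refine integral_congr_ae (Eventually.of_forall fun V => ?_)
      refine integral_congr_ae (Eventually.of_forall fun U => ?_)
      simp only
      rw [hs V U]; ring
    · have e1 : Continuous fun q : X × X => f.fn q.2 := (CF.cont ν f).comp continuous_snd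
      have e2 : Continuous fun q : X × X => g.fn q.1 := (CF.cont ν g).comp continuous_fst
      exact (ha.mul e1).mul e2
  int k := by
    refine cint ν ?_
    have h : (fun V => ‖(opT ν a ha ^ k) (col ν a ha V)‖ ^ 2) = fun V => ∫ U, it ν a k U V ^ 2 ∂ν := by
      funext V
      rw [norm_cf]
      simp only [pow_col]
    rw [h]
    refine ccont ν (f := fun V U => it ν a k U V ^ 2) ?_
    have e1 : Continuous fun q : X × X => uncurry (it ν a k) (q.2, q.1) :=
      (it_cont ν ha k).comp (by fun_prop)
    exact e1.pow 2
  intf k f := by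
    refine cint ν ?_
    have h : (fun V => ⟪f, (opT ν a ha ^ k) (col ν a ha V)⟫ ^ 2) = fun V =>
        (∫ U, f.fn U * it ν a k U V ∂ν) ^ 2 := by
      funext V
      rw [inner_cf]
      simp only [pow_col]
    rw [h]
    refine (ccont ν (f := fun V U => f.fn U * it ν a k U V) ?_).pow 2
    have e1 : Continuous fun q : X × X => uncurry (it ν a k) (q.2, q.1) :=
      (it_cont ν ha k).comp (by fun_prop)
    have e2 : Continuous fun q : X × X => f.fn q.2 := (CF.cont ν f).comp continuous_snd
    exact e2.mul e1
  eq k f := by
    rw [norm_cf]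
    refine integral_congr_ae (Eventually.of_forall fun V => ?_)
    simp only
    rw [pow_fn, inner_cf]
    congr 1
    refine integral_congr_ae (Eventually.of_forall fun U => ?_)
    simp only [pow_col]
    rw [it_symm ν ha hs k V U]; ring

lemma zt_eq (ha : Continuous (uncurry a)) (hs : ∀ U V, a U V = a V U) (k : ℕ) :
    zt (opT ν a ha) ν (col ν a ha) k = ∫ V, it ν a (2 * k + 1) V V ∂ν := by
  rw [← trace_sq ν ha hs]
  unfold zt
  refine integral_congr_ae (Eventually.of_forall fun V => ?_)
  simp only
  rw [norm_cf]
  simp only [pow_col]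

end

end Pool.Agent.T2H02.Gap
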