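import Mathlib

/-!
# Haar measure of a compact group in almost isometric coordinates
-/

open MeasureTheory Filter Set
open scoped Topology ENNReal NNReal

namespace Pool.Agent.T2H02.Gap

set_option linter.unusedSectionVars false
set_option linter.unusedVariables false

noncomputable section

variable {n : ℕ} {K : Type*} [Group K] [MetricSpace K] [IsTopologicalGroup K] [CompactSpace K]
  [MeasurableSpace K] [BorelSpace K]

lemma one_sub_pow_inv_le {C : ℝ} (hC : 0 < C) (n : ℕ) : ∃ C' : ℝ, 0 < C' ∧ ∀ r : ℝ, 0 ≤ r →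
    C * r ≤ 1 / 2 → ((1 - C * r)⁻¹) ^ n ≤ 1 + C' * r := by
  refine ⟨2 ^ (n + 1) * C * (n + 1), by positivity, fun r hr h => ?_⟩
  have hx0 : 0 ≤ C * r := by positivity
  obtain ⟨x, hx⟩ : ∃ x, x = C * r := ⟨_, rfl⟩
  rw [← hx] at h hx0 ⊢
  have h1 : (1 - x)⁻¹ ≤ 1 + 2 * x := by
    rw [inv_le_iff_one_le_mul₀ (by linarith)]
    nlinarith
  have h2 : ((1 - x)⁻¹) ^ n ≤ (1 + 2 * x) ^ n :=
    pow_le_pow_left₀ (inv_nonneg.2 (by linarith)) h1 n
  have h3 : ∀ m : ℕ, (1 + 2 * x) ^ m ≤ 1 + 2 ^ (m + 1) * m * x := by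
    intro m
    induction m with
    | zero => simp
    | succ m ih =>
      have h4 : 0 ≤ (2 : ℝ) ^ (m + 1) * m * x := by positivity
      have h5 : (1 : ℝ) ≤ 2 ^ (m + 1) := one_le_pow₀ (by norm_num)
      have h6 : (1 + 2 * x) ^ (m + 1) ≤ (1 + 2 ^ (m + 1) * m * x) * (1 + 2 * x) := by
        rw [pow_succ]
        exact mul_le_mul_of_nonneg_right ih (by linarith)
      refine h6.trans ?_
      push_cast
      have h7 : (2 : ℝ) ^ (m + 1 + 1) = 2 * 2 ^ (m + 1) := by ring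
      rw [h7]
      have h8 : 2 * x ≤ 1 := by linarith
      nlinarith [mul_le_mul_of_nonneg_left h8 h4, mul_nonneg hx0 (by linarith : (0:ℝ) ≤ 2 ^ (m + 1) - 1)]
  refine h2.trans ((h3 n).trans ?_)
  have h9 : (2 : ℝ) ^ (n + 1) * n * x ≤ 2 ^ (n + 1) * (n + 1) * x := by
    have : (2 : ℝ) ^ (n + 1) * n ≤ 2 ^ (n + 1) * (n + 1) := by
      have : (0 : ℝ) < 2 ^ (n + 1) := by positivity
      nlinarith
    exact mul_le_mul_of_nonneg_right this hx0
  calc 1 + 2 ^ (n + 1) * n * x ≤ 1 + 2 ^ (n + 1) * (n + 1) * x := by linarith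
    _ = _ := by rw [hx]; ring

/-- **Haar measure in coordinates.** -/
theorem haarChart (hiso : ∀ g h k : K, dist (k * g) (k * h) = dist g h)
    (φ : K → EuclideanSpace ℝ (Fin n)) (hφ1 : ∀ g h, dist (φ g) (φ h) ≤ dist g h)
    {C : ℝ} (hC : 0 < C)
    (hφ2 : ∀ (g h : K) (r : ℝ), dist g 1 ≤ r → dist h 1 ≤ r →
      (1 - C * r) * dist g h ≤ dist (φ g) (φ h)) (hφ0 : φ 1 = 0)
    (hsurj : ∀ r0 : ℝ, 0 < r0 → ∃ ρ : ℝ, 0 < ρ ∧ ∀ x, ‖x‖ < ρ → ∃ g : K, dist g 1 < r0 ∧ φ g = x)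
    (μ : Measure K) [μ.IsHaarMeasure] [IsProbabilityMeasure μ] :
    ∃ κ C' r0 : ℝ, 0 < κ ∧ 0 < C' ∧ 0 < r0 ∧ ∀ r : ℝ, 0 < r → r ≤ r0 →
      (∀ A, MeasurableSet A → μ (Metric.ball 1 r ∩ φ ⁻¹' A) ≤
        ENNReal.ofReal (κ * (1 + C' * r)) * volume A) ∧
      (∀ A, MeasurableSet A → A ⊆ Metric.ball 0 (r / 2) →
        ENNReal.ofReal κ * volume A ≤ μ (Metric.ball 1 r ∩ φ ⁻¹' A)) := by
  obtain ⟨m, hm⟩ : ∃ m : Measure K, m = Measure.hausdorffMeasure (n : ℝ) := ⟨_, rfl⟩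
  obtain ⟨w, hw⟩ : ∃ w : Measure (EuclideanSpace ℝ (Fin n)),
    w = Measure.hausdorffMeasure (n : ℝ) := ⟨_, rfl⟩
  have hwH : w.IsAddHaarMeasure := by
    have := isAddHaarMeasure_hausdorffMeasure (E := EuclideanSpace ℝ (Fin n))
    rw [finrank_euclideanSpace_fin] at this
    rw [hw]; exact this
  obtain ⟨C', hC', hC1⟩ := one_sub_pow_inv_le hC n
  -- Lipschitz bounds
  have up : ∀ S : Set K, w (φ '' S) ≤ m S := by
    intro S
    have hL : LipschitzWith 1 φ := LipschitzWith.mk_one hφ1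
    have := hL.hausdorffMeasure_image_le (d := (n : ℝ)) (by positivity) S
    rw [hw, hm]
    simpa using this
  have down : ∀ (r : ℝ), 0 ≤ r → C * r ≤ 1 / 2 → ∀ S : Set K, S ⊆ Metric.ball 1 r →
      m S ≤ ENNReal.ofReal (1 + C' * r) * w (φ '' S) := by
    intro r hr hCr S hS
    have hpos : 0 < 1 - C * r := by linarith
    obtain ⟨ψ, hψ⟩ : ∃ ψ : EuclideanSpace ℝ (Fin n) → K, ∀ g ∈ S, ψ (φ g) = g := by
      have : Nonempty K := ⟨1⟩
      have hinj : Set.InjOn φ S := by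
        intro g hg h hh hgh
        have h1 := hφ2 g h r (Metric.mem_ball.1 (hS hg)).le (Metric.mem_ball.1 (hS hh)).le
        rw [hgh, dist_self] at h1
        have h2 : dist g h ≤ 0 := by
          by_contra hc
          push Not at hc
          have := mul_pos hpos hc
          linarith
        exact dist_le_zero.1 h2
      exact ⟨Function.invFunOn φ S, fun g hg => hinj.leftInvOn_invFunOn hg⟩
    have hLip : LipschitzOnWith (Real.toNNReal (1 - C * r)⁻¹) ψ (φ '' S) := by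
      refine LipschitzOnWith.of_dist_le_mul ?_
      rintro _ ⟨g, hg, rfl⟩ _ ⟨h, hh, rfl⟩
      rw [hψ g hg, hψ h hh, Real.coe_toNNReal _ (inv_nonneg.2 hpos.le)]
      have h1 := hφ2 g h r (Metric.mem_ball.1 (hS hg)).le (Metric.mem_ball.1 (hS hh)).le
      rw [← div_eq_inv_mul, le_div_iff₀ hpos]
      linarith
    have h2 := hLip.hausdorffMeasure_image_le (d := (n : ℝ)) (by positivity)
    have h3 : ψ '' (φ '' S) = S := by
      ext g
      constructor
      · rintro ⟨_, ⟨h, hh, rfl⟩, rfl⟩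
        rw [hψ h hh]; exact hh
      · intro hg
        exact ⟨φ g, ⟨g, hg, rfl⟩, hψ g hg⟩
    rw [h3] at h2
    rw [hm, hw]
    refine h2.trans ?_
    gcongr
    rw [← ENNReal.ofReal_coe_nnreal, Real.coe_toNNReal _ (inv_nonneg.2 hpos.le),
      ENNReal.rpow_natCast, ← ENNReal.ofReal_pow (inv_nonneg.2 hpos.le)]
    exact ENNReal.ofReal_le_ofReal (hC1 r hr hCr)
  -- invariance and finiteness
  have hinv : m.IsMulLeftInvariant := by
    constructor
    intro g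
    rw [hm]
    have : Measure.map (fun x => g * x) (Measure.hausdorffMeasure (n : ℝ) : Measure K) =
        Measure.hausdorffMeasure (n : ℝ) := by
      have e : K ≃ᵢ K := IsometryEquiv.mk (Equiv.mulLeft g) (Isometry.of_dist_eq fun x y => hiso x y g)
      exact (IsometryEquiv.mk (Equiv.mulLeft g)
        (Isometry.of_dist_eq fun x y => hiso x y g)).map_hausdorffMeasure _
    exact this
  obtain ⟨r1, hr1d⟩ : ∃ r1 : ℝ, r1 = 1 / (2 * C) := ⟨_, rfl⟩
  have hr1 : 0 < r1 := by rw [hr1d]; positivity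
  have hCr1 : C * r1 ≤ 1 / 2 := by rw [hr1d]; apply le_of_eq; field_simp
  have hfin : m (Metric.ball 1 r1) ≠ ∞ := by
    have h1 := down r1 hr1.le hCr1 _ subset_rfl
    have h2 : w (φ '' Metric.ball 1 r1) ≤ w (Metric.ball 0 r1) := by
      refine measure_mono ?_
      rintro _ ⟨g, hg, rfl⟩
      rw [Metric.mem_ball, ← hφ0]
      exact lt_of_le_of_lt (hφ1 g 1) (Metric.mem_ball.1 hg)
    have h3 : w (Metric.ball 0 r1) < ∞ := measure_ball_lt_top
    refine (lt_of_le_of_lt h1 ?_).ne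
    exact ENNReal.mul_lt_top ENNReal.ofReal_lt_top (lt_of_le_of_lt h2 h3)
  have hmfin : IsFiniteMeasure m := by
    constructor
    exact measure_lt_top_of_isCompact_of_isMulLeftInvariant (Metric.ball 1 r1) Metric.isOpen_ball
      ⟨1, Metric.mem_ball_self hr1⟩ hfin isCompact_univ
  have hmul := Measure.isMulInvariant_eq_smul_of_compactSpace m μ
  obtain ⟨c, hc⟩ : ∃ c, c = Measure.haarScalarFactor m μ := ⟨_, rfl⟩
  rw [← hc] at hmul
  obtain ⟨ρ1, hρ1, hs1⟩ := hsurj r1 hr1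
  have hcpos : c ≠ 0 := by
    intro h0
    have h1 : m (Metric.ball 1 r1) = 0 := by rw [hmul, h0]; simp
    have h2 := up (Metric.ball 1 r1)
    rw [h1] at h2
    have h3 : w (Metric.ball 0 ρ1) ≤ w (φ '' Metric.ball 1 r1) := by
      refine measure_mono fun x hx => ?_
      obtain ⟨g, hg, hgx⟩ := hs1 x (mem_ball_zero_iff.1 hx)
      exact ⟨g, Metric.mem_ball.2 hg, hgx⟩
    have h4 : 0 < w (Metric.ball 0 ρ1) := Metric.measure_ball_pos _ _ hρ1
    exact absurd (lt_of_lt_of_le h4 (h3.trans h2)) (lt_irrefl _)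
  -- the Euclidean constant
  obtain ⟨c2, hc2⟩ : ∃ c2, c2 = Measure.addHaarScalarFactor w volume := ⟨_, rfl⟩
  have hwv : w = c2 • (volume : Measure (EuclideanSpace ℝ (Fin n))) := by
    rw [hc2]; exact Measure.isAddLeftInvariant_eq_smul w volume
  have hc2pos : c2 ≠ 0 := by
    intro h0
    have h1 : w (Metric.ball 0 1) = 0 := by rw [hwv, h0]; simp
    have h4 : 0 < w (Metric.ball (0 : EuclideanSpace ℝ (Fin n)) 1) :=
      Metric.measure_ball_pos _ _ one_pos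
    exact absurd h1 h4.ne'
  have hmuS : ∀ S : Set K, μ S = (c : ℝ≥0∞)⁻¹ * m S := by
    intro S
    rw [hmul, Measure.smul_apply, ENNReal.smul_def, smul_eq_mul, ← mul_assoc,
      ENNReal.inv_mul_cancel (by exact_mod_cast hcpos) ENNReal.coe_ne_top, one_mul]
  have hwS : ∀ S : Set (EuclideanSpace ℝ (Fin n)), w S = (c2 : ℝ≥0∞) * volume S := by
    intro S
    rw [hwv, Measure.smul_apply, ENNReal.smul_def, smul_eq_mul]
  obtain ⟨κ, hκ⟩ : ∃ κ : ℝ, κ = (c : ℝ)⁻¹ * c2 := ⟨_, rfl⟩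
  have hcp : (0 : ℝ) < c := by
    have := pos_iff_ne_zero.2 hcpos
    exact_mod_cast this
  have hc2p : (0 : ℝ) < c2 := by
    have := pos_iff_ne_zero.2 hc2pos
    exact_mod_cast this
  have hκ0 : 0 < κ := by rw [hκ]; positivity
  have hκE : ENNReal.ofReal κ = (c : ℝ≥0∞)⁻¹ * (c2 : ℝ≥0∞) := by
    rw [hκ, ENNReal.ofReal_mul (by positivity), ENNReal.ofReal_inv_of_pos hcp,
      ENNReal.ofReal_coe_nnreal, ENNReal.ofReal_coe_nnreal]
  obtain ⟨r0, hr0⟩ : ∃ r0 : ℝ, r0 = min r1 ρ1 := ⟨_, rfl⟩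
  refine ⟨κ, C', r0, hκ0, hC', by rw [hr0]; exact lt_min hr1 hρ1, fun r hr hrr => ⟨?_, ?_⟩⟩
  · intro A hA
    have hrr1 : r ≤ r1 := hrr.trans (by rw [hr0]; exact min_le_left _ _)
    have hCr : C * r ≤ 1 / 2 := (mul_le_mul_of_nonneg_left hrr1 hC.le).trans hCr1
    have h1 := down r hr.le hCr (Metric.ball 1 r ∩ φ ⁻¹' A) inter_subset_left
    have h2 : w (φ '' (Metric.ball 1 r ∩ φ ⁻¹' A)) ≤ w A := by
      refine measure_mono ?_
      rintro _ ⟨g, hg, rfl⟩
      exact hg.2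
    rw [hmuS, ENNReal.ofReal_mul hκ0.le, hκE]
    calc (c : ℝ≥0∞)⁻¹ * m (Metric.ball 1 r ∩ φ ⁻¹' A) ≤
        (c : ℝ≥0∞)⁻¹ * (ENNReal.ofReal (1 + C' * r) * w A) := by gcongr; exact h1.trans (by gcongr)
      _ = _ := by rw [hwS]; ring
  · intro A hA hAb
    have hrr1 : r ≤ r1 := hrr.trans (by rw [hr0]; exact min_le_left _ _)
    have hrρ : r ≤ ρ1 := hrr.trans (by rw [hr0]; exact min_le_right _ _)
    have h1 : A ⊆ φ '' (Metric.ball 1 r ∩ φ ⁻¹' A) := by
      intro x hx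
      have hxb := mem_ball_zero_iff.1 (hAb hx)
      obtain ⟨g, hg, hgx⟩ := hs1 x (by linarith)
      refine ⟨g, ⟨?_, ?_⟩, hgx⟩
      · rw [Metric.mem_ball]
        have h2 := hφ2 g 1 r1 hg.le (by rw [dist_self]; exact hr1.le)
        rw [hφ0, hgx, dist_zero_right] at h2
        have h3 : (1 : ℝ) / 2 ≤ 1 - C * r1 := by linarith
        have h4 : 0 ≤ dist g 1 := dist_nonneg
        nlinarith
      · show φ g ∈ A
        rw [hgx]; exact hx
    have h2 := (measure_mono (μ := w) h1).trans (up _)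
    rw [hmuS, hκE, mul_assoc, ← hwS]
    gcongr

end

end Pool.Agent.T2H02.Gap
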