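import Mathlib
import Pool.Agent.TH618.YM.Cartan
import Pool.Agent.T2H02.Gap.HaarM

/-!
# Coordinates near the identity of a closed subgroup of the unitary group and the Haar measure
-/

open MeasureTheory Matrix Filter
open scoped Matrix.Norms.Frobenius ContDiff Topology ENNReal NNReal
open Pool.Agent.H906R3.YM Pool.Agent.W793.YM Pool.Agent.TH618.YM

namespace Pool.Agent.T2H02.Gap

set_option linter.unusedSectionVars false

noncomputable section

variable {N n : ℕ} {G : Subgroup (UN N)}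

/-- Euclidean space of dimension `n` -/
abbrev En (n : ℕ) := EuclideanSpace ℝ (Fin n)

/-- distance to the identity -/
def dg (g : G) : ℝ := ‖mt g - 1‖

lemma dg_nonneg (g : G) : 0 ≤ dg g := norm_nonneg _

/-- coordinates of a group element -/
def co (B : Frame G n) (g : G) : En n := WithLp.toLp 2 fun a => ip (B.X a) (mt g - 1)

lemma co_apply (B : Frame G n) (g : G) (a : Fin n) : co B g a = ip (B.X a) (mt g - 1) := rfl

lemma orthB (B : Frame G n) (a b : Fin n) : ip (B.X a) (B.X b) = if a = b then 1 else 0 := by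
  have := B.orth a b
  rwa [← ip_apply] at this

lemma co_cont (B : Frame G n) : Continuous (co B) := by
  have h : Continuous fun g : G => fun a => ip (B.X a) (mt g - 1) := by
    refine continuous_pi fun a => (ip (B.X a)).continuous.comp ?_
    exact mt_cont.sub continuous_const
  exact (PiLp.continuous_toLp 2 _).comp h

lemma dg_cont : Continuous (dg : G → ℝ) := (mt_cont.sub continuous_const).norm

lemma mt_inv_mul (g : G) : mt g⁻¹ * mt g = 1 := by rw [← mt_mul, inv_mul_cancel]; rfl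

lemma mt_mul_inv (g : G) : mt g * mt g⁻¹ = 1 := by rw [← mt_mul, mul_inv_cancel]; rfl

/-- part orthogonal to the Lie algebra -/
def perp (B : Frame G n) (A : Mat N) : Mat N := A - ∑ a, ip (B.X a) A • B.X a

lemma perp_add (B : Frame G n) (A A' : Mat N) : perp B (A + A') = perp B A + perp B A' := by
  unfold perp
  have : ∑ a, ip (B.X a) (A + A') • B.X a = ∑ a, ip (B.X a) A • B.X a + ∑ a, ip (B.X a) A' • B.X a := by
    rw [← Finset.sum_add_distrib]
    exact Finset.sum_congr rfl fun a _ => by rw [map_add, add_smul]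
  rw [this]; abel

lemma norm_perp_sq (B : Frame G n) (A : Mat N) :
    ‖perp B A‖ ^ 2 = ‖A‖ ^ 2 - ∑ a, ip (B.X a) A ^ 2 := norm_perp (orthB B) A

lemma norm_perp_le (B : Frame G n) (A : Mat N) : ‖perp B A‖ ≤ ‖A‖ := by
  have h := norm_perp_sq B A
  have h1 : 0 ≤ ∑ a, ip (B.X a) A ^ 2 := Finset.sum_nonneg fun _ _ => sq_nonneg _
  have h2 := norm_nonneg A
  have h3 := norm_nonneg (perp B A)
  nlinarith

lemma norm_co_sub_sq (B : Frame G n) (g h : G) :
    ‖co B g - co B h‖ ^ 2 = ∑ a, ip (B.X a) (mt g - mt h) ^ 2 := by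
  rw [EuclideanSpace.norm_sq_eq]
  refine Finset.sum_congr rfl fun a _ => ?_
  rw [PiLp.sub_apply, co_apply, co_apply, ← map_sub, Real.norm_eq_abs, sq_abs]
  congr 2
  abel

lemma norm_co_sub_le (B : Frame G n) (g h : G) : ‖co B g - co B h‖ ≤ ‖mt g - mt h‖ := by
  have h1 := norm_perp_sq B (mt g - mt h)
  have h2 := norm_co_sub_sq B g h
  have h3 := norm_nonneg (mt g - mt h)
  have h4 := norm_nonneg (co B g - co B h)
  have h5 := sq_nonneg ‖perp B (mt g - mt h)‖
  nlinarith

lemma co_one (B : Frame G n) : co B 1 = 0 := by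
  ext a
  rw [co_apply, mt_one, sub_self, map_zero]; rfl

lemma norm_co_le (B : Frame G n) (g : G) : ‖co B g‖ ≤ dg g := by
  have := norm_co_sub_le B g 1
  rwa [co_one, sub_zero, mt_one] at this

variable [CompactSpace G] [SecondCountableTopology G] [MeasurableSpace G] [BorelSpace G]

/-- The tangent estimate. -/
lemma tangent (B : Frame G n) (hG : IsClosed (G : Set (UN N))) : ∃ C : ℝ, 0 < C ∧
    ∀ (g h : G) (r : ℝ), dg g ≤ r → dg h ≤ r → ‖perp B (mt g - mt h)‖ ≤ C * r * ‖mt g - mt h‖ := by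
  obtain ⟨C, hC, hc⟩ := cartan B hG
  refine ⟨2 * Real.sqrt C + 1, by positivity, fun g h r hg hh => ?_⟩
  have hr : 0 ≤ r := (dg_nonneg g).trans hg
  obtain ⟨k, hk⟩ : ∃ k : G, k = h⁻¹ * g := ⟨_, rfl⟩
  have e1 : mt g - mt h = mt h * (mt k - 1) := by
    rw [hk, mt_mul, mul_sub, ← mul_assoc, mt_mul_inv, one_mul, mul_one]
  have e2 : mt g - mt h = (mt k - 1) + (mt h - 1) * (mt k - 1) := by rw [e1]; noncomm_ring
  have e3 : ‖mt g - mt h‖ = ‖mt k - 1‖ := by rw [e1, norm_mt_mul]
  have h1 : ‖perp B (mt k - 1)‖ ≤ Real.sqrt C * ‖mt k - 1‖ ^ 2 := by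
    have h2 := hc k
    have h3 := norm_perp_sq B (mt k - 1)
    have h4 : ‖perp B (mt k - 1)‖ ^ 2 ≤ (Real.sqrt C * ‖mt k - 1‖ ^ 2) ^ 2 := by
      rw [mul_pow, Real.sq_sqrt hC.le, h3]
      nlinarith
    exact abs_le_of_sq_le_sq' h4 (by positivity) |>.2
  have h5 : ‖mt g - mt h‖ ≤ 2 * r := by
    have : mt g - mt h = (mt g - 1) - (mt h - 1) := by abel
    rw [this]
    refine (norm_sub_le _ _).trans ?_
    have a1 : ‖mt g - 1‖ ≤ r := hg
    have a2 : ‖mt h - 1‖ ≤ r := hh
    linarith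
  have h6 : ‖perp B ((mt h - 1) * (mt k - 1))‖ ≤ r * ‖mt k - 1‖ := by
    refine (norm_perp_le B _).trans ((norm_mul_le _ _).trans ?_)
    exact mul_le_mul_of_nonneg_right hh (norm_nonneg _)
  have h7 : perp B (mt g - mt h) = perp B (mt k - 1) + perp B ((mt h - 1) * (mt k - 1)) := by
    rw [← perp_add, ← e2]
  rw [h7, e3]
  refine (norm_add_le _ _).trans ?_
  have h8 : Real.sqrt C * ‖mt k - 1‖ ^ 2 ≤ 2 * Real.sqrt C * r * ‖mt k - 1‖ := by
    have h9 : ‖mt k - 1‖ ≤ 2 * r := by rw [← e3]; exact h5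
    have h10 := norm_nonneg (mt k - 1)
    have h11 := Real.sqrt_nonneg C
    have h12 : ‖mt k - 1‖ * ‖mt k - 1‖ ≤ 2 * r * ‖mt k - 1‖ := mul_le_mul_of_nonneg_right h9 h10
    calc Real.sqrt C * ‖mt k - 1‖ ^ 2 = Real.sqrt C * (‖mt k - 1‖ * ‖mt k - 1‖) := by ring
      _ ≤ Real.sqrt C * (2 * r * ‖mt k - 1‖) := mul_le_mul_of_nonneg_left h12 h11
      _ = _ := by ring
  nlinarith

/-- the coordinates are almost isometric -/
lemma co_lower (B : Frame G n) (hG : IsClosed (G : Set (UN N))) : ∃ C : ℝ, 0 < C ∧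
    ∀ (g h : G) (r : ℝ), dg g ≤ r → dg h ≤ r → (1 - C * r) * ‖mt g - mt h‖ ≤ ‖co B g - co B h‖ := by
  obtain ⟨C, hC, hc⟩ := tangent B hG
  refine ⟨C, hC, fun g h r hg hh => ?_⟩
  have hr : 0 ≤ r := (dg_nonneg g).trans hg
  have h1 := hc g h r hg hh
  have h2 := norm_perp_sq B (mt g - mt h)
  have h3 := norm_co_sub_sq B g h
  have h4 := norm_nonneg (mt g - mt h)
  have h5 := norm_nonneg (co B g - co B h)
  have h6 := norm_nonneg (perp B (mt g - mt h))
  rcases le_or_gt 1 (C * r) with h7 | h7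
  · nlinarith
  · have h8 : 0 ≤ C * r := by positivity
    have h9 : ((1 - C * r) * ‖mt g - mt h‖) ^ 2 ≤ ‖co B g - co B h‖ ^ 2 := by
      have h10 : ‖perp B (mt g - mt h)‖ ^ 2 ≤ (C * r * ‖mt g - mt h‖) ^ 2 :=
        pow_le_pow_left₀ h6 h1 2
      have h11 : 0 ≤ ‖mt g - mt h‖ ^ 2 := sq_nonneg _
      nlinarith [mul_nonneg h8 h11, mul_nonneg (sub_nonneg.2 h7.le) (mul_nonneg h8 h11)]
    exact abs_le_of_sq_le_sq' h9 h5 |>.2

/-! ### surjectivity -/

/-- ordered products of exponentials, as a smooth function -/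
lemma contDiff_expList (B : Frame G n) (l : List (Fin n)) :
    ContDiff ℝ ∞ (fun c : En n => (l.map fun a => (NormedSpace.exp (c a • B.X a) : Mat N)).prod) := by
  induction l with
  | nil => simpa using contDiff_const
  | cons a l ih =>
    simp only [List.map_cons, List.prod_cons]
    refine ContDiff.mul ?_ ih
    have h1 : ContDiff ℝ ∞ (fun A : Mat N => (NormedSpace.exp A : Mat N)) :=
      contDiff_iff_contDiffAt.2 fun x => (NormedSpace.exp_analytic (𝕂 := ℝ) x).contDiffAt
    have h3 : ContDiff ℝ ∞ (fun c : En n => c a) := (EuclideanSpace.proj (𝕜 := ℝ) a).contDiff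
    have h2 : ContDiff ℝ ∞ (fun c : En n => c a • B.X a) := h3.smul contDiff_const
    exact h1.comp h2

lemma mt_Ph0 (B : Frame G n) (c : Fin n → ℝ) :
    mt (Ph0 B c) = ((List.finRange n).map fun a => (NormedSpace.exp (c a • B.X a) : Mat N)).prod := by
  unfold Ph0
  have h1 : mt (List.ofFn fun a => B.ex a (c a)).prod = rhoG G (List.ofFn fun a => B.ex a (c a)).prod := rfl
  rw [h1, map_list_prod, List.ofFn_eq_map, List.map_map]
  congr 1
  refine List.map_congr_left fun a _ => ?_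
  rw [Function.comp_apply, rhoG_apply, B.ex_eq]

/-- the coordinates cover a neighbourhood of zero -/
lemma co_surj (B : Frame G n) {r0 : ℝ} (hr0 : 0 < r0) :
    ∃ ρ : ℝ, 0 < ρ ∧ ∀ x : En n, ‖x‖ < ρ → ∃ g : G, dg g < r0 ∧ co B g = x := by
  obtain ⟨φ, hφ⟩ : ∃ φ : En n → En n, φ = fun c : En n => co B (Ph0 B c.ofLp) := ⟨_, rfl⟩
  have h0 : φ 0 = 0 := by
    rw [hφ]
    have : Ph0 B (0 : En n).ofLp = 1 := by
      unfold Ph0
      have h1 : (fun a => B.ex a ((0 : En n) a)) = fun _ => (1 : G) := by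
        funext a
        have h2 : (0 : En n) a = 0 := rfl
        rw [h2]
        apply Subtype.ext; apply Subtype.ext
        have h3 := B.ex_eq a 0
        rw [zero_smul, NormedSpace.exp_zero] at h3
        exact h3
      rw [h1]
      simp
    simp only [this, co_one]
  have hcd : ContDiff ℝ ∞ φ := by
    rw [hφ]
    rw [contDiff_piLp]
    intro a
    have h1 : (fun c : En n => (co B (Ph0 B c.ofLp)) a) = fun c : En n => ip (B.X a)
        (((List.finRange n).map fun a => (NormedSpace.exp (c a • B.X a) : Mat N)).prod - 1) := by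
      funext c
      rw [co_apply, mt_Ph0]
    rw [h1]
    exact (ip (B.X a)).contDiff.comp ((contDiff_expList B _).sub contDiff_const)
  have hbd : ∀ c : En n, ‖φ c - c‖ ≤ (n ^ 2 + n) * ‖c‖ ^ 2 := by
    intro c
    have h1 := Ph0_dev B c.ofLp (ε := ‖c‖) fun a => by
      have := PiLp.norm_apply_le c a
      rwa [Real.norm_eq_abs] at this
    refine le_trans ?_ h1
    have h2 : φ c - c = WithLp.toLp 2 fun a => ip (B.X a) (mt (Ph0 B c.ofLp) - 1 - ∑ b, c b • B.X b) := by
      ext a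
      rw [hφ]
      simp only [PiLp.sub_apply, co_apply]
      rw [map_sub (ip (B.X a)) (mt (Ph0 B c.ofLp) - 1), map_sum]
      congr 1
      have h4 : ∀ b, ip (B.X a) (c b • B.X b) = if a = b then c b else 0 := fun b => by
        rw [map_smul, smul_eq_mul, orthB]
        split_ifs <;> ring
      rw [Finset.sum_congr rfl fun b _ => h4 b, Finset.sum_ite_eq]
      simp
    have h3 : ‖φ c - c‖ ^ 2 ≤ ‖mt (Ph0 B c.ofLp) - 1 - ∑ b, c b • B.X b‖ ^ 2 := by
      rw [h2, EuclideanSpace.norm_sq_eq]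
      have h5 := norm_perp_sq B (mt (Ph0 B c.ofLp) - 1 - ∑ b, c b • B.X b)
      have h6 := sq_nonneg ‖perp B (mt (Ph0 B c.ofLp) - 1 - ∑ b, c b • B.X b)‖
      simp only [Real.norm_eq_abs, sq_abs]
      linarith
    exact abs_le_of_sq_le_sq' h3 (norm_nonneg _) |>.2
  have hder : HasFDerivAt φ (ContinuousLinearMap.id ℝ (En n)) 0 := by
    rw [hasFDerivAt_iff_isLittleO_nhds_zero]
    have h1 : (fun h : En n => φ (0 + h) - φ 0 - (ContinuousLinearMap.id ℝ (En n)) h) =O[𝓝 0]
        fun h => ‖h‖ ^ 2 := by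
      refine Asymptotics.IsBigO.of_bound ((n : ℝ) ^ 2 + n) (Eventually.of_forall fun h => ?_)
      rw [zero_add, h0, sub_zero, Real.norm_eq_abs, abs_of_nonneg (sq_nonneg ‖h‖)]
      exact hbd h
    exact h1.trans_isLittleO (Asymptotics.isLittleO_norm_pow_id one_lt_two)
  have hst : HasStrictFDerivAt φ (ContinuousLinearMap.id ℝ (En n)) 0 :=
    hcd.contDiffAt.hasStrictFDerivAt' hder (by simp)
  have hmap : map φ (𝓝 0) = 𝓝 0 := by
    have := hst.map_nhds_eq_of_surj (by
      rw [LinearMap.range_eq_top]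
      exact fun x => ⟨x, rfl⟩)
    rwa [h0] at this
  have hnb : {c : En n | dg (Ph0 B c.ofLp) < r0} ∈ 𝓝 (0 : En n) := by
    have hc : Continuous fun c : En n => dg (Ph0 B c.ofLp) := by
      have h1 : (fun c : En n => dg (Ph0 B c.ofLp)) = fun c : En n =>
          ‖((List.finRange n).map fun a => (NormedSpace.exp (c a • B.X a) : Mat N)).prod - 1‖ := by
        funext c
        unfold dg
        rw [mt_Ph0]
      rw [h1]
      exact ((contDiff_expList B _).continuous.sub continuous_const).norm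
    refine (isOpen_lt hc continuous_const).mem_nhds ?_
    have : Ph0 B (0 : En n).ofLp = 1 := by
      unfold Ph0
      have h1 : (fun a => B.ex a ((0 : En n) a)) = fun _ => (1 : G) := by
        funext a
        have h2 : (0 : En n) a = 0 := rfl
        rw [h2]
        apply Subtype.ext; apply Subtype.ext
        have h3 := B.ex_eq a 0
        rw [zero_smul, NormedSpace.exp_zero] at h3
        exact h3
      rw [h1]
      simp
    show dg (Ph0 B (0 : En n).ofLp) < r0
    rw [this]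
    unfold dg
    rw [mt_one, sub_self, norm_zero]
    exact hr0
  have him : φ '' {c : En n | dg (Ph0 B c.ofLp) < r0} ∈ 𝓝 (0 : En n) := by
    rw [← hmap]
    exact image_mem_map hnb
  obtain ⟨ρ, hρ, hsub⟩ := Metric.mem_nhds_iff.1 him
  refine ⟨ρ, hρ, fun x hx => ?_⟩
  obtain ⟨c, hc, hcx⟩ := hsub (mem_ball_zero_iff.2 hx)
  exact ⟨Ph0 B c.ofLp, hc, by rw [← hcx, hφ]⟩

/-! ### Haar measure -/

lemma chart (B : Frame G n) (hG : IsClosed (G : Set (UN N))) (μ : Measure G) [μ.IsHaarMeasure]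
    [IsProbabilityMeasure μ] :
    ∃ κ C' r0 : ℝ, 0 < κ ∧ 0 < C' ∧ 0 < r0 ∧ ∀ r : ℝ, 0 < r → r ≤ r0 →
      (∀ A, MeasurableSet A → μ ({g | dg g < r} ∩ co B ⁻¹' A) ≤
        ENNReal.ofReal (κ * (1 + C' * r)) * volume A) ∧
      (∀ A, MeasurableSet A → A ⊆ Metric.ball 0 (r / 2) →
        ENNReal.ofReal κ * volume A ≤ μ ({g | dg g < r} ∩ co B ⁻¹' A)) := by
  obtain ⟨C, hC, hl⟩ := co_lower B hG
  have hd : ∀ g h : G, @dist G (Subtype.metricSpace : MetricSpace G).toPseudoMetricSpace.toDist g h =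
      ‖mt g - mt h‖ := fun g h => dist_eq_norm (mt g) (mt h)
  have hb : ∀ r, @Metric.ball G (Subtype.metricSpace : MetricSpace G).toPseudoMetricSpace 1 r =
      {g | dg g < r} := by
    intro r
    ext g
    show @dist G (Subtype.metricSpace : MetricSpace G).toPseudoMetricSpace.toDist g 1 < r ↔ dg g < r
    rw [hd, mt_one]
    rfl
  have main := @haarChart n G _ (Subtype.metricSpace : MetricSpace G)
    (inferInstance : IsTopologicalGroup G) (inferInstance : CompactSpace G) _
    (inferInstance : BorelSpace G)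
    (fun g h k => by
      rw [hd, hd, mt_mul, mt_mul, ← mul_sub, norm_mt_mul])
    (co B) (fun g h => by rw [hd, dist_eq_norm]; exact norm_co_sub_le B g h) C hC
    (fun g h r hg hh => by
      rw [hd] at hg hh ⊢
      rw [dist_eq_norm]
      rw [mt_one] at hg hh
      exact hl g h r hg hh) (co_one B)
    (fun r0 hr0 => by
      obtain ⟨ρ, hρ, h⟩ := co_surj B hr0
      refine ⟨ρ, hρ, fun x hx => ?_⟩
      obtain ⟨g, hg, hgx⟩ := h x hx
      exact ⟨g, by rw [hd, mt_one]; exact hg, hgx⟩) μ (inferInstance : μ.IsHaarMeasure)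
    (inferInstance : IsProbabilityMeasure μ)
  obtain ⟨κ, C', r0, h1, h2, h3, h4⟩ := main
  refine ⟨κ, C', r0, h1, h2, h3, fun r hr hrr => ?_⟩
  have h5 := h4 r hr hrr
  simp only [hb] at h5
  exact h5

end

end Pool.Agent.T2H02.Gap
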