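import Mathlib
import Pool.Agent.T2H02.Gap.Haar

/-!
# Gaussian integrals over chains: Mehler's formula
-/

open MeasureTheory Filter
open scoped Topology ENNReal NNReal RealInnerProductSpace

namespace Pool.Agent.T2H02.Gap

set_option linter.unusedSectionVars false
set_option linter.unusedVariables false

noncomputable section

variable {n : ℕ}

lemma gauss_int (n : ℕ) {a : ℝ} (ha : 0 < a) : Integrable (fun x : En n => Real.exp (-a * ‖x‖ ^ 2)) := by
  have h2 := GaussianFourier.integrable_cexp_neg_mul_sq_norm_add (V := En n) (b := (a : ℂ))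
    (by simpa using ha) 0 0
  have h3 := h2.norm
  refine h3.congr (Eventually.of_forall fun x => ?_)
  simp only [Complex.norm_exp]
  congr 1
  simp
  norm_cast
  exact Or.inl rfl

lemma gauss_val (n : ℕ) {a : ℝ} (ha : 0 < a) :
    ∫ x : En n, Real.exp (-a * ‖x‖ ^ 2) = Real.sqrt (Real.pi / a) ^ n := by
  rw [GaussianFourier.integral_rexp_neg_mul_sq_norm ha, finrank_euclideanSpace_fin]
  rw [Real.sqrt_eq_rpow, ← Real.rpow_natCast, ← Real.rpow_mul (by positivity)]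
  congr 1
  ring

lemma sq_expand (a : ℝ) (ha : a ≠ 0) (v w : En n) : -(1 / 2 * a * ‖w‖ ^ 2) + ⟪v, w⟫ =
    -(a / 2) * ‖w - a⁻¹ • v‖ ^ 2 + ‖v‖ ^ 2 / (2 * a) := by
  rw [norm_sub_sq_real, inner_smul_right, norm_smul, mul_pow, Real.norm_eq_abs, sq_abs,
    real_inner_comm]
  field_simp
  ring

lemma gi_integrable {a : ℝ} (ha : 0 < a) (v : En n) :
    Integrable (fun w : En n => Real.exp (-(1 / 2 * a * ‖w‖ ^ 2) + ⟪v, w⟫)) := by
  have h1 := (gauss_int n (a := a / 2) (by positivity)).comp_sub_right (a⁻¹ • v)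
  refine (h1.mul_const (Real.exp (‖v‖ ^ 2 / (2 * a)))).congr (Eventually.of_forall fun w => ?_)
  simp only
  rw [sq_expand a ha.ne', Real.exp_add]

lemma gi_integral {a : ℝ} (ha : 0 < a) (v : En n) :
    ∫ w : En n, Real.exp (-(1 / 2 * a * ‖w‖ ^ 2) + ⟪v, w⟫) =
      Real.sqrt (2 * Real.pi / a) ^ n * Real.exp (‖v‖ ^ 2 / (2 * a)) := by
  have h1 : (fun w : En n => Real.exp (-(1 / 2 * a * ‖w‖ ^ 2) + ⟪v, w⟫)) = fun w =>
      (fun x => Real.exp (-(a / 2) * ‖x‖ ^ 2)) (w - a⁻¹ • v) * Real.exp (‖v‖ ^ 2 / (2 * a)) := by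
    funext w
    rw [sq_expand a ha.ne', Real.exp_add]
  rw [h1, integral_mul_const,
    integral_sub_right_eq_self (fun x : En n => Real.exp (-(a / 2) * ‖x‖ ^ 2)) (a⁻¹ • v),
    gauss_val n (by positivity)]
  congr 3
  field_simp

/-! ### the sequence -/

/-- the solution of the recursion `s (m + 2) = (2 + κ) s (m + 1) - s m`, `s 0 = 0`, `s 1 = 1` -/
def sqn (κ : ℝ) : ℕ → ℝ
  | 0 => 0
  | 1 => 1
  | m + 2 => (2 + κ) * sqn κ (m + 1) - sqn κ m

lemma sqn_succ (κ : ℝ) (m : ℕ) : sqn κ (m + 2) = (2 + κ) * sqn κ (m + 1) - sqn κ m := rfl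

lemma sqn_mono {κ : ℝ} (hκ : 0 ≤ κ) (m : ℕ) : 0 ≤ sqn κ m ∧ sqn κ m + 1 ≤ sqn κ (m + 1) := by
  induction m with
  | zero => simp [sqn]
  | succ m ih =>
    obtain ⟨h1, h2⟩ := ih
    have h3 : 0 ≤ sqn κ (m + 1) := by linarith
    refine ⟨h3, ?_⟩
    rw [sqn_succ]
    nlinarith

lemma sqn_pos {κ : ℝ} (hκ : 0 ≤ κ) (m : ℕ) : 0 < sqn κ (m + 1) := by
  have := sqn_mono hκ m
  linarith [this.1, this.2]

lemma sqn_cassini (κ : ℝ) (m : ℕ) : sqn κ m * sqn κ (m + 2) + 1 = sqn κ (m + 1) ^ 2 := by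
  induction m with
  | zero => simp [sqn]
  | succ m ih =>
    rw [sqn_succ κ (m + 1), ]
    have h := sqn_succ κ m
    rw [h] at ih ⊢
    linear_combination ih

lemma sqn_nat (m : ℕ) : sqn 0 m = m := by
  induction m using Nat.twoStepInduction with
  | zero => simp [sqn]
  | one => simp [sqn]
  | more m h1 h2 =>
    rw [sqn_succ, h1, h2]
    push_cast; ring

/-- the sequence in terms of the root of `λ + λ⁻¹ = 2 + κ` -/
lemma sqn_lam {κ l : ℝ} (hl : 0 < l) (hl1 : l < 1) (h : l + l⁻¹ = 2 + κ) (m : ℕ) :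
    sqn κ m = (l⁻¹ ^ m - l ^ m) / (l⁻¹ - l) := by
  have hne : l⁻¹ - l ≠ 0 := by
    have : 1 < l⁻¹ := (one_lt_inv₀ hl).2 hl1
    linarith
  induction m using Nat.twoStepInduction with
  | zero => simp [sqn]
  | one => simp [sqn, div_self hne]
  | more m h1 h2 =>
    rw [sqn_succ, h1, h2, ← h, mul_div_assoc', ← sub_div]
    congr 1
    obtain ⟨x, hx⟩ : ∃ x, x = l⁻¹ := ⟨_, rfl⟩
    have hlx : l * x = 1 := by rw [hx]; exact mul_inv_cancel₀ hl.ne'
    rw [← hx]
    linear_combination (x ^ m - l ^ m) * hlx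

/-! ### Mehler's kernel -/

/-- Mehler's kernel -/
def Gk (n : ℕ) (κ : ℝ) (j : ℕ) (a z : En n) : ℝ :=
  Real.sqrt (2 * Real.pi) ^ (n * j) / Real.sqrt (sqn κ (j + 1)) ^ n *
    Real.exp (-(1 / 2 * ((1 - sqn κ j / sqn κ (j + 1)) * (‖a‖ ^ 2 + ‖z‖ ^ 2) -
      2 / sqn κ (j + 1) * ⟪a, z⟫)))

lemma Gk_nonneg (n : ℕ) (κ : ℝ) (j : ℕ) (a z : En n) : 0 ≤ Gk n κ j a z := by
  unfold Gk; positivity

lemma Gk_zero (κ : ℝ) (a z : En n) : Gk n κ 0 a z = Real.exp (-(1 / 2 * ‖a - z‖ ^ 2)) := by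
  unfold Gk
  rw [norm_sub_sq_real]
  simp [sqn]
  ring

lemma Gk_step {κ : ℝ} (hκ : 0 ≤ κ) (j : ℕ) (a z w : En n) :
    Real.exp (-(1 / 2 * (‖a - w‖ ^ 2 + κ * ‖w‖ ^ 2))) * Gk n κ j w z =
      (Real.sqrt (2 * Real.pi) ^ (n * j) / Real.sqrt (sqn κ (j + 1)) ^ n *
        Real.exp (-(1 / 2 * (‖a‖ ^ 2 + (1 - sqn κ j / sqn κ (j + 1)) * ‖z‖ ^ 2)))) *
      Real.exp (-(1 / 2 * (sqn κ (j + 2) / sqn κ (j + 1)) * ‖w‖ ^ 2) +
        ⟪a + (sqn κ (j + 1))⁻¹ • z, w⟫) := by
  unfold Gk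
  have hs := sqn_pos hκ j
  rw [mul_left_comm, ← Real.exp_add, mul_assoc, ← Real.exp_add]
  congr 2
  rw [norm_sub_sq_real, inner_add_left, inner_smul_left, sqn_succ, real_inner_comm w z]
  simp only [conj_trivial]
  field_simp
  ring

lemma Gk_succ {κ : ℝ} (hκ : 0 ≤ κ) (j : ℕ) (a z : En n) :
    Integrable (fun w : En n => Real.exp (-(1 / 2 * (‖a - w‖ ^ 2 + κ * ‖w‖ ^ 2))) * Gk n κ j w z) ∧
    ∫ w : En n, Real.exp (-(1 / 2 * (‖a - w‖ ^ 2 + κ * ‖w‖ ^ 2))) * Gk n κ j w z =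
      Gk n κ (j + 1) a z := by
  have hs1 := sqn_pos hκ j
  have hs2 := sqn_pos hκ (j + 1)
  have hα : 0 < sqn κ (j + 2) / sqn κ (j + 1) := div_pos hs2 hs1
  have hf : (fun w : En n => Real.exp (-(1 / 2 * (‖a - w‖ ^ 2 + κ * ‖w‖ ^ 2))) * Gk n κ j w z) =
      fun w => (Real.sqrt (2 * Real.pi) ^ (n * j) / Real.sqrt (sqn κ (j + 1)) ^ n *
        Real.exp (-(1 / 2 * (‖a‖ ^ 2 + (1 - sqn κ j / sqn κ (j + 1)) * ‖z‖ ^ 2)))) *
      Real.exp (-(1 / 2 * (sqn κ (j + 2) / sqn κ (j + 1)) * ‖w‖ ^ 2) +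
        ⟪a + (sqn κ (j + 1))⁻¹ • z, w⟫) := by
    funext w; exact Gk_step hκ j a z w
  rw [hf]
  refine ⟨(gi_integrable hα _).const_mul _, ?_⟩
  rw [integral_const_mul, gi_integral hα]
  unfold Gk
  have e1 : Real.sqrt (2 * Real.pi / (sqn κ (j + 2) / sqn κ (j + 1))) =
      Real.sqrt (2 * Real.pi) * Real.sqrt (sqn κ (j + 1)) / Real.sqrt (sqn κ (j + 2)) := by
    rw [← Real.sqrt_mul (by positivity), ← Real.sqrt_div (by positivity)]
    congr 1
    field_simp
  have h1 : 0 < Real.sqrt (sqn κ (j + 1)) := Real.sqrt_pos.2 hs1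
  have h2 : 0 < Real.sqrt (sqn κ (j + 2)) := Real.sqrt_pos.2 hs2
  have e2 : Real.sqrt (2 * Real.pi) ^ (n * j) / Real.sqrt (sqn κ (j + 1)) ^ n *
      (Real.sqrt (2 * Real.pi) * Real.sqrt (sqn κ (j + 1)) / Real.sqrt (sqn κ (j + 2))) ^ n =
      Real.sqrt (2 * Real.pi) ^ (n * (j + 1)) / Real.sqrt (sqn κ (j + 2)) ^ n := by
    rw [div_pow, mul_pow, mul_add, mul_one, pow_add]
    field_simp
  rw [e1, mul_assoc, mul_left_comm (Real.exp _), ← mul_assoc, e2, ← Real.exp_add]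
  congr 2
  have h3 : ‖a + (sqn κ (j + 1))⁻¹ • z‖ ^ 2 = ‖a‖ ^ 2 + 2 * ((sqn κ (j + 1))⁻¹ * ⟪a, z⟫) +
      ((sqn κ (j + 1))⁻¹) ^ 2 * ‖z‖ ^ 2 := by
    rw [norm_add_sq_real, inner_smul_right, norm_smul, mul_pow, Real.norm_eq_abs, sq_abs]
  rw [h3]
  have hc := sqn_cassini κ j
  have h4 : sqn κ j / sqn κ (j + 1) = sqn κ (j + 1) / sqn κ (j + 2) -
      1 / (sqn κ (j + 1) * sqn κ (j + 2)) := by
    field_simp
    linear_combination hc
  rw [h4]
  field_simp
  ring

/-! ### products and chains -/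

lemma lint_cons {α : Type*} [MeasurableSpace α] (μ : Measure α) [SigmaFinite μ] (j : ℕ)
    (F : (Fin (j + 1) → α) → ℝ≥0∞) (hF : Measurable F) :
    ∫⁻ X, F X ∂(Measure.pi fun _ => μ) =
      ∫⁻ x, ∫⁻ W, F (Fin.cons x W) ∂(Measure.pi fun _ : Fin j => μ) ∂μ := by
  have h := (measurePreserving_piFinSuccAbove (fun _ : Fin (j + 1) => μ) 0).symm
  rw [← h.lintegral_comp hF, lintegral_prod (fun p => F ((MeasurableEquiv.piFinSuccAbove
    (fun _ : Fin (j + 1) => α) 0).symm p)) (hF.comp (MeasurableEquiv.measurable _)).aemeasurable]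
  refine lintegral_congr fun x => lintegral_congr fun W => ?_
  congr 1
  funext i
  refine Fin.cases ?_ (fun i => ?_) i
  · simp [MeasurableEquiv.piFinSuccAbove]
  · simp [MeasurableEquiv.piFinSuccAbove]

variable {E : Type*} [Fintype E]

lemma lint_prod_fn (f : E → En n → ℝ) (hf : ∀ e, Integrable (f e)) (h0 : ∀ e x, 0 ≤ f e x) :
    ∫⁻ w : E → En n, ENNReal.ofReal (∏ e, f e (w e)) = ENNReal.ofReal (∏ e, ∫ x, f e x) := by
  have h1 : Integrable (fun w : E → En n => ∏ e, f e (w e)) := Integrable.fintype_prod hf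
  rw [← integral_fintype_prod_volume_eq_prod]
  exact (ofReal_integral_eq_lintegral_ofReal h1
    (Eventually.of_forall fun w => Finset.prod_nonneg fun e _ => h0 e _)).symm

/-- magnetic energy in the eigenbasis -/
def magD (κ : E → ℝ) (X : E → En n) : ℝ := ∑ e, κ e * ‖X e‖ ^ 2

/-- electric energy in the eigenbasis -/
def kinD (X Y : E → En n) : ℝ := ∑ e, ‖X e - Y e‖ ^ 2

/-- energy of the chain in the eigenbasis -/
def chnD (κ : E → ℝ) : (j : ℕ) → (E → En n) → (Fin j → E → En n) → (E → En n) → ℝ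
  | 0, A, _, Z => kinD A Z
  | j + 1, A, W, Z => kinD A (W 0) + magD κ (W 0) + chnD κ j (W 0) (fun i => W i.succ) Z

lemma magD_cont (κ : E → ℝ) : Continuous (magD κ : (E → En n) → ℝ) := by
  unfold magD; fun_prop

lemma kinD_cont : Continuous (fun p : (E → En n) × (E → En n) => kinD p.1 p.2) := by
  unfold kinD; fun_prop

lemma chnD_cont (κ : E → ℝ) (j : ℕ) :
    Continuous (fun p : (E → En n) × (Fin j → E → En n) × (E → En n) =>
      chnD κ j p.1 p.2.1 p.2.2) := by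
  induction j with
  | zero =>
    exact (kinD_cont (E := E) (n := n)).comp
      (f := fun p : (E → En n) × (Fin 0 → E → En n) × (E → En n) => (p.1, p.2.2)) (by fun_prop)
  | succ j ih =>
    have h1 := (kinD_cont (E := E) (n := n)).comp
      (f := fun p : (E → En n) × (Fin (j + 1) → E → En n) × (E → En n) => (p.1, p.2.1 0))
      (by fun_prop)
    have h2 := (magD_cont (E := E) (n := n) κ).comp
      (f := fun p : (E → En n) × (Fin (j + 1) → E → En n) × (E → En n) => p.2.1 0)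
      (by fun_prop)
    have h3 := ih.comp
      (f := fun p : (E → En n) × (Fin (j + 1) → E → En n) × (E → En n) =>
        (p.2.1 0, (fun i : Fin j => p.2.1 i.succ), p.2.2))
      (by fun_prop)
    exact (h1.add h2).add h3

/-- **Mehler's formula for the chain.** -/
theorem chnD_lint {κ : E → ℝ} (hκ : ∀ e, 0 ≤ κ e) (j : ℕ) (a z : E → En n) :
    ∫⁻ W : Fin j → E → En n, ENNReal.ofReal (Real.exp (-(1 / 2 * chnD κ j a W z))) =
      ENNReal.ofReal (∏ e, Gk n (κ e) j (a e) (z e)) := by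
  induction j generalizing a with
  | zero =>
    rw [Measure.volume_pi_eq_dirac, lintegral_dirac]
    congr 1
    rw [Finset.prod_congr rfl fun e _ => Gk_zero (κ e) (a e) (z e), ← Real.exp_sum]
    congr 1
    show -(1 / 2 * kinD a z) = _
    unfold kinD
    rw [Finset.mul_sum, ← Finset.sum_neg_distrib]
  | succ j ih =>
    have hm : Measurable fun W : Fin (j + 1) → E → En n =>
        ENNReal.ofReal (Real.exp (-(1 / 2 * chnD κ (j + 1) a W z))) := by
      have : Continuous fun W : Fin (j + 1) → E → En n =>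
          Real.exp (-(1 / 2 * chnD κ (j + 1) a W z)) := by
        refine Real.continuous_exp.comp (continuous_const.mul ?_).neg
        exact (chnD_cont (n := n) κ (j + 1)).comp (f := fun W : Fin (j + 1) → E → En n => (a, W, z))
          (by fun_prop)
      exact this.measurable.ennreal_ofReal
    have h1 := lint_cons (volume : Measure (E → En n)) j _ hm
    rw [show (volume : Measure (Fin (j + 1) → E → En n)) = Measure.pi fun _ => volume from rfl, h1]
    have h2 : ∀ (x : E → En n) (W : Fin j → E → En n),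
        ENNReal.ofReal (Real.exp (-(1 / 2 * chnD κ (j + 1) a (Fin.cons x W) z))) =
        ENNReal.ofReal (Real.exp (-(1 / 2 * (kinD a x + magD κ x)))) *
          ENNReal.ofReal (Real.exp (-(1 / 2 * chnD κ j x W z))) := by
      intro x W
      rw [← ENNReal.ofReal_mul (Real.exp_pos _).le, ← Real.exp_add]
      congr 2
      show -(1 / 2 * (kinD a x + magD κ x + chnD κ j x W z)) = _
      ring
    have h3 : ∀ x : E → En n, ∫⁻ W : Fin j → E → En n,
        ENNReal.ofReal (Real.exp (-(1 / 2 * chnD κ (j + 1) a (Fin.cons x W) z)))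
          ∂(Measure.pi fun _ => volume) =
        ENNReal.ofReal (∏ e, (Real.exp (-(1 / 2 * (‖a e - x e‖ ^ 2 + κ e * ‖x e‖ ^ 2))) *
          Gk n (κ e) j (x e) (z e))) := by
      intro x
      rw [lintegral_congr (h2 x), lintegral_const_mul']
      · have h4 := ih x
        rw [show (volume : Measure (Fin j → E → En n)) = Measure.pi fun _ => volume from rfl] at h4
        rw [h4, ← ENNReal.ofReal_mul (Real.exp_pos _).le, Finset.prod_mul_distrib, ← Real.exp_sum]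
        congr 3
        unfold kinD magD
        rw [← Finset.sum_add_distrib, Finset.mul_sum, ← Finset.sum_neg_distrib]
      · exact ENNReal.ofReal_ne_top
    rw [lintegral_congr h3, lint_prod_fn (fun e x => Real.exp (-(1 / 2 * (‖a e - x‖ ^ 2 +
      κ e * ‖x‖ ^ 2))) * Gk n (κ e) j x (z e)) (fun e => (Gk_succ (hκ e) j _ _).1)
      (fun e x => mul_nonneg (Real.exp_pos _).le (Gk_nonneg _ _ _ _ _))]
    congr 1
    exact Finset.prod_congr rfl fun e _ => (Gk_succ (hκ e) j _ _).2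

end

end Pool.Agent.T2H02.Gap
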