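import Mathlib

/-!
# Currying of product measures
-/

open MeasureTheory Set
open scoped ENNReal

namespace Pool.Agent.T2H02.Gap

noncomputable section

variable {ι κ : Type*} [Fintype ι] [Fintype κ] {α : Type*} [MeasurableSpace α]

/-- uncurrying as a measurable equivalence -/
def unc (ι κ α : Type*) [MeasurableSpace α] : (ι → κ → α) ≃ᵐ (ι × κ → α) where
  toEquiv := (Equiv.curry ι κ α).symm
  measurable_toFun := by
    refine measurable_pi_iff.2 fun p => ?_
    have h1 : Measurable fun V : ι → κ → α => V p.1 := measurable_pi_apply p.1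
    exact (measurable_pi_apply p.2).comp h1
  measurable_invFun := by
    refine measurable_pi_iff.2 fun i => measurable_pi_iff.2 fun k => ?_
    exact measurable_pi_apply (i, k)

lemma unc_apply (V : ι → κ → α) (p : ι × κ) : unc ι κ α V p = V p.1 p.2 := rfl

lemma map_unc (μ : Measure α) [SigmaFinite μ] :
    (Measure.pi fun _ : ι => Measure.pi fun _ : κ => μ).map (unc ι κ α) =
      Measure.pi fun _ : ι × κ => μ := by
  symm
  refine Measure.pi_eq fun s hs => ?_
  rw [(unc ι κ α).map_apply]
  have h1 : unc ι κ α ⁻¹' (univ.pi s) = univ.pi fun i => univ.pi fun k => s (i, k) := by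
    ext V
    simp only [mem_preimage, mem_univ_pi, unc_apply]
    exact ⟨fun h i k => h (i, k), fun h p => h p.1 p.2⟩
  rw [h1, Measure.pi_pi, Fintype.prod_prod_type]
  exact Finset.prod_congr rfl fun i _ => Measure.pi_pi _ _

lemma integral_unc (μ : Measure α) [SigmaFinite μ] (f : (ι × κ → α) → ℝ) :
    ∫ U, f U ∂(Measure.pi fun _ : ι × κ => μ) =
      ∫ V : ι → κ → α, f (fun p => V p.1 p.2) ∂(Measure.pi fun _ => Measure.pi fun _ => μ) := by
  rw [← map_unc μ, MeasureTheory.integral_map_equiv]
  rfl

end

end Pool.Agent.T2H02.Gap
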