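import Mathlib

/-!
# Monotonicity of product measures and change of coordinates in products
-/

open MeasureTheory Filter Set
open scoped Topology ENNReal NNReal

namespace Pool.Agent.T2H02.Gap

set_option linter.unusedSectionVars false
set_option linter.unusedVariables false

noncomputable section

variable {I : Type*} [Fintype I]

lemma pi_mono_measure {α : Type*} [MeasurableSpace α] (ν lam : Measure α) [SigmaFinite ν]
    [SigmaFinite lam] (h : ν ≤ lam) :
    (Measure.pi fun _ : I => ν) ≤ (Measure.pi fun _ : I => lam) := by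
  have h1 : (Measure.pi fun _ : I => ν).toOuterMeasure ≤
      OuterMeasure.pi (fun _ : I => lam.toOuterMeasure) := by
    rw [OuterMeasure.le_pi]
    intro s hs
    show (Measure.pi fun _ : I => ν) (pi univ s) ≤ ∏ i, lam (s i)
    rw [Measure.pi_pi]
    exact Finset.prod_le_prod' fun i _ => h (s i)
  refine Measure.le_iff.2 fun s hs => ?_
  have h2 : (Measure.pi fun _ : I => lam) s = OuterMeasure.pi (fun _ : I => lam.toOuterMeasure) s := by
    rw [Measure.pi_def, toMeasure_apply _ _ hs]
  rw [h2]
  exact h1 s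

lemma pi_smul_measure {α : Type*} [MeasurableSpace α] (lam : Measure α) [SigmaFinite lam]
    (c : ℝ≥0) : (Measure.pi fun _ : I => c • lam) =
      (c ^ Fintype.card I) • (Measure.pi fun _ : I => lam) := by
  refine Measure.pi_eq fun s hs => ?_
  rw [Measure.smul_apply, Measure.pi_pi]
  simp only [Measure.smul_apply]
  rw [ENNReal.smul_def, smul_eq_mul]
  have : ∀ i, c • lam (s i) = (c : ℝ≥0∞) * lam (s i) := fun i => rfl
  rw [Finset.prod_congr rfl fun i _ => this i, Finset.prod_mul_distrib, Finset.prod_const,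
    Finset.card_univ]
  push_cast
  rfl

/-- change of coordinates in a product, from above -/
lemma lint_le {α β : Type*} [MeasurableSpace α] [MeasurableSpace β] (μ : Measure α)
    [SigmaFinite μ] (lam : Measure β) [SigmaFinite lam] {φ : α → β} (hφ : Measurable φ) {S : Set α}
    (hS : MeasurableSet S) (hμS : μ S ≠ ∞)
    (c : ℝ≥0) (h : ∀ A, MeasurableSet A → μ (S ∩ φ ⁻¹' A) ≤ c * lam A) (F : (I → β) → ℝ≥0∞)
    (hF : Measurable F) :
    ∫⁻ U in Set.univ.pi fun _ : I => S, F (fun i => φ (U i)) ∂(Measure.pi fun _ => μ) ≤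
      (c : ℝ≥0∞) ^ Fintype.card I * ∫⁻ X, F X ∂(Measure.pi fun _ => lam) := by
  have hfin : IsFiniteMeasure (μ.restrict S) := ⟨by rw [Measure.restrict_apply_univ]; exact hμS.lt_top⟩
  have hfin2 : IsFiniteMeasure ((μ.restrict S).map φ) := inferInstance
  rw [Measure.restrict_pi_pi]
  have h1 : ∫⁻ U, F (fun i => φ (U i)) ∂(Measure.pi fun _ : I => μ.restrict S) =
      ∫⁻ X, F X ∂(Measure.pi fun _ : I => (μ.restrict S).map φ) := by
    rw [← Measure.pi_map_pi (μ := fun _ : I => μ.restrict S) (f := fun _ => φ)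
      fun _ => hφ.aemeasurable]
    rw [lintegral_map hF]
    exact measurable_pi_lambda _ fun i => hφ.comp (measurable_pi_apply i)
  rw [h1]
  have h2 : (μ.restrict S).map φ ≤ c • lam := by
    refine Measure.le_iff.2 fun A hA => ?_
    rw [Measure.map_apply hφ hA, Measure.restrict_apply (hφ hA), inter_comm]
    exact h A hA
  have h3 := pi_mono_measure (I := I) _ _ h2
  rw [pi_smul_measure] at h3
  refine (lintegral_mono' h3 le_rfl).trans ?_
  rw [lintegral_smul_measure, ENNReal.smul_def, smul_eq_mul]
  push_cast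
  exact le_rfl

/-- change of coordinates in a product, from below -/
lemma lint_ge {α β : Type*} [MeasurableSpace α] [MeasurableSpace β] (μ : Measure α)
    [SigmaFinite μ] (lam : Measure β) [SigmaFinite lam] {φ : α → β} (hφ : Measurable φ) {S : Set α}
    (hS : MeasurableSet S) (hμS : μ S ≠ ∞) {R : Set β} (hR : MeasurableSet R)
    (c : ℝ≥0) (h : ∀ A, MeasurableSet A → A ⊆ R → c * lam A ≤ μ (S ∩ φ ⁻¹' A))
    (F : (I → β) → ℝ≥0∞) (hF : Measurable F) :
    (c : ℝ≥0∞) ^ Fintype.card I * ∫⁻ X in Set.univ.pi fun _ : I => R, F X ∂(Measure.pi fun _ => lam) ≤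
    ∫⁻ U in Set.univ.pi fun _ : I => S, F (fun i => φ (U i)) ∂(Measure.pi fun _ => μ) := by
  have hfin : IsFiniteMeasure (μ.restrict S) := ⟨by rw [Measure.restrict_apply_univ]; exact hμS.lt_top⟩
  have hfin2 : IsFiniteMeasure ((μ.restrict S).map φ) := inferInstance
  rw [Measure.restrict_pi_pi, Measure.restrict_pi_pi]
  have h1 : ∫⁻ U, F (fun i => φ (U i)) ∂(Measure.pi fun _ : I => μ.restrict S) =
      ∫⁻ X, F X ∂(Measure.pi fun _ : I => (μ.restrict S).map φ) := by
    rw [← Measure.pi_map_pi (μ := fun _ : I => μ.restrict S) (f := fun _ => φ)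
      fun _ => hφ.aemeasurable]
    rw [lintegral_map hF]
    exact measurable_pi_lambda _ fun i => hφ.comp (measurable_pi_apply i)
  rw [h1]
  have h2 : c • lam.restrict R ≤ (μ.restrict S).map φ := by
    refine Measure.le_iff.2 fun A hA => ?_
    rw [Measure.map_apply hφ hA, Measure.restrict_apply (hφ hA), inter_comm, Measure.smul_apply,
      Measure.restrict_apply hA, ENNReal.smul_def, smul_eq_mul]
    refine (h (A ∩ R) (hA.inter hR) inter_subset_right).trans (measure_mono ?_)
    exact inter_subset_inter_right _ (preimage_mono inter_subset_left)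
  have h3 := pi_mono_measure (I := I) _ _ h2
  rw [pi_smul_measure] at h3
  refine le_trans ?_ (lintegral_mono' h3 le_rfl)
  rw [lintegral_smul_measure, ENNReal.smul_def, smul_eq_mul]
  push_cast
  exact le_rfl

end

end Pool.Agent.T2H02.Gap
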