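import Mathlib
import Pool.Agent.T2H02.Gap.Haar
import Pool.Agent.T2H02.Gap.PiM

/-!
# Laplace's method on a product of compact groups, with explicit errors
-/

open MeasureTheory Matrix Filter
open scoped Matrix.Norms.Frobenius ContDiff Topology ENNReal NNReal
open Pool.Agent.H906R3.YM Pool.Agent.W793.YM Pool.Agent.TH618.YM

namespace Pool.Agent.T2H02.Gap

set_option linter.unusedSectionVars false
set_option linter.unusedVariables false

noncomputable section

variable {N n : ℕ} {G : Subgroup (UN N)} {I : Type*} [Fintype I]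

/-- A positive definite quadratic form with its bounds. -/
structure QF (Q : (I → En n) → ℝ) (c1 C2 : ℝ) : Prop where
  cont : Continuous Q
  hom : ∀ (s : ℝ) (X : I → En n), Q (s • X) = s ^ 2 * Q X
  lower : ∀ X i, c1 * ‖X i‖ ^ 2 ≤ Q X
  upper : ∀ X, Q X ≤ C2 * ∑ i, ‖X i‖ ^ 2

/-- the Gaussian integral -/
def JQ (Q : (I → En n) → ℝ) : ℝ := ∫ X : I → En n, Real.exp (-(1 / 2 * Q X))

lemma gauss_prod_integrable (I : Type*) [Fintype I] (n : ℕ) {a : ℝ} (ha : 0 < a) :
    Integrable (fun X : I → En n => Real.exp (-(a * ∑ i, ‖X i‖ ^ 2))) := by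
  have h1 : (fun X : I → En n => Real.exp (-(a * ∑ i, ‖X i‖ ^ 2))) =
      fun X => ∏ i, Real.exp (-a * ‖X i‖ ^ 2) := by
    funext X
    rw [← Real.exp_sum]
    congr 1
    rw [Finset.mul_sum, ← Finset.sum_neg_distrib]
    exact Finset.sum_congr rfl fun i _ => by ring
  rw [h1]
  refine Integrable.fintype_prod (f := fun (_ : I) (x : En n) => Real.exp (-a * ‖x‖ ^ 2)) fun i => ?_
  have h2 := GaussianFourier.integrable_cexp_neg_mul_sq_norm_add (V := En n) (b := (a : ℂ))
    (by simpa using ha) 0 0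
  have h3 := h2.norm
  refine h3.congr (Eventually.of_forall fun x => ?_)
  simp only [Complex.norm_exp]
  congr 1
  simp
  norm_cast
  exact Or.inl rfl

lemma gauss_prod_integral (I : Type*) [Fintype I] (n : ℕ) {a : ℝ} (ha : 0 < a) :
    ∫ X : I → En n, Real.exp (-(a * ∑ i, ‖X i‖ ^ 2)) =
      (Real.sqrt (Real.pi / a)) ^ (Fintype.card I * n) := by
  have h1 : (fun X : I → En n => Real.exp (-(a * ∑ i, ‖X i‖ ^ 2))) =
      fun X => ∏ i, Real.exp (-a * ‖X i‖ ^ 2) := by
    funext X
    rw [← Real.exp_sum]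
    congr 1
    rw [Finset.mul_sum, ← Finset.sum_neg_distrib]
    exact Finset.sum_congr rfl fun i _ => by ring
  rw [h1, integral_fintype_prod_volume_eq_prod (fun (_ : I) (x : En n) => Real.exp (-a * ‖x‖ ^ 2))]
  rw [Finset.prod_const, Finset.card_univ, GaussianFourier.integral_rexp_neg_mul_sq_norm ha,
    finrank_euclideanSpace_fin, mul_comm (Fintype.card I) n, pow_mul]
  congr 1
  rw [Real.sqrt_eq_rpow, ← Real.rpow_natCast, ← Real.rpow_mul (by positivity)]
  congr 1
  ring

variable {Q : (I → En n) → ℝ} {c1 C2 : ℝ}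

lemma QF.sum_lower (h : QF Q c1 C2) (X : I → En n) :
    c1 * ∑ i, ‖X i‖ ^ 2 ≤ Fintype.card I * Q X := by
  rw [Finset.mul_sum]
  calc ∑ i, c1 * ‖X i‖ ^ 2 ≤ ∑ _i : I, Q X := Finset.sum_le_sum fun i _ => h.lower X i
    _ = _ := by rw [Finset.sum_const, Finset.card_univ, nsmul_eq_mul]

lemma QF.nonneg (h : QF Q c1 C2) (hc1 : 0 < c1) (X : I → En n) : 0 ≤ Q X := by
  rcases isEmpty_or_nonempty I with hI | ⟨⟨i⟩⟩
  · have h1 := h.hom 0 X
    have h2 : (0 : ℝ) • X = X := Subsingleton.elim _ _
    rw [h2] at h1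
    rw [h1]; simp
  · exact (mul_nonneg hc1.le (sq_nonneg _)).trans (h.lower X i)

lemma QF.integrable (h : QF Q c1 C2) (hc1 : 0 < c1) {s : ℝ} (hs : 0 < s) :
    Integrable (fun X : I → En n => Real.exp (-(s * Q X))) := by
  rcases isEmpty_or_nonempty I with hI | hI
  · have hcont : Continuous fun X : I → En n => Real.exp (-(s * Q X)) :=
      Real.continuous_exp.comp (h.cont.const_mul s).neg
    have : IsFiniteMeasure (volume : Measure (I → En n)) := by
      rw [volume_pi, Measure.pi_of_empty]; infer_instance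
    refine Integrable.of_bound hcont.aestronglyMeasurable 1 (Eventually.of_forall fun X => ?_)
    rw [Real.norm_eq_abs, abs_of_pos (Real.exp_pos _)]
    have := h.nonneg hc1 X
    rw [Real.exp_le_one_iff]
    nlinarith
  · have hcard : (0 : ℝ) < Fintype.card I := by exact_mod_cast Fintype.card_pos
    have h1 := gauss_prod_integrable I n (a := s * c1 / Fintype.card I) (by positivity)
    have hcont : Continuous fun X : I → En n => Real.exp (-(s * Q X)) :=
      Real.continuous_exp.comp (h.cont.const_mul s).neg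
    refine h1.mono' hcont.aestronglyMeasurable (Eventually.of_forall fun X => ?_)
    rw [Real.norm_eq_abs, abs_of_pos (Real.exp_pos _)]
    refine Real.exp_le_exp.2 (neg_le_neg ?_)
    have h2 := h.sum_lower X
    calc s * c1 / Fintype.card I * ∑ i, ‖X i‖ ^ 2 = s / Fintype.card I * (c1 * ∑ i, ‖X i‖ ^ 2) := by ring
      _ ≤ s / Fintype.card I * (Fintype.card I * Q X) := mul_le_mul_of_nonneg_left h2 (by positivity)
      _ = s * Q X := by field_simp

lemma QF.scale (h : QF Q c1 C2) {s : ℝ} (hs : 0 ≤ s) :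
    ∫ X : I → En n, Real.exp (-(1 / 2 * (s ^ 2 * Q X))) = (s ^ (Fintype.card I * n))⁻¹ * JQ Q := by
  have h1 : (fun X : I → En n => Real.exp (-(1 / 2 * (s ^ 2 * Q X)))) =
      fun X => (fun Y => Real.exp (-(1 / 2 * Q Y))) (s • X) := by
    funext X
    simp only [h.hom]
  rw [h1, Measure.integral_comp_smul_of_nonneg volume (fun Y => Real.exp (-(1 / 2 * Q Y))) s (hR := hs)]
  have h2 : Module.finrank ℝ (I → En n) = Fintype.card I * n := by
    rw [Module.finrank_pi_fintype]
    simp
  rw [h2, smul_eq_mul]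
  rfl

lemma QF.JQ_lower (h : QF Q c1 C2) (hc1 : 0 < c1) (hC2 : 0 < C2) :
    (Real.sqrt (2 * Real.pi / C2)) ^ (Fintype.card I * n) ≤ JQ Q := by
  have h1 := gauss_prod_integral I n (a := C2 / 2) (by positivity)
  have h2 : Real.pi / (C2 / 2) = 2 * Real.pi / C2 := by field_simp
  rw [h2] at h1
  rw [← h1]
  unfold JQ
  have h3 := h.integrable hc1 (s := 1 / 2) (by norm_num)
  refine integral_mono (gauss_prod_integrable I n (by positivity)) h3 fun X => ?_
  refine Real.exp_le_exp.2 (neg_le_neg ?_)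
  have := h.upper X
  linarith

lemma QF.JQ_pos (h : QF Q c1 C2) (hc1 : 0 < c1) (hC2 : 0 < C2) : 0 < JQ Q :=
  lt_of_lt_of_le (by positivity) (h.JQ_lower hc1 hC2)

/-- the Gaussian tail -/
lemma QF.tail (h : QF Q c1 C2) (hc1 : 0 < c1) {s r : ℝ} (hs : 0 < s) (hr : 0 < r) :
    (s ^ (Fintype.card I * n))⁻¹ * JQ Q *
      (1 - Real.sqrt 2 ^ (Fintype.card I * n) * Real.exp (-(s ^ 2 * c1 * r ^ 2 / 4))) ≤
    ∫ X in Set.univ.pi fun _ : I => Metric.ball (0 : En n) r, Real.exp (-(1 / 2 * (s ^ 2 * Q X))) := by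
  obtain ⟨f, hf⟩ : ∃ f : (I → En n) → ℝ, f = fun X => Real.exp (-(1 / 2 * (s ^ 2 * Q X))) := ⟨_, rfl⟩
  obtain ⟨R, hR⟩ : ∃ R : Set (I → En n), R = Set.univ.pi fun _ : I => Metric.ball (0 : En n) r :=
    ⟨_, rfl⟩
  have hRm : MeasurableSet R := by
    rw [hR]; exact MeasurableSet.univ_pi fun _ => measurableSet_ball
  have hint : Integrable f := by
    rw [hf]
    have := h.integrable hc1 (s := 1 / 2 * s ^ 2) (by positivity)
    refine this.congr (Eventually.of_forall fun X => ?_)
    simp only; congr 2; ring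
  have hint2 : Integrable (fun X : I → En n => Real.exp (-(1 / 2 * ((s / Real.sqrt 2) ^ 2 * Q X)))) := by
    have := h.integrable hc1 (s := 1 / 2 * (s / Real.sqrt 2) ^ 2) (by positivity)
    refine this.congr (Eventually.of_forall fun X => ?_)
    simp only; congr 2; ring
  have h1 : ∫ X in R, f X = (∫ X, f X) - ∫ X in Rᶜ, f X := by
    have := integral_add_compl hRm hint
    linarith
  have h2 : ∫ X in Rᶜ, f X ≤ Real.exp (-(s ^ 2 * c1 * r ^ 2 / 4)) *
      ∫ X : I → En n, Real.exp (-(1 / 2 * ((s / Real.sqrt 2) ^ 2 * Q X))) := by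
    calc ∫ X in Rᶜ, f X ≤ ∫ X in Rᶜ, Real.exp (-(s ^ 2 * c1 * r ^ 2 / 4)) *
          Real.exp (-(1 / 2 * ((s / Real.sqrt 2) ^ 2 * Q X))) := by
          refine setIntegral_mono_on hint.integrableOn (hint2.const_mul _).integrableOn hRm.compl
            fun X hX => ?_
          rw [hf]
          simp only
          rw [← Real.exp_add]
          refine Real.exp_le_exp.2 ?_
          have h3 : ∃ i, r ≤ ‖X i‖ := by
            by_contra hc
            push Not at hc
            refine hX ?_
            rw [hR]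
            intro i _
            exact mem_ball_zero_iff.2 (hc i)
          obtain ⟨i, hi⟩ := h3
          have h4 := h.lower X i
          have h5 : c1 * r ^ 2 ≤ c1 * ‖X i‖ ^ 2 :=
            mul_le_mul_of_nonneg_left (pow_le_pow_left₀ hr.le hi 2) hc1.le
          rw [div_pow, Real.sq_sqrt (by norm_num : (0 : ℝ) ≤ 2)]
          have h6 : 0 < s ^ 2 := by positivity
          nlinarith
      _ ≤ ∫ X : I → En n, Real.exp (-(s ^ 2 * c1 * r ^ 2 / 4)) *
          Real.exp (-(1 / 2 * ((s / Real.sqrt 2) ^ 2 * Q X))) :=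
          setIntegral_le_integral (hint2.const_mul _) (Eventually.of_forall fun X => by positivity)
      _ = _ := integral_const_mul _ _
  have h3 : ∫ X, f X = (s ^ (Fintype.card I * n))⁻¹ * JQ Q := by
    rw [hf]; exact h.scale hs.le
  rw [h.scale (s := s / Real.sqrt 2) (by positivity)] at h2
  rw [← hf, ← hR, h1, h3]
  have h4 : ((s / Real.sqrt 2) ^ (Fintype.card I * n))⁻¹ =
      Real.sqrt 2 ^ (Fintype.card I * n) * (s ^ (Fintype.card I * n))⁻¹ := by
    rw [div_pow, inv_div]
    rfl
  rw [h4] at h2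
  nlinarith

/-! ### the group integral -/

variable [CompactSpace G] [SecondCountableTopology G] [MeasurableSpace G] [BorelSpace G]

/-- The data of the coordinates near the identity. -/
structure Ch (B : Frame G n) (μ : Measure G) (κ C' r0 : ℝ) : Prop where
  κpos : 0 < κ
  Cpos : 0 < C'
  rpos : 0 < r0
  upper : ∀ r : ℝ, 0 < r → r ≤ r0 → ∀ A, MeasurableSet A → μ ({g | dg g < r} ∩ co B ⁻¹' A) ≤
    ENNReal.ofReal (κ * (1 + C' * r)) * volume A
  lower : ∀ r : ℝ, 0 < r → r ≤ r0 → ∀ A, MeasurableSet A → A ⊆ Metric.ball 0 (r / 2) →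
    ENNReal.ofReal κ * volume A ≤ μ ({g | dg g < r} ∩ co B ⁻¹' A)

lemma exists_Ch (B : Frame G n) (hG : IsClosed (G : Set (UN N))) (μ : Measure G) [μ.IsHaarMeasure]
    [IsProbabilityMeasure μ] : ∃ κ C' r0 : ℝ, Ch B μ κ C' r0 := by
  obtain ⟨κ, C', r0, h1, h2, h3, h4⟩ := chart B hG μ
  exact ⟨κ, C', r0, h1, h2, h3, fun r hr hrr => (h4 r hr hrr).1, fun r hr hrr => (h4 r hr hrr).2⟩

/-- An action and its quadratic approximation. -/
structure Act (B : Frame G n) (S : (I → G) → ℝ) (Q : (I → En n) → ℝ) (c0 A r1 : ℝ) : Prop where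
  cont : Continuous S
  lower : ∀ U i, c0 * dg (U i) ^ 2 ≤ S U
  approx : ∀ r, 0 < r → r ≤ r1 → ∀ U, (∀ i, dg (U i) < r) →
    |S U - 1 / 2 * Q (fun i => co B (U i))| ≤ A * r ^ 3

variable {B : Frame G n} {μ : Measure G} [IsProbabilityMeasure μ] {κ C' r0 : ℝ}
  {S : (I → G) → ℝ} {c0 A r1 : ℝ}

lemma Act.integrable (hS : Act B S Q c0 A r1) (β : ℝ) :
    Integrable (fun U => Real.exp (-(β * S U))) (Measure.pi fun _ : I => μ) := by
  have hc : Continuous fun U => Real.exp (-(β * S U)) :=
    Real.continuous_exp.comp (hS.cont.const_mul β).neg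
  obtain ⟨M, hM⟩ := (isCompact_range hc).isBounded.exists_norm_le
  exact Integrable.of_bound hc.aestronglyMeasurable M
    (Eventually.of_forall fun U => hM _ (Set.mem_range_self U))

/-- **Laplace's method, from above.** -/
theorem lap_upper (hCh : Ch B μ κ C' r0) (hS : Act B S Q c0 A r1) (hQ : QF Q c1 C2) (hc1 : 0 < c1)
    (hc0 : 0 < c0) {s r : ℝ} (hs : 0 < s) (hr : 0 < r) (hr0 : r ≤ r0) (hr1 : r ≤ r1) :
    ∫ U, Real.exp (-(s ^ 2 * S U)) ∂(Measure.pi fun _ : I => μ) ≤
      Real.exp (s ^ 2 * A * r ^ 3) * (1 + C' * r) ^ Fintype.card I *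
        (κ ^ Fintype.card I * (s ^ (Fintype.card I * n))⁻¹ * JQ Q) +
      Real.exp (-(s ^ 2 * c0 * r ^ 2)) := by
  have hint := hS.integrable (μ := μ) (s ^ 2)
  obtain ⟨P, hP⟩ : ∃ P : Measure (I → G), P = Measure.pi fun _ : I => μ := ⟨_, rfl⟩
  rw [← hP] at hint ⊢
  have hPp : IsProbabilityMeasure P := by rw [hP]; infer_instance
  obtain ⟨bx, hbx⟩ : ∃ bx : Set (I → G), bx = Set.univ.pi fun _ : I => {g : G | dg g < r} := ⟨_, rfl⟩
  have hms : MeasurableSet {g : G | dg g < r} := (isOpen_lt dg_cont continuous_const).measurableSet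
  have hbm : MeasurableSet bx := by rw [hbx]; exact MeasurableSet.univ_pi fun _ => hms
  rw [← integral_add_compl hbm hint]
  refine add_le_add ?_ ?_
  · -- inside the box
    have hC := hCh.Cpos
    have hκ := hCh.κpos
    have hle : ∫ U in bx, Real.exp (-(s ^ 2 * S U)) ∂P ≤ ∫ U in bx,
        Real.exp (s ^ 2 * A * r ^ 3) * Real.exp (-(1 / 2 * (s ^ 2 * Q fun i => co B (U i)))) ∂P := by
      refine setIntegral_mono_on hint.integrableOn ?_ hbm fun U hU => ?_
      · have hc : Continuous fun U : I → G => Real.exp (s ^ 2 * A * r ^ 3) *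
            Real.exp (-(1 / 2 * (s ^ 2 * Q fun i => co B (U i)))) := by
          refine continuous_const.mul (Real.continuous_exp.comp ?_)
          refine (continuous_const.mul (continuous_const.mul (hQ.cont.comp ?_))).neg
          exact continuous_pi fun i => (co_cont B).comp (continuous_apply i)
        obtain ⟨M, hM⟩ := (isCompact_range hc).isBounded.exists_norm_le
        exact (Integrable.of_bound hc.aestronglyMeasurable M
          (Eventually.of_forall fun U => hM _ (Set.mem_range_self U))).integrableOn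
      · rw [← Real.exp_add]
        refine Real.exp_le_exp.2 ?_
        have h1 := hS.approx r hr hr1 U fun i => by
          rw [hbx] at hU
          exact hU i (Set.mem_univ _)
        have h2 := (abs_le.1 h1).1
        have h3 : 0 < s ^ 2 := by positivity
        nlinarith
    refine hle.trans ?_
    rw [integral_const_mul, mul_assoc, mul_assoc]
    refine mul_le_mul_of_nonneg_left ?_ (Real.exp_pos _).le
    -- to the lower integrals
    obtain ⟨F, hF⟩ : ∃ F : (I → En n) → ℝ≥0∞, F = fun X =>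
        ENNReal.ofReal (Real.exp (-(1 / 2 * (s ^ 2 * Q X)))) := ⟨_, rfl⟩
    have hFm : Measurable F := by
      rw [hF]
      have hc : Continuous fun X : I → En n => Real.exp (-(1 / 2 * (s ^ 2 * Q X))) :=
        Real.continuous_exp.comp (continuous_const.mul (continuous_const.mul hQ.cont)).neg
      exact hc.measurable.ennreal_ofReal
    have h1 := lint_le (I := I) μ (volume : Measure (En n)) (co_cont B).measurable hms
      (measure_ne_top _ _) (Real.toNNReal (κ * (1 + C' * r))) (fun A hA => hCh.upper r hr hr0 A hA)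
      F hFm
    rw [← hbx, ← hP] at h1
    have h2 : ∫ U in bx, Real.exp (-(1 / 2 * (s ^ 2 * Q fun i => co B (U i)))) ∂P =
        (∫⁻ U in bx, F (fun i => co B (U i)) ∂P).toReal := by
      rw [hF, integral_eq_lintegral_of_nonneg_ae (Eventually.of_forall fun U => (Real.exp_pos _).le)]
      refine Continuous.aestronglyMeasurable ?_
      refine Real.continuous_exp.comp ?_
      refine (continuous_const.mul (continuous_const.mul (hQ.cont.comp ?_))).neg
      exact continuous_pi fun i => (co_cont B).comp (continuous_apply i)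
    have h3 : ∫⁻ X, F X ∂(Measure.pi fun _ : I => (volume : Measure (En n))) =
        ENNReal.ofReal ((s ^ (Fintype.card I * n))⁻¹ * JQ Q) := by
      rw [hF, ← hQ.scale hs.le, ofReal_integral_eq_lintegral_ofReal ?_
        (Eventually.of_forall fun U => (Real.exp_pos _).le)]
      · rfl
      · have := hQ.integrable hc1 (s := 1 / 2 * s ^ 2) (by positivity)
        refine this.congr (Eventually.of_forall fun X => ?_)
        simp only; congr 2; ring
    rw [h2]
    rw [h3] at h1
    have h4 : ((Real.toNNReal (κ * (1 + C' * r)) : ℝ≥0∞)) ^ Fintype.card I *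
        ENNReal.ofReal ((s ^ (Fintype.card I * n))⁻¹ * JQ Q) =
        ENNReal.ofReal ((1 + C' * r) ^ Fintype.card I * (κ ^ Fintype.card I *
          ((s ^ (Fintype.card I * n))⁻¹ * JQ Q))) := by
      have e1 : ((Real.toNNReal (κ * (1 + C' * r)) : ℝ≥0∞)) = ENNReal.ofReal (κ * (1 + C' * r)) := rfl
      rw [e1, ← ENNReal.ofReal_pow (by positivity), ← ENNReal.ofReal_mul (by positivity)]
      congr 1
      rw [mul_pow]; ring
    rw [h4] at h1
    have hJ : 0 ≤ JQ Q := integral_nonneg fun X => (Real.exp_pos _).le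
    refine (ENNReal.toReal_mono ENNReal.ofReal_ne_top h1).trans ?_
    rw [ENNReal.toReal_ofReal (by positivity)]
    apply le_of_eq; ring
  · -- outside the box
    calc ∫ U in bxᶜ, Real.exp (-(s ^ 2 * S U)) ∂P ≤ ∫ U in bxᶜ, Real.exp (-(s ^ 2 * c0 * r ^ 2)) ∂P := by
          refine setIntegral_mono_on hint.integrableOn (integrable_const _).integrableOn hbm.compl
            fun U hU => ?_
          refine Real.exp_le_exp.2 (neg_le_neg ?_)
          have h3 : ∃ i, r ≤ dg (U i) := by
            by_contra hc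
            push Not at hc
            refine hU ?_
            rw [hbx]
            intro i _
            exact hc i
          obtain ⟨i, hi⟩ := h3
          have h4 := hS.lower U i
          have h5 : c0 * r ^ 2 ≤ c0 * dg (U i) ^ 2 :=
            mul_le_mul_of_nonneg_left (pow_le_pow_left₀ hr.le hi 2) hc0.le
          have h6 : 0 < s ^ 2 := by positivity
          nlinarith
      _ ≤ ∫ U, Real.exp (-(s ^ 2 * c0 * r ^ 2)) ∂P :=
          setIntegral_le_integral (integrable_const _) (Eventually.of_forall fun U => (Real.exp_pos _).le)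
      _ = _ := by simp

/-- **Laplace's method, from below.** -/
theorem lap_lower (hCh : Ch B μ κ C' r0) (hS : Act B S Q c0 A r1) (hQ : QF Q c1 C2) (hc1 : 0 < c1)
    (hC2 : 0 < C2) {s r : ℝ} (hs : 0 < s) (hr : 0 < r) (hr0 : r ≤ r0) (hr1 : r ≤ r1) :
    Real.exp (-(s ^ 2 * A * r ^ 3)) *
      (1 - Real.sqrt 2 ^ (Fintype.card I * n) * Real.exp (-(s ^ 2 * c1 * (r / 2) ^ 2 / 4))) *
        (κ ^ Fintype.card I * (s ^ (Fintype.card I * n))⁻¹ * JQ Q) ≤
    ∫ U, Real.exp (-(s ^ 2 * S U)) ∂(Measure.pi fun _ : I => μ) := by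
  have hint := hS.integrable (μ := μ) (s ^ 2)
  obtain ⟨P, hP⟩ : ∃ P : Measure (I → G), P = Measure.pi fun _ : I => μ := ⟨_, rfl⟩
  rw [← hP] at hint ⊢
  have hPp : IsProbabilityMeasure P := by rw [hP]; infer_instance
  obtain ⟨bx, hbx⟩ : ∃ bx : Set (I → G), bx = Set.univ.pi fun _ : I => {g : G | dg g < r} := ⟨_, rfl⟩
  have hms : MeasurableSet {g : G | dg g < r} := (isOpen_lt dg_cont continuous_const).measurableSet
  have hbm : MeasurableSet bx := by rw [hbx]; exact MeasurableSet.univ_pi fun _ => hms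
  have hC := hCh.Cpos
  have hκ := hCh.κpos
  have hcF : Continuous fun U : I → G => Real.exp (-(1 / 2 * (s ^ 2 * Q fun i => co B (U i)))) := by
    refine Real.continuous_exp.comp ?_
    refine (continuous_const.mul (continuous_const.mul (hQ.cont.comp ?_))).neg
    exact continuous_pi fun i => (co_cont B).comp (continuous_apply i)
  have hle : ∫ U in bx, Real.exp (-(s ^ 2 * A * r ^ 3)) *
      Real.exp (-(1 / 2 * (s ^ 2 * Q fun i => co B (U i)))) ∂P ≤
      ∫ U in bx, Real.exp (-(s ^ 2 * S U)) ∂P := by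
    refine setIntegral_mono_on ?_ hint.integrableOn hbm fun U hU => ?_
    · have hc : Continuous fun U : I → G => Real.exp (-(s ^ 2 * A * r ^ 3)) *
          Real.exp (-(1 / 2 * (s ^ 2 * Q fun i => co B (U i)))) := continuous_const.mul hcF
      obtain ⟨M, hM⟩ := (isCompact_range hc).isBounded.exists_norm_le
      exact (Integrable.of_bound hc.aestronglyMeasurable M
        (Eventually.of_forall fun U => hM _ (Set.mem_range_self U))).integrableOn
    · rw [← Real.exp_add]
      refine Real.exp_le_exp.2 ?_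
      have h1 := hS.approx r hr hr1 U fun i => by
        rw [hbx] at hU
        exact hU i (Set.mem_univ _)
      have h2 := (abs_le.1 h1).2
      have h3 : 0 < s ^ 2 := by positivity
      nlinarith
  have hle2 : ∫ U in bx, Real.exp (-(s ^ 2 * S U)) ∂P ≤ ∫ U, Real.exp (-(s ^ 2 * S U)) ∂P :=
    setIntegral_le_integral hint (Eventually.of_forall fun U => (Real.exp_pos _).le)
  refine le_trans ?_ (hle.trans hle2)
  rw [integral_const_mul, mul_assoc]
  refine mul_le_mul_of_nonneg_left ?_ (Real.exp_pos _).le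
  obtain ⟨F, hF⟩ : ∃ F : (I → En n) → ℝ≥0∞, F = fun X =>
      ENNReal.ofReal (Real.exp (-(1 / 2 * (s ^ 2 * Q X)))) := ⟨_, rfl⟩
  have hcQ : Continuous fun X : I → En n => Real.exp (-(1 / 2 * (s ^ 2 * Q X))) :=
    Real.continuous_exp.comp (continuous_const.mul (continuous_const.mul hQ.cont)).neg
  have hFm : Measurable F := by
    rw [hF]
    exact hcQ.measurable.ennreal_ofReal
  have h1 := lint_ge (I := I) μ (volume : Measure (En n)) (co_cont B).measurable hms
    (measure_ne_top _ _) (measurableSet_ball (x := (0 : En n)) (ε := r / 2)) (Real.toNNReal κ)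
    (fun A hA hAb => hCh.lower r hr hr0 A hA hAb) F hFm
  rw [← hbx, ← hP] at h1
  have h2 : ∫ U in bx, Real.exp (-(1 / 2 * (s ^ 2 * Q fun i => co B (U i)))) ∂P =
      (∫⁻ U in bx, F (fun i => co B (U i)) ∂P).toReal := by
    rw [hF, integral_eq_lintegral_of_nonneg_ae (Eventually.of_forall fun U => (Real.exp_pos _).le)]
    exact hcF.aestronglyMeasurable
  have hQint : Integrable fun X : I → En n => Real.exp (-(1 / 2 * (s ^ 2 * Q X))) := by
    have := hQ.integrable hc1 (s := 1 / 2 * s ^ 2) (by positivity)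
    refine this.congr (Eventually.of_forall fun X => ?_)
    simp only; congr 2; ring
  have h3 : ∫⁻ X in Set.univ.pi fun _ : I => Metric.ball (0 : En n) (r / 2), F X
      ∂(Measure.pi fun _ : I => (volume : Measure (En n))) =
      ENNReal.ofReal (∫ X in Set.univ.pi fun _ : I => Metric.ball (0 : En n) (r / 2),
        Real.exp (-(1 / 2 * (s ^ 2 * Q X)))) := by
    rw [hF, ofReal_integral_eq_lintegral_ofReal hQint.integrableOn
      (Eventually.of_forall fun U => (Real.exp_pos _).le)]
    rfl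
  rw [h3] at h1
  have hfin : ∫⁻ U in bx, F (fun i => co B (U i)) ∂P ≠ ⊤ := by
    obtain ⟨M, hM⟩ := (isCompact_range hcF).isBounded.exists_norm_le
    have hi : Integrable (fun U : I → G => Real.exp (-(1 / 2 * (s ^ 2 * Q fun i => co B (U i))))) P :=
      Integrable.of_bound hcF.aestronglyMeasurable M
        (Eventually.of_forall fun U => hM _ (Set.mem_range_self U))
    have := (hi.integrableOn (s := bx)).lintegral_lt_top
    rw [hF]
    exact this.ne
  have h5 := hQ.tail hc1 hs (r := r / 2) (by positivity)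
  rw [h2]
  have h6 := ENNReal.toReal_mono hfin h1
  have e1 : ((Real.toNNReal κ : ℝ≥0∞)) = ENNReal.ofReal κ := rfl
  rw [e1, ENNReal.toReal_mul, ENNReal.toReal_pow, ENNReal.toReal_ofReal hκ.le,
    ENNReal.toReal_ofReal (setIntegral_nonneg (MeasurableSet.univ_pi fun _ => measurableSet_ball)
      fun X _ => (Real.exp_pos _).le)] at h6
  refine le_trans ?_ h6
  have h7 : 0 ≤ κ ^ Fintype.card I := by positivity
  calc _ = κ ^ Fintype.card I * ((s ^ (Fintype.card I * n))⁻¹ * JQ Q *
      (1 - Real.sqrt 2 ^ (Fintype.card I * n) * Real.exp (-(s ^ 2 * c1 * (r / 2) ^ 2 / 4)))) := by ring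
    _ ≤ _ := mul_le_mul_of_nonneg_left h5 h7

end

end Pool.Agent.T2H02.Gap
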