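import Mathlib
import Pool.Agent.W793.YM.Dev

/-!
# The cube: links, gauge transformations, the comb gauge
-/

open Matrix
open Pool.Agent.H906R3.YM Pool.Agent.W793.YM

namespace Pool.Agent.T2H02.Gap

set_option linter.unusedSectionVars false
set_option linter.unusedVariables false

noncomputable section

variable {D L : ℕ}

/-- sites of the cube -/
abbrev St (D L : ℕ) := Fin D → Fin L

/-- links of the cube -/
abbrev Lk (D L : ℕ) := {e : St D L × Fin D // (e.1 e.2 : ℕ) + 1 < L}

/-- initial site -/
def src (e : Lk D L) : St D L := e.1.1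

/-- direction -/
def dir (e : Lk D L) : Fin D := e.1.2

/-- final site -/
def tgt (e : Lk D L) : St D L := Function.update e.1.1 e.1.2 ⟨(e.1.1 e.1.2 : ℕ) + 1, e.2⟩

/-- natural coordinates -/
def cst (x : St D L) : Pt D := fun i => (x i : ℕ)

lemma cst_lt (x : St D L) (i : Fin D) : cst x i < L := (x i).2

lemma cst_tgt (e : Lk D L) : cst (tgt e) = cst (src e) + es (dir e) := by
  funext i
  unfold cst tgt src dir es
  by_cases h : i = e.1.2
  · subst h; simp
  · simp [h]

/-- the value on a link given by natural coordinates -/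
def lv {α : Type*} (z : α) (U : Lk D L → α) (w : Pt D) (k : Fin D) : α :=
  if h : (∀ i, w i < L) ∧ w k + 1 < L then U ⟨(fun i => ⟨w i, h.1 i⟩, k), h.2⟩ else z

lemma lv_link {α : Type*} (z : α) (U : Lk D L → α) (e : Lk D L) :
    lv z U (cst (src e)) (dir e) = U e := by
  unfold lv
  have h : (∀ i, cst (src e) i < L) ∧ cst (src e) (dir e) + 1 < L := ⟨cst_lt _, e.2⟩
  rw [dif_pos h]
  rfl

lemma exists_link {w : Pt D} {k : Fin D} (h1 : ∀ i, w i < L) (h2 : w k + 1 < L) :
    ∃ e : Lk D L, cst (src e) = w ∧ dir e = k :=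
  ⟨⟨(fun i => ⟨w i, h1 i⟩, k), h2⟩, rfl, rfl⟩

lemma lv_map {α β : Type*} (z : α) (U : Lk D L → α) (f : α → β) (w : Pt D) (k : Fin D) :
    lv (f z) (fun e => f (U e)) w k = f (lv z U w k) := by
  unfold lv
  split_ifs <;> rfl

/-! ### the comb path -/

/-- links of the comb path from `0` to `w`, with fuel -/
def pth : ℕ → Pt D → List (Pt D × Fin D)
  | 0, _ => []
  | k + 1, w => if h : ∃ i, 0 < w i then pth k (w - es (mi w h)) ++ [(w - es (mi w h), mi w h)]
      else []

section grp

variable {H : Type*} [Group H]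

lemma gam_eq (u : Pt D → Fin D → H) (k : ℕ) (w : Pt D) :
    gam u k w = ((pth k w).map fun p => u p.1 p.2).prod := by
  induction k generalizing w with
  | zero => rfl
  | succ k ih =>
    unfold gam pth
    split_ifs with h
    · rw [List.map_append, List.prod_append, ih]
      simp
    · simp

lemma fr_eq (u : Pt D → Fin D → H) (w : Pt D) :
    fr u w = ((pth (sz w) w).map fun p => u p.1 p.2).prod := gam_eq u _ w

lemma pth_length (k : ℕ) (w : Pt D) : (pth k w).length ≤ k := by
  induction k generalizing w with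
  | zero => simp [pth]
  | succ k ih =>
    unfold pth
    split_ifs with h
    · rw [List.length_append]
      have := ih (w - es (mi w h))
      simp
      omega
    · simp

lemma sz_le (x : St D L) : sz (cst x) ≤ D * L := by
  unfold sz
  calc ∑ i, cst x i ≤ ∑ _i : Fin D, L := Finset.sum_le_sum fun i _ => (cst_lt x i).le
    _ = D * L := by simp

/-- gauge transformation -/
def gt (g : St D L → H) (U : Lk D L → H) : Lk D L → H :=
  fun e => g (src e) * U e * (g (tgt e))⁻¹

/-- the comb gauge transformation -/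
def comb (U : Lk D L → H) (x : St D L) : H := fr (lv 1 U) (cst x)

/-- the configuration in the comb gauge -/
def hat (U : Lk D L → H) : Lk D L → H := gt (comb U) U

lemma hat_eq (U : Lk D L → H) (e : Lk D L) : hat U e = tl (lv 1 U) (cst (src e)) (dir e) := by
  unfold hat gt comb tl
  rw [lv_link, cst_tgt]

/-- site function on natural coordinates -/
def sv (g : St D L → H) (w : Pt D) : H := if h : ∀ i, w i < L then g (fun i => ⟨w i, h i⟩) else 1

lemma sv_cst (g : St D L → H) (x : St D L) : sv g (cst x) = g x := by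
  unfold sv
  rw [dif_pos (cst_lt x)]
  rfl

lemma lv_gt (g : St D L → H) (U : Lk D L → H) {w : Pt D} {k : Fin D} (h1 : ∀ i, w i < L)
    (h2 : w k + 1 < L) : lv 1 (gt g U) w k = sv g w * lv 1 U w k * (sv g (w + es k))⁻¹ := by
  obtain ⟨e, he, hk⟩ := exists_link h1 h2
  rw [← he, ← hk, lv_link, lv_link, ← cst_tgt, sv_cst, sv_cst]
  rfl

lemma sub_lt_of_lt {w : Pt D} {μ : Fin D} (h : ∀ i, w i < L) (i : Fin D) : (w - es μ) i < L :=
  lt_of_le_of_lt (Nat.sub_le _ _) (h i)

lemma sub_add_lt {w : Pt D} {μ : Fin D} (h : ∀ i, w i < L) (hp : 0 < w μ) :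
    (w - es μ) μ + 1 < L := by
  have h1 : (w - es μ) μ + 1 = w μ := by simp [es]; omega
  rw [h1]; exact h μ

/-- covariance of the comb path -/
lemma fr_gt (g : St D L → H) (U : Lk D L → H) (w : Pt D) (h : ∀ i, w i < L) :
    fr (lv 1 (gt g U)) w = sv g 0 * fr (lv 1 U) w * (sv g w)⁻¹ := by
  induction hn : sz w generalizing w with
  | zero =>
    have hw : w = 0 := by
      funext i
      by_contra hc
      have := sz_sub (Nat.pos_of_ne_zero hc)
      omega
    subst hw
    rw [fr_zero _ (by simp), fr_zero _ (by simp)]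
    group
  | succ q ih =>
    have hwp : ∃ i, 0 < w i := by
      by_contra hc
      push Not at hc
      have : sz w = 0 := Finset.sum_eq_zero fun i _ => Nat.le_zero.1 (hc i)
      omega
    have hp := mi_pos w hwp
    rw [fr_succ _ hwp, fr_succ (lv 1 U) hwp, ih _ (sub_lt_of_lt h) (by
      have := sz_sub hp; omega), lv_gt g U (sub_lt_of_lt h) (sub_add_lt h hp), sub_add_es hp]
    group

lemma comb_gt (g : St D L → H) (U : Lk D L → H) [NeZero L] (x : St D L) :
    comb (gt g U) x = g 0 * comb U x * (g x)⁻¹ := by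
  unfold comb
  rw [fr_gt g U (cst x) (cst_lt x), sv_cst]
  have h0 : sv g 0 = g 0 := by
    have : (0 : Pt D) = cst (0 : St D L) := by funext i; simp [cst]
    rw [this, sv_cst]
  rw [h0]

lemma comb_zero (U : Lk D L → H) [NeZero L] : comb U 0 = 1 := by
  unfold comb
  refine fr_zero _ ?_
  rintro ⟨i, hi⟩
  simp [cst] at hi

lemma gt_gt (g h : St D L → H) (U : Lk D L → H) : gt g (gt h U) = gt (fun x => g x * h x) U := by
  funext e
  unfold gt
  group

/-- the comb gauge does not change under the gauge transformations which are `1` at the origin -/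
lemma hat_gt (g : St D L → H) (U : Lk D L → H) [NeZero L] (h0 : g 0 = 1) :
    hat (gt g U) = hat U := by
  unfold hat
  rw [gt_gt]
  congr 1
  funext x
  rw [comb_gt, h0]
  group

/-- plaquettes are conjugated -/
lemma plq_gt (g : St D L → H) (U : Lk D L → H) {w : Pt D} {i j : Fin D} (hij : i ≠ j)
    (h : ∀ k, w k < L) (hi : w i + 1 < L) (hj : w j + 1 < L) :
    plq (lv 1 (gt g U)) w i j = sv g w * plq (lv 1 U) w i j * (sv g w)⁻¹ := by
  have e1 : ∀ {a : Fin D}, w a + 1 < L → ∀ k, (w + es a) k < L := by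
    intro a ha k
    by_cases hk : k = a
    · subst hk; simpa [es] using ha
    · simpa [es, hk] using h k
  have e2 : (w + es i) j + 1 < L := by simpa [es, hij.symm] using hj
  have e3 : (w + es j) i + 1 < L := by simpa [es, hij] using hi
  unfold plq
  rw [lv_gt g U h hi, lv_gt g U (e1 hi) e2, lv_gt g U (e1 hj) e3, lv_gt g U h hj,
    add_right_comm w (es j) (es i)]
  group

lemma fr_tree' (u : Pt D → Fin D → H) (w : Pt D) (k : Fin D) (h : ∀ i < k, w i = 0) :
    fr u (w + es k) = fr u w * u w k := by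
  have h2 : ∃ i, 0 < (w + es k) i := ⟨k, by simp [es]⟩
  have h3 : mi (w + es k) h2 = k := by
    refine mi_eq _ _ (by simp [es]) fun i hi => ?_
    simp [es, h i hi, hi.ne]
  rw [fr_succ u h2, h3, add_tsub_cancel_right]

lemma tl_tree' (u : Pt D → Fin D → H) (w : Pt D) (k : Fin D) (h : ∀ i < k, w i = 0) :
    tl u w k = 1 := by
  unfold tl
  rw [fr_tree' u w k h, mul_inv_cancel]

/-- one step of the non abelian Stokes formula -/
lemma tl_step' (u : Pt D → Fin D → H) (v : Pt D) (j k : Fin D) (hjk : j < k)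
    (hv : ∀ i < j, v i = 0) :
    tl u (v + es j) k = (fr u v * plq u v j k * (fr u v)⁻¹) * tl u v k := by
  have h1 : fr u (v + es j) = fr u v * u v j := fr_tree' u v j hv
  have h2 : fr u (v + es j + es k) = fr u (v + es k) * u (v + es k) j := by
    rw [add_right_comm]
    refine fr_tree' u _ j fun i hi => ?_
    simp only [Pi.add_apply, hv i hi, zero_add]
    exact es_ne (hi.trans hjk).ne
  unfold tl plq
  rw [h1, h2]
  group

/-- a flat configuration is trivial in the comb gauge -/
lemma tl_flat (u : Pt D → Fin D → H) (w : Pt D) (k : Fin D)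
    (h : ∀ v : Pt D, ∀ j, v ≤ w → j < k → v j + 1 ≤ w j → plq u v j k = 1) : tl u w k = 1 := by
  induction hn : sz w generalizing w with
  | zero =>
    have hw : ∀ i, w i = 0 := fun i => by
      by_contra hc
      have := sz_sub (Nat.pos_of_ne_zero hc)
      omega
    rw [tl_tree' u w k fun i _ => hw i]
  | succ q ih =>
    by_cases hz : ∀ i < k, w i = 0
    · rw [tl_tree' u w k hz]
    · push Not at hz
      obtain ⟨i, hi, hwi⟩ := hz
      have hwp : ∃ i, 0 < w i := ⟨i, Nat.pos_of_ne_zero hwi⟩
      obtain ⟨j, hj⟩ : ∃ j, j = mi w hwp := ⟨_, rfl⟩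
      have hji : j ≤ i := by rw [hj]; exact mi_le w hwp (Nat.pos_of_ne_zero hwi)
      have hjk : j < k := lt_of_le_of_lt hji hi
      have hjp : 0 < w j := by rw [hj]; exact mi_pos w hwp
      obtain ⟨v, hv⟩ : ∃ v : Pt D, v = w - es j := ⟨_, rfl⟩
      have hvw : v + es j = w := by rw [hv]; exact sub_add_es hjp
      have hle : v ≤ w := by rw [hv]; exact fun i => Nat.sub_le _ _
      have hsz := sz_sub hjp
      rw [← hv] at hsz
      have hv0 : ∀ i < j, v i = 0 := fun i' hi' => by
        have h1 : w i' = 0 := by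
          by_contra hc
          have h2 := mi_le w hwp (Nat.pos_of_ne_zero hc)
          rw [← hj] at h2
          exact absurd hi' (not_lt.2 h2)
        have h3 : v i' ≤ w i' := hle i'
        rw [h1] at h3
        exact Nat.le_zero.1 h3
      have hstep := tl_step' u v j k hjk hv0
      rw [hvw] at hstep
      have hvj : v j + 1 ≤ w j := by
        rw [← hvw]; simp [es]
      have h3 := ih v (fun v' j' hv' hj' hj'' => h v' j' (hv'.trans hle) hj'
        (hj''.trans (hle j'))) (by omega)
      have h4 := h v j hle hjk hvj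
      rw [hstep, h3, h4]
      group

end grp

/-! ### the linear version -/

section lin

variable {V : Type*} [AddCommGroup V]

/-- as a configuration with values in the multiplicative group -/
def mulc (X : Lk D L → V) : Lk D L → Multiplicative V := fun e => Multiplicative.ofAdd (X e)

/-- linear comb gauge -/
def hatL (X : Lk D L → V) : Lk D L → V := fun e => Multiplicative.toAdd (hat (mulc X) e)

/-- sum over the comb path -/
def pthL (X : Lk D L → V) (w : Pt D) : V := ((pth (sz w) w).map fun p => lv 0 X p.1 p.2).sum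

/-- circulation around a plaquette -/
def plqL (X : Lk D L → V) (w : Pt D) (i j : Fin D) : V :=
  lv 0 X w i + lv 0 X (w + es i) j - lv 0 X (w + es j) i - lv 0 X w j

lemma lv_mulc (X : Lk D L → V) (w : Pt D) (k : Fin D) :
    lv 1 (mulc X) w k = Multiplicative.ofAdd (lv 0 X w k) :=
  lv_map (0 : V) X Multiplicative.ofAdd w k

lemma fr_mulc (X : Lk D L → V) (w : Pt D) :
    fr (lv 1 (mulc X)) w = Multiplicative.ofAdd (pthL X w) := by
  rw [fr_eq]
  unfold pthL
  generalize pth (sz w) w = l
  induction l with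
  | nil => rfl
  | cons p l ih =>
    rw [List.map_cons, List.prod_cons, List.map_cons, List.sum_cons, ih, lv_mulc]
    rfl

lemma hatL_eq (X : Lk D L → V) (e : Lk D L) :
    hatL X e = pthL X (cst (src e)) + X e - pthL X (cst (tgt e)) := by
  unfold hatL hat gt comb
  rw [fr_mulc, fr_mulc]
  unfold mulc
  rw [← ofAdd_add, ← ofAdd_neg, ← ofAdd_add, toAdd_ofAdd, sub_eq_add_neg]

lemma plq_mulc (X : Lk D L → V) (w : Pt D) (i j : Fin D) :
    plq (lv 1 (mulc X)) w i j = Multiplicative.ofAdd (plqL X w i j) := by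
  unfold plq plqL
  rw [lv_mulc, lv_mulc, lv_mulc, lv_mulc, ← ofAdd_neg, ← ofAdd_neg, ← ofAdd_add, ← ofAdd_add,
    ← ofAdd_add, sub_eq_add_neg, sub_eq_add_neg]

/-- a curl free field vanishes in the comb gauge -/
lemma hatL_flat (X : Lk D L → V) (h : ∀ (w : Pt D) (i j : Fin D), i < j → (∀ k, w k < L) →
    w i + 1 < L → w j + 1 < L → plqL X w i j = 0) (e : Lk D L) : hatL X e = 0 := by
  unfold hatL
  rw [hat_eq, tl_flat]
  · rfl
  · intro v j hv hj hvj
    rw [plq_mulc, h v j (dir e) hj (fun k => lt_of_le_of_lt (hv k) (cst_lt _ k))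
      (lt_of_le_of_lt hvj (cst_lt _ j)) (lt_of_le_of_lt (Nat.succ_le_succ (hv _)) e.2)]
    rfl

/-- the comb gauge does not change the curl -/
lemma plqL_hatL (X : Lk D L → V) {w : Pt D} {i j : Fin D} (hij : i ≠ j)
    (h : ∀ k, w k < L) (hi : w i + 1 < L) (hj : w j + 1 < L) :
    plqL (hatL X) w i j = plqL X w i j := by
  have h1 := plq_gt (comb (mulc X)) (mulc X) hij h hi hj
  have h2 : gt (comb (mulc X)) (mulc X) = mulc (hatL X) := rfl
  rw [h2, plq_mulc, plq_mulc, mul_comm, inv_mul_cancel_left] at h1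
  exact Multiplicative.ofAdd.injective h1

end lin

end

end Pool.Agent.T2H02.Gap
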