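import Mathlib
import Pool.Agent.T2H02.Gap.Lap
import Pool.Agent.T2H02.Gap.Lat

/-!
# The action near the trivial configuration
-/

open MeasureTheory Matrix Filter
open scoped Matrix.Norms.Frobenius ContDiff Topology ENNReal NNReal
open Pool.Agent.H906R3.YM Pool.Agent.W793.YM Pool.Agent.TH618.YM

namespace Pool.Agent.T2H02.Gap

set_option linter.unusedSectionVars false
set_option linter.unusedVariables false

noncomputable section

variable {N n D L : ℕ} {G : Subgroup (UN N)}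

/-! ### products to first order -/

/-- the linear part -/
def cm (B : Frame G n) : Mat N →ₗ[ℝ] En n where
  toFun A := WithLp.toLp 2 fun a => ip (B.X a) A
  map_add' A A' := by ext a; simp
  map_smul' c A := by ext a; simp

lemma cm_apply (B : Frame G n) (A : Mat N) (a : Fin n) : cm B A a = ip (B.X a) A := rfl

lemma co_eq_cm (B : Frame G n) (g : G) : co B g = cm B (mt g - 1) := rfl

lemma norm_cm_sq (B : Frame G n) (A : Mat N) : ‖cm B A‖ ^ 2 = ‖A‖ ^ 2 - ‖perp B A‖ ^ 2 := by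
  rw [norm_perp_sq, EuclideanSpace.norm_sq_eq]
  simp only [cm_apply, Real.norm_eq_abs, sq_abs]
  ring

lemma perp_neg (B : Frame G n) (A : Mat N) : perp B (-A) = -perp B A := by
  unfold perp
  rw [neg_sub']
  congr 1
  rw [← Finset.sum_neg_distrib]
  exact Finset.sum_congr rfl fun a _ => by rw [map_neg, neg_smul]

lemma dg_mul (g h : G) : dg (g * h) ≤ dg g + dg h := by
  unfold dg
  have e : mt (g * h) - 1 = mt g * (mt h - 1) + (mt g - 1) := by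
    rw [mt_mul, mul_sub, mul_one]; abel
  rw [e]
  refine (norm_add_le _ _).trans ?_
  rw [norm_mt_mul]; linarith

lemma dg_one : dg (1 : G) = 0 := by unfold dg; rw [mt_one, sub_self, norm_zero]

lemma dg_inv (g : G) : dg g⁻¹ = dg g := by
  unfold dg
  have e : mt g⁻¹ - 1 = -(mt g⁻¹ * (mt g - 1)) := by
    rw [mul_sub, mt_inv_mul, mul_one]; abel
  rw [e, norm_neg, norm_mt_mul]

lemma norm_mul_mt (g : G) (A : Mat N) : ‖A * mt g‖ = ‖A‖ := by
  have h : A * mt g = (mt g⁻¹ * Aᴴ)ᴴ := by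
    have e : (mt g⁻¹)ᴴ = mt g := by
      have e1 : mt g⁻¹ * (mt g⁻¹)ᴴ = 1 := by
        have := (Matrix.mem_unitaryGroup_iff (A := mt g⁻¹)).1 ((g⁻¹ : G) : UN N).2
        exact this
      calc (mt g⁻¹)ᴴ = (mt g * mt g⁻¹) * (mt g⁻¹)ᴴ := by rw [mt_mul_inv, one_mul]
        _ = mt g := by rw [mul_assoc, e1, mul_one]
    rw [conjTranspose_mul, conjTranspose_conjTranspose, e]
  rw [h, norm_ct, norm_mt_mul, norm_ct]

lemma dg_conj (h g : G) : dg (h * g * h⁻¹) = dg g := by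
  unfold dg
  have e : mt (h * g * h⁻¹) - 1 = mt h * (mt g - 1) * mt h⁻¹ := by
    rw [mt_mul, mt_mul, mul_sub, sub_mul, mul_one, mt_mul_inv]
  rw [e, norm_mul_mt, norm_mt_mul]

lemma dg_div (g h : G) : dg (g * h⁻¹) = ‖mt g - mt h‖ := by
  unfold dg
  have e : mt (g * h⁻¹) - 1 = (mt g - mt h) * mt h⁻¹ := by
    rw [mt_mul, sub_mul, mt_mul_inv]
  rw [e, norm_mul_mt]

/-- `g` is `1 + v` up to errors of second order, in terms of the scale `r` and of the number `K` of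
factors -/
def Ap (B : Frame G n) (Cc : ℝ) (g : G) (v : En n) (K r : ℝ) : Prop :=
  dg g ≤ K * r ∧ ∃ M : Mat N, cm B M = v ∧ ‖perp B M‖ ≤ K * Cc * r ^ 2 ∧
    ‖mt g - 1 - M‖ ≤ K ^ 2 * r ^ 2

/-- the constant of the group -/
def Cart (B : Frame G n) (Cc : ℝ) : Prop := 1 ≤ Cc ∧ ∀ g : G, ‖perp B (mt g - 1)‖ ≤ Cc * dg g ^ 2

lemma exists_Cart [CompactSpace G] [SecondCountableTopology G] [MeasurableSpace G] [BorelSpace G]
    (B : Frame G n) (hG : IsClosed (G : Set (UN N))) : ∃ Cc, Cart B Cc := by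
  obtain ⟨C, hC, hc⟩ := cartan B hG
  refine ⟨max 1 (Real.sqrt C), le_max_left _ _, fun g => ?_⟩
  have h2 := hc g
  have h3 := norm_perp_sq B (mt g - 1)
  have h4 : ‖perp B (mt g - 1)‖ ^ 2 ≤ (Real.sqrt C * dg g ^ 2) ^ 2 := by
    rw [mul_pow, Real.sq_sqrt hC.le, h3]
    unfold dg
    nlinarith
  have h5 : ‖perp B (mt g - 1)‖ ≤ Real.sqrt C * dg g ^ 2 :=
    abs_le_of_sq_le_sq' h4 (by positivity) |>.2
  exact h5.trans (mul_le_mul_of_nonneg_right (le_max_right _ _) (sq_nonneg _))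

variable {B : Frame G n} {Cc : ℝ}

lemma ap_self (hC : Cart B Cc) {g : G} {r : ℝ} (h : dg g ≤ r) : Ap B Cc g (co B g) 1 r := by
  have h0 := dg_nonneg g
  have hc := hC.1
  refine ⟨by linarith, mt g - 1, rfl, ?_, ?_⟩
  · refine (hC.2 g).trans ?_
    have : dg g ^ 2 ≤ r ^ 2 := pow_le_pow_left₀ h0 h 2
    nlinarith
  · rw [sub_self, norm_zero]; positivity

lemma ap_inv_self (hC : Cart B Cc) {g : G} {r : ℝ} (h : dg g ≤ r) :
    Ap B Cc g⁻¹ (-co B g) 1 r := by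
  have h0 := dg_nonneg g
  have hc := hC.1
  refine ⟨by rw [dg_inv]; linarith, -(mt g - 1), ?_, ?_, ?_⟩
  · rw [map_neg]; rfl
  · rw [perp_neg, norm_neg]
    refine (hC.2 g).trans ?_
    have : dg g ^ 2 ≤ r ^ 2 := pow_le_pow_left₀ h0 h 2
    nlinarith
  · have e : mt g⁻¹ - 1 - -(mt g - 1) = -((mt g⁻¹ - 1) * (mt g - 1)) := by
      have e1 : (mt g⁻¹ - 1) * (mt g - 1) = mt g⁻¹ * mt g - mt g⁻¹ - mt g + 1 := by noncomm_ring
      rw [e1, mt_inv_mul]; abel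
    rw [e, norm_neg]
    refine (norm_mul_le _ _).trans ?_
    have e2 : ‖mt g⁻¹ - 1‖ = dg g := dg_inv g
    have e3 : ‖mt g - 1‖ = dg g := rfl
    rw [e2, e3]
    nlinarith

lemma ap_one (r : ℝ) : Ap B Cc 1 0 0 r := by
  refine ⟨by rw [dg_one]; simp, 0, map_zero _, ?_, ?_⟩
  · have : perp B (0 : Mat N) = 0 := by unfold perp; simp
    rw [this]; simp
  · rw [mt_one]; simp

lemma ap_mul {g h : G} {v w : En n} {K K' r : ℝ} (hK : 0 ≤ K) (hK' : 0 ≤ K')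
    (hg : Ap B Cc g v K r) (hh : Ap B Cc h w K' r) : Ap B Cc (g * h) (v + w) (K + K') r := by
  obtain ⟨g1, M, g2, g3, g4⟩ := hg
  obtain ⟨h1, M', h2, h3, h4⟩ := hh
  refine ⟨(dg_mul g h).trans (by linarith), M + M', by rw [map_add, g2, h2], ?_, ?_⟩
  · rw [perp_add]
    refine (norm_add_le _ _).trans ?_
    linarith
  · have e : mt (g * h) - 1 - (M + M') = (mt g - 1 - M) + (mt h - 1 - M') +
        (mt g - 1) * (mt h - 1) := by rw [mt_mul]; noncomm_ring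
    rw [e]
    refine (norm_add_le _ _).trans ?_
    have h5 : ‖(mt g - 1) * (mt h - 1)‖ ≤ (K * r) * (K' * r) := by
      refine (norm_mul_le _ _).trans ?_
      exact mul_le_mul g1 h1 (norm_nonneg _) ((dg_nonneg g).trans g1)
    have h6 := norm_add_le (mt g - 1 - M) (mt h - 1 - M')
    have h7 : 0 ≤ K * K' * r ^ 2 := by positivity
    nlinarith

lemma ap_inv {g : G} {v : En n} {K r : ℝ} (hC : Cart B Cc) (hK : 0 ≤ K) (hg : Ap B Cc g v K r) :
    Ap B Cc g⁻¹ (-v) (2 * K) r := by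
  obtain ⟨g1, M, g2, g3, g4⟩ := hg
  have h0 := dg_nonneg g
  have hc := hC.1
  refine ⟨by rw [dg_inv]; linarith, -M, by rw [map_neg, g2], ?_, ?_⟩
  · rw [perp_neg, norm_neg]
    refine g3.trans ?_
    have : 0 ≤ K * Cc * r ^ 2 := by positivity
    linarith
  · have e : mt g⁻¹ - 1 - -M = -((mt g⁻¹ - 1) * (mt g - 1)) - (mt g - 1 - M) := by
      have e1 : (mt g⁻¹ - 1) * (mt g - 1) = mt g⁻¹ * mt g - mt g⁻¹ - mt g + 1 := by noncomm_ring
      rw [e1, mt_inv_mul]; abel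
    rw [e]
    refine (norm_sub_le _ _).trans ?_
    rw [norm_neg]
    have h5 : ‖(mt g⁻¹ - 1) * (mt g - 1)‖ ≤ (K * r) * (K * r) := by
      refine (norm_mul_le _ _).trans ?_
      have e2 : ‖mt g⁻¹ - 1‖ ≤ K * r := by
        have := dg_inv g
        unfold dg at this
        rw [this]; exact g1
      exact mul_le_mul e2 g1 (norm_nonneg _) (h0.trans g1)
    have h7 : 0 ≤ K ^ 2 * r ^ 2 := by positivity
    nlinarith

lemma ap_mono {g : G} {v : En n} {K K' r : ℝ} (hC : Cart B Cc) (hK : 0 ≤ K) (hKK : K ≤ K')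
    (hr : 0 ≤ r) (hg : Ap B Cc g v K r) : Ap B Cc g v K' r := by
  obtain ⟨g1, M, g2, g3, g4⟩ := hg
  have hc := hC.1
  refine ⟨g1.trans (mul_le_mul_of_nonneg_right hKK hr), M, g2, g3.trans ?_, g4.trans ?_⟩
  · have : K * (Cc * r ^ 2) ≤ K' * (Cc * r ^ 2) := mul_le_mul_of_nonneg_right hKK (by positivity)
    nlinarith
  · exact mul_le_mul_of_nonneg_right (pow_le_pow_left₀ hK hKK 2) (sq_nonneg r)

/-- energy of a group element -/
def en (g : G) : ℝ := 1 / 2 * dg g ^ 2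

lemma en_nonneg (g : G) : 0 ≤ en g := by unfold en; positivity

lemma ap_en {g : G} {v : En n} {K r : ℝ} (hC : Cart B Cc) (hK : 1 ≤ K) (hr : 0 ≤ r) (hr1 : r ≤ 1)
    (hg : Ap B Cc g v K r) : |en g - 1 / 2 * ‖v‖ ^ 2| ≤ 5 * Cc ^ 2 * K ^ 4 * r ^ 3 := by
  obtain ⟨g1, M, g2, g3, g4⟩ := hg
  have hc := hC.1
  obtain ⟨R, hR⟩ : ∃ R, R = mt g - 1 - M := ⟨_, rfl⟩
  rw [← hR] at g4
  have hMR : mt g - 1 = M + R := by rw [hR]; abel
  have h1 : ‖v‖ ^ 2 = ‖M‖ ^ 2 - ‖perp B M‖ ^ 2 := by rw [← g2]; exact norm_cm_sq B M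
  have hr2 : r ^ 2 ≤ r := by nlinarith
  have hM : ‖M‖ ≤ 2 * K ^ 2 * r := by
    have e : M = (mt g - 1) - R := by rw [hMR]; abel
    have h2 : ‖M‖ ≤ ‖mt g - 1‖ + ‖R‖ := by
      conv_lhs => rw [e]
      exact norm_sub_le _ _
    have h3 : ‖mt g - 1‖ ≤ K * r := g1
    have h4 : K * r ≤ K ^ 2 * r := by
      have : K ≤ K ^ 2 := by nlinarith
      exact mul_le_mul_of_nonneg_right this hr
    have h5 : K ^ 2 * r ^ 2 ≤ K ^ 2 * r := mul_le_mul_of_nonneg_left hr2 (by positivity)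
    linarith
  have h6 : |dg g ^ 2 - ‖M‖ ^ 2| ≤ 2 * ‖M‖ * ‖R‖ + ‖R‖ ^ 2 := by
    have e : dg g = ‖M + R‖ := by unfold dg; rw [hMR]
    rw [e]
    have h7 : ‖M + R‖ ≤ ‖M‖ + ‖R‖ := norm_add_le _ _
    have h8 : ‖M‖ ≤ ‖M + R‖ + ‖R‖ := by
      have : M = (M + R) - R := by abel
      conv_lhs => rw [this]
      exact norm_sub_le _ _
    have h9 := norm_nonneg (M + R)
    have h10 := norm_nonneg M
    have h11 := norm_nonneg R
    rw [abs_le]
    constructor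
    · nlinarith [mul_nonneg h10 h11]
    · nlinarith
  have h12 : 2 * ‖M‖ * ‖R‖ + ‖R‖ ^ 2 ≤ 5 * K ^ 4 * r ^ 3 := by
    have h13 : ‖M‖ * ‖R‖ ≤ (2 * K ^ 2 * r) * (K ^ 2 * r ^ 2) :=
      mul_le_mul hM g4 (norm_nonneg _) (by positivity)
    have h14 : ‖R‖ ^ 2 ≤ (K ^ 2 * r ^ 2) ^ 2 := pow_le_pow_left₀ (norm_nonneg _) g4 2
    have h15 : (K ^ 2 * r ^ 2) ^ 2 ≤ K ^ 4 * r ^ 3 := by
      have : r ^ 4 ≤ r ^ 3 := pow_le_pow_of_le_one hr hr1 (by norm_num)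
      calc (K ^ 2 * r ^ 2) ^ 2 = K ^ 4 * r ^ 4 := by ring
        _ ≤ K ^ 4 * r ^ 3 := mul_le_mul_of_nonneg_left this (by positivity)
    nlinarith
  have h16 : ‖perp B M‖ ^ 2 ≤ Cc ^ 2 * K ^ 4 * r ^ 3 := by
    have h17 := pow_le_pow_left₀ (norm_nonneg _) g3 2
    have h18 : (K * Cc * r ^ 2) ^ 2 ≤ Cc ^ 2 * K ^ 4 * r ^ 3 := by
      have h19 : r ^ 4 ≤ r ^ 3 := pow_le_pow_of_le_one hr hr1 (by norm_num)
      have h20 : K ^ 2 ≤ K ^ 4 := pow_le_pow_right₀ hK (by norm_num)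
      calc (K * Cc * r ^ 2) ^ 2 = Cc ^ 2 * (K ^ 2 * r ^ 4) := by ring
        _ ≤ Cc ^ 2 * (K ^ 4 * r ^ 3) := by
            refine mul_le_mul_of_nonneg_left ?_ (by positivity)
            exact mul_le_mul h20 h19 (by positivity) (by positivity)
        _ = _ := by ring
    linarith
  have h21 : 5 * K ^ 4 * r ^ 3 ≤ 5 * Cc ^ 2 * K ^ 4 * r ^ 3 := by
    have : (1 : ℝ) ≤ Cc ^ 2 := one_le_pow₀ hc
    have h22 : 0 ≤ K ^ 4 * r ^ 3 := by positivity
    nlinarith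
  have h23 : 0 ≤ Cc ^ 2 * K ^ 4 * r ^ 3 := by positivity
  unfold en
  rw [h1]
  rw [abs_le] at h6 ⊢
  have h24 := sq_nonneg ‖perp B M‖
  constructor <;> nlinarith [h6.1, h6.2]

end

end Pool.Agent.T2H02.Gap
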