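import Mathlib
import Pool.Agent.T2H02.Gap.Act

/-!
# The action of the chain of configurations
-/

open MeasureTheory Matrix Filter
open scoped Matrix.Norms.Frobenius ContDiff Topology ENNReal NNReal
open Pool.Agent.H906R3.YM Pool.Agent.W793.YM Pool.Agent.TH618.YM

namespace Pool.Agent.T2H02.Gap

set_option linter.unusedSectionVars false
set_option linter.unusedVariables false

noncomputable section

variable {N n D L : ℕ} {G : Subgroup (UN N)}

/-- the plaquette at `x` in the directions `i`, `j` is in the cube -/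
def PIn (x : St D L) (i j : Fin D) : Prop := i < j ∧ (x i : ℕ) + 1 < L ∧ (x j : ℕ) + 1 < L

instance (x : St D L) (i j : Fin D) : Decidable (PIn x i j) := by unfold PIn; infer_instance

/-- magnetic energy -/
def mag (U : Lk D L → G) : ℝ := ∑ x : St D L, ∑ i : Fin D, ∑ j : Fin D,
  if PIn x i j then en (plq (lv 1 U) (cst x) i j) else 0

/-- electric energy -/
def kin (U V : Lk D L → G) : ℝ := ∑ e, en (U e * (V e)⁻¹)

/-- energy of a chain of configurations -/
def chn : (j : ℕ) → (Lk D L → G) → (Fin j → Lk D L → G) → (Lk D L → G) → ℝ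
  | 0, A, _, Z => kin A Z
  | j + 1, A, W, Z => kin A (W 0) + mag (W 0) + chn j (W 0) (fun i => W i.succ) Z

/-- conjugation -/
def cj (P : G) (U : Lk D L → G) : Lk D L → G := fun e => P * U e * P⁻¹

/-- the action -/
def act (j : ℕ) (P : G) (U : Fin (j + 1) → Lk D L → G) : ℝ :=
  mag (U 0) + chn j (hat (U 0)) (fun i => U i.succ) (cj P (U 0))

/-! ### the quadratic forms -/

variable {V : Type*} [NormedAddCommGroup V]

/-- magnetic energy, linear version -/
def magQ (X : Lk D L → V) : ℝ := ∑ x : St D L, ∑ i : Fin D, ∑ j : Fin D,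
  if PIn x i j then ‖plqL X (cst x) i j‖ ^ 2 else 0

/-- electric energy, linear version -/
def kinQ (X Y : Lk D L → V) : ℝ := ∑ e, ‖X e - Y e‖ ^ 2

/-- energy of a chain, linear version -/
def chnQ : (j : ℕ) → (Lk D L → V) → (Fin j → Lk D L → V) → (Lk D L → V) → ℝ
  | 0, A, _, Z => kinQ A Z
  | j + 1, A, W, Z => kinQ A (W 0) + magQ (W 0) + chnQ j (W 0) (fun i => W i.succ) Z

lemma mag_nonneg (U : Lk D L → G) : 0 ≤ mag U :=
  Finset.sum_nonneg fun x _ => Finset.sum_nonneg fun i _ => Finset.sum_nonneg fun j _ => by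
    split_ifs
    · exact en_nonneg _
    · exact le_rfl

lemma kin_nonneg (U V : Lk D L → G) : 0 ≤ kin U V := Finset.sum_nonneg fun e _ => en_nonneg _

lemma chn_nonneg (j : ℕ) (A : Lk D L → G) (W : Fin j → Lk D L → G) (Z : Lk D L → G) :
    0 ≤ chn j A W Z := by
  induction j generalizing A with
  | zero => exact kin_nonneg _ _
  | succ j ih =>
    have := ih (W 0) (fun i => W i.succ)
    have h1 := kin_nonneg A (W 0)
    have h2 := mag_nonneg (W 0)
    show 0 ≤ kin A (W 0) + mag (W 0) + chn j (W 0) (fun i => W i.succ) Z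
    linarith

/-! ### approximation -/

variable {B : Frame G n} {Cc : ℝ}

lemma ap_lv (hC : Cart B Cc) {U : Lk D L → G} {r : ℝ} (hr : 0 ≤ r) (h : ∀ e, dg (U e) ≤ r)
    (w : Pt D) (k : Fin D) : Ap B Cc (lv 1 U w k) (lv 0 (fun e => co B (U e)) w k) 1 r := by
  unfold lv
  split_ifs with hh
  · exact ap_self hC (h _)
  · exact ap_mono hC le_rfl zero_le_one hr (ap_one r)

lemma ap_lv_inv (hC : Cart B Cc) {U : Lk D L → G} {r : ℝ} (hr : 0 ≤ r) (h : ∀ e, dg (U e) ≤ r)
    (w : Pt D) (k : Fin D) : Ap B Cc (lv 1 U w k)⁻¹ (-lv 0 (fun e => co B (U e)) w k) 1 r := by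
  unfold lv
  split_ifs with hh
  · exact ap_inv_self hC (h _)
  · rw [inv_one, neg_zero]
    exact ap_mono hC le_rfl zero_le_one hr (ap_one r)

lemma ap_list (hC : Cart B Cc) {U : Lk D L → G} {r : ℝ} (hr : 0 ≤ r) (h : ∀ e, dg (U e) ≤ r)
    (l : List (Pt D × Fin D)) : Ap B Cc (l.map fun p => lv 1 U p.1 p.2).prod
      (l.map fun p => lv 0 (fun e => co B (U e)) p.1 p.2).sum l.length r := by
  induction l with
  | nil => simpa using ap_one r
  | cons p l ih =>
    rw [List.map_cons, List.prod_cons, List.map_cons, List.sum_cons, List.length_cons]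
    have := ap_mul zero_le_one (Nat.cast_nonneg _) (ap_lv hC hr h p.1 p.2) ih
    push_cast
    rw [add_comm (l.length : ℝ) 1]
    exact this

lemma ap_comb (hC : Cart B Cc) {U : Lk D L → G} {r : ℝ} (hr : 0 ≤ r) (h : ∀ e, dg (U e) ≤ r)
    (x : St D L) : Ap B Cc (comb U x) (pthL (fun e => co B (U e)) (cst x)) (D * L) r := by
  unfold comb
  rw [fr_eq]
  refine ap_mono hC (Nat.cast_nonneg _) ?_ hr (ap_list hC hr h _)
  have h1 := pth_length (sz (cst x)) (cst x)
  have h2 := sz_le x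
  exact_mod_cast h1.trans h2

lemma ap_hat (hC : Cart B Cc) {U : Lk D L → G} {r : ℝ} (hr : 0 ≤ r) (h : ∀ e, dg (U e) ≤ r)
    (e : Lk D L) : Ap B Cc (hat U e) (hatL (fun e => co B (U e)) e) (3 * (D * L) + 1) r := by
  unfold hat gt
  rw [hatL_eq, sub_eq_add_neg]
  have h1 := ap_comb hC hr h (src e)
  have h2 := ap_self hC (h e)
  have h3 := ap_inv hC (by positivity) (ap_comb hC hr h (tgt e))
  have h4 := ap_mul (by positivity) (by positivity) (ap_mul (by positivity) (by positivity) h1 h2) h3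
  refine ap_mono hC (by positivity) ?_ hr h4
  linarith

lemma ap_plq (hC : Cart B Cc) {U : Lk D L → G} {r : ℝ} (hr : 0 ≤ r) (h : ∀ e, dg (U e) ≤ r)
    (w : Pt D) (i j : Fin D) : Ap B Cc (plq (lv 1 U) w i j) (plqL (fun e => co B (U e)) w i j) 4 r := by
  unfold plq plqL
  rw [sub_eq_add_neg, sub_eq_add_neg]
  have h4 := ap_mul (by positivity) (by positivity) (ap_mul (by positivity) (by positivity)
    (ap_mul (by positivity) (by positivity) (ap_lv hC hr h w i) (ap_lv hC hr h (w + es i) j))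
    (ap_lv_inv hC hr h (w + es j) i)) (ap_lv_inv hC hr h w j)
  refine ap_mono hC (by positivity) ?_ hr h4
  norm_num

lemma card_St : (Fintype.card (St D L) : ℝ) = (L : ℝ) ^ D := by simp

lemma card_Lk_le : (Fintype.card (Lk D L) : ℝ) ≤ D * (L : ℝ) ^ D := by
  have h1 : Fintype.card (Lk D L) ≤ Fintype.card (St D L × Fin D) :=
    Fintype.card_subtype_le _
  have h2 : Fintype.card (St D L × Fin D) = L ^ D * D := by simp
  rw [h2] at h1
  have h3 : (Fintype.card (Lk D L) : ℝ) ≤ ((L ^ D * D : ℕ) : ℝ) := by exact_mod_cast h1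
  push_cast at h3
  linarith

lemma mag_approx (hC : Cart B Cc) {U : Lk D L → G} {r : ℝ} (hr : 0 ≤ r) (hr1 : r ≤ 1)
    (h : ∀ e, dg (U e) ≤ r) : |mag U - 1 / 2 * magQ (fun e => co B (U e))| ≤
      (L : ℝ) ^ D * D ^ 2 * (5 * Cc ^ 2 * 4 ^ 4 * r ^ 3) := by
  unfold mag magQ
  simp only [Finset.mul_sum, ← Finset.sum_sub_distrib]
  have hc := hC.1
  calc _ ≤ ∑ x : St D L, ∑ i : Fin D, ∑ j : Fin D, 5 * Cc ^ 2 * 4 ^ 4 * r ^ 3 := by
        refine (Finset.abs_sum_le_sum_abs _ _).trans (Finset.sum_le_sum fun x _ => ?_)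
        refine (Finset.abs_sum_le_sum_abs _ _).trans (Finset.sum_le_sum fun i _ => ?_)
        refine (Finset.abs_sum_le_sum_abs _ _).trans (Finset.sum_le_sum fun j _ => ?_)
        split_ifs
        · exact ap_en hC (by norm_num) hr hr1 (ap_plq hC hr h _ _ _)
        · simp; positivity
    _ = _ := by
      simp only [Finset.sum_const, Finset.card_univ, Fintype.card_fin, nsmul_eq_mul, card_St]
      ring

lemma kin_approx (hC : Cart B Cc) {A Z : Lk D L → G} {a z : Lk D L → En n} {K K' r : ℝ}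
    (hK : 1 ≤ K) (hK' : 0 ≤ K') (hr : 0 ≤ r) (hr1 : r ≤ 1)
    (hA : ∀ e, Ap B Cc (A e) (a e) K r) (hZ : ∀ e, Ap B Cc (Z e) (z e) K' r) :
    |kin A Z - 1 / 2 * kinQ a z| ≤
      D * (L : ℝ) ^ D * (5 * Cc ^ 2 * (K + 2 * K') ^ 4 * r ^ 3) := by
  unfold kin kinQ
  simp only [Finset.mul_sum, ← Finset.sum_sub_distrib]
  have hc := hC.1
  calc _ ≤ ∑ e : Lk D L, 5 * Cc ^ 2 * (K + 2 * K') ^ 4 * r ^ 3 := by
        refine (Finset.abs_sum_le_sum_abs _ _).trans (Finset.sum_le_sum fun e _ => ?_)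
        have h1 := ap_mul (by positivity) (by positivity) (hA e) (ap_inv hC hK' (hZ e))
        rw [← sub_eq_add_neg] at h1
        exact ap_en hC (by linarith) hr hr1 h1
    _ = Fintype.card (Lk D L) * (5 * Cc ^ 2 * (K + 2 * K') ^ 4 * r ^ 3) := by
      simp only [Finset.sum_const, Finset.card_univ, nsmul_eq_mul]
    _ ≤ _ := mul_le_mul_of_nonneg_right card_Lk_le (by positivity)

/-- the error constant -/
def Terr (D L : ℕ) (Cc : ℝ) : ℝ := (L : ℝ) ^ D * D ^ 2 * (5 * Cc ^ 2 * (3 * (D * L) + 4) ^ 4)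

lemma Terr_mag {r : ℝ} (hr : 0 ≤ r) : (L : ℝ) ^ D * D ^ 2 * (5 * Cc ^ 2 * 4 ^ 4 * r ^ 3) ≤
    Terr D L Cc * r ^ 3 := by
  unfold Terr
  have h1 : (4 : ℝ) ^ 4 ≤ (3 * (D * L) + 4) ^ 4 := by
    refine pow_le_pow_left₀ (by norm_num) ?_ 4
    have : (0 : ℝ) ≤ 3 * (D * L) := by positivity
    linarith
  have h2 : 0 ≤ (L : ℝ) ^ D * D ^ 2 * (5 * Cc ^ 2) * r ^ 3 := by positivity
  calc _ = (L : ℝ) ^ D * D ^ 2 * (5 * Cc ^ 2) * r ^ 3 * 4 ^ 4 := by ring
    _ ≤ (L : ℝ) ^ D * D ^ 2 * (5 * Cc ^ 2) * r ^ 3 * (3 * (D * L) + 4) ^ 4 :=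
        mul_le_mul_of_nonneg_left h1 h2
    _ = _ := by ring

lemma Terr_kin {K r : ℝ} (hK0 : 0 ≤ K) (hK : K ≤ 3 * (D * L) + 4) (hr : 0 ≤ r) :
    D * (L : ℝ) ^ D * (5 * Cc ^ 2 * K ^ 4 * r ^ 3) ≤ Terr D L Cc * r ^ 3 := by
  unfold Terr
  have h1 : K ^ 4 ≤ (3 * (D * L) + 4) ^ 4 := pow_le_pow_left₀ hK0 hK 4
  have h3 : (D : ℝ) ≤ (D : ℝ) ^ 2 := by
    rcases Nat.eq_zero_or_pos D with h | h
    · rw [h]; norm_num
    · have : (1 : ℝ) ≤ D := by exact_mod_cast h
      nlinarith
  have h2 : 0 ≤ (L : ℝ) ^ D * (5 * Cc ^ 2) * r ^ 3 := by positivity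
  calc _ = (L : ℝ) ^ D * (5 * Cc ^ 2) * r ^ 3 * (D * K ^ 4) := by ring
    _ ≤ (L : ℝ) ^ D * (5 * Cc ^ 2) * r ^ 3 * (D ^ 2 * (3 * (D * L) + 4) ^ 4) := by
        refine mul_le_mul_of_nonneg_left ?_ h2
        exact mul_le_mul h3 h1 (by positivity) (by positivity)
    _ = _ := by ring

lemma Terr_nonneg : 0 ≤ Terr D L Cc := by unfold Terr; positivity

lemma chn_approx (hC : Cart B Cc) (j : ℕ) {A Z : Lk D L → G} {W : Fin j → Lk D L → G}
    {a z : Lk D L → En n} {r : ℝ} (hr : 0 ≤ r) (hr1 : r ≤ 1)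
    (hA : ∀ e, Ap B Cc (A e) (a e) (3 * (D * L) + 1) r) (hZ : ∀ e, Ap B Cc (Z e) (z e) 1 r)
    (hW : ∀ i e, dg (W i e) ≤ r) :
    |chn j A W Z - 1 / 2 * chnQ j a (fun i e => co B (W i e)) z| ≤
      (2 * j + 1) * (Terr D L Cc * r ^ 3) := by
  have hDL : (0 : ℝ) ≤ D * L := by positivity
  have hT : 0 ≤ Terr D L Cc * r ^ 3 := mul_nonneg Terr_nonneg (by positivity)
  induction j generalizing A a with
  | zero =>
    have h1 := kin_approx (D := D) (L := L) hC (by linarith) zero_le_one hr hr1 hA hZ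
    have h2 := Terr_kin (D := D) (L := L) (Cc := Cc) (K := 3 * (D * L) + 1 + 2 * 1)
      (by positivity) (by linarith) hr
    simp only [chn, chnQ, Nat.cast_zero, mul_zero, zero_add, one_mul]
    exact h1.trans h2
  | succ j ih =>
    have h0 : ∀ e, Ap B Cc (W 0 e) (co B (W 0 e)) 1 r := fun e => ap_self hC (hW 0 e)
    have h1 := kin_approx (D := D) (L := L) hC (by linarith) zero_le_one hr hr1 hA h0
    have h2 := Terr_kin (D := D) (L := L) (Cc := Cc) (K := 3 * (D * L) + 1 + 2 * 1)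
      (by positivity) (by linarith) hr
    have h3 := mag_approx hC hr hr1 (hW 0)
    have h4 := Terr_mag (D := D) (L := L) (Cc := Cc) hr
    have h5 := ih (A := W 0) (a := fun e => co B (W 0 e)) (W := fun i => W i.succ)
      (fun e => ap_mono hC zero_le_one (by linarith) hr (h0 e)) (fun i e => hW _ e)
    have e1 : chn (j + 1) A W Z - 1 / 2 * chnQ (j + 1) a (fun i e => co B (W i e)) z =
        (kin A (W 0) - 1 / 2 * kinQ a (fun e => co B (W 0 e))) +
        (mag (W 0) - 1 / 2 * magQ (fun e => co B (W 0 e))) +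
        (chn j (W 0) (fun i => W i.succ) Z -
          1 / 2 * chnQ j (fun e => co B (W 0 e)) (fun i e => co B (W i.succ e)) z) := by
      simp only [chn, chnQ]; ring
    rw [e1]
    refine (abs_add_three _ _ _).trans ?_
    push_cast
    nlinarith [h1.trans h2, h3.trans h4]

/-! ### coercivity -/

lemma kin_dist (U V : Lk D L → G) (e : Lk D L) :
    ‖mt (U e) - mt (V e)‖ ≤ Real.sqrt (2 * kin U V) := by
  refine Real.le_sqrt_of_sq_le ?_
  rw [← dg_div]
  have h1 : en (U e * (V e)⁻¹) ≤ kin U V :=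
    Finset.single_le_sum (f := fun e => en (U e * (V e)⁻¹)) (fun e _ => en_nonneg _)
      (Finset.mem_univ e)
  unfold en at h1
  linarith

lemma dg_le_add (g h : G) : dg h ≤ dg g + ‖mt g - mt h‖ := by
  unfold dg
  have e : mt h - 1 = (mt g - 1) - (mt g - mt h) := by abel
  rw [e]
  exact norm_sub_le _ _

lemma chn_dev (j : ℕ) {A Z : Lk D L → G} {W : Fin j → Lk D L → G} {a E : ℝ}
    (h : chn j A W Z ≤ E) (ha : ∀ e, dg (A e) ≤ a) :
    (∀ i e, dg (W i e) ≤ a + j * Real.sqrt (2 * E)) ∧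
      ∀ e, dg (Z e) ≤ a + (j + 1) * Real.sqrt (2 * E) := by
  induction j generalizing A a with
  | zero =>
    refine ⟨fun i => i.elim0, fun e => ?_⟩
    have h1 := kin_dist A Z e
    have h2 := dg_le_add (A e) (Z e)
    have h3 : Real.sqrt (2 * kin A Z) ≤ Real.sqrt (2 * E) := Real.sqrt_le_sqrt (by
      have : kin A Z ≤ E := h
      linarith)
    have := ha e
    simp only [Nat.cast_zero, zero_add, one_mul]
    linarith
  | succ j ih =>
    have hn1 := kin_nonneg A (W 0)
    have hn2 := mag_nonneg (W 0)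
    have hn3 := chn_nonneg j (W 0) (fun i => W i.succ) Z
    have h' : kin A (W 0) + mag (W 0) + chn j (W 0) (fun i => W i.succ) Z ≤ E := h
    obtain ⟨s, hs⟩ : ∃ s, s = Real.sqrt (2 * E) := ⟨_, rfl⟩
    have hs0 : 0 ≤ s := by rw [hs]; exact Real.sqrt_nonneg _
    have h0 : ∀ e, dg (W 0 e) ≤ a + s := fun e => by
      have h1 := kin_dist A (W 0) e
      have h2 := dg_le_add (A e) (W 0 e)
      have h3 : Real.sqrt (2 * kin A (W 0)) ≤ s := by
        rw [hs]; exact Real.sqrt_le_sqrt (by linarith)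
      have := ha e
      linarith
    have h1 := ih (A := W 0) (a := a + s) (W := fun i => W i.succ) (by linarith) h0
    rw [← hs] at h1 ⊢
    refine ⟨fun i e => ?_, fun e => ?_⟩
    · refine Fin.cases ?_ (fun i => ?_) i
      · have := h0 e
        push_cast
        have : 0 ≤ (j : ℝ) * s := by positivity
        nlinarith [h0 e]
      · have := h1.1 i e
        push_cast
        linarith
    · have := h1.2 e
      push_cast
      linarith

lemma mag_dev (B : Frame G n) [CompactSpace G] [SecondCountableTopology G] [MeasurableSpace G]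
    [BorelSpace G] {U : Lk D L → G} {E : ℝ} (h : mag U ≤ E) (e : Lk D L) :
    dg (hat U e) ≤ (D * L) * Real.sqrt (2 * E) := by
  rw [hat_eq]
  have h1 := dv_tl (L := B.toLD) (lv 1 U) (s := Real.sqrt (2 * E)) (Real.sqrt_nonneg _)
    (cst (src e)) (dir e) (by
      intro v j hv hj hvj
      refine Real.le_sqrt_of_sq_le ?_
      have hlt : ∀ i, v i < L := fun i => lt_of_le_of_lt (hv i) (cst_lt _ i)
      obtain ⟨x, hx⟩ : ∃ x : St D L, cst x = v := ⟨fun i => ⟨v i, hlt i⟩, rfl⟩
      have hxj : (x j : ℕ) + 1 < L := by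
        have : (x j : ℕ) = v j := congrFun hx j
        rw [this]
        exact lt_of_le_of_lt hvj (cst_lt _ j)
      have hxd : (x (dir e) : ℕ) + 1 < L := by
        have : (x (dir e) : ℕ) = v (dir e) := congrFun hx (dir e)
        rw [this]
        exact lt_of_le_of_lt (Nat.succ_le_succ (hv _)) e.2
      have hin : PIn x j (dir e) := ⟨hj, hxj, hxd⟩
      have h2 : en (plq (lv 1 U) (cst x) j (dir e)) ≤ mag U := by
        unfold mag
        have e1 := Finset.single_le_sum (f := fun x : St D L => ∑ i : Fin D, ∑ j : Fin D,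
          if PIn x i j then en (plq (lv 1 U) (cst x) i j) else 0)
          (fun x _ => Finset.sum_nonneg fun i _ => Finset.sum_nonneg fun j _ => by
            split_ifs
            · exact en_nonneg _
            · exact le_rfl) (Finset.mem_univ x)
        have e2 := Finset.single_le_sum (f := fun i : Fin D => ∑ j : Fin D,
          if PIn x i j then en (plq (lv 1 U) (cst x) i j) else 0)
          (fun i _ => Finset.sum_nonneg fun j _ => by
            split_ifs
            · exact en_nonneg _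
            · exact le_rfl) (Finset.mem_univ j)
        have e3 := Finset.single_le_sum (f := fun k : Fin D =>
          if PIn x j k then en (plq (lv 1 U) (cst x) j k) else 0)
          (fun k _ => by
            split_ifs
            · exact en_nonneg _
            · exact le_rfl) (Finset.mem_univ (dir e))
        rw [if_pos hin] at e3
        linarith
      rw [hx] at h2
      have h3 : dv B.toLD (plq (lv 1 U) v j (dir e)) = dg (plq (lv 1 U) v j (dir e)) := rfl
      rw [h3]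
      unfold en at h2
      linarith)
  have h2 : dv B.toLD (tl (lv 1 U) (cst (src e)) (dir e)) = dg (tl (lv 1 U) (cst (src e)) (dir e)) := rfl
  rw [h2] at h1
  refine h1.trans ?_
  refine mul_le_mul_of_nonneg_right ?_ (Real.sqrt_nonneg _)
  exact_mod_cast sz_le (src e)

/-- coercivity of the action -/
lemma act_lower (B : Frame G n) [CompactSpace G] [SecondCountableTopology G] [MeasurableSpace G]
    [BorelSpace G] (j : ℕ) (P : G) (U : Fin (j + 1) → Lk D L → G) (i : Fin (j + 1)) (e : Lk D L) :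
    1 / (2 * (D * L + j + 1) ^ 2) * dg (U i e) ^ 2 ≤ act j P U := by
  obtain ⟨E, hE⟩ : ∃ E, E = act j P U := ⟨_, rfl⟩
  have h0 : mag (U 0) + chn j (hat (U 0)) (fun i => U i.succ) (cj P (U 0)) = E := by rw [hE]; rfl
  have h1 := mag_nonneg (U 0)
  have h2 := chn_nonneg j (hat (U 0)) (fun i => U i.succ) (cj P (U 0))
  have h3 := fun e => mag_dev B (U := U 0) (E := E) (by linarith) e
  have h4 := chn_dev j (A := hat (U 0)) (W := fun i => U i.succ) (Z := cj P (U 0)) (E := E)
    (by linarith) h3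
  have hE0 : 0 ≤ E := by linarith
  obtain ⟨s, hs⟩ : ∃ s, s = Real.sqrt (2 * E) := ⟨_, rfl⟩
  have hs0 : 0 ≤ s := by rw [hs]; exact Real.sqrt_nonneg _
  rw [← hs] at h4
  have h5 : dg (U i e) ≤ (D * L + j + 1) * s := by
    refine Fin.cases ?_ (fun i => ?_) i
    · have h6 := h4.2 e
      have h7 : dg (cj P (U 0) e) = dg (U 0 e) := dg_conj _ _
      rw [h7] at h6
      linarith
    · have h6 := h4.1 i e
      linarith
  have h6 : dg (U i e) ^ 2 ≤ ((D * L + j + 1) * s) ^ 2 := pow_le_pow_left₀ (dg_nonneg _) h5 2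
  rw [← hE]
  have h7 : s ^ 2 = 2 * E := by rw [hs]; exact Real.sq_sqrt (by linarith)
  have h8 : (0 : ℝ) < (D * L + j + 1) ^ 2 := by positivity
  rw [mul_pow, h7] at h6
  rw [div_mul_eq_mul_div, one_mul, div_le_iff₀ (by positivity)]
  linarith

end

end Pool.Agent.T2H02.Gap
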