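import Mathlib
import Pool.Agent.T2H02.Gap.Act

/-!
# The adjoint action in coordinates
-/

open MeasureTheory Matrix Filter
open scoped Matrix.Norms.Frobenius ContDiff Topology ENNReal NNReal
open Pool.Agent.H906R3.YM Pool.Agent.W793.YM Pool.Agent.TH618.YM

namespace Pool.Agent.T2H02.Gap

set_option linter.unusedSectionVars false
set_option linter.unusedVariables false

noncomputable section

variable {N n : ℕ} {G : Subgroup (UN N)} [CompactSpace G] [SecondCountableTopology G]
  [MeasurableSpace G] [BorelSpace G] (B : Frame G n)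

/-- the element of the Lie algebra with the coordinates `v` -/
def lie (v : En n) : Mat N := ∑ a, v a • B.X a

lemma ip_lie (v : En n) (a : Fin n) : ip (B.X a) (lie B v) = v a := by
  unfold lie
  rw [map_sum]
  have h4 : ∀ b, ip (B.X a) (v b • B.X b) = if a = b then v b else 0 := fun b => by
    rw [map_smul, smul_eq_mul, orthB]
    split_ifs <;> ring
  rw [Finset.sum_congr rfl fun b _ => h4 b, Finset.sum_ite_eq]
  simp

lemma cm_lie (v : En n) : cm B (lie B v) = v := by
  ext a
  rw [cm_apply, ip_lie]

lemma perp_eq (A : Mat N) : perp B A = A - lie B (cm B A) := rfl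

lemma perp_span {A : Mat N} (h : A ∈ Submodule.span ℝ (Set.range B.X)) : lie B (cm B A) = A := by
  induction h using Submodule.span_induction with
  | mem A h =>
    obtain ⟨a, rfl⟩ := h
    unfold lie
    have h4 : ∀ b, (cm B (B.X a)) b • B.X b = if b = a then B.X b else 0 := fun b => by
      rw [cm_apply, orthB]
      split_ifs <;> simp
    rw [Finset.sum_congr rfl fun b _ => h4 b, Finset.sum_ite_eq']
    simp
  | zero => rw [map_zero]; unfold lie; simp
  | add A A' _ _ h h' =>
    rw [map_add]
    have : lie B (cm B A + cm B A') = lie B (cm B A) + lie B (cm B A') := by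
      unfold lie
      rw [← Finset.sum_add_distrib]
      exact Finset.sum_congr rfl fun a _ => by rw [PiLp.add_apply, add_smul]
    rw [this, h, h']
  | smul t A _ h =>
    rw [map_smul]
    have : lie B (t • cm B A) = t • lie B (cm B A) := by
      unfold lie
      rw [Finset.smul_sum]
      exact Finset.sum_congr rfl fun a _ => by rw [PiLp.smul_apply, smul_eq_mul, mul_smul]
    rw [this, h]

lemma lie_mem (v : En n) : lie B v ∈ Submodule.span ℝ (Set.range B.X) :=
  Submodule.sum_mem _ fun a _ => Submodule.smul_mem _ _ (Submodule.subset_span ⟨a, rfl⟩)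

omit [CompactSpace G] [SecondCountableTopology G] [MeasurableSpace G] [BorelSpace G] in
lemma mt_inv_ct (g : G) : mt g⁻¹ = (mt g)ᴴ := by
  have e1 : mt g * (mt g)ᴴ = 1 := (Matrix.mem_unitaryGroup_iff (A := mt g)).1 (g : UN N).2
  calc mt g⁻¹ = mt g⁻¹ * (mt g * (mt g)ᴴ) := by rw [e1, mul_one]
    _ = _ := by rw [← mul_assoc, mt_inv_mul, one_mul]

lemma conj_span (P : G) {A : Mat N} (h : A ∈ Submodule.span ℝ (Set.range B.X)) :
    mt P * A * mt P⁻¹ ∈ Submodule.span ℝ (Set.range B.X) := by
  induction h using Submodule.span_induction with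
  | mem A h =>
    obtain ⟨a, rfl⟩ := h
    have := B.toLD.conj_mem P a
    rw [mt_inv_ct]
    exact this
  | zero => simp
  | add A A' _ _ h h' => rw [mul_add, add_mul]; exact Submodule.add_mem _ h h'
  | smul t A _ h => rw [mul_smul_comm, smul_mul_assoc]; exact Submodule.smul_mem _ _ h

omit [CompactSpace G] [SecondCountableTopology G] [MeasurableSpace G] [BorelSpace G] in
lemma ip_cj (P : G) (A A' : Mat N) : ip A (mt P * A' * mt P⁻¹) = ip (mt P⁻¹ * A * mt P) A' := by
  rw [mt_inv_ct, H906R3.YM.ip_conj]

/-- the adjoint action -/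
def adL (P : G) : En n →ₗ[ℝ] En n where
  toFun v := cm B (mt P * lie B v * mt P⁻¹)
  map_add' v w := by
    have : lie B (v + w) = lie B v + lie B w := by
      unfold lie
      rw [← Finset.sum_add_distrib]
      exact Finset.sum_congr rfl fun a _ => by rw [PiLp.add_apply, add_smul]
    rw [this, mul_add, add_mul, map_add]
  map_smul' t v := by
    have : lie B (t • v) = t • lie B v := by
      unfold lie
      rw [Finset.smul_sum]
      exact Finset.sum_congr rfl fun a _ => by rw [PiLp.smul_apply, smul_eq_mul, mul_smul]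
    rw [this, mul_smul_comm, smul_mul_assoc, map_smul]; rfl

lemma adL_apply (P : G) (v : En n) : adL B P v = cm B (mt P * lie B v * mt P⁻¹) := rfl

lemma lie_adL (P : G) (v : En n) : lie B (adL B P v) = mt P * lie B v * mt P⁻¹ := by
  rw [adL_apply, perp_span B (conj_span B P (lie_mem B v))]

lemma norm_lie (v : En n) : ‖lie B v‖ = ‖v‖ := by
  have h1 := norm_cm_sq B (lie B v)
  have h2 : perp B (lie B v) = 0 := by
    rw [perp_eq, cm_lie, sub_self]
  rw [cm_lie, h2, norm_zero] at h1
  have h3 := norm_nonneg v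
  have h4 := norm_nonneg (lie B v)
  nlinarith

lemma norm_adL (P : G) (v : En n) : ‖adL B P v‖ = ‖v‖ := by
  rw [← norm_lie B (adL B P v), lie_adL, norm_mul_mt, norm_mt_mul, norm_lie]

lemma adL_mul (P P' : G) (v : En n) : adL B (P * P') v = adL B P (adL B P' v) := by
  rw [adL_apply, adL_apply, lie_adL, mt_mul, _root_.mul_inv_rev, mt_mul]
  congr 1
  noncomm_ring

lemma adL_one (v : En n) : adL B 1 v = v := by
  rw [adL_apply, inv_one, mt_one, one_mul, mul_one, cm_lie]

/-- the coordinates of a conjugate element -/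
lemma co_conj (P g : G) : co B (P * g * P⁻¹) = adL B P (co B g) := by
  ext a
  rw [co_apply, adL_apply, cm_apply]
  have e : mt (P * g * P⁻¹) - 1 = mt P * (mt g - 1) * mt P⁻¹ := by
    rw [mt_mul, mt_mul, mul_sub, sub_mul, mul_one, mt_mul_inv]
  rw [e, ip_cj, ip_cj]
  have h1 : mt g - 1 = lie B (co B g) + perp B (mt g - 1) := by
    rw [perp_eq, ← co_eq_cm]; abel
  have h2 : ip (mt P⁻¹ * B.X a * mt P) (perp B (mt g - 1)) = 0 := by
    have h3 : mt P⁻¹ * B.X a * mt P ∈ Submodule.span ℝ (Set.range B.X) := by
      have := conj_span B P⁻¹ (Submodule.subset_span ⟨a, rfl⟩)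
      rwa [inv_inv] at this
    have h4 : ∀ Z ∈ Submodule.span ℝ (Set.range B.X), ip Z (perp B (mt g - 1)) = 0 := by
      intro Z hZ
      induction hZ using Submodule.span_induction with
      | mem Z h =>
        obtain ⟨b, rfl⟩ := h
        rw [perp_eq, map_sub, ip_lie, cm_apply, sub_self]
      | zero => rw [ip_comm, map_zero]
      | add Z Z' _ _ h h' => rw [ip_add_left, h, h', add_zero]
      | smul t Z _ h => rw [ip_comm, map_smul, ip_comm, h, smul_zero]
    exact h4 _ h3
  conv_lhs => rw [h1]
  rw [map_add, h2, add_zero]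

end

end Pool.Agent.T2H02.Gap
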