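import Mathlib
import Pool.Agent.T2H02.Gap.Act2
import Pool.Agent.T2H02.Gap.Ad

/-!
# The quadratic form of the chain
-/

open MeasureTheory Matrix Filter
open scoped Matrix.Norms.Frobenius ContDiff Topology ENNReal NNReal
open Pool.Agent.H906R3.YM Pool.Agent.W793.YM Pool.Agent.TH618.YM

namespace Pool.Agent.T2H02.Gap

set_option linter.unusedSectionVars false
set_option linter.unusedVariables false

noncomputable section

variable {N n D L : ℕ} {G : Subgroup (UN N)}

section lin

variable {V : Type*} [NormedAddCommGroup V] [NormedSpace ℝ V]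

lemma lv_smul (s : ℝ) (X : Lk D L → V) (w : Pt D) (k : Fin D) :
    lv 0 (s • X) w k = s • lv 0 X w k := by
  unfold lv
  split_ifs <;> simp

lemma lv_add (X Y : Lk D L → V) (w : Pt D) (k : Fin D) :
    lv 0 (X + Y) w k = lv 0 X w k + lv 0 Y w k := by
  unfold lv
  split_ifs <;> simp

/-- the value on a link as a linear map -/
def lvM (w : Pt D) (k : Fin D) : (Lk D L → V) →ₗ[ℝ] V where
  toFun X := lv 0 X w k
  map_add' X Y := lv_add X Y w k
  map_smul' s X := lv_smul s X w k

/-- the sum over the comb path as a linear map -/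
def pthM (w : Pt D) : (Lk D L → V) →ₗ[ℝ] V := ((pth (sz w) w).map fun p => lvM p.1 p.2).sum

lemma pthM_apply (w : Pt D) (X : Lk D L → V) : pthM w X = pthL X w := by
  unfold pthM pthL
  generalize pth (sz w) w = l
  induction l with
  | nil => rfl
  | cons p l ih => rw [List.map_cons, List.sum_cons, LinearMap.add_apply, ih]; rfl

/-- the comb gauge as a linear map -/
def hatM : (Lk D L → V) →ₗ[ℝ] (Lk D L → V) :=
  LinearMap.pi fun e => pthM (cst (src e)) + LinearMap.proj e - pthM (cst (tgt e))

lemma hatM_apply (X : Lk D L → V) : hatM X = hatL X := by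
  funext e
  rw [hatL_eq]
  show ((pthM (cst (src e)) + LinearMap.proj e - pthM (cst (tgt e)) : (Lk D L → V) →ₗ[ℝ] V)) X = _
  rw [LinearMap.sub_apply, LinearMap.add_apply, pthM_apply, pthM_apply]
  rfl

/-- the circulation as a linear map -/
def plqM (w : Pt D) (i j : Fin D) : (Lk D L → V) →ₗ[ℝ] V :=
  lvM w i + lvM (w + es i) j - lvM (w + es j) i - lvM w j

lemma plqM_apply (w : Pt D) (i j : Fin D) (X : Lk D L → V) : plqM w i j X = plqL X w i j := rfl

/-- square of the norm -/
def N2 (X : Lk D L → V) : ℝ := ∑ e, ‖X e‖ ^ 2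

lemma N2_nonneg (X : Lk D L → V) : 0 ≤ N2 X := Finset.sum_nonneg fun _ _ => sq_nonneg _

lemma norm_le_N2 (X : Lk D L → V) (e : Lk D L) : ‖X e‖ ≤ Real.sqrt (N2 X) :=
  Real.le_sqrt_of_sq_le (Finset.single_le_sum (f := fun e => ‖X e‖ ^ 2) (fun _ _ => sq_nonneg _)
    (Finset.mem_univ e))

lemma norm_lv_le (X : Lk D L → V) (w : Pt D) (k : Fin D) : ‖lv 0 X w k‖ ≤ Real.sqrt (N2 X) := by
  unfold lv
  split_ifs
  · exact norm_le_N2 X _
  · rw [norm_zero]; exact Real.sqrt_nonneg _

lemma norm_pthL_le (X : Lk D L → V) (x : St D L) :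
    ‖pthL X (cst x)‖ ≤ (D * L) * Real.sqrt (N2 X) := by
  unfold pthL
  have h1 : ∀ l : List (Pt D × Fin D), ‖(l.map fun p => lv 0 X p.1 p.2).sum‖ ≤
      l.length * Real.sqrt (N2 X) := by
    intro l
    induction l with
    | nil => simp
    | cons p l ih =>
      rw [List.map_cons, List.sum_cons, List.length_cons]
      refine (norm_add_le _ _).trans ?_
      have := norm_lv_le X p.1 p.2
      push_cast
      linarith
  refine (h1 _).trans ?_
  refine mul_le_mul_of_nonneg_right ?_ (Real.sqrt_nonneg _)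
  have h2 := pth_length (sz (cst x)) (cst x)
  have h3 := sz_le x
  exact_mod_cast h2.trans h3

lemma N2_hatL_le (X : Lk D L → V) : N2 (hatL X) ≤ D * (L : ℝ) ^ D * (2 * (D * L) + 1) ^ 2 * N2 X := by
  have h1 : ∀ e, ‖hatL X e‖ ^ 2 ≤ (2 * (D * L) + 1) ^ 2 * N2 X := by
    intro e
    have h2 : ‖hatL X e‖ ≤ (2 * (D * L) + 1) * Real.sqrt (N2 X) := by
      rw [hatL_eq]
      refine (norm_sub_le _ _).trans ?_
      have h3 := norm_add_le (pthL X (cst (src e))) (X e)
      have h4 := norm_pthL_le X (src e)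
      have h5 := norm_pthL_le X (tgt e)
      have h6 := norm_le_N2 X e
      linarith
    calc ‖hatL X e‖ ^ 2 ≤ ((2 * (D * L) + 1) * Real.sqrt (N2 X)) ^ 2 :=
          pow_le_pow_left₀ (norm_nonneg _) h2 2
      _ = _ := by rw [mul_pow, Real.sq_sqrt (N2_nonneg X)]
  calc N2 (hatL X) ≤ ∑ _e : Lk D L, (2 * (D * L) + 1) ^ 2 * N2 X := Finset.sum_le_sum fun e _ => h1 e
    _ = Fintype.card (Lk D L) * ((2 * (D * L) + 1) ^ 2 * N2 X) := by
      rw [Finset.sum_const, Finset.card_univ, nsmul_eq_mul]
    _ ≤ (D * (L : ℝ) ^ D) * ((2 * (D * L) + 1) ^ 2 * N2 X) :=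
      mul_le_mul_of_nonneg_right card_Lk_le (mul_nonneg (sq_nonneg _) (N2_nonneg X))
    _ = _ := by ring

lemma magQ_le (X : Lk D L → V) : magQ X ≤ 16 * ((L : ℝ) ^ D * D ^ 2) * N2 X := by
  unfold magQ
  calc _ ≤ ∑ x : St D L, ∑ i : Fin D, ∑ j : Fin D, 16 * N2 X := by
        refine Finset.sum_le_sum fun x _ => Finset.sum_le_sum fun i _ => Finset.sum_le_sum fun j _ => ?_
        have hN := N2_nonneg X
        split_ifs
        · have h1 : ‖plqL X (cst x) i j‖ ≤ 4 * Real.sqrt (N2 X) := by
            unfold plqL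
            refine (norm_sub_le _ _).trans ?_
            have h2 := norm_sub_le (lv 0 X (cst x) i + lv 0 X (cst x + es i) j)
              (lv 0 X (cst x + es j) i)
            have h3 := norm_add_le (lv 0 X (cst x) i) (lv 0 X (cst x + es i) j)
            have h4 := norm_lv_le X (cst x) i
            have h5 := norm_lv_le X (cst x + es i) j
            have h6 := norm_lv_le X (cst x + es j) i
            have h7 := norm_lv_le X (cst x) j
            linarith
          calc _ ≤ (4 * Real.sqrt (N2 X)) ^ 2 := pow_le_pow_left₀ (norm_nonneg _) h1 2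
            _ = _ := by rw [mul_pow, Real.sq_sqrt hN]; norm_num
        · positivity
    _ = _ := by
      simp only [Finset.sum_const, Finset.card_univ, Fintype.card_fin, nsmul_eq_mul, card_St]
      ring

lemma kinQ_le (X Y : Lk D L → V) : kinQ X Y ≤ 2 * N2 X + 2 * N2 Y := by
  unfold kinQ N2
  rw [Finset.mul_sum, Finset.mul_sum, ← Finset.sum_add_distrib]
  refine Finset.sum_le_sum fun e _ => ?_
  have h1 := norm_sub_le (X e) (Y e)
  have h2 := norm_nonneg (X e - Y e)
  nlinarith [sq_nonneg (‖X e‖ - ‖Y e‖)]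

lemma chnQ_le (j : ℕ) (a : Lk D L → V) (w : Fin j → Lk D L → V) (z : Lk D L → V) :
    chnQ j a w z ≤ 2 * N2 a + 2 * N2 z + (16 * ((L : ℝ) ^ D * D ^ 2) + 4) * ∑ i, N2 (w i) := by
  induction j generalizing a with
  | zero =>
    have := kinQ_le a z
    simpa [chnQ] using this
  | succ j ih =>
    have h1 := kinQ_le a (w 0)
    have h2 := magQ_le (w 0)
    have h3 := ih (w 0) (fun i => w i.succ)
    rw [Fin.sum_univ_succ]
    show kinQ a (w 0) + magQ (w 0) + chnQ j (w 0) (fun i => w i.succ) z ≤ _
    linarith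

lemma magQ_smul (s : ℝ) (X : Lk D L → V) : magQ (s • X) = s ^ 2 * magQ X := by
  unfold magQ
  simp only [Finset.mul_sum]
  refine Finset.sum_congr rfl fun x _ => Finset.sum_congr rfl fun i _ => Finset.sum_congr rfl
    fun j _ => ?_
  split_ifs
  · rw [← plqM_apply, map_smul, norm_smul, mul_pow, Real.norm_eq_abs, sq_abs, plqM_apply]
  · simp

lemma kinQ_smul (s : ℝ) (X Y : Lk D L → V) : kinQ (s • X) (s • Y) = s ^ 2 * kinQ X Y := by
  unfold kinQ
  rw [Finset.mul_sum]
  refine Finset.sum_congr rfl fun e _ => ?_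
  rw [Pi.smul_apply, Pi.smul_apply, ← smul_sub, norm_smul, mul_pow, Real.norm_eq_abs, sq_abs]

lemma chnQ_smul (s : ℝ) (j : ℕ) (a : Lk D L → V) (w : Fin j → Lk D L → V) (z : Lk D L → V) :
    chnQ j (s • a) (fun i => s • w i) (s • z) = s ^ 2 * chnQ j a w z := by
  induction j generalizing a with
  | zero => exact kinQ_smul s a z
  | succ j ih =>
    have h3 := ih (w 0) (fun i => w i.succ)
    show kinQ (s • a) (s • w 0) + magQ (s • w 0) + chnQ j (s • w 0) (fun i => s • w i.succ) (s • z) = _
    rw [h3, kinQ_smul, magQ_smul]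
    show _ = s ^ 2 * (kinQ a (w 0) + magQ (w 0) + chnQ j (w 0) (fun i => w i.succ) z)
    ring

lemma magQ_cont [FiniteDimensional ℝ V] : Continuous (magQ : (Lk D L → V) → ℝ) := by
  unfold magQ
  refine continuous_finsetSum _ fun x _ => continuous_finsetSum _ fun i _ =>
    continuous_finsetSum _ fun j _ => ?_
  split_ifs
  · exact ((plqM (V := V) (cst x) i j).continuous_of_finiteDimensional.norm).pow 2
  · exact continuous_const

lemma kinQ_cont : Continuous (fun p : (Lk D L → V) × (Lk D L → V) => kinQ p.1 p.2) := by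
  unfold kinQ
  fun_prop

lemma chnQ_cont [FiniteDimensional ℝ V] (j : ℕ) :
    Continuous (fun p : (Lk D L → V) × (Fin j → Lk D L → V) × (Lk D L → V) =>
      chnQ j p.1 p.2.1 p.2.2) := by
  induction j with
  | zero =>
    have := (kinQ_cont (D := D) (L := L) (V := V)).comp
      (f := fun p : (Lk D L → V) × (Fin 0 → Lk D L → V) × (Lk D L → V) => (p.1, p.2.2))
      (by fun_prop)
    exact this
  | succ j ih =>
    have h1 := (kinQ_cont (D := D) (L := L) (V := V)).comp
      (f := fun p : (Lk D L → V) × (Fin (j + 1) → Lk D L → V) × (Lk D L → V) => (p.1, p.2.1 0))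
      (by fun_prop)
    have h2 := (magQ_cont (D := D) (L := L) (V := V)).comp
      (f := fun p : (Lk D L → V) × (Fin (j + 1) → Lk D L → V) × (Lk D L → V) => p.2.1 0)
      (by fun_prop)
    have h3 := ih.comp
      (f := fun p : (Lk D L → V) × (Fin (j + 1) → Lk D L → V) × (Lk D L → V) =>
        (p.2.1 0, (fun i : Fin j => p.2.1 i.succ), p.2.2))
      (by fun_prop)
    exact (h1.add h2).add h3

end lin

variable [CompactSpace G] [SecondCountableTopology G] [MeasurableSpace G] [BorelSpace G]

/-- the quadratic form of the action -/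
def actQ (B : Frame G n) (j : ℕ) (P : G) (X : Fin (j + 1) → Lk D L → En n) : ℝ :=
  magQ (X 0) + chnQ j (hatL (X 0)) (fun i => X i.succ) (fun e => adL B P (X 0 e))

/-- the bound of the quadratic form -/
def Cup (D L : ℕ) : ℝ := 16 * ((L : ℝ) ^ D * D ^ 2) + 4 + 2 * (D * (L : ℝ) ^ D * (2 * (D * L) + 1) ^ 2)

lemma Cup_pos : 0 < Cup D L := by unfold Cup; positivity

variable (B : Frame G n)

lemma actQ_le (j : ℕ) (P : G) (X : Fin (j + 1) → Lk D L → En n) :
    actQ B j P X ≤ Cup D L * ∑ i, N2 (X i) := by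
  unfold actQ
  have h1 := magQ_le (X 0)
  have h2 := chnQ_le j (hatL (X 0)) (fun i => X i.succ) (fun e => adL B P (X 0 e))
  have h3 := N2_hatL_le (X 0)
  have h4 : N2 (fun e => adL B P (X 0 e)) = N2 (X 0) := by
    unfold N2
    exact Finset.sum_congr rfl fun e _ => by rw [norm_adL]
  rw [h4] at h2
  rw [Fin.sum_univ_succ]
  unfold Cup
  have h5 := N2_nonneg (X 0)
  have h6 : 0 ≤ ∑ i : Fin j, N2 (X i.succ) := Finset.sum_nonneg fun i _ => N2_nonneg _
  have h7 : 0 ≤ (D : ℝ) * (L : ℝ) ^ D * (2 * (D * L) + 1) ^ 2 := by positivity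
  have h8 := mul_nonneg h7 h6
  nlinarith

lemma actQ_smul (j : ℕ) (P : G) (s : ℝ) (X : Fin (j + 1) → Lk D L → En n) :
    actQ B j P (fun t => s • X t) = s ^ 2 * actQ B j P X := by
  unfold actQ
  have h1 : hatL (s • X 0) = s • hatL (X 0) := by
    rw [← hatM_apply, map_smul, hatM_apply]
  have h2 : (fun e => adL B P ((s • X 0) e)) = s • fun e => adL B P (X 0 e) := by
    funext e
    rw [Pi.smul_apply, map_smul]; rfl
  rw [magQ_smul, h1, h2, chnQ_smul]
  ring

lemma actQ_cont (j : ℕ) (P : G) :
    Continuous (fun X : Fin (j + 1) → Lk D L → En n => actQ B j P X) := by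
  unfold actQ
  refine (magQ_cont.comp (by fun_prop)).add ?_
  have h1 : Continuous fun X : Fin (j + 1) → Lk D L → En n => hatL (X 0) := by
    have h2 : (fun X : Fin (j + 1) → Lk D L → En n => hatL (X 0)) = fun X => hatM (X 0) := by
      funext X; rw [hatM_apply]
    rw [h2]
    exact (hatM (D := D) (L := L) (V := En n)).continuous_of_finiteDimensional.comp (by fun_prop)
  have h3 : Continuous fun X : Fin (j + 1) → Lk D L → En n => fun e => adL B P (X 0 e) := by
    refine continuous_pi fun e => ?_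
    exact (adL B P).continuous_of_finiteDimensional.comp (by fun_prop)
  exact (chnQ_cont j).comp (h1.prodMk ((by fun_prop : Continuous fun X :
    Fin (j + 1) → Lk D L → En n => fun i : Fin j => X i.succ).prodMk h3))

/-! ### continuity of the action -/

lemma en_cont : Continuous (en : G → ℝ) := by
  unfold en
  exact continuous_const.mul (dg_cont.pow 2)

lemma lv_cont (w : Pt D) (k : Fin D) : Continuous fun U : Lk D L → G => lv 1 U w k := by
  unfold lv
  split_ifs
  · exact continuous_apply _
  · exact continuous_const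

lemma plq_cont (w : Pt D) (i j : Fin D) : Continuous fun U : Lk D L → G => plq (lv 1 U) w i j := by
  unfold plq
  exact ((((lv_cont w i).mul (lv_cont (w + es i) j)).mul (lv_cont (w + es j) i).inv).mul
    (lv_cont w j).inv)

lemma comb_cont (x : St D L) : Continuous fun U : Lk D L → G => comb U x := by
  unfold comb
  have h1 : (fun U : Lk D L → G => fr (lv 1 U) (cst x)) = fun U =>
      ((pth (sz (cst x)) (cst x)).map fun p => lv 1 U p.1 p.2).prod := by
    funext U; rw [fr_eq]
  rw [h1]
  exact continuous_list_prod _ fun p _ => lv_cont p.1 p.2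

lemma hat_cont : Continuous fun U : Lk D L → G => hat U := by
  refine continuous_pi fun e => ?_
  unfold hat gt
  exact ((comb_cont (src e)).mul (continuous_apply e)).mul (comb_cont (tgt e)).inv

lemma mag_cont : Continuous (mag : (Lk D L → G) → ℝ) := by
  unfold mag
  refine continuous_finsetSum _ fun x _ => continuous_finsetSum _ fun i _ =>
    continuous_finsetSum _ fun j _ => ?_
  split_ifs
  · exact en_cont.comp (plq_cont _ _ _)
  · exact continuous_const

lemma kin_cont : Continuous (fun p : (Lk D L → G) × (Lk D L → G) => kin p.1 p.2) := by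
  unfold kin
  refine continuous_finsetSum _ fun e _ => en_cont.comp ?_
  exact ((continuous_apply e).comp continuous_fst).mul ((continuous_apply e).comp continuous_snd).inv

lemma chn_cont (j : ℕ) :
    Continuous (fun p : (Lk D L → G) × (Fin j → Lk D L → G) × (Lk D L → G) =>
      chn j p.1 p.2.1 p.2.2) := by
  induction j with
  | zero =>
    have := (kin_cont (D := D) (L := L) (G := G)).comp
      (f := fun p : (Lk D L → G) × (Fin 0 → Lk D L → G) × (Lk D L → G) => (p.1, p.2.2))
      (by fun_prop)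
    exact this
  | succ j ih =>
    have h1 := (kin_cont (D := D) (L := L) (G := G)).comp
      (f := fun p : (Lk D L → G) × (Fin (j + 1) → Lk D L → G) × (Lk D L → G) => (p.1, p.2.1 0))
      (by fun_prop)
    have h2 := (mag_cont (D := D) (L := L) (G := G)).comp
      (f := fun p : (Lk D L → G) × (Fin (j + 1) → Lk D L → G) × (Lk D L → G) => p.2.1 0)
      (by fun_prop)
    have h3 := ih.comp
      (f := fun p : (Lk D L → G) × (Fin (j + 1) → Lk D L → G) × (Lk D L → G) =>
        (p.2.1 0, (fun i : Fin j => p.2.1 i.succ), p.2.2))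
      (by fun_prop)
    exact (h1.add h2).add h3

lemma act_cont (j : ℕ) :
    Continuous (fun p : G × (Fin (j + 1) → Lk D L → G) => act j p.1 p.2) := by
  unfold act
  refine (mag_cont.comp (by fun_prop)).add ?_
  have h1 : Continuous fun p : G × (Fin (j + 1) → Lk D L → G) => hat (p.2 0) :=
    hat_cont.comp (by fun_prop)
  have h3 : Continuous fun p : G × (Fin (j + 1) → Lk D L → G) => cj p.1 (p.2 0) := by
    refine continuous_pi fun e => ?_
    unfold cj
    have h4 : Continuous fun p : G × (Fin (j + 1) → Lk D L → G) => p.2 0 e := by fun_prop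
    exact (continuous_fst.mul h4).mul continuous_fst.inv
  exact (chn_cont j).comp (h1.prodMk ((by fun_prop : Continuous fun p : G ×
    (Fin (j + 1) → Lk D L → G) => fun i : Fin j => p.2 i.succ).prodMk h3))

end

end Pool.Agent.T2H02.Gap
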