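import Mathlib
import Pool.Agent.T2H02.Gap.Quad
import Pool.Agent.T2H02.Gap.Lap
import Pool.Agent.T2H02.Gap.Cur

/-!
# The action near its minimum and Laplace's method for the chain
-/

open MeasureTheory Matrix Filter
open scoped Matrix.Norms.Frobenius ContDiff Topology ENNReal NNReal
open Pool.Agent.H906R3.YM Pool.Agent.W793.YM Pool.Agent.TH618.YM

namespace Pool.Agent.T2H02.Gap

set_option linter.unusedSectionVars false
set_option linter.unusedVariables false

noncomputable section

variable {N n D L : ℕ} {G : Subgroup (UN N)}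
variable [CompactSpace G] [SecondCountableTopology G] [MeasurableSpace G] [BorelSpace G]
variable {B : Frame G n} {Cc : ℝ}

lemma act_approx (hC : Cart B Cc) (j : ℕ) (P : G) {U : Fin (j + 1) → Lk D L → G} {r : ℝ} (hr : 0 ≤ r)
    (hr1 : r ≤ 1) (h : ∀ t e, dg (U t e) ≤ r) :
    |act j P U - 1 / 2 * actQ B j P (fun t e => co B (U t e))| ≤
      (2 * j + 2) * Terr D L Cc * r ^ 3 := by
  have h1 := mag_approx hC hr hr1 (h 0)
  have h2 := Terr_mag (D := D) (L := L) (Cc := Cc) hr
  have h3 : ∀ e, Ap B Cc (cj P (U 0) e) (adL B P (co B (U 0 e))) 1 r := by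
    intro e
    rw [← co_conj]
    refine ap_self hC ?_
    show dg (P * U 0 e * P⁻¹) ≤ r
    rw [dg_conj]
    exact h 0 e
  have h4 := chn_approx hC j (A := hat (U 0)) (Z := cj P (U 0)) (W := fun i => U i.succ)
    (a := hatL fun e => co B (U 0 e)) (z := fun e => adL B P (co B (U 0 e))) hr hr1
    (ap_hat hC hr (h 0)) h3 (fun i e => h _ e)
  have e1 : act j P U - 1 / 2 * actQ B j P (fun t e => co B (U t e)) =
      (mag (U 0) - 1 / 2 * magQ (fun e => co B (U 0 e))) +
      (chn j (hat (U 0)) (fun i => U i.succ) (cj P (U 0)) -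
        1 / 2 * chnQ j (hatL fun e => co B (U 0 e)) (fun i e => co B (U i.succ e))
          (fun e => adL B P (co B (U 0 e)))) := by
    unfold act actQ; ring
  rw [e1]
  refine (abs_add_le _ _).trans ?_
  nlinarith

/-- the lower bound of the quadratic part follows from the lower bound of the function -/
lemma quad_lower {I : Type*} [Fintype I] (hG : IsClosed (G : Set (UN N))) {S : (I → G) → ℝ}
    {Q : (I → En n) → ℝ} {c0 A r1 : ℝ} (hr1 : 0 < r1) (hA : 0 ≤ A) (hc0 : 0 < c0)
    (hom : ∀ (s : ℝ) (X : I → En n), Q (s • X) = s ^ 2 * Q X)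
    (hlow : ∀ U i, c0 * dg (U i) ^ 2 ≤ S U)
    (happ : ∀ r, 0 < r → r ≤ r1 → ∀ U, (∀ i, dg (U i) < r) →
      |S U - 1 / 2 * Q (fun i => co B (U i))| ≤ A * r ^ 3) (X : I → En n) (i : I) :
    2 * c0 * ‖X i‖ ^ 2 ≤ Q X := by
  obtain ⟨C, hC, hco⟩ := co_lower B hG
  obtain ⟨r2, hr2⟩ : ∃ r2, r2 = min r1 (1 / (2 * C)) := ⟨_, rfl⟩
  have hr2p : 0 < r2 := by rw [hr2]; positivity
  obtain ⟨ρ, hρ, hsurj⟩ := co_surj B hr2p
  obtain ⟨S0, hS0⟩ : ∃ S0, S0 = 1 + ∑ i, ‖X i‖ := ⟨_, rfl⟩
  have hS0p : 0 < S0 := by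
    rw [hS0]
    have : 0 ≤ ∑ i, ‖X i‖ := Finset.sum_nonneg fun _ _ => norm_nonneg _
    linarith
  have hXS : ∀ k, ‖X k‖ < S0 := fun k => by
    have := Finset.single_le_sum (f := fun i => ‖X i‖) (fun _ _ => norm_nonneg _) (Finset.mem_univ k)
    rw [hS0]
    linarith
  -- the inequality for small scales
  have key : ∀ ε : ℝ, 0 < ε → ε * S0 < ρ → 2 * ε * S0 ≤ r1 →
      c0 * ‖X i‖ ^ 2 ≤ 1 / 2 * Q X + 8 * A * S0 ^ 3 * ε := by
    intro ε hε h1 h2
    have h3 : ∀ k, ∃ g : G, dg g < r2 ∧ co B g = ε • X k := by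
      intro k
      refine hsurj _ ?_
      rw [norm_smul, Real.norm_eq_abs, abs_of_pos hε]
      exact lt_of_le_of_lt (mul_le_mul_of_nonneg_left (hXS k).le hε.le) h1
    choose U hU1 hU2 using h3
    have h4 : ∀ k, dg (U k) < 2 * ε * S0 := by
      intro k
      have h5 := hco (U k) 1 r2 (hU1 k).le (by rw [dg_one]; exact hr2p.le)
      have h6 : ‖mt (U k) - mt (1 : G)‖ = dg (U k) := rfl
      rw [h6, co_one, sub_zero, hU2 k, norm_smul, Real.norm_eq_abs, abs_of_pos hε] at h5
      have h7 : C * r2 ≤ 1 / 2 := by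
        have : r2 ≤ 1 / (2 * C) := by rw [hr2]; exact min_le_right _ _
        calc C * r2 ≤ C * (1 / (2 * C)) := mul_le_mul_of_nonneg_left this hC.le
          _ = 1 / 2 := by field_simp
      have h8 := dg_nonneg (U k)
      have h9 : ε * ‖X k‖ < ε * S0 := mul_lt_mul_of_pos_left (hXS k) hε
      nlinarith
    have h5 := happ (2 * ε * S0) (by positivity) h2 U h4
    have h6 : (fun i => co B (U i)) = ε • X := by
      funext k
      rw [hU2 k]; rfl
    rw [h6, hom] at h5
    have h7 := hlow U i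
    have h8 := (abs_le.1 h5).2
    have h9 : (ε * ‖X i‖) ^ 2 ≤ dg (U i) ^ 2 := by
      refine pow_le_pow_left₀ (by positivity) ?_ 2
      have := norm_co_le B (U i)
      rwa [hU2 i, norm_smul, Real.norm_eq_abs, abs_of_pos hε] at this
    have h10 : ε ^ 2 * (c0 * ‖X i‖ ^ 2) ≤ ε ^ 2 * (1 / 2 * Q X + 8 * A * S0 ^ 3 * ε) := by
      have h11 := mul_le_mul_of_nonneg_left h9 hc0.le
      nlinarith
    exact le_of_mul_le_mul_left h10 (by positivity)
  have h1 : c0 * ‖X i‖ ^ 2 ≤ 1 / 2 * Q X := by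
    refine le_of_forall_pos_le_add fun η hη => ?_
    obtain ⟨ε, hε⟩ : ∃ ε, ε = min (min (ρ / (2 * S0)) (r1 / (2 * S0))) (η / (8 * A * S0 ^ 3 + 1)) :=
      ⟨_, rfl⟩
    have hεp : 0 < ε := by rw [hε]; positivity
    have h2 : ε ≤ ρ / (2 * S0) := by rw [hε]; exact (min_le_left _ _).trans (min_le_left _ _)
    have h3 : ε ≤ r1 / (2 * S0) := by rw [hε]; exact (min_le_left _ _).trans (min_le_right _ _)
    have h4 : ε ≤ η / (8 * A * S0 ^ 3 + 1) := by rw [hε]; exact min_le_right _ _
    have h5 := key ε hεp (by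
      rw [le_div_iff₀ (by positivity)] at h2
      have : 0 < ε * S0 := by positivity
      linarith) (by
      rw [le_div_iff₀ (by positivity)] at h3
      linarith)
    refine h5.trans ?_
    have h6 : 8 * A * S0 ^ 3 * ε ≤ η := by
      rw [le_div_iff₀ (by positivity)] at h4
      have h7 : 8 * A * S0 ^ 3 * ε ≤ ε * (8 * A * S0 ^ 3 + 1) := by nlinarith
      linarith
    linarith
  linarith

/-- the constant in the lower bound -/
def c0c (D L j : ℕ) : ℝ := 1 / (2 * ((D : ℝ) * L + j + 1) ^ 2)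

lemma c0c_pos {j : ℕ} : 0 < c0c D L j := by unfold c0c; positivity

/-- the action as a function on the product -/
def actS (j : ℕ) (P : G) (U : Fin (j + 1) × Lk D L → G) : ℝ := act j P fun t e => U (t, e)

/-- the quadratic form on the product -/
def actQS (B : Frame G n) (j : ℕ) (P : G) (X : Fin (j + 1) × Lk D L → En n) : ℝ :=
  actQ B j P fun t e => X (t, e)

lemma isAct (hC : Cart B Cc) (j : ℕ) (P : G) : Act B (actS (D := D) (L := L) j P) (actQS B j P)
    (c0c D L j) ((2 * j + 2) * Terr D L Cc) 1 where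
  cont := by
    unfold actS
    exact (act_cont j).comp (f := fun U : Fin (j + 1) × Lk D L → G => (P, fun t e => U (t, e)))
      (continuous_const.prodMk (continuous_pi fun t => continuous_pi fun e => continuous_apply _))
  lower U i := act_lower B j P (fun t e => U (t, e)) i.1 i.2
  approx r hr hr1 U hU := act_approx hC j P hr.le hr1 fun t e => (hU (t, e)).le

lemma isQF (hC : Cart B Cc) (hG : IsClosed (G : Set (UN N))) (j : ℕ) (P : G) :
    QF (actQS (D := D) (L := L) B j P) (2 * c0c D L j) (Cup D L) where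
  cont := by
    unfold actQS
    exact (actQ_cont B j P).comp (f := fun X : Fin (j + 1) × Lk D L → En n => fun t e => X (t, e))
      (continuous_pi fun t => continuous_pi fun e => continuous_apply _)
  hom s X := by
    unfold actQS
    exact actQ_smul B j P s fun t e => X (t, e)
  lower X i := by
    have hA := isAct (D := D) (L := L) hC j P
    refine quad_lower (A := (2 * j + 2) * Terr D L Cc) hG one_pos ?_ c0c_pos ?_ hA.lower hA.approx X i
    · have := Terr_nonneg (D := D) (L := L) (Cc := Cc)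
      positivity
    · intro s X
      unfold actQS
      exact actQ_smul B j P s fun t e => X (t, e)
  upper X := by
    unfold actQS
    have := actQ_le B j P fun t e => X (t, e)
    refine this.trans (le_of_eq ?_)
    congr 1
    rw [Fintype.sum_prod_type]
    rfl

end

end Pool.Agent.T2H02.Gap
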