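import Mathlib
import Pool.Agent.T2H02.Gap.Quad2

/-!
# Laplace's method for the chain with a relative error
-/

open MeasureTheory Matrix Filter
open scoped Matrix.Norms.Frobenius ContDiff Topology ENNReal NNReal
open Pool.Agent.H906R3.YM Pool.Agent.W793.YM Pool.Agent.TH618.YM

namespace Pool.Agent.T2H02.Gap

set_option linter.unusedSectionVars false
set_option linter.unusedVariables false

noncomputable section

lemma num1 (M n : ℕ) {κ C2 b c0 k1 : ℝ} (hκ : Real.exp (-k1) ≤ κ) (hC2 : 1 ≤ C2) (hb : 1 ≤ b)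
    (h : 1 + 3 * b + k1 * M + 12 * (M * n) * b + M * n * C2 ≤ c0 * b ^ 4) :
    Real.exp (-(c0 * b ^ 4)) ≤
      (b ^ 3)⁻¹ / 2 * (κ ^ M * ((b ^ 12) ^ (M * n))⁻¹ * (Real.sqrt (2 * Real.pi / C2)) ^ (M * n)) := by
  have hbe : b ≤ Real.exp b := by have := Real.add_one_le_exp b; linarith
  have hb0 : 0 < b := by linarith
  have e1 : Real.exp (-(3 * b)) ≤ (b ^ 3)⁻¹ := by
    rw [Real.exp_neg]
    refine inv_anti₀ (by positivity) ?_
    calc b ^ 3 ≤ (Real.exp b) ^ 3 := pow_le_pow_left₀ hb0.le hbe 3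
      _ = Real.exp (3 * b) := by rw [← Real.exp_nat_mul]; norm_num
  have e2 : Real.exp (-(k1 * M)) ≤ κ ^ M := by
    calc Real.exp (-(k1 * M)) = (Real.exp (-k1)) ^ M := by
          rw [← Real.exp_nat_mul]; congr 1; ring
      _ ≤ κ ^ M := pow_le_pow_left₀ (Real.exp_pos _).le hκ M
  have e3 : Real.exp (-(12 * (M * n) * b)) ≤ ((b ^ 12) ^ (M * n))⁻¹ := by
    rw [Real.exp_neg]
    refine inv_anti₀ (by positivity) ?_
    calc (b ^ 12) ^ (M * n) = b ^ (12 * (M * n)) := by rw [← pow_mul]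
      _ ≤ (Real.exp b) ^ (12 * (M * n)) := pow_le_pow_left₀ hb0.le hbe _
      _ = Real.exp (12 * (M * n) * b) := by
        rw [← Real.exp_nat_mul]; congr 1; push_cast; ring
  have e4 : Real.exp (-(M * n * C2)) ≤ (Real.sqrt (2 * Real.pi / C2)) ^ (M * n) := by
    have h1 : Real.exp (-C2) ≤ Real.sqrt (2 * Real.pi / C2) := by
      refine Real.le_sqrt_of_sq_le ?_
      have h2 : C2 ≤ Real.exp C2 := by have := Real.add_one_le_exp C2; linarith
      have h3 : Real.exp (-C2) ≤ C2⁻¹ := by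
        rw [Real.exp_neg]; exact inv_anti₀ (by linarith) h2
      have h4 : C2⁻¹ ≤ 1 := inv_le_one_of_one_le₀ hC2
      have h5 : 0 < C2⁻¹ := by positivity
      have h6 : 3 < Real.pi := Real.pi_gt_three
      calc Real.exp (-C2) ^ 2 ≤ C2⁻¹ ^ 2 := pow_le_pow_left₀ (Real.exp_pos _).le h3 2
        _ ≤ C2⁻¹ := by nlinarith
        _ ≤ 2 * Real.pi * C2⁻¹ := by nlinarith
        _ = _ := by rw [div_eq_mul_inv]
    calc Real.exp (-(M * n * C2)) = (Real.exp (-C2)) ^ (M * n) := by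
          rw [← Real.exp_nat_mul]; congr 1; push_cast; ring
      _ ≤ _ := pow_le_pow_left₀ (Real.exp_pos _).le h1 _
  have e5 : Real.exp (-1) ≤ 1 / 2 := by
    rw [Real.exp_neg, one_div]
    refine inv_anti₀ (by norm_num) ?_
    have := Real.add_one_le_exp (1 : ℝ)
    linarith
  calc Real.exp (-(c0 * b ^ 4)) ≤ Real.exp (-1 + (-(3 * b)) + ((-(k1 * M)) + (-(12 * (M * n) * b)) +
        (-(M * n * C2)))) := Real.exp_le_exp.2 (by linarith)
    _ = Real.exp (-1) * Real.exp (-(3 * b)) * (Real.exp (-(k1 * M)) * Real.exp (-(12 * (M * n) * b)) *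
        Real.exp (-(M * n * C2))) := by
      rw [Real.exp_add, Real.exp_add, Real.exp_add, Real.exp_add]
    _ ≤ 1 / 2 * (b ^ 3)⁻¹ * (κ ^ M * ((b ^ 12) ^ (M * n))⁻¹ *
        (Real.sqrt (2 * Real.pi / C2)) ^ (M * n)) := by
      have hκ0 : 0 ≤ κ := (Real.exp_pos _).le.trans hκ
      gcongr
    _ = _ := by ring

lemma num2 {M n : ℕ} {b c0 : ℝ} (hb : 1 ≤ b) (h : M * n + 3 * b + 1 ≤ c0 * b ^ 4 / 8) :
    Real.sqrt 2 ^ (M * n) * Real.exp (-(c0 * b ^ 4 / 8)) ≤ (b ^ 3)⁻¹ / 2 := by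
  have hb0 : 0 < b := by linarith
  have hbe : b ≤ Real.exp b := by have := Real.add_one_le_exp b; linarith
  have e1 : Real.exp (-(3 * b)) ≤ (b ^ 3)⁻¹ := by
    rw [Real.exp_neg]
    refine inv_anti₀ (by positivity) ?_
    calc b ^ 3 ≤ (Real.exp b) ^ 3 := pow_le_pow_left₀ hb0.le hbe 3
      _ = Real.exp (3 * b) := by rw [← Real.exp_nat_mul]; norm_num
  have e5 : Real.exp (-1) ≤ 1 / 2 := by
    rw [Real.exp_neg, one_div]
    refine inv_anti₀ (by norm_num) ?_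
    have := Real.add_one_le_exp (1 : ℝ)
    linarith
  have e2 : Real.sqrt 2 ^ (M * n) ≤ Real.exp (M * n) := by
    have h1 : Real.sqrt 2 ≤ Real.exp 1 := by
      have h2 : Real.sqrt 2 ≤ 2 := by
        rw [Real.sqrt_le_left (by norm_num)]; norm_num
      have := Real.add_one_le_exp (1 : ℝ)
      linarith
    calc Real.sqrt 2 ^ (M * n) ≤ (Real.exp 1) ^ (M * n) := pow_le_pow_left₀ (Real.sqrt_nonneg _) h1 _
      _ = _ := by rw [← Real.exp_nat_mul]; congr 1; push_cast; ring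
  calc _ ≤ Real.exp (M * n) * Real.exp (-(c0 * b ^ 4 / 8)) :=
        mul_le_mul_of_nonneg_right e2 (Real.exp_pos _).le
    _ = Real.exp (M * n + -(c0 * b ^ 4 / 8)) := by rw [Real.exp_add]
    _ ≤ Real.exp (-(3 * b) + -1) := Real.exp_le_exp.2 (by linarith)
    _ = Real.exp (-(3 * b)) * Real.exp (-1) := by rw [Real.exp_add]
    _ ≤ (b ^ 3)⁻¹ * (1 / 2) := mul_le_mul e1 e5 (Real.exp_pos _).le (by positivity)
    _ = _ := by ring

lemma num3 {M : ℕ} {b A C' : ℝ} (hb : 1 ≤ b) (hC' : 0 ≤ C') (hA : 8 * A ≤ b ^ 3) (hA0 : 0 ≤ A)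
    (hC : 8 * (M * C') ≤ b ^ 7) :
    Real.exp (A * (b ^ 6)⁻¹) * (1 + C' * (b ^ 10)⁻¹) ^ M ≤ 1 + (b ^ 3)⁻¹ / 2 := by
  have hb0 : 0 < b := by linarith
  have h3 : 0 < (b ^ 3)⁻¹ := by positivity
  have h3' : (b ^ 3)⁻¹ ≤ 1 := inv_le_one_of_one_le₀ (one_le_pow₀ hb)
  have e1 : A * (b ^ 6)⁻¹ ≤ (b ^ 3)⁻¹ / 8 := by
    have : A ≤ b ^ 3 / 8 := by linarith
    calc A * (b ^ 6)⁻¹ ≤ b ^ 3 / 8 * (b ^ 6)⁻¹ := mul_le_mul_of_nonneg_right this (by positivity)
      _ = (b ^ 3)⁻¹ / 8 := by field_simp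
  have e2 : M * C' * (b ^ 10)⁻¹ ≤ (b ^ 3)⁻¹ / 8 := by
    have : M * C' ≤ b ^ 7 / 8 := by linarith
    calc M * C' * (b ^ 10)⁻¹ ≤ b ^ 7 / 8 * (b ^ 10)⁻¹ := mul_le_mul_of_nonneg_right this (by positivity)
      _ = (b ^ 3)⁻¹ / 8 := by field_simp
  have e3 : (1 + C' * (b ^ 10)⁻¹) ^ M ≤ Real.exp (M * C' * (b ^ 10)⁻¹) := by
    calc (1 + C' * (b ^ 10)⁻¹) ^ M ≤ (Real.exp (C' * (b ^ 10)⁻¹)) ^ M := by
          refine pow_le_pow_left₀ (by positivity) ?_ M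
          have := Real.add_one_le_exp (C' * (b ^ 10)⁻¹)
          linarith
      _ = _ := by rw [← Real.exp_nat_mul]; congr 1; ring
  calc _ ≤ Real.exp (A * (b ^ 6)⁻¹) * Real.exp (M * C' * (b ^ 10)⁻¹) :=
        mul_le_mul_of_nonneg_left e3 (Real.exp_pos _).le
    _ = Real.exp (A * (b ^ 6)⁻¹ + M * C' * (b ^ 10)⁻¹) := by rw [Real.exp_add]
    _ ≤ Real.exp ((b ^ 3)⁻¹ / 4) := Real.exp_le_exp.2 (by linarith)
    _ ≤ 1 + (b ^ 3)⁻¹ / 2 := by
      obtain ⟨x, hx⟩ : ∃ x, x = (b ^ 3)⁻¹ := ⟨_, rfl⟩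
      rw [← hx] at h3 h3' ⊢
      have h4 := Real.abs_exp_sub_one_le (x := x / 4) (by rw [abs_of_pos (by linarith)]; linarith)
      rw [abs_of_pos (by linarith : 0 < x / 4)] at h4
      have := (abs_le.1 h4).2
      linarith

variable {N n : ℕ} {G : Subgroup (UN N)}
variable [CompactSpace G] [SecondCountableTopology G] [MeasurableSpace G] [BorelSpace G]

/-- the Gaussian integral of the chain -/
def JP (B : Frame G n) (D L j : ℕ) (P : G) : ℝ :=
  ∫ X : Fin (j + 1) → Lk D L → En n, Real.exp (-(1 / 2 * actQ B j P X))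

/-- the integral over the configurations with holonomy `P` -/
def ZP (μ : Measure G) (D L j : ℕ) (β : ℝ) (P : G) : ℝ :=
  ∫ U : Fin (j + 1) → Lk D L → G, Real.exp (-(β * act j P U))
    ∂(Measure.pi fun _ => Measure.pi fun _ => μ)

lemma JQ_eq (B : Frame G n) (D L j : ℕ) (P : G) :
    JQ (actQS (D := D) (L := L) B j P) = JP B D L j P := by
  unfold JQ JP
  exact integral_unc (volume : Measure (En n)) fun X => Real.exp (-(1 / 2 * actQS B j P X))

lemma ZP_eq (μ : Measure G) [IsProbabilityMeasure μ] (D L j : ℕ) (β : ℝ) (P : G) :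
    ∫ U, Real.exp (-(β * actS (D := D) (L := L) j P U)) ∂(Measure.pi fun _ => μ) =
      ZP μ D L j β P := by
  unfold ZP
  exact integral_unc μ fun U => Real.exp (-(β * actS j P U))

lemma card_I (D L j : ℕ) : Fintype.card (Fin (j + 1) × Lk D L) = (j + 1) * Fintype.card (Lk D L) := by
  rw [Fintype.card_prod, Fintype.card_fin]

/-- **Laplace's method for the chain**, with constants uniform in the volume. -/
theorem lap_rel (D : ℕ) (B : Frame G n) (hG : IsClosed (G : Set (UN N))) (μ : Measure G)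
    [IsProbabilityMeasure μ] {κ C' r0 : ℝ} (hCh : Ch B μ κ C' r0) :
    ∃ C : ℝ, 1 ≤ C ∧ ∀ (L j : ℕ) (Y b : ℝ), 1 ≤ Y → (L : ℝ) ≤ Y → (j : ℝ) + 1 ≤ Y →
      C * Y ^ (2 * D + 6) ≤ b → ∀ P : G,
      0 < JP B D L j P ∧
      (1 - (b ^ 3)⁻¹) * (κ ^ ((j + 1) * Fintype.card (Lk D L)) *
        ((b ^ 12) ^ ((j + 1) * Fintype.card (Lk D L) * n))⁻¹ * JP B D L j P) ≤
          ZP μ D L j (b ^ 24) P ∧
      ZP μ D L j (b ^ 24) P ≤ (1 + (b ^ 3)⁻¹) * (κ ^ ((j + 1) * Fintype.card (Lk D L)) *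
        ((b ^ 12) ^ ((j + 1) * Fintype.card (Lk D L) * n))⁻¹ * JP B D L j P) := by
  obtain ⟨Cc, hC⟩ := exists_Cart B hG
  have hκ := hCh.κpos
  have hC' := hCh.Cpos
  have hr0 := hCh.rpos
  have hCc := hC.1
  obtain ⟨k1, hk1⟩ : ∃ k1, k1 = |Real.log κ| := ⟨_, rfl⟩
  have hk10 : 0 ≤ k1 := by rw [hk1]; exact abs_nonneg _
  have hk1e : Real.exp (-k1) ≤ κ := by
    calc Real.exp (-k1) ≤ Real.exp (Real.log κ) := Real.exp_le_exp.2 (by
          rw [hk1]; have := neg_abs_le (Real.log κ); linarith)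
      _ = κ := Real.exp_log hκ
  obtain ⟨Q, hQ⟩ : ∃ Q : ℝ, Q = 16 * D ^ 2 + 4 + 2 * (D * (2 * D + 1) ^ 2) := ⟨_, rfl⟩
  obtain ⟨CA, hCA⟩ : ∃ CA : ℝ, CA = 2 * (D ^ 2 * (5 * Cc ^ 2 * (3 * D + 4) ^ 4)) := ⟨_, rfl⟩
  obtain ⟨R, hR⟩ : ∃ R : ℝ, R = 4 + k1 * D + 12 * (D * n) + D * n * Q := ⟨_, rfl⟩
  have hQ0 : 0 ≤ Q := by rw [hQ]; positivity
  have hCA0 : 0 ≤ CA := by rw [hCA]; positivity
  have hR0 : 0 ≤ R := by rw [hR]; positivity
  obtain ⟨C, hCd⟩ : ∃ C : ℝ, C = 1 + 8 * CA + 8 * (D * C') + 16 * (D + 1) ^ 2 * R + 1 / r0 := ⟨_, rfl⟩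
  have hC1 : 1 ≤ C := by
    rw [hCd]
    have : 0 ≤ 8 * CA + 8 * (D * C') + 16 * ((D : ℝ) + 1) ^ 2 * R + 1 / r0 := by positivity
    linarith
  refine ⟨C, hC1, fun L j Y b hY hLY hjY hb P => ?_⟩
  have hY0 : 0 < Y := by linarith
  have hL0 : (0 : ℝ) ≤ L := Nat.cast_nonneg _
  have hj0 : (0 : ℝ) ≤ j := Nat.cast_nonneg _
  have hYp : 1 ≤ Y ^ (2 * D + 6) := one_le_pow₀ hY
  have hCb : C ≤ b := by
    calc C = C * 1 := (mul_one C).symm
      _ ≤ C * Y ^ (2 * D + 6) := mul_le_mul_of_nonneg_left hYp (by linarith)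
      _ ≤ b := hb
  have hb1 : 1 ≤ b := hC1.trans hCb
  have hb0 : 0 < b := by linarith
  obtain ⟨M, hM⟩ : ∃ M, M = (j + 1) * Fintype.card (Lk D L) := ⟨_, rfl⟩
  have hMY : (M : ℝ) ≤ D * Y ^ (D + 1) := by
    rw [hM]
    push_cast
    have h1 := card_Lk_le (D := D) (L := L)
    have h2 : (L : ℝ) ^ D ≤ Y ^ D := pow_le_pow_left₀ hL0 hLY D
    calc ((j : ℝ) + 1) * (Fintype.card (Lk D L) : ℝ) ≤ Y * (D * Y ^ D) := by
          refine mul_le_mul hjY (h1.trans ?_) (Nat.cast_nonneg _) hY0.le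
          exact mul_le_mul_of_nonneg_left h2 (Nat.cast_nonneg _)
      _ = _ := by ring
  have hLD : (L : ℝ) ^ D ≤ Y ^ D := pow_le_pow_left₀ hL0 hLY D
  -- the error constant
  have hA : (2 * j + 2) * Terr D L Cc ≤ CA * Y ^ (D + 5) := by
    unfold Terr
    have h1 : (3 * ((D : ℝ) * L) + 4) ≤ (3 * D + 4) * Y := by
      have : (D : ℝ) * L ≤ D * Y := mul_le_mul_of_nonneg_left hLY (Nat.cast_nonneg _)
      have e : (3 * (D : ℝ) + 4) * Y = 3 * (D * Y) + 4 * Y := by ring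
      rw [e]; linarith
    have h2 : (3 * ((D : ℝ) * L) + 4) ^ 4 ≤ ((3 * D + 4) * Y) ^ 4 := pow_le_pow_left₀ (by positivity) h1 4
    calc (2 * j + 2) * ((L : ℝ) ^ D * D ^ 2 * (5 * Cc ^ 2 * (3 * (D * L) + 4) ^ 4)) ≤
        (2 * Y) * (Y ^ D * D ^ 2 * (5 * Cc ^ 2 * ((3 * D + 4) * Y) ^ 4)) := by
          have : 2 * (j : ℝ) + 2 ≤ 2 * Y := by linarith
          gcongr
      _ = CA * Y ^ (D + 5) := by rw [hCA]; ring
  have hA0 : 0 ≤ (2 * j + 2) * Terr D L Cc := by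
    have := Terr_nonneg (D := D) (L := L) (Cc := Cc)
    positivity
  have hYle : ∀ k, k ≤ 2 * D + 6 → Y ^ k ≤ Y ^ (2 * D + 6) := fun k hk => pow_le_pow_right₀ hY hk
  have hbpow : ∀ k, 1 ≤ k → b ≤ b ^ k := fun k hk => by
    calc b = b ^ 1 := (pow_one b).symm
      _ ≤ b ^ k := pow_le_pow_right₀ hb1 hk
  have hA8 : 8 * ((2 * j + 2) * Terr D L Cc) ≤ b ^ 3 := by
    calc _ ≤ 8 * (CA * Y ^ (2 * D + 6)) := by
          have := mul_le_mul_of_nonneg_left (hYle (D + 5) (by omega)) hCA0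
          linarith
      _ = 8 * CA * Y ^ (2 * D + 6) := by ring
      _ ≤ C * Y ^ (2 * D + 6) := by
          have : 8 * CA ≤ C := by
            rw [hCd]
            have : 0 ≤ 8 * (D * C') + 16 * ((D : ℝ) + 1) ^ 2 * R + 1 / r0 := by positivity
            linarith
          exact mul_le_mul_of_nonneg_right this (by linarith)
      _ ≤ b := hb
      _ ≤ b ^ 3 := hbpow 3 (by norm_num)
  have hM8 : 8 * (M * C') ≤ b ^ 7 := by
    calc _ ≤ 8 * (D * C') * Y ^ (2 * D + 6) := by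
          have h1 := hYle (D + 1) (by omega)
          have h2 : (M : ℝ) ≤ D * Y ^ (2 * D + 6) := hMY.trans
            (mul_le_mul_of_nonneg_left h1 (Nat.cast_nonneg _))
          calc 8 * (M * C') ≤ 8 * (D * Y ^ (2 * D + 6) * C') := by
                have := mul_le_mul_of_nonneg_right h2 hC'.le
                linarith
            _ = _ := by ring
      _ ≤ C * Y ^ (2 * D + 6) := by
          have : 8 * (D * C') ≤ C := by
            rw [hCd]
            have : 0 ≤ 8 * CA + 16 * ((D : ℝ) + 1) ^ 2 * R + 1 / r0 := by positivity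
            linarith
          exact mul_le_mul_of_nonneg_right this (by linarith)
      _ ≤ b := hb
      _ ≤ b ^ 7 := hbpow 7 (by norm_num)
  -- the coercivity constant
  have hc0 : 1 / (2 * ((D + 1) * Y) ^ 2) ≤ c0c D L j := by
    unfold c0c
    refine one_div_le_one_div_of_le (by positivity) ?_
    have h1 : (D : ℝ) * L + j + 1 ≤ (D + 1) * Y := by
      have : (D : ℝ) * L ≤ D * Y := mul_le_mul_of_nonneg_left hLY (Nat.cast_nonneg _)
      linarith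
    have h2 : ((D : ℝ) * L + j + 1) ^ 2 ≤ ((D + 1) * Y) ^ 2 := pow_le_pow_left₀ (by positivity) h1 2
    linarith
  have hCup : Cup D L ≤ Q * Y ^ (D + 2) := by
    unfold Cup
    have h1 : 2 * ((D : ℝ) * L) + 1 ≤ (2 * D + 1) * Y := by
      have : (D : ℝ) * L ≤ D * Y := mul_le_mul_of_nonneg_left hLY (Nat.cast_nonneg _)
      have e : (2 * (D : ℝ) + 1) * Y = 2 * (D * Y) + Y := by ring
      rw [e]; linarith
    have h2 : (2 * ((D : ℝ) * L) + 1) ^ 2 ≤ ((2 * D + 1) * Y) ^ 2 := pow_le_pow_left₀ (by positivity) h1 2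
    have h3 : 1 ≤ Y ^ (D + 2) := one_le_pow₀ hY
    have h4 : Y ^ D ≤ Y ^ (D + 2) := pow_le_pow_right₀ hY (by omega)
    calc 16 * ((L : ℝ) ^ D * D ^ 2) + 4 + 2 * (D * (L : ℝ) ^ D * (2 * (D * L) + 1) ^ 2) ≤
        16 * (Y ^ D * D ^ 2) + 4 + 2 * (D * Y ^ D * ((2 * D + 1) * Y) ^ 2) := by gcongr
      _ ≤ 16 * (Y ^ (D + 2) * D ^ 2) + 4 * Y ^ (D + 2) + 2 * (D * Y ^ D * ((2 * D + 1) * Y) ^ 2) := by
          gcongr
          linarith
      _ = Q * Y ^ (D + 2) := by rw [hQ]; ring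
  have hCup1 : 1 ≤ Cup D L := by
    unfold Cup
    have : 0 ≤ 16 * ((L : ℝ) ^ D * D ^ 2) + 2 * (D * (L : ℝ) ^ D * (2 * (D * L) + 1) ^ 2) := by
      positivity
    linarith
  -- the main numerical condition
  have hmain : b * (R * Y ^ (2 * D + 3)) * 8 ≤ c0c D L j * b ^ 4 := by
    have h1 : 16 * (D + 1) ^ 2 * R * Y ^ (2 * D + 5) ≤ b ^ 3 := by
      calc _ ≤ 16 * (D + 1) ^ 2 * R * Y ^ (2 * D + 6) := by
            have := hYle (2 * D + 5) (by omega)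
            exact mul_le_mul_of_nonneg_left this (by positivity)
        _ ≤ C * Y ^ (2 * D + 6) := by
            have : 16 * (D + 1) ^ 2 * R ≤ C := by
              rw [hCd]
              have : 0 ≤ 8 * CA + 8 * (D * C') + 1 / r0 := by positivity
              linarith
            exact mul_le_mul_of_nonneg_right this (by linarith)
        _ ≤ b := hb
        _ ≤ b ^ 3 := hbpow 3 (by norm_num)
    have h2 : b * (R * Y ^ (2 * D + 3)) * 8 ≤ 1 / (2 * ((D + 1) * Y) ^ 2) * b ^ 4 := by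
      rw [div_mul_eq_mul_div, one_mul, le_div_iff₀ (by positivity)]
      calc b * (R * Y ^ (2 * D + 3)) * 8 * (2 * ((D + 1) * Y) ^ 2) =
          b * (16 * (D + 1) ^ 2 * R * Y ^ (2 * D + 5)) := by ring
        _ ≤ b * b ^ 3 := mul_le_mul_of_nonneg_left h1 hb0.le
        _ = b ^ 4 := by ring
    exact h2.trans (mul_le_mul_of_nonneg_right hc0 (by positivity))
  have hYbig : Y ^ (D + 1) ≤ Y ^ (2 * D + 3) := pow_le_pow_right₀ hY (by omega)
  have hYbig1 : 1 ≤ Y ^ (2 * D + 3) := one_le_pow₀ hY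
  have hMY3 : (M : ℝ) ≤ D * Y ^ (2 * D + 3) :=
    hMY.trans (mul_le_mul_of_nonneg_left hYbig (Nat.cast_nonneg _))
  have hMnC : M * n * Cup D L ≤ D * n * Q * Y ^ (2 * D + 3) := by
    have hM0 : (0 : ℝ) ≤ M := Nat.cast_nonneg _
    have hn0 : (0 : ℝ) ≤ n := Nat.cast_nonneg _
    calc (M : ℝ) * n * Cup D L ≤ (D * Y ^ (D + 1)) * n * (Q * Y ^ (D + 2)) := by gcongr
      _ = D * n * Q * Y ^ (2 * D + 3) := by ring
  have hcond1 : 1 + 3 * b + k1 * M + 12 * (M * n) * b + M * n * Cup D L ≤ c0c D L j * b ^ 4 := by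
    have h1 : 1 + 3 * b + k1 * M + 12 * (M * n) * b + M * n * Cup D L ≤ b * (R * Y ^ (2 * D + 3)) := by
      have hn0 : (0 : ℝ) ≤ n := Nat.cast_nonneg _
      have e1 : 1 + 3 * b ≤ b * (4 * Y ^ (2 * D + 3)) := by
        have : b * 4 ≤ b * (4 * Y ^ (2 * D + 3)) := mul_le_mul_of_nonneg_left (by linarith) hb0.le
        linarith
      have e2 : k1 * M ≤ b * (k1 * D * Y ^ (2 * D + 3)) := by
        have h3 : k1 * M ≤ k1 * D * Y ^ (2 * D + 3) := by
          have := mul_le_mul_of_nonneg_left hMY3 hk10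
          linarith
        have h4 : 0 ≤ k1 * D * Y ^ (2 * D + 3) := by positivity
        exact h3.trans (le_mul_of_one_le_left h4 hb1)
      have e3 : 12 * (M * n) * b ≤ b * (12 * (D * n) * Y ^ (2 * D + 3)) := by
        have h3 : (M : ℝ) * n ≤ D * Y ^ (2 * D + 3) * n := mul_le_mul_of_nonneg_right hMY3 hn0
        have h4 := mul_le_mul_of_nonneg_left h3 (by positivity : 0 ≤ 12 * b)
        calc 12 * (M * n) * b = 12 * b * (M * n) := by ring
          _ ≤ 12 * b * (D * Y ^ (2 * D + 3) * n) := h4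
          _ = _ := by ring
      have e4 : M * n * Cup D L ≤ b * (D * n * Q * Y ^ (2 * D + 3)) := by
        have h4 : 0 ≤ D * n * Q * Y ^ (2 * D + 3) := by positivity
        exact hMnC.trans (le_mul_of_one_le_left h4 hb1)
      rw [hR]
      have e5 : b * ((4 + k1 * D + 12 * (D * n) + D * n * Q) * Y ^ (2 * D + 3)) =
          b * (4 * Y ^ (2 * D + 3)) + b * (k1 * D * Y ^ (2 * D + 3)) +
          b * (12 * (D * n) * Y ^ (2 * D + 3)) + b * (D * n * Q * Y ^ (2 * D + 3)) := by ring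
      rw [e5]
      linarith
    have h2 : 0 ≤ b * (R * Y ^ (2 * D + 3)) := by positivity
    linarith
  have hcond2 : M * n + 3 * b + 1 ≤ c0c D L j * b ^ 4 / 8 := by
    have h1 : M * n + 3 * b + 1 ≤ b * (R * Y ^ (2 * D + 3)) := by
      have hn0 : (0 : ℝ) ≤ n := Nat.cast_nonneg _
      have e1 : 1 + 3 * b ≤ b * (4 * Y ^ (2 * D + 3)) := by
        have : b * 4 ≤ b * (4 * Y ^ (2 * D + 3)) := mul_le_mul_of_nonneg_left (by linarith) hb0.le
        linarith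
      have e3 : M * n ≤ b * (12 * (D * n) * Y ^ (2 * D + 3)) := by
        have h3 : (M : ℝ) * n ≤ D * Y ^ (2 * D + 3) * n := mul_le_mul_of_nonneg_right hMY3 hn0
        have h4 : (0 : ℝ) ≤ D * n * Y ^ (2 * D + 3) := by positivity
        calc (M : ℝ) * n ≤ D * Y ^ (2 * D + 3) * n := h3
          _ = 1 * (D * n * Y ^ (2 * D + 3)) := by ring
          _ ≤ (12 * b) * (D * n * Y ^ (2 * D + 3)) :=
            mul_le_mul_of_nonneg_right (by linarith) h4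
          _ = _ := by ring
      rw [hR]
      have h5 : 0 ≤ b * (k1 * D * Y ^ (2 * D + 3)) := by positivity
      have h6 : 0 ≤ b * (D * n * Q * Y ^ (2 * D + 3)) := by positivity
      have e5 : b * ((4 + k1 * D + 12 * (D * n) + D * n * Q) * Y ^ (2 * D + 3)) =
          b * (4 * Y ^ (2 * D + 3)) + b * (k1 * D * Y ^ (2 * D + 3)) +
          b * (12 * (D * n) * Y ^ (2 * D + 3)) + b * (D * n * Q * Y ^ (2 * D + 3)) := by ring
      rw [e5]
      linarith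
    linarith
  have hrr0 : (b ^ 10)⁻¹ ≤ r0 := by
    have h1 : 1 / r0 ≤ b := by
      have : 1 / r0 ≤ C := by
        rw [hCd]
        have : 0 ≤ 8 * CA + 8 * (D * C') + 16 * ((D : ℝ) + 1) ^ 2 * R := by positivity
        linarith
      exact this.trans hCb
    have h2 : 1 / r0 ≤ b ^ 10 := h1.trans (hbpow 10 (by norm_num))
    rw [inv_le_comm₀ (by positivity) hr0]
    rwa [one_div] at h2
  have hrr1 : (b ^ 10)⁻¹ ≤ 1 := inv_le_one_of_one_le₀ (one_le_pow₀ hb1)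
  have hrp : 0 < (b ^ 10)⁻¹ := by positivity
  have hsp : 0 < b ^ 12 := by positivity
  -- Laplace
  have hS := isAct (D := D) (L := L) hC j P
  have hQF := isQF (D := D) (L := L) hC hG j P
  have hc1 : 0 < 2 * c0c D L j := by have := c0c_pos (D := D) (L := L) (j := j); linarith
  have hup := lap_upper (μ := μ) hCh hS hQF hc1 c0c_pos hsp hrp hrr0 hrr1
  have hlo := lap_lower (μ := μ) hCh hS hQF hc1 Cup_pos hsp hrp hrr0 hrr1
  have hJpos := hQF.JQ_pos hc1 Cup_pos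
  have hJlow := hQF.JQ_lower hc1 Cup_pos
  have hs2 : (b ^ 12) ^ 2 = b ^ 24 := by rw [← pow_mul]
  rw [card_I, ← hM, JQ_eq, hs2, ZP_eq] at hup hlo
  rw [JQ_eq] at hJpos hJlow
  rw [card_I, ← hM] at hJlow
  rw [← hM]
  obtain ⟨W, hW⟩ : ∃ W, W = κ ^ M * ((b ^ 12) ^ (M * n))⁻¹ * JP B D L j P := ⟨_, rfl⟩
  rw [← hW] at hup hlo ⊢
  have hWpos : 0 < W := by rw [hW]; positivity
  refine ⟨hJpos, ?_, ?_⟩
  · -- from below
    refine le_trans ?_ hlo
    refine mul_le_mul_of_nonneg_right ?_ hWpos.le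
    have e1 : b ^ 24 * ((2 * j + 2) * Terr D L Cc) * (b ^ 10)⁻¹ ^ 3 =
        ((2 * j + 2) * Terr D L Cc) * (b ^ 6)⁻¹ := by field_simp
    have e2 : b ^ 24 * (2 * c0c D L j) * ((b ^ 10)⁻¹ / 2) ^ 2 / 4 = c0c D L j * b ^ 4 / 8 := by
      field_simp; ring
    rw [e1, e2]
    have h1 := num2 (M := M) (n := n) hb1 hcond2
    obtain ⟨y, hy⟩ : ∃ y, y = Real.sqrt 2 ^ (M * n) * Real.exp (-(c0c D L j * b ^ 4 / 8)) := ⟨_, rfl⟩
    rw [← hy] at h1 ⊢
    have hy0 : 0 ≤ y := by rw [hy]; positivity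
    have h3 : 0 < (b ^ 3)⁻¹ := by positivity
    have h3' : (b ^ 3)⁻¹ ≤ 1 := inv_le_one_of_one_le₀ (one_le_pow₀ hb1)
    have h4 : ((2 * j + 2) * Terr D L Cc) * (b ^ 6)⁻¹ ≤ (b ^ 3)⁻¹ / 8 := by
      have : (2 * j + 2) * Terr D L Cc ≤ b ^ 3 / 8 := by linarith
      calc _ ≤ b ^ 3 / 8 * (b ^ 6)⁻¹ := mul_le_mul_of_nonneg_right this (by positivity)
        _ = (b ^ 3)⁻¹ / 8 := by field_simp
    have h5 : 1 - (b ^ 3)⁻¹ / 8 ≤ Real.exp (-(((2 * j + 2) * Terr D L Cc) * (b ^ 6)⁻¹)) := by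
      have := Real.add_one_le_exp (-(((2 * j + 2) * Terr D L Cc) * (b ^ 6)⁻¹))
      linarith
    have h6 : 0 ≤ 1 - y := by linarith
    calc 1 - (b ^ 3)⁻¹ ≤ (1 - (b ^ 3)⁻¹ / 8) * (1 - y) := by
          have h7 : 0 ≤ (b ^ 3)⁻¹ / 8 * y := by positivity
          have e : (1 - (b ^ 3)⁻¹ / 8) * (1 - y) = 1 - (b ^ 3)⁻¹ / 8 - y + (b ^ 3)⁻¹ / 8 * y := by ring
          rw [e]; linarith
      _ ≤ _ := mul_le_mul_of_nonneg_right h5 h6
  · -- from above
    refine hup.trans ?_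
    have e1 : b ^ 24 * ((2 * j + 2) * Terr D L Cc) * (b ^ 10)⁻¹ ^ 3 =
        ((2 * j + 2) * Terr D L Cc) * (b ^ 6)⁻¹ := by field_simp
    have e2 : b ^ 24 * c0c D L j * (b ^ 10)⁻¹ ^ 2 = c0c D L j * b ^ 4 := by field_simp
    rw [e1, e2]
    have h1 := num3 (M := M) hb1 hC'.le hA8 hA0 hM8
    have h2 := num1 M n hk1e hCup1 hb1 hcond1
    have h3 : (b ^ 3)⁻¹ / 2 * (κ ^ M * ((b ^ 12) ^ (M * n))⁻¹ *
        (Real.sqrt (2 * Real.pi / Cup D L)) ^ (M * n)) ≤ (b ^ 3)⁻¹ / 2 * W := by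
      rw [hW]
      refine mul_le_mul_of_nonneg_left ?_ (by positivity)
      exact mul_le_mul_of_nonneg_left hJlow (by positivity)
    have h4 := mul_le_mul_of_nonneg_right h1 hWpos.le
    linarith

end

end Pool.Agent.T2H02.Gap
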