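import Mathlib
import Pool.Agent.T2H02.Gap.Quad
import Pool.Agent.T2H02.Gap.Lap

/-!
# The eigenmodes of the magnetic energy
-/

open MeasureTheory Filter
open scoped Topology ENNReal NNReal RealInnerProductSpace
open Pool.Agent.H906R3.YM Pool.Agent.W793.YM

namespace Pool.Agent.T2H02.Gap

set_option linter.unusedSectionVars false
set_option linter.unusedVariables false

noncomputable section

variable {n D L : ℕ}

lemma lv_sum {V : Type*} [AddCommGroup V] [Module ℝ V] (X : Lk D L → V) (w : Pt D) (k : Fin D) :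
    lv 0 X w k = ∑ e, lv 0 (Pi.single e (1 : ℝ)) w k • X e := by
  unfold lv
  split_ifs with h
  · rw [Finset.sum_eq_single ⟨(fun i => ⟨w i, h.1 i⟩, k), h.2⟩]
    · simp
    · intro e _ he
      rw [Pi.single_eq_of_ne (Ne.symm he), zero_smul]
    · intro hc; exact absurd (Finset.mem_univ _) hc
  · simp

lemma plqL_sum {V : Type*} [AddCommGroup V] [Module ℝ V] (X : Lk D L → V) (w : Pt D) (i j : Fin D) :
    plqL X w i j = ∑ e, plqL (Pi.single e (1 : ℝ)) w i j • X e := by
  unfold plqL
  rw [lv_sum X w i, lv_sum X (w + es i) j, lv_sum X (w + es j) i, lv_sum X w j,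
    ← Finset.sum_add_distrib, ← Finset.sum_sub_distrib, ← Finset.sum_sub_distrib]
  refine Finset.sum_congr rfl fun e _ => ?_
  rw [sub_smul, sub_smul, add_smul]

/-- coefficients of the circulation -/
def cc (x : St D L) (i j : Fin D) (e : Lk D L) : ℝ := plqL (Pi.single e (1 : ℝ)) (cst x) i j

/-- the matrix of the magnetic energy -/
def Km (D L : ℕ) : Matrix (Lk D L) (Lk D L) ℝ := fun e e' =>
  ∑ x : St D L, ∑ i : Fin D, ∑ j : Fin D, if PIn x i j then cc x i j e * cc x i j e' else 0

lemma norm_sum_sq {E : Type*} [Fintype E] {V : Type*} [NormedAddCommGroup V] [InnerProductSpace ℝ V]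
    (c : E → ℝ) (X : E → V) :
    ‖∑ e, c e • X e‖ ^ 2 = ∑ e, ∑ e', c e * c e' * ⟪X e, X e'⟫ := by
  rw [← real_inner_self_eq_norm_sq, sum_inner]
  refine Finset.sum_congr rfl fun e _ => ?_
  rw [inner_sum]
  refine Finset.sum_congr rfl fun e' _ => ?_
  rw [inner_smul_left, inner_smul_right]
  simp only [conj_trivial]
  ring

lemma magQ_eq {V : Type*} [NormedAddCommGroup V] [InnerProductSpace ℝ V] (X : Lk D L → V) :
    magQ X = ∑ e, ∑ e', Km D L e e' * ⟪X e, X e'⟫ := by
  have h1 : ∀ (x : St D L) (i j : Fin D), (if PIn x i j then ‖plqL X (cst x) i j‖ ^ 2 else 0) =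
      ∑ e, ∑ e', (if PIn x i j then cc x i j e * cc x i j e' else 0) * ⟪X e, X e'⟫ := by
    intro x i j
    split_ifs
    · rw [plqL_sum]
      exact norm_sum_sq (cc x i j) X
    · simp
  unfold magQ Km
  simp only [h1, Finset.sum_mul]
  calc _ = ∑ x : St D L, ∑ i : Fin D, ∑ e : Lk D L, ∑ j : Fin D, ∑ e' : Lk D L,
        (if PIn x i j then cc x i j e * cc x i j e' else 0) * ⟪X e, X e'⟫ :=
        Finset.sum_congr rfl fun x _ => Finset.sum_congr rfl fun i _ => Finset.sum_comm
    _ = ∑ x : St D L, ∑ e : Lk D L, ∑ i : Fin D, ∑ j : Fin D, ∑ e' : Lk D L,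
        (if PIn x i j then cc x i j e * cc x i j e' else 0) * ⟪X e, X e'⟫ :=
        Finset.sum_congr rfl fun x _ => Finset.sum_comm
    _ = ∑ e : Lk D L, ∑ x : St D L, ∑ i : Fin D, ∑ j : Fin D, ∑ e' : Lk D L,
        (if PIn x i j then cc x i j e * cc x i j e' else 0) * ⟪X e, X e'⟫ := Finset.sum_comm
    _ = ∑ e : Lk D L, ∑ x : St D L, ∑ i : Fin D, ∑ e' : Lk D L, ∑ j : Fin D,
        (if PIn x i j then cc x i j e * cc x i j e' else 0) * ⟪X e, X e'⟫ :=
        Finset.sum_congr rfl fun e _ => Finset.sum_congr rfl fun x _ =>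
          Finset.sum_congr rfl fun i _ => Finset.sum_comm
    _ = ∑ e : Lk D L, ∑ x : St D L, ∑ e' : Lk D L, ∑ i : Fin D, ∑ j : Fin D,
        (if PIn x i j then cc x i j e * cc x i j e' else 0) * ⟪X e, X e'⟫ :=
        Finset.sum_congr rfl fun e _ => Finset.sum_congr rfl fun x _ => Finset.sum_comm
    _ = _ := Finset.sum_congr rfl fun e _ => Finset.sum_comm

lemma Km_herm : (Km D L).IsHermitian := by
  ext e e'
  rw [Matrix.conjTranspose_apply]
  unfold Km
  simp only [star_trivial]
  refine Finset.sum_congr rfl fun x _ => Finset.sum_congr rfl fun i _ => Finset.sum_congr rfl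
    fun j _ => ?_
  split_ifs
  · ring
  · rfl

/-- eigenvalues of the magnetic energy -/
def kap (D L : ℕ) (l : Lk D L) : ℝ := (Km_herm (D := D) (L := L)).eigenvalues l

/-- eigenvectors of the magnetic energy -/
def bb (D L : ℕ) (l e : Lk D L) : ℝ := (Km_herm (D := D) (L := L)).eigenvectorBasis l e

lemma bb_orth (l l' : Lk D L) : ∑ e, bb D L l e * bb D L l' e = if l = l' then 1 else 0 := by
  have h := (Km_herm (D := D) (L := L)).eigenvectorBasis.orthonormal
  have h1 := (orthonormal_iff_ite.1 h) l l'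
  rw [← h1, PiLp.inner_apply]
  refine Finset.sum_congr rfl fun e _ => ?_
  simp only [RCLike.inner_apply, conj_trivial]
  unfold bb
  ring

lemma bb_compl (e e' : Lk D L) : ∑ l, bb D L l e * bb D L l e' = if e = e' then 1 else 0 := by
  have h := (Km_herm (D := D) (L := L)).eigenvectorBasis.sum_inner_mul_inner
    (EuclideanSpace.single e (1 : ℝ)) (EuclideanSpace.single e' (1 : ℝ))
  rw [EuclideanSpace.inner_single_left] at h
  have h2 : ((EuclideanSpace.single e' (1 : ℝ) : EuclideanSpace ℝ (Lk D L)) e) =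
      if e = e' then 1 else 0 := by
    simp
  rw [h2] at h
  simp only [map_one, one_mul] at h
  rw [← h]
  refine Finset.sum_congr rfl fun l _ => ?_
  rw [EuclideanSpace.inner_single_left, EuclideanSpace.inner_single_right]
  simp only [map_one, one_mul, conj_trivial]
  rfl

lemma bb_eig (l e : Lk D L) : ∑ e', Km D L e e' * bb D L l e' = kap D L l * bb D L l e := by
  have h := congrFun ((Km_herm (D := D) (L := L)).mulVec_eigenvectorBasis l) e
  simpa [Matrix.mulVec, dotProduct, bb, kap] using h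

lemma Km_eq (e e' : Lk D L) : Km D L e e' = ∑ l, kap D L l * bb D L l e * bb D L l e' := by
  calc Km D L e e' = ∑ f, Km D L e f * (if f = e' then 1 else 0) := by simp
    _ = ∑ f, Km D L e f * ∑ l, bb D L l f * bb D L l e' := by
      refine Finset.sum_congr rfl fun f _ => ?_
      rw [bb_compl]
    _ = ∑ l, (∑ f, Km D L e f * bb D L l f) * bb D L l e' := by
      simp only [Finset.mul_sum, Finset.sum_mul]
      rw [Finset.sum_comm]
      exact Finset.sum_congr rfl fun l _ => Finset.sum_congr rfl fun f _ => by ring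
    _ = _ := Finset.sum_congr rfl fun l _ => by rw [bb_eig]

section vec

variable {V : Type*} [NormedAddCommGroup V] [InnerProductSpace ℝ V]

/-- the coordinates in the eigenbasis -/
def Om : (Lk D L → V) ≃ₗ[ℝ] (Lk D L → V) where
  toFun X := fun l => ∑ e, bb D L l e • X e
  invFun Y := fun e => ∑ l, bb D L l e • Y l
  map_add' X Y := by
    funext l
    simp only [Pi.add_apply, smul_add, Finset.sum_add_distrib]
  map_smul' s X := by
    funext l
    simp only [Pi.smul_apply, RingHom.id_apply, Finset.smul_sum]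
    exact Finset.sum_congr rfl fun e _ => smul_comm _ _ _
  left_inv X := by
    funext e
    simp only [Finset.smul_sum, smul_smul]
    rw [Finset.sum_comm]
    calc _ = ∑ f, (∑ l, bb D L l e * bb D L l f) • X f :=
          Finset.sum_congr rfl fun f _ => by rw [Finset.sum_smul]
      _ = ∑ f, (if e = f then (1 : ℝ) else 0) • X f :=
          Finset.sum_congr rfl fun f _ => by rw [bb_compl]
      _ = X e := by simp
  right_inv Y := by
    funext l
    simp only [Finset.smul_sum, smul_smul]
    rw [Finset.sum_comm]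
    calc _ = ∑ l', (∑ e, bb D L l e * bb D L l' e) • Y l' :=
          Finset.sum_congr rfl fun f _ => by rw [Finset.sum_smul]
      _ = ∑ l', (if l = l' then (1 : ℝ) else 0) • Y l' :=
          Finset.sum_congr rfl fun f _ => by rw [bb_orth]
      _ = Y l := by simp

lemma Om_apply (X : Lk D L → V) (l : Lk D L) : Om X l = ∑ e, bb D L l e • X e := rfl

lemma sum_Om (c : Lk D L → ℝ) (X : Lk D L → V) : ∑ l, c l * ‖Om X l‖ ^ 2 =
    ∑ e, ∑ e', (∑ l, c l * bb D L l e * bb D L l e') * ⟪X e, X e'⟫ := by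
  simp only [Om_apply, norm_sum_sq, Finset.mul_sum, Finset.sum_mul]
  rw [Finset.sum_comm]
  refine Finset.sum_congr rfl fun e _ => ?_
  rw [Finset.sum_comm]
  exact Finset.sum_congr rfl fun e' _ => Finset.sum_congr rfl fun l _ => by ring

lemma magQ_Om (X : Lk D L → V) : magQ X = ∑ l, kap D L l * ‖Om X l‖ ^ 2 := by
  rw [magQ_eq, sum_Om]
  exact Finset.sum_congr rfl fun e _ => Finset.sum_congr rfl fun e' _ => by rw [Km_eq]

lemma N2_Om (X : Lk D L → V) : ∑ l, ‖Om X l‖ ^ 2 = ∑ e, ‖X e‖ ^ 2 := by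
  have h := sum_Om (fun _ => 1) X
  simp only [one_mul, bb_compl] at h
  rw [h]
  refine Finset.sum_congr rfl fun e _ => ?_
  simp

lemma magQ_nonneg (X : Lk D L → V) : 0 ≤ magQ X :=
  Finset.sum_nonneg fun x _ => Finset.sum_nonneg fun i _ => Finset.sum_nonneg fun j _ => by
    split_ifs
    · exact sq_nonneg _
    · exact le_rfl

end vec

lemma kap_nonneg (l : Lk D L) : 0 ≤ kap D L l := by
  obtain ⟨X, hX⟩ : ∃ X : Lk D L → ℝ, Om X = Pi.single l 1 := ⟨Om.symm (Pi.single l 1), by simp⟩
  have h := magQ_Om X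
  rw [hX, Finset.sum_eq_single l] at h
  · have := magQ_nonneg X
    rw [h] at this
    simpa using this
  · intro l' _ hl'
    rw [Pi.single_eq_of_ne hl']; simp
  · intro hc; exact absurd (Finset.mem_univ _) hc

section vec

variable {V : Type*} [NormedAddCommGroup V] [InnerProductSpace ℝ V]

lemma magQ_zero {X : Lk D L → V} (h : magQ X = 0) (w : Pt D) (i j : Fin D) (hij : i < j)
    (hw : ∀ k, w k < L) (hi : w i + 1 < L) (hj : w j + 1 < L) : plqL X w i j = 0 := by
  obtain ⟨x, hx⟩ : ∃ x : St D L, cst x = w := ⟨fun i => ⟨w i, hw i⟩, rfl⟩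
  unfold magQ at h
  have h1 := (Finset.sum_eq_zero_iff_of_nonneg (fun x _ => Finset.sum_nonneg fun i _ =>
    Finset.sum_nonneg fun j _ => by
      split_ifs
      · exact sq_nonneg _
      · exact le_rfl)).1 h x (Finset.mem_univ _)
  have h2 := (Finset.sum_eq_zero_iff_of_nonneg (fun i _ => Finset.sum_nonneg fun j _ => by
      split_ifs
      · exact sq_nonneg _
      · exact le_rfl)).1 h1 i (Finset.mem_univ _)
  have h3 := (Finset.sum_eq_zero_iff_of_nonneg (fun j _ => by
      split_ifs
      · exact sq_nonneg _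
      · exact le_rfl)).1 h2 j (Finset.mem_univ _)
  have hin : PIn x i j := by
    refine ⟨hij, ?_, ?_⟩
    · have : (x i : ℕ) = w i := congrFun hx i
      rw [this]; exact hi
    · have : (x j : ℕ) = w j := congrFun hx j
      rw [this]; exact hj
  rw [if_pos hin, hx] at h3
  exact norm_eq_zero.1 (pow_eq_zero_iff (by norm_num) |>.1 h3)

lemma hatL_sub (X X' : Lk D L → V) : hatL (X - X') = hatL X - hatL X' := by
  rw [← hatM_apply, map_sub, hatM_apply, hatM_apply]

/-- the comb gauge depends only on the components with positive eigenvalues -/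
lemma hatL_congr {X X' : Lk D L → V} (h : ∀ l, 0 < kap D L l → Om X l = Om X' l) :
    hatL X = hatL X' := by
  have h1 : magQ (X - X') = 0 := by
    rw [magQ_Om]
    refine Finset.sum_eq_zero fun l _ => ?_
    rcases (kap_nonneg l).eq_or_lt with h0 | h0
    · rw [← h0, zero_mul]
    · rw [map_sub, Pi.sub_apply, h l h0, sub_self, norm_zero]; ring
  have h2 : hatL (X - X') = 0 := by
    funext e
    exact hatL_flat _ (fun w i j hij hw hi hj => magQ_zero h1 w i j hij hw hi hj) e
  rw [hatL_sub, sub_eq_zero] at h2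
  exact h2

lemma plqL_sub (X X' : Lk D L → V) (w : Pt D) (i j : Fin D) :
    plqL (X - X') w i j = plqL X w i j - plqL X' w i j := by
  rw [← plqM_apply, map_sub, plqM_apply, plqM_apply]

/-- the comb gauge does not change the components with positive eigenvalues -/
lemma Om_hatL (X : Lk D L → V) (l : Lk D L) (hl : 0 < kap D L l) : Om (hatL X) l = Om X l := by
  have h1 : magQ (hatL X - X) = 0 := by
    unfold magQ
    refine Finset.sum_eq_zero fun x _ => Finset.sum_eq_zero fun i _ => Finset.sum_eq_zero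
      fun j _ => ?_
    split_ifs with h
    · rw [plqL_sub, plqL_hatL X h.1.ne (cst_lt x) h.2.1 h.2.2, sub_self, norm_zero]; ring
    · rfl
  rw [magQ_Om] at h1
  have h2 := (Finset.sum_eq_zero_iff_of_nonneg (fun l _ => mul_nonneg (kap_nonneg l)
    (sq_nonneg _))).1 h1 l (Finset.mem_univ _)
  rcases mul_eq_zero.1 h2 with h3 | h3
  · exact absurd h3 hl.ne'
  · have h4 := norm_eq_zero.1 (pow_eq_zero_iff (by norm_num) |>.1 h3)
    rw [map_sub, Pi.sub_apply, sub_eq_zero] at h4
    exact h4

end vec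

/-! ### measure preservation -/

lemma mp_of_isometry {E : Type*} [Fintype E] (f : (E → En n) ≃ₗ[ℝ] (E → En n))
    (h : ∀ X, ∑ e, ‖f X e‖ ^ 2 = ∑ e, ‖X e‖ ^ 2) :
    MeasurePreserving f (volume : Measure (E → En n)) volume := by
  have hc : Continuous f := f.toLinearMap.continuous_of_finiteDimensional
  refine ⟨hc.measurable, ?_⟩
  have hdet : LinearMap.det f.toLinearMap ≠ 0 := f.isUnit_det'.ne_zero
  have h1 := Measure.map_linearMap_addHaar_eq_smul_addHaar (volume : Measure (E → En n)) hdet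
  have h2 : (⇑f.toLinearMap : (E → En n) → (E → En n)) = ⇑f := rfl
  rw [h2] at h1
  obtain ⟨c, hcd⟩ : ∃ c, c = ENNReal.ofReal |(LinearMap.det f.toLinearMap)⁻¹| := ⟨_, rfl⟩
  rw [← hcd] at h1
  obtain ⟨g, hg⟩ : ∃ g : (E → En n) → ℝ≥0∞, g = fun X =>
      ENNReal.ofReal (Real.exp (-(1 * ∑ e, ‖X e‖ ^ 2))) := ⟨_, rfl⟩
  have hgm : Measurable g := by
    rw [hg]
    have : Continuous fun X : E → En n => Real.exp (-(1 * ∑ e, ‖X e‖ ^ 2)) := by fun_prop
    exact this.measurable.ennreal_ofReal
  have h3 : ∫⁻ X, g X ∂(Measure.map f (volume : Measure (E → En n))) = ∫⁻ X, g X := by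
    rw [lintegral_map hgm hc.measurable]
    refine lintegral_congr fun X => ?_
    rw [hg]
    simp only [h]
  rw [h1, lintegral_smul_measure] at h3
  have h4 : ∫⁻ X, g X = ENNReal.ofReal ((Real.sqrt (Real.pi / 1)) ^ (Fintype.card E * n)) := by
    rw [hg, ← ofReal_integral_eq_lintegral_ofReal (gauss_prod_integrable E n one_pos)
      (Eventually.of_forall fun X => (Real.exp_pos _).le), gauss_prod_integral E n one_pos]
  have h5 : ∫⁻ X, g X ≠ 0 := by
    rw [h4]
    simp only [ne_eq, ENNReal.ofReal_eq_zero, not_le]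
    positivity
  have h6 : ∫⁻ X, g X ≠ ⊤ := by rw [h4]; exact ENNReal.ofReal_ne_top
  have h7 : c = 1 := by
    have h8 : c * ∫⁻ X, g X = 1 * ∫⁻ X, g X := by rw [one_mul]; exact h3
    exact (ENNReal.mul_left_inj h5 h6).1 h8
  rw [h1, h7, one_smul]

lemma mp_Om : MeasurePreserving (Om : (Lk D L → En n) ≃ₗ[ℝ] (Lk D L → En n)) volume volume :=
  mp_of_isometry Om N2_Om

end

end Pool.Agent.T2H02.Gap
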