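import Mathlib
import Pool.Agent.T2H02.Gap.Gauss1
import Pool.Agent.T2H02.Gap.Modes
import Pool.Agent.T2H02.Gap.LapZ

/-!
# The Gaussian integral of the chain
-/

open MeasureTheory Filter
open scoped Topology ENNReal NNReal RealInnerProductSpace
open Pool.Agent.H906R3.YM Pool.Agent.W793.YM Pool.Agent.TH618.YM

namespace Pool.Agent.T2H02.Gap

set_option linter.unusedSectionVars false
set_option linter.unusedVariables false

noncomputable section

variable {n : ℕ}

/-- the decay rate of a mode per unit of time: `exp (- ω)` where `4 sinh² (ω / 2) = κ` -/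
def lam (κ : ℝ) : ℝ := Real.exp (-(2 * Real.arsinh (Real.sqrt κ / 2)))

lemma lam_pos (κ : ℝ) : 0 < lam κ := Real.exp_pos _

lemma lam_lt_one {κ : ℝ} (hκ : 0 < κ) : lam κ < 1 := by
  unfold lam
  rw [Real.exp_lt_one_iff]
  have : 0 < Real.arsinh (Real.sqrt κ / 2) := Real.arsinh_pos_iff.2 (by positivity)
  linarith

lemma lam_add_inv {κ : ℝ} (hκ : 0 ≤ κ) : lam κ + (lam κ)⁻¹ = 2 + κ := by
  unfold lam
  obtain ⟨a, ha⟩ : ∃ a, a = Real.arsinh (Real.sqrt κ / 2) := ⟨_, rfl⟩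
  rw [← ha]
  have h1 : Real.sinh a = Real.sqrt κ / 2 := by rw [ha, Real.sinh_arsinh]
  have h2 : Real.cosh (2 * a) = 1 + 2 * Real.sinh a ^ 2 := by
    rw [Real.cosh_two_mul, Real.cosh_sq]; ring
  have h3 : Real.exp (-(2 * a)) + (Real.exp (-(2 * a)))⁻¹ = 2 * Real.cosh (2 * a) := by
    rw [← Real.exp_neg, Real.cosh_eq, neg_neg]; ring
  rw [h3, h2, h1, div_pow, Real.sq_sqrt hκ]
  ring

lemma sqn_q {κ : ℝ} (hκ : 0 < κ) (j : ℕ) : (2 + κ) * sqn κ (j + 1) - 2 * sqn κ j =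
    lam κ ^ (j + 1) + (lam κ ^ (j + 1))⁻¹ := by
  have h0 := lam_pos κ
  have h1 := lam_lt_one hκ
  have h2 := lam_add_inv hκ.le
  have e1 : (2 + κ) * sqn κ (j + 1) - 2 * sqn κ j = sqn κ (j + 2) - sqn κ j := by
    rw [sqn_succ]; ring
  rw [e1, sqn_lam h0 h1 h2, sqn_lam h0 h1 h2, ← sub_div]
  obtain ⟨l, hl⟩ : ∃ l, l = lam κ := ⟨_, rfl⟩
  rw [← hl] at h0 h1 ⊢
  have hne : l⁻¹ - l ≠ 0 := by
    have : 1 < l⁻¹ := (one_lt_inv₀ h0).2 h1
    linarith
  rw [div_eq_iff hne, ← inv_pow]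
  obtain ⟨x, hx⟩ : ∃ x, x = l⁻¹ := ⟨_, rfl⟩
  have hlx : l * x = 1 := by rw [hx]; exact mul_inv_cancel₀ h0.ne'
  rw [← hx]
  linear_combination (x ^ j - l ^ j) * hlx

/-- change of variables in a Gaussian integral -/
lemma gauss_lin (T : En n →ₗ[ℝ] En n) (hT : LinearMap.det T ≠ 0) {a : ℝ} (ha : 0 < a) :
    Integrable (fun u : En n => Real.exp (-a * ‖T u‖ ^ 2)) ∧
    ∫ u : En n, Real.exp (-a * ‖T u‖ ^ 2) = Real.sqrt (Real.pi / a) ^ n / |LinearMap.det T| := by
  have hc : Continuous T := T.continuous_of_finiteDimensional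
  have h1 := Measure.map_linearMap_addHaar_eq_smul_addHaar (volume : Measure (En n)) hT
  have hg : Continuous fun x : En n => Real.exp (-a * ‖x‖ ^ 2) := by fun_prop
  constructor
  · have h2 : Integrable (fun x : En n => Real.exp (-a * ‖x‖ ^ 2))
        (Measure.map T (volume : Measure (En n))) := by
      rw [h1]
      exact (gauss_int n ha).smul_measure ENNReal.ofReal_ne_top
    exact (integrable_map_measure hg.aestronglyMeasurable hc.aemeasurable).1 h2
  · have h2 := integral_map (μ := (volume : Measure (En n))) hc.aemeasurable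
      (hg.aestronglyMeasurable (μ := Measure.map T (volume : Measure (En n))))
    rw [← h2, h1, integral_smul_measure, gauss_val n ha, ENNReal.toReal_ofReal (abs_nonneg _),
      smul_eq_mul, abs_inv]
    field_simp

lemma det_ne_zero {A : En n →ₗ[ℝ] En n} (hA : ∀ v, ‖A v‖ = ‖v‖) {q : ℝ} (hq0 : 0 ≤ q) (hq : q < 1) :
    LinearMap.det (LinearMap.id - q • A) ≠ 0 := by
  have hinj : Function.Injective (LinearMap.id - q • A : En n →ₗ[ℝ] En n) := by
    refine (injective_iff_map_eq_zero _).2 fun v hv => ?_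
    have h1 : v = q • A v := by
      have : v - q • A v = 0 := hv
      exact sub_eq_zero.1 this
    have h2 : ‖v‖ = q * ‖v‖ := by
      conv_lhs => rw [h1]
      rw [norm_smul, hA, Real.norm_eq_abs, abs_of_nonneg hq0]
    have h3 : (1 - q) * ‖v‖ = 0 := by linarith
    rcases mul_eq_zero.1 h3 with h4 | h4
    · linarith
    · exact norm_eq_zero.1 h4
  exact (LinearEquiv.ofInjectiveEndo _ hinj).isUnit_det'.ne_zero

/-- a mode with a positive eigenvalue -/
lemma mode_pos {κ : ℝ} (hκ : 0 < κ) (j : ℕ) {A : En n →ₗ[ℝ] En n} (hA : ∀ v, ‖A v‖ = ‖v‖) :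
    Integrable (fun u : En n => Real.exp (-(1 / 2 * (κ * ‖u‖ ^ 2))) * Gk n κ j u (A u)) ∧
    ∫ u : En n, Real.exp (-(1 / 2 * (κ * ‖u‖ ^ 2))) * Gk n κ j u (A u) =
      Real.sqrt (2 * Real.pi) ^ (n * (j + 1)) * (Real.sqrt (lam κ ^ (j + 1)) ^ n /
        |LinearMap.det (LinearMap.id - (lam κ ^ (j + 1)) • A)|) := by
  have hs := sqn_pos hκ.le j
  obtain ⟨q, hq⟩ : ∃ q, q = lam κ ^ (j + 1) := ⟨_, rfl⟩
  have hsq := sqn_q hκ j
  have hq0 : 0 < q := by rw [hq]; exact pow_pos (lam_pos κ) _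
  have hq1 : q < 1 := by rw [hq]; exact pow_lt_one₀ (lam_pos κ).le (lam_lt_one hκ) (by omega)
  rw [← hq] at hsq ⊢
  have ha : 0 < 1 / (2 * (q * sqn κ (j + 1))) := by positivity
  have hf : (fun u : En n => Real.exp (-(1 / 2 * (κ * ‖u‖ ^ 2))) * Gk n κ j u (A u)) = fun u =>
      Real.sqrt (2 * Real.pi) ^ (n * j) / Real.sqrt (sqn κ (j + 1)) ^ n *
        Real.exp (-(1 / (2 * (q * sqn κ (j + 1)))) * ‖(LinearMap.id - q • A : En n →ₗ[ℝ] En n) u‖ ^ 2) := by
    funext u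
    unfold Gk
    rw [mul_left_comm, ← Real.exp_add]
    congr 2
    have e1 : ‖(LinearMap.id - q • A : En n →ₗ[ℝ] En n) u‖ ^ 2 =
        (1 + q ^ 2) * ‖u‖ ^ 2 - 2 * q * ⟪u, A u⟫ := by
      rw [LinearMap.sub_apply, LinearMap.id_apply, LinearMap.smul_apply, norm_sub_sq_real,
        inner_smul_right, norm_smul, hA, Real.norm_eq_abs, abs_of_pos hq0]
      ring
    rw [e1, hA]
    have e2 : κ = (q + q⁻¹ + 2 * sqn κ j) / sqn κ (j + 1) - 2 := by
      field_simp
      have : q * ((2 + κ) * sqn κ (j + 1) - 2 * sqn κ j) = q * (q + q⁻¹) := by rw [hsq]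
      have h3 : q * q⁻¹ = 1 := mul_inv_cancel₀ hq0.ne'
      nlinarith
    obtain ⟨s, hsd⟩ : ∃ s, s = sqn κ (j + 1) := ⟨_, rfl⟩
    obtain ⟨s', hsd'⟩ : ∃ s', s' = sqn κ j := ⟨_, rfl⟩
    rw [← hsd, ← hsd'] at e2 ⊢
    rw [← hsd] at hs
    rw [e2]
    field_simp
    ring
  rw [hf]
  have h1 := gauss_lin (LinearMap.id - q • A) (det_ne_zero hA hq0.le hq1) ha
  refine ⟨h1.1.const_mul _, ?_⟩
  rw [integral_const_mul, h1.2]
  have e1 : Real.sqrt (Real.pi / (1 / (2 * (q * sqn κ (j + 1))))) =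
      Real.sqrt (2 * Real.pi) * Real.sqrt q * Real.sqrt (sqn κ (j + 1)) := by
    rw [← Real.sqrt_mul (by positivity), ← Real.sqrt_mul (by positivity)]
    congr 1
    field_simp
  have h2 : 0 < Real.sqrt (sqn κ (j + 1)) := Real.sqrt_pos.2 hs
  rw [e1, mul_pow, mul_pow, mul_add, mul_one, pow_add]
  field_simp

/-- a zero mode -/
lemma mode_zero (j : ℕ) (h : En n) {A A' : En n →ₗ[ℝ] En n} (hA : ∀ v, ‖A v‖ = ‖v‖)
    (hA' : ∀ v, A (A' v) = v) :
    Integrable (fun v : En n => Gk n 0 j h (A v)) ∧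
    ∫ v : En n, Gk n 0 j h (A v) = Real.sqrt (2 * Real.pi) ^ (n * (j + 1)) := by
  have hj : (0 : ℝ) < (j : ℝ) + 1 := by positivity
  have ha : 0 < 1 / (2 * ((j : ℝ) + 1)) := by positivity
  have hf : (fun v : En n => Gk n 0 j h (A v)) = fun v =>
      (fun x => Real.sqrt (2 * Real.pi) ^ (n * j) / Real.sqrt ((j : ℝ) + 1) ^ n *
        Real.exp (-(1 / (2 * ((j : ℝ) + 1))) * ‖x‖ ^ 2)) (v - A' h) := by
    funext v
    have e1 : ‖v - A' h‖ ^ 2 = ‖h‖ ^ 2 + ‖A v‖ ^ 2 - 2 * ⟪h, A v⟫ := by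
      have : ‖v - A' h‖ = ‖h - A v‖ := by
        rw [norm_sub_rev, ← hA (A' h - v), map_sub, hA']
      rw [this, norm_sub_sq_real]; ring
    simp only
    rw [e1]
    unfold Gk
    rw [sqn_nat, sqn_nat]
    push_cast
    congr 2
    field_simp
    ring
  rw [hf]
  have h1 := (gauss_int n ha).const_mul (Real.sqrt (2 * Real.pi) ^ (n * j) / Real.sqrt ((j : ℝ) + 1) ^ n)
  refine ⟨h1.comp_sub_right (A' h), ?_⟩
  rw [integral_sub_right_eq_self (fun x : En n => Real.sqrt (2 * Real.pi) ^ (n * j) /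
    Real.sqrt ((j : ℝ) + 1) ^ n * Real.exp (-(1 / (2 * ((j : ℝ) + 1))) * ‖x‖ ^ 2)) (A' h),
    integral_const_mul, gauss_val n ha]
  have e1 : Real.sqrt (Real.pi / (1 / (2 * ((j : ℝ) + 1)))) =
      Real.sqrt (2 * Real.pi) * Real.sqrt ((j : ℝ) + 1) := by
    rw [← Real.sqrt_mul (by positivity)]
    congr 1
    field_simp
  have h2 : 0 < Real.sqrt ((j : ℝ) + 1) := Real.sqrt_pos.2 hj
  rw [e1, mul_pow, mul_add, mul_one, pow_add]
  field_simp

/-- the product of the modes -/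
theorem psi_lint {E : Type*} [Fintype E] [DecidableEq E] {κ : E → ℝ} (hκ : ∀ e, 0 ≤ κ e) (j : ℕ)
    {A A' : En n →ₗ[ℝ] En n} (hA : ∀ v, ‖A v‖ = ‖v‖) (hA' : ∀ v, A (A' v) = v)
    {H : (E → En n) → (E → En n)} (hH : Continuous H) (h1 : ∀ Y l, 0 < κ l → H Y l = Y l)
    (h2 : ∀ Y Y', (∀ l, 0 < κ l → Y l = Y' l) → H Y = H Y') :
    ∫⁻ Y : E → En n, ENNReal.ofReal (Real.exp (-(1 / 2 * magD κ Y)) *
      ∏ l, Gk n (κ l) j (H Y l) (A (Y l))) =
    ENNReal.ofReal ((Real.sqrt (2 * Real.pi) ^ (n * (j + 1))) ^ Fintype.card E *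
      ∏ l, if 0 < κ l then (Real.sqrt (lam (κ l) ^ (j + 1)) ^ n /
        |LinearMap.det (LinearMap.id - (lam (κ l) ^ (j + 1)) • A)|) else 1) := by
  classical
  obtain ⟨F, hF⟩ : ∃ F : (E → En n) → ℝ≥0∞, F = fun Y => ENNReal.ofReal
    (Real.exp (-(1 / 2 * magD κ Y)) * ∏ l, Gk n (κ l) j (H Y l) (A (Y l))) := ⟨_, rfl⟩
  have hAc : Continuous A := A.continuous_of_finiteDimensional
  have hFm : Measurable F := by
    have : Continuous fun Y : E → En n => Real.exp (-(1 / 2 * magD κ Y)) *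
        ∏ l, Gk n (κ l) j (H Y l) (A (Y l)) := by
      refine (Real.continuous_exp.comp (continuous_const.mul (magD_cont κ)).neg).mul ?_
      refine continuous_finsetProd _ fun l _ => ?_
      unfold Gk
      have e1 : Continuous fun Y : E → En n => H Y l := (continuous_apply l).comp hH
      have e2 : Continuous fun Y : E → En n => A (Y l) := hAc.comp (continuous_apply l)
      refine continuous_const.mul (Real.continuous_exp.comp (continuous_const.mul ?_).neg)
      exact (continuous_const.mul ((e1.norm.pow 2).add (e2.norm.pow 2))).sub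
        (continuous_const.mul (e1.inner e2))
    rw [hF]
    exact this.measurable.ennreal_ofReal
  rw [← hF]
  obtain ⟨p, hp⟩ : ∃ p : E → Prop, p = fun l => 0 < κ l := ⟨_, rfl⟩
  have hpp : ∀ l, p l ↔ 0 < κ l := fun l => by rw [hp]
  have hdec : DecidablePred p := fun _ => Classical.dec _
  have hmp := (volume_preserving_piEquivPiSubtypeProd (fun _ : E => En n) p).symm
  obtain ⟨c, hc⟩ : ∃ c, c = Real.sqrt (2 * Real.pi) ^ (n * (j + 1)) := ⟨_, rfl⟩
  have hc0 : 0 ≤ c := by rw [hc]; positivity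
  rw [← hmp.lintegral_comp hFm]
  have hsym1 : ∀ (u : {l // p l} → En n) (v : {l // ¬p l} → En n) (l : {l // p l}),
      (MeasurableEquiv.piEquivPiSubtypeProd (fun _ : E => En n) p).symm (u, v) l = u l := by
    intro u v l
    simp [MeasurableEquiv.piEquivPiSubtypeProd, Equiv.piEquivPiSubtypeProd, l.2]
  have hsym2 : ∀ (u : {l // p l} → En n) (v : {l // ¬p l} → En n) (l : {l // ¬p l}),
      (MeasurableEquiv.piEquivPiSubtypeProd (fun _ : E => En n) p).symm (u, v) l = v l := by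
    intro u v l
    simp [MeasurableEquiv.piEquivPiSubtypeProd, Equiv.piEquivPiSubtypeProd, l.2]
  obtain ⟨S, hS⟩ : ∃ S : ({l // p l} → En n) × ({l // ¬p l} → En n) → (E → En n),
    S = ⇑(MeasurableEquiv.piEquivPiSubtypeProd (fun _ : E => En n) p).symm := ⟨_, rfl⟩
  have hSm : Measurable S := by rw [hS]; exact MeasurableEquiv.measurable _
  rw [← hS] at hsym1 hsym2 ⊢
  -- the value of the integrand
  have hval : ∀ (u : {l // p l} → En n) (v : {l // ¬p l} → En n), F (S (u, v)) =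
      ENNReal.ofReal (∏ l : {l // p l}, (Real.exp (-(1 / 2 * (κ l * ‖u l‖ ^ 2))) *
        Gk n (κ l) j (u l) (A (u l)))) *
      ENNReal.ofReal (∏ l : {l // ¬p l}, Gk n 0 j (H (S (u, 0)) l) (A (v l))) := by
    intro u v
    have hH0 : H (S (u, v)) = H (S (u, 0)) := by
      refine h2 _ _ fun l hl => ?_
      have hl' : p l := by rw [hp]; exact hl
      have e1 := hsym1 u v ⟨l, hl'⟩
      have e2 := hsym1 u 0 ⟨l, hl'⟩
      simp only at e1 e2
      rw [e1, e2]
    rw [hF, ← ENNReal.ofReal_mul (Finset.prod_nonneg fun l _ =>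
      mul_nonneg (Real.exp_pos _).le (Gk_nonneg _ _ _ _ _))]
    simp only
    congr 1
    have e0 : Real.exp (-(1 / 2 * magD κ (S (u, v)))) =
        ∏ l, Real.exp (-(1 / 2 * (κ l * ‖S (u, v) l‖ ^ 2))) := by
      rw [← Real.exp_sum]
      congr 1
      unfold magD
      rw [Finset.mul_sum, ← Finset.sum_neg_distrib]
    rw [e0, ← Finset.prod_mul_distrib, ← Fintype.prod_subtype_mul_prod_subtype p]
    congr 1
    · refine Finset.prod_congr rfl fun l _ => ?_
      have hl : 0 < κ l := (hpp l).1 l.2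
      rw [h1 _ _ hl, hsym1]
    · refine Finset.prod_congr rfl fun l _ => ?_
      have hl : κ l = 0 := le_antisymm (not_lt.1 fun hc => l.2 ((hpp l).2 hc)) (hκ _)
      rw [hsym2, hH0, hl]
      simp
  have hint : ∀ u : {l // p l} → En n, ∫⁻ v : {l // ¬p l} → En n, F (S (u, v)) =
      ENNReal.ofReal (∏ l : {l // p l}, (Real.exp (-(1 / 2 * (κ l * ‖u l‖ ^ 2))) *
        Gk n (κ l) j (u l) (A (u l)))) * ENNReal.ofReal (c ^ Fintype.card {l // ¬p l}) := by
    intro u
    rw [lintegral_congr (hval u), lintegral_const_mul' _ _ ENNReal.ofReal_ne_top]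
    congr 1
    rw [lint_prod_fn (fun (l : {l // ¬p l}) v => Gk n 0 j (H (S (u, 0)) l) (A v))
      (fun l => (mode_zero j _ hA hA').1) (fun l x => Gk_nonneg _ _ _ _ _)]
    congr 1
    rw [Finset.prod_congr rfl fun (l : {l // ¬p l}) _ => (mode_zero j (H (S (u, 0)) ↑l) hA hA').2,
      ← hc, Finset.prod_const, Finset.card_univ]
  have hvp : (volume : Measure (({l // p l} → En n) × ({l // ¬p l} → En n))) =
      (volume : Measure ({l // p l} → En n)).prod volume := rfl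
  rw [hvp, lintegral_prod (fun z => F (S z)) (hFm.comp hSm).aemeasurable, lintegral_congr hint,
    lintegral_mul_const' _ _ ENNReal.ofReal_ne_top, lint_prod_fn
      (fun (l : {l // p l}) u => Real.exp (-(1 / 2 * (κ l * ‖u‖ ^ 2))) * Gk n (κ l) j u (A u))
      (fun l => (mode_pos ((hpp l).1 l.2) j hA).1)
      (fun l x => mul_nonneg (Real.exp_pos _).le (Gk_nonneg _ _ _ _ _)),
    ← ENNReal.ofReal_mul (Finset.prod_nonneg fun l _ => integral_nonneg fun x =>
      mul_nonneg (Real.exp_pos _).le (Gk_nonneg _ _ _ _ _))]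
  congr 1
  have e1 : ∏ l : {l // p l}, ∫ u : En n, Real.exp (-(1 / 2 * (κ l * ‖u‖ ^ 2))) *
      Gk n (κ l) j u (A u) = c ^ Fintype.card {l // p l} * ∏ l : {l // p l},
      (Real.sqrt (lam (κ l) ^ (j + 1)) ^ n /
        |LinearMap.det (LinearMap.id - (lam (κ l) ^ (j + 1)) • A)|) := by
    rw [Finset.prod_congr rfl fun (l : {l // p l}) _ =>
      (mode_pos (κ := κ l) ((hpp l).1 l.2) j hA).2, ← hc,
      Finset.prod_mul_distrib, Finset.prod_const, Finset.card_univ]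
  have e2 : c ^ Fintype.card E = c ^ Fintype.card {l // p l} * c ^ Fintype.card {l // ¬p l} := by
    have := Fintype.prod_subtype_mul_prod_subtype p fun _ : E => c
    simp only [Finset.prod_const, Finset.card_univ] at this
    exact this.symm
  have e3 : ∏ l, (if 0 < κ l then (Real.sqrt (lam (κ l) ^ (j + 1)) ^ n /
        |LinearMap.det (LinearMap.id - (lam (κ l) ^ (j + 1)) • A)|) else 1) =
      ∏ l : {l // p l}, (Real.sqrt (lam (κ l) ^ (j + 1)) ^ n /
        |LinearMap.det (LinearMap.id - (lam (κ l) ^ (j + 1)) • A)|) := by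
    rw [← Fintype.prod_subtype_mul_prod_subtype p]
    have e4 : ∏ l : {l // ¬p l}, (if 0 < κ l then (Real.sqrt (lam (κ l) ^ (j + 1)) ^ n /
        |LinearMap.det (LinearMap.id - (lam (κ l) ^ (j + 1)) • A)|) else 1) = 1 :=
      Finset.prod_eq_one fun l _ => if_neg fun hc => l.2 ((hpp l).2 hc)
    rw [e4, mul_one]
    exact Finset.prod_congr rfl fun l _ => if_pos ((hpp l).1 l.2)
  rw [e1, e3, ← hc, e2]
  ring

end

end Pool.Agent.T2H02.Gap
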