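import Mathlib
import Pool.Agent.T2H02.Gap.Gauss2

/-!
# The Gaussian integral of the chain, final formula
-/

open MeasureTheory Filter
open scoped Topology ENNReal NNReal RealInnerProductSpace
open Pool.Agent.H906R3.YM Pool.Agent.W793.YM Pool.Agent.TH618.YM

namespace Pool.Agent.T2H02.Gap

set_option linter.unusedSectionVars false
set_option linter.unusedVariables false

noncomputable section

variable {N n D L : ℕ}

lemma kinQ_Om (X Y : Lk D L → En n) : kinQ X Y = kinD (Om X) (Om Y) := by
  unfold kinQ kinD
  have h := N2_Om (X - Y)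
  rw [map_sub] at h
  exact h.symm

lemma chnQ_Om (j : ℕ) (a : Lk D L → En n) (W : Fin j → Lk D L → En n) (z : Lk D L → En n) :
    chnQ j a W z = chnD (kap D L) j (Om a) (fun i => Om (W i)) (Om z) := by
  induction j generalizing a with
  | zero => exact kinQ_Om a z
  | succ j ih =>
    show kinQ a (W 0) + magQ (W 0) + chnQ j (W 0) (fun i => W i.succ) z =
      kinD (Om a) (Om (W 0)) + magD (kap D L) (Om (W 0)) +
        chnD (kap D L) j (Om (W 0)) (fun i => Om (W i.succ)) (Om z)
    rw [ih, kinQ_Om, magQ_Om]
    rfl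

lemma chnQ_lint (j : ℕ) (a z : Lk D L → En n) :
    ∫⁻ W : Fin j → Lk D L → En n, ENNReal.ofReal (Real.exp (-(1 / 2 * chnQ j a W z))) =
      ENNReal.ofReal (∏ e, Gk n (kap D L e) j (Om a e) (Om z e)) := by
  have hmp : MeasurePreserving (fun (W : Fin j → Lk D L → En n) i => Om (W i)) volume volume :=
    measurePreserving_pi (fun _ => volume) (fun _ => volume) fun _ => mp_Om
  rw [← chnD_lint (fun e => kap_nonneg e) j (Om a) (Om z)]
  have hm : Measurable fun W : Fin j → Lk D L → En n =>
      ENNReal.ofReal (Real.exp (-(1 / 2 * chnD (kap D L) j (Om a) W (Om z)))) := by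
    have : Continuous fun W : Fin j → Lk D L → En n =>
        Real.exp (-(1 / 2 * chnD (kap D L) j (Om a) W (Om z))) := by
      refine Real.continuous_exp.comp (continuous_const.mul ?_).neg
      exact (chnD_cont (n := n) (kap D L) j).comp
        (f := fun W : Fin j → Lk D L → En n => (Om a, W, Om z)) (by fun_prop)
    exact this.measurable.ennreal_ofReal
  rw [← hmp.lintegral_comp hm]
  exact lintegral_congr fun W => by rw [chnQ_Om]

variable {G : Subgroup (UN N)}
variable [CompactSpace G] [SecondCountableTopology G] [MeasurableSpace G] [BorelSpace G]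
variable (B : Frame G n)

lemma Om_adL (P : G) (X : Lk D L → En n) (l : Lk D L) :
    Om (fun e => adL B P (X e)) l = adL B P (Om X l) := by
  rw [Om_apply, Om_apply, map_sum]
  exact Finset.sum_congr rfl fun e _ => (map_smul _ _ _).symm

/-- the contribution of a mode -/
def mdf (j : ℕ) (P : G) (κ : ℝ) : ℝ := Real.sqrt (lam κ ^ (j + 1)) ^ n /
  |LinearMap.det (LinearMap.id - (lam κ ^ (j + 1)) • adL B P)|

theorem JP_lint (j : ℕ) (P : G) :
    ∫⁻ X : Fin (j + 1) → Lk D L → En n, ENNReal.ofReal (Real.exp (-(1 / 2 * actQ B j P X))) =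
      ENNReal.ofReal ((Real.sqrt (2 * Real.pi) ^ (n * (j + 1))) ^ Fintype.card (Lk D L) *
        ∏ l, if 0 < kap D L l then mdf B j P (kap D L l) else 1) := by
  have hm : Measurable fun X : Fin (j + 1) → Lk D L → En n =>
      ENNReal.ofReal (Real.exp (-(1 / 2 * actQ B j P X))) :=
    (Real.continuous_exp.comp (continuous_const.mul (actQ_cont B j P)).neg).measurable.ennreal_ofReal
  have h1 := lint_cons (volume : Measure (Lk D L → En n)) j _ hm
  rw [show (volume : Measure (Fin (j + 1) → Lk D L → En n)) = Measure.pi fun _ => volume from rfl, h1]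
  obtain ⟨H, hH⟩ : ∃ H : (Lk D L → En n) → (Lk D L → En n), H = fun Y => Om (hatL (Om.symm Y)) :=
    ⟨_, rfl⟩
  have hHc : Continuous H := by
    have : H = fun Y => (Om.toLinearMap ∘ₗ hatM ∘ₗ Om.symm.toLinearMap) Y := by
      rw [hH]; funext Y
      simp only [LinearMap.comp_apply, hatM_apply]
      rfl
    rw [this]
    exact LinearMap.continuous_of_finiteDimensional _
  obtain ⟨F, hF⟩ : ∃ F : (Lk D L → En n) → ℝ≥0∞, F = fun Y => ENNReal.ofReal
    (Real.exp (-(1 / 2 * magD (kap D L) Y)) *
      ∏ l, Gk n (kap D L l) j (H Y l) (adL B P (Y l))) := ⟨_, rfl⟩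
  have hAc : Continuous (adL B P) := (adL B P).continuous_of_finiteDimensional
  have hFm : Measurable F := by
    have : Continuous fun Y : Lk D L → En n => Real.exp (-(1 / 2 * magD (kap D L) Y)) *
        ∏ l, Gk n (kap D L l) j (H Y l) (adL B P (Y l)) := by
      refine (Real.continuous_exp.comp (continuous_const.mul (magD_cont _)).neg).mul ?_
      refine continuous_finsetProd _ fun l _ => ?_
      unfold Gk
      have e1 : Continuous fun Y : Lk D L → En n => H Y l := (continuous_apply l).comp hHc
      have e2 : Continuous fun Y : Lk D L → En n => adL B P (Y l) := hAc.comp (continuous_apply l)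
      refine continuous_const.mul (Real.continuous_exp.comp (continuous_const.mul ?_).neg)
      exact (continuous_const.mul ((e1.norm.pow 2).add (e2.norm.pow 2))).sub
        (continuous_const.mul (e1.inner e2))
    rw [hF]
    exact this.measurable.ennreal_ofReal
  have h2 : ∀ x : Lk D L → En n, ∫⁻ W : Fin j → Lk D L → En n,
      ENNReal.ofReal (Real.exp (-(1 / 2 * actQ B j P (Fin.cons x W)))) ∂(Measure.pi fun _ => volume) =
      F (Om x) := by
    intro x
    have e1 : ∀ W : Fin j → Lk D L → En n,
        ENNReal.ofReal (Real.exp (-(1 / 2 * actQ B j P (Fin.cons x W)))) =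
        ENNReal.ofReal (Real.exp (-(1 / 2 * magQ x))) *
        ENNReal.ofReal (Real.exp (-(1 / 2 * chnQ j (hatL x) W (fun e => adL B P (x e))))) := by
      intro W
      rw [← ENNReal.ofReal_mul (Real.exp_pos _).le, ← Real.exp_add]
      congr 2
      show -(1 / 2 * (magQ x + chnQ j (hatL x) W (fun e => adL B P (x e)))) = _
      ring
    rw [lintegral_congr e1, lintegral_const_mul' _ _ ENNReal.ofReal_ne_top]
    have e2 := chnQ_lint j (hatL x) (fun e => adL B P (x e))
    rw [show (volume : Measure (Fin j → Lk D L → En n)) = Measure.pi fun _ => volume from rfl] at e2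
    rw [e2, ← ENNReal.ofReal_mul (Real.exp_pos _).le, hF]
    simp only
    congr 2
    · rw [magQ_Om]; rfl
    · refine Finset.prod_congr rfl fun l _ => ?_
      rw [Om_adL, hH]
      simp only [LinearEquiv.symm_apply_apply]
  rw [lintegral_congr h2, mp_Om.lintegral_comp hFm, hF]
  exact psi_lint (fun e => kap_nonneg e) j (A' := adL B P⁻¹) (norm_adL B P) (fun v => by
    rw [← adL_mul, mul_inv_cancel, adL_one]) hHc (fun Y l hl => by
      rw [hH]
      simp only
      rw [Om_hatL _ l hl, LinearEquiv.apply_symm_apply]) fun Y Y' h => by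
      have e3 : hatL (Om.symm Y) = hatL (Om.symm Y') := hatL_congr fun l hl => by
        rw [LinearEquiv.apply_symm_apply, LinearEquiv.apply_symm_apply]; exact h l hl
      rw [hH]
      show Om (hatL (Om.symm Y)) = Om (hatL (Om.symm Y'))
      rw [e3]

/-- **The Gaussian integral of the chain.** -/
theorem JP_eq (j : ℕ) (P : G) : JP B D L j P =
    (Real.sqrt (2 * Real.pi) ^ (n * (j + 1))) ^ Fintype.card (Lk D L) *
        ∏ l, if 0 < kap D L l then mdf B j P (kap D L l) else 1 := by
  have h0 : 0 ≤ (Real.sqrt (2 * Real.pi) ^ (n * (j + 1))) ^ Fintype.card (Lk D L) *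
        ∏ l, if 0 < kap D L l then mdf B j P (kap D L l) else 1 := by
    refine mul_nonneg (by positivity) (Finset.prod_nonneg fun l _ => ?_)
    split_ifs
    · unfold mdf; positivity
    · exact zero_le_one
  have hc : Continuous fun X : Fin (j + 1) → Lk D L → En n =>
      Real.exp (-(1 / 2 * actQ B j P X)) :=
    Real.continuous_exp.comp (continuous_const.mul (actQ_cont B j P)).neg
  unfold JP
  rw [integral_eq_lintegral_of_nonneg_ae (Eventually.of_forall fun X => (Real.exp_pos _).le)
    hc.aestronglyMeasurable, JP_lint, ENNReal.toReal_ofReal h0]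

end

end Pool.Agent.T2H02.Gap
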