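import Mathlib

/-!
# Expansion of products of inverse determinants
-/

open Matrix Finset
open scoped Polynomial

namespace Pool.Agent.T2H02.Gap

set_option linter.unusedSectionVars false
set_option linter.unusedVariables false

noncomputable section

variable {n : ℕ}

/-- the polynomial `det (1 + X M)` -/
def pM (M : Matrix (Fin n) (Fin n) ℝ) : ℝ[X] := det (1 + (Polynomial.X : ℝ[X]) • M.map Polynomial.C)

lemma pM_eval (M : Matrix (Fin n) (Fin n) ℝ) (r : ℝ) : (pM M).eval r = det (1 + r • M) := by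
  unfold pM
  rw [← Polynomial.coe_evalRingHom, RingHom.map_det]
  congr 1
  ext i j
  simp [Matrix.one_apply, Matrix.map_apply]
  split_ifs <;> simp [mul_comm]

lemma pM_coeff_bound {M : Matrix (Fin n) (Fin n) ℝ} (hM : ∀ i j, |M i j| ≤ 1) (k : ℕ) :
    |(pM M).coeff k| ≤ 2 ^ n * n.factorial := by
  rw [pM, Matrix.coeff_det_one_add_X_smul_eq_sum_minors]
  calc |∑ s ∈ powersetCard k (univ : Finset (Fin n)),
        (M.submatrix (Subtype.val : s → Fin n) (Subtype.val : s → Fin n)).det| ≤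
        ∑ s ∈ powersetCard k (univ : Finset (Fin n)), (n.factorial : ℝ) := by
        refine (Finset.abs_sum_le_sum_abs _ _).trans (Finset.sum_le_sum fun s hs => ?_)
        have h1 := Matrix.det_le (abv := (AbsoluteValue.abs : AbsoluteValue ℝ ℝ)) (x := 1)
          (A := M.submatrix (Subtype.val : s → Fin n) (Subtype.val : s → Fin n))
          (fun i j => hM _ _)
        rw [one_pow, nsmul_eq_mul, mul_one] at h1
        refine le_trans h1 ?_
        have h2 : Fintype.card s ≤ n := by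
          rw [Fintype.card_coe]
          calc s.card ≤ (univ : Finset (Fin n)).card := Finset.card_le_univ s
            _ = n := by simp
        exact_mod_cast Nat.factorial_le h2
    _ = (powersetCard k (univ : Finset (Fin n))).card * (n.factorial : ℝ) := by
        rw [Finset.sum_const, nsmul_eq_mul]
    _ ≤ _ := by
        refine mul_le_mul_of_nonneg_right ?_ (Nat.cast_nonneg _)
        rw [Finset.card_powersetCard, Finset.card_univ, Fintype.card_fin]
        exact_mod_cast Nat.choose_le_two_pow n k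

lemma pM_coeff_neg (M : Matrix (Fin n) (Fin n) ℝ) (k : ℕ) :
    (pM (-M)).coeff k = (-1) ^ k * (pM M).coeff k := by
  rw [pM, pM, Matrix.coeff_det_one_add_X_smul_eq_sum_minors,
    Matrix.coeff_det_one_add_X_smul_eq_sum_minors, Finset.mul_sum]
  refine Finset.sum_congr rfl fun s hs => ?_
  have h1 : ((-M).submatrix (Subtype.val : s → Fin n) (Subtype.val : s → Fin n)) =
      -(M.submatrix (Subtype.val : s → Fin n) (Subtype.val : s → Fin n)) := rfl
  rw [h1, Matrix.det_neg, Fintype.card_coe, (Finset.mem_powersetCard.1 hs).2]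

lemma pM_coeff_one (M : Matrix (Fin n) (Fin n) ℝ) : (pM M).coeff 1 = trace M :=
  Matrix.coeff_det_one_add_X_smul_one M

lemma pM_coeff_zero (M : Matrix (Fin n) (Fin n) ℝ) : (pM M).coeff 0 = 1 := by
  rw [Polynomial.coeff_zero_eq_eval_zero, pM_eval]
  simp

lemma pM_natDegree (M : Matrix (Fin n) (Fin n) ℝ) : (pM M).natDegree ≤ n := by
  have h := Polynomial.natDegree_det_X_add_C_le M (1 : Matrix (Fin n) (Fin n) ℝ)
  have h2 : ((Polynomial.X : ℝ[X]) • M.map Polynomial.C +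
      (1 : Matrix (Fin n) (Fin n) ℝ).map Polynomial.C) = 1 + (Polynomial.X : ℝ[X]) • M.map Polynomial.C := by
    rw [add_comm]
    congr 1
    ext i j
    simp [Matrix.one_apply, Matrix.map_apply]
  rw [h2, Fintype.card_fin] at h
  exact h

lemma pM_coeff_two (M : Matrix (Fin n) (Fin n) ℝ) :
    2 * (pM M).coeff 2 = trace M ^ 2 - trace (M * M) := by
  have h1 : pM M * pM (-M) = Polynomial.expand ℝ 2 (pM (-(M * M))) := by
    refine Polynomial.funext fun r => ?_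
    rw [Polynomial.eval_mul, pM_eval, pM_eval, Polynomial.expand_eval, pM_eval, ← det_mul]
    congr 1
    rw [add_mul, mul_add, mul_add, one_mul, one_mul, mul_one, smul_neg, mul_neg, smul_mul_smul_comm,
      smul_neg, sq]
    abel
  have h2 := congrArg (fun p => Polynomial.coeff p 2) h1
  simp only [Polynomial.coeff_mul] at h2
  have h3 : (Polynomial.expand ℝ 2 (pM (-(M * M)))).coeff 2 = -trace (M * M) := by
    have := Polynomial.coeff_expand_mul (R := ℝ) (p := 2) (by norm_num) (pM (-(M * M))) 1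
    rw [one_mul] at this
    rw [this, pM_coeff_one, trace_neg]
  rw [h3] at h2
  have h4 : (Finset.HasAntidiagonal.antidiagonal (2 : ℕ)) = {((0 : ℕ), (2 : ℕ)), (1, 1), (2, 0)} := rfl
  rw [h4] at h2
  simp only [pM_coeff_neg, pM_coeff_zero, pM_coeff_one] at h2
  rw [Finset.sum_insert (by decide), Finset.sum_insert (by decide), Finset.sum_singleton] at h2
  simp only [pM_coeff_zero, pM_coeff_one] at h2
  linarith

lemma det_expand (n : ℕ) : ∃ C : ℝ, 0 ≤ C ∧ ∀ M : Matrix (Fin n) (Fin n) ℝ, (∀ i j, |M i j| ≤ 1) →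
    ∀ q : ℝ, 0 ≤ q → q ≤ 1 →
    |det (1 - q • M) - (1 - q * trace M + q ^ 2 * ((trace M ^ 2 - trace (M * M)) / 2))| ≤
      C * q ^ 3 := by
  refine ⟨n * (2 ^ n * n.factorial), by positivity, fun M hM q hq hq1 => ?_⟩
  have h1 : det (1 - q • M) = (pM M).eval (-q) := by
    rw [pM_eval, neg_smul, sub_eq_add_neg]
  have h2 := Polynomial.eval_eq_sum_range' (p := pM M) (n := 3 + n)
    (by have := pM_natDegree M; omega) (-q)
  rw [h1, h2, Finset.sum_range_add]
  simp only [Finset.sum_range_succ, Finset.sum_range_zero, pM_coeff_zero, pM_coeff_one]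
  have h3 := pM_coeff_two M
  have h4 : |∑ x ∈ range n, (pM M).coeff (3 + x) * (-q) ^ (3 + x)| ≤
      n * (2 ^ n * n.factorial) * q ^ 3 := by
    calc _ ≤ ∑ x ∈ range n, (2 ^ n * n.factorial : ℝ) * q ^ 3 := by
          refine (Finset.abs_sum_le_sum_abs _ _).trans (Finset.sum_le_sum fun x _ => ?_)
          rw [abs_mul, abs_pow, abs_neg, abs_of_nonneg hq]
          refine mul_le_mul (pM_coeff_bound hM _) ?_ (by positivity) (by positivity)
          exact pow_le_pow_of_le_one hq hq1 (by omega)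
      _ = _ := by rw [Finset.sum_const, card_range, nsmul_eq_mul]; ring
  have e : (0 + 1 * (-q) ^ 0 + trace M * (-q) ^ 1 + (pM M).coeff 2 * (-q) ^ 2 +
      ∑ x ∈ range n, (pM M).coeff (3 + x) * (-q) ^ (3 + x)) -
      (1 - q * trace M + q ^ 2 * ((trace M ^ 2 - trace (M * M)) / 2)) =
      ∑ x ∈ range n, (pM M).coeff (3 + x) * (-q) ^ (3 + x) := by
    linear_combination (q ^ 2 / 2) * h3
  rw [e]
  exact h4

lemma trace_bound {M : Matrix (Fin n) (Fin n) ℝ} (hM : ∀ i j, |M i j| ≤ 1) : |trace M| ≤ n := by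
  unfold trace
  refine (Finset.abs_sum_le_sum_abs _ _).trans ?_
  calc ∑ i, |M.diag i| ≤ ∑ _i : Fin n, (1 : ℝ) := Finset.sum_le_sum fun i _ => hM i i
    _ = n := by simp

lemma trace_mul_bound {M : Matrix (Fin n) (Fin n) ℝ} (hM : ∀ i j, |M i j| ≤ 1) :
    |trace (M * M)| ≤ n ^ 2 := by
  unfold trace
  refine (Finset.abs_sum_le_sum_abs _ _).trans ?_
  calc ∑ i, |(M * M).diag i| ≤ ∑ _i : Fin n, (n : ℝ) := by
        refine Finset.sum_le_sum fun i _ => ?_
        rw [diag_apply, mul_apply]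
        refine (Finset.abs_sum_le_sum_abs _ _).trans ?_
        calc ∑ j, |M i j * M j i| ≤ ∑ _j : Fin n, (1 : ℝ) := by
              refine Finset.sum_le_sum fun j _ => ?_
              rw [abs_mul]
              exact mul_le_one₀ (hM i j) (abs_nonneg _) (hM j i)
          _ = n := by simp
    _ = n ^ 2 := by simp; ring

lemma log_det (n : ℕ) : ∃ C q0 : ℝ, 0 ≤ C ∧ 0 < q0 ∧ q0 ≤ 1 ∧ ∀ M : Matrix (Fin n) (Fin n) ℝ,
    (∀ i j, |M i j| ≤ 1) → ∀ q : ℝ, 0 ≤ q → q ≤ q0 → 0 < det (1 - q • M) ∧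
    |-Real.log (det (1 - q • M)) - (q * trace M + q ^ 2 * trace (M * M) / 2)| ≤ C * q ^ 3 := by
  obtain ⟨C, hC, hdet⟩ := det_expand n
  obtain ⟨K, hK⟩ : ∃ K : ℝ, K = n + n ^ 2 + C + 1 := ⟨_, rfl⟩
  have hn : (0 : ℝ) ≤ n := Nat.cast_nonneg n
  have hK1 : 1 ≤ K := by rw [hK]; nlinarith
  refine ⟨2 * K ^ 3 + C + K ^ 2, 1 / (2 * K), by positivity, by positivity, ?_,
    fun M hM q hq hqq => ?_⟩
  · rw [div_le_one (by linarith)]; linarith
  have hq1 : q ≤ 1 := hqq.trans (by rw [div_le_one (by linarith)]; linarith)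
  have hqK : K * q ≤ 1 / 2 := by
    calc K * q ≤ K * (1 / (2 * K)) := mul_le_mul_of_nonneg_left hqq (by linarith)
      _ = 1 / 2 := by field_simp
  have h1 := hdet M hM q hq hq1
  have ht := trace_bound hM
  have ht2 := trace_mul_bound hM
  obtain ⟨t, htd⟩ : ∃ t, t = trace M := ⟨_, rfl⟩
  obtain ⟨u, hud⟩ : ∃ u, u = trace (M * M) := ⟨_, rfl⟩
  obtain ⟨y, hyd⟩ : ∃ y, y = 1 - det (1 - q • M) := ⟨_, rfl⟩
  have hdy : det (1 - q • M) = 1 - y := by rw [hyd]; ring
  rw [← htd, ← hud, hdy] at h1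
  rw [← htd] at ht
  rw [← hud] at ht2
  rw [← htd, ← hud, hdy]
  obtain ⟨ρ, hρ⟩ : ∃ ρ, ρ = y - (q * t - q ^ 2 * ((t ^ 2 - u) / 2)) := ⟨_, rfl⟩
  have hρb : |ρ| ≤ C * q ^ 3 := by
    rw [hρ, ← abs_neg]
    have e : -(y - (q * t - q ^ 2 * ((t ^ 2 - u) / 2))) =
      1 - y - (1 - q * t + q ^ 2 * ((t ^ 2 - u) / 2)) := by ring
    rw [e]; exact h1
  have hq3 : q ^ 3 ≤ q := by
    calc q ^ 3 ≤ q ^ 1 := pow_le_pow_of_le_one hq hq1 (by norm_num)
      _ = q := pow_one q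
  have hq32 : q ^ 3 ≤ q ^ 2 := pow_le_pow_of_le_one hq hq1 (by norm_num)
  have hq2 : q ^ 2 ≤ q := by
    calc q ^ 2 ≤ q ^ 1 := pow_le_pow_of_le_one hq hq1 (by norm_num)
      _ = q := pow_one q
  have hyt : |y - q * t| ≤ (n ^ 2 + C) * q ^ 2 := by
    have e : y - q * t = ρ - q ^ 2 * ((t ^ 2 - u) / 2) := by rw [hρ]; ring
    rw [e]
    have h2 : |t ^ 2 - u| ≤ 2 * n ^ 2 := by
      have h3 : |t ^ 2| ≤ (n : ℝ) ^ 2 := by
        rw [abs_pow]; exact pow_le_pow_left₀ (abs_nonneg _) ht 2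
      have := abs_sub (t ^ 2) u
      linarith
    calc |ρ - q ^ 2 * ((t ^ 2 - u) / 2)| ≤ |ρ| + |q ^ 2 * ((t ^ 2 - u) / 2)| := abs_sub _ _
      _ ≤ C * q ^ 2 + q ^ 2 * n ^ 2 := by
        refine add_le_add (hρb.trans (mul_le_mul_of_nonneg_left hq32 hC)) ?_
        rw [abs_mul, abs_of_nonneg (by positivity : 0 ≤ q ^ 2), abs_div, abs_two]
        refine mul_le_mul_of_nonneg_left ?_ (by positivity)
        linarith
      _ = _ := by ring
  have hqt : |q * t| ≤ n * q := by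
    rw [abs_mul, abs_of_nonneg hq]
    have := mul_le_mul_of_nonneg_left ht hq
    linarith
  have hyb : |y| ≤ K * q := by
    calc |y| = |(y - q * t) + q * t| := by rw [sub_add_cancel]
      _ ≤ |y - q * t| + |q * t| := abs_add_le _ _
      _ ≤ (n ^ 2 + C) * q ^ 2 + n * q := add_le_add hyt hqt
      _ ≤ (n ^ 2 + C) * q + n * q := by
        have := mul_le_mul_of_nonneg_left hq2 (by positivity : 0 ≤ (n : ℝ) ^ 2 + C)
        linarith
      _ ≤ K * q := by rw [hK]; nlinarith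
  have hy12 : |y| ≤ 1 / 2 := hyb.trans hqK
  have hy1 : 0 < 1 - y := by have := (abs_le.1 hy12).2; linarith
  refine ⟨hy1, ?_⟩
  have h5 := Real.abs_log_sub_add_sum_range_le (x := y) (by linarith) 2
  simp only [Finset.sum_range_succ, Finset.sum_range_zero] at h5
  norm_num at h5
  have h6 : |y| ^ 3 / (1 - |y|) ≤ 2 * (K * q) ^ 3 := by
    rw [div_le_iff₀ (by linarith)]
    have h7 : |y| ^ 3 ≤ (K * q) ^ 3 := pow_le_pow_left₀ (abs_nonneg _) hyb 3
    have h8 : 0 ≤ (K * q) ^ 3 := by positivity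
    nlinarith
  have h7 := h5.trans h6
  have h8 : |y ^ 2 - (q * t) ^ 2| ≤ 2 * K ^ 2 * q ^ 3 := by
    have e : y ^ 2 - (q * t) ^ 2 = (y - q * t) * (y + q * t) := by ring
    rw [e, abs_mul]
    have h9 : |y + q * t| ≤ 2 * K * q := by
      refine (abs_add_le _ _).trans ?_
      have : n * q ≤ K * q := by
        refine mul_le_mul_of_nonneg_right ?_ hq
        rw [hK]
        have : (0 : ℝ) ≤ n ^ 2 := by positivity
        linarith
      linarith
    calc |y - q * t| * |y + q * t| ≤ ((n ^ 2 + C) * q ^ 2) * (2 * K * q) :=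
          mul_le_mul hyt h9 (abs_nonneg _) (by positivity)
      _ = (n ^ 2 + C) * (2 * K * q ^ 3) := by ring
      _ ≤ K * (2 * K * q ^ 3) := by
        refine mul_le_mul_of_nonneg_right ?_ (by positivity)
        rw [hK]; linarith
      _ = _ := by ring
  have e : -Real.log (1 - y) - (q * t + q ^ 2 * u / 2) =
      -(y + y ^ 2 / 2 + Real.log (1 - y)) + (ρ + (y ^ 2 - (q * t) ^ 2) / 2) := by
    rw [hρ]; ring
  rw [e]
  refine (abs_add_le _ _).trans ?_
  rw [abs_neg]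
  have h9 : |ρ + (y ^ 2 - (q * t) ^ 2) / 2| ≤ C * q ^ 3 + K ^ 2 * q ^ 3 := by
    refine (abs_add_le _ _).trans (add_le_add hρb ?_)
    rw [abs_div, abs_two]
    linarith
  calc _ ≤ 2 * (K * q) ^ 3 + (C * q ^ 3 + K ^ 2 * q ^ 3) := add_le_add h7 h9
    _ = _ := by ring

/-- **Expansion of a product of inverse determinants.** -/
theorem prod_expand (n : ℕ) : ∃ C q0 : ℝ, 0 ≤ C ∧ 0 < q0 ∧ q0 ≤ 1 ∧
    ∀ M : Matrix (Fin n) (Fin n) ℝ, (∀ i j, |M i j| ≤ 1) → ∀ (E : Type) [Fintype E] (q : E → ℝ),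
    (∀ e, 0 ≤ q e) → ∑ e, q e ≤ q0 →
    |(∏ e, 1 / |det (1 - q e • M)|) - (1 + (∑ e, q e) * trace M + ((∑ e, q e) ^ 2 * trace M ^ 2 +
      (∑ e, q e ^ 2) * trace (M * M)) / 2)| ≤ C * (∑ e, q e) ^ 3 := by
  obtain ⟨C, q1, hC, hq1, hq11, hlog⟩ := log_det n
  obtain ⟨K, hK⟩ : ∃ K : ℝ, K = n + n ^ 2 + C + 1 := ⟨_, rfl⟩
  have hn : (0 : ℝ) ≤ n := Nat.cast_nonneg n
  have hK1 : 1 ≤ K := by rw [hK]; nlinarith
  refine ⟨K ^ 3 + C + K ^ 2, min q1 (1 / K), by positivity, by positivity,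
    (min_le_left _ _).trans hq11, fun M hM E _ q hq hS => ?_⟩
  obtain ⟨S, hSd⟩ : ∃ S, S = ∑ e, q e := ⟨_, rfl⟩
  obtain ⟨S2, hS2d⟩ : ∃ S2, S2 = ∑ e, q e ^ 2 := ⟨_, rfl⟩
  rw [← hSd] at hS
  rw [← hSd, ← hS2d]
  have hS0 : 0 ≤ S := by rw [hSd]; exact Finset.sum_nonneg fun e _ => hq e
  have hqS : ∀ e, q e ≤ S := fun e => by
    rw [hSd]; exact Finset.single_le_sum (fun e _ => hq e) (Finset.mem_univ e)
  have hSq1 : S ≤ q1 := hS.trans (min_le_left _ _)
  have hS1 : S ≤ 1 := hSq1.trans hq11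
  have hSK : K * S ≤ 1 := by
    calc K * S ≤ K * (1 / K) := mul_le_mul_of_nonneg_left (hS.trans (min_le_right _ _)) (by linarith)
      _ = 1 := by field_simp
  have hS20 : 0 ≤ S2 := by rw [hS2d]; exact Finset.sum_nonneg fun e _ => sq_nonneg _
  have hS2S : S2 ≤ S ^ 2 := by
    rw [hS2d, sq]
    calc ∑ e, q e ^ 2 ≤ ∑ e, S * q e := Finset.sum_le_sum fun e _ => by
          rw [sq]; exact mul_le_mul_of_nonneg_right (hqS e) (hq e)
      _ = S * S := by rw [← Finset.mul_sum, ← hSd]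
  have hS3 : ∑ e, q e ^ 3 ≤ S ^ 3 := by
    calc ∑ e, q e ^ 3 ≤ ∑ e, S ^ 2 * q e := Finset.sum_le_sum fun e _ => by
          calc q e ^ 3 = q e ^ 2 * q e := by ring
            _ ≤ S ^ 2 * q e := mul_le_mul_of_nonneg_right
              (pow_le_pow_left₀ (hq e) (hqS e) 2) (hq e)
      _ = S ^ 3 := by rw [← Finset.mul_sum, ← hSd]; ring
  have hpos : ∀ e, 0 < det (1 - q e • M) := fun e => (hlog M hM (q e) (hq e) ((hqS e).trans hSq1)).1
  have hl := fun e => (hlog M hM (q e) (hq e) ((hqS e).trans hSq1)).2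
  obtain ⟨z, hz⟩ : ∃ z, z = ∑ e, -Real.log (det (1 - q e • M)) := ⟨_, rfl⟩
  have hprod : (∏ e, 1 / |det (1 - q e • M)|) = Real.exp z := by
    rw [hz, Real.exp_sum]
    refine Finset.prod_congr rfl fun e _ => ?_
    rw [Real.exp_neg, Real.exp_log (hpos e), abs_of_pos (hpos e), one_div]
  have ht := trace_bound hM
  have ht2 := trace_mul_bound hM
  obtain ⟨t, htd⟩ : ∃ t, t = trace M := ⟨_, rfl⟩
  obtain ⟨u, hud⟩ : ∃ u, u = trace (M * M) := ⟨_, rfl⟩
  simp only [← htd, ← hud] at ht ht2 hl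
  rw [hprod, ← htd, ← hud]
  obtain ⟨ρ, hρ⟩ : ∃ ρ, ρ = z - (S * t + S2 * u / 2) := ⟨_, rfl⟩
  have hρb : |ρ| ≤ C * S ^ 3 := by
    have e : ρ = ∑ e, (-Real.log (det (1 - q e • M)) - (q e * t + q e ^ 2 * u / 2)) := by
      rw [hρ, hz, hSd, hS2d, Finset.sum_sub_distrib, Finset.sum_add_distrib, Finset.sum_mul,
        Finset.sum_mul, Finset.sum_div]
    rw [e]
    refine (Finset.abs_sum_le_sum_abs _ _).trans ?_
    calc _ ≤ ∑ e, C * q e ^ 3 := Finset.sum_le_sum fun e _ => hl e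
      _ = C * ∑ e, q e ^ 3 := by rw [Finset.mul_sum]
      _ ≤ _ := mul_le_mul_of_nonneg_left hS3 hC
  have hS32 : S ^ 3 ≤ S ^ 2 := pow_le_pow_of_le_one hS0 hS1 (by norm_num)
  have hS21 : S ^ 2 ≤ S := by
    calc S ^ 2 ≤ S ^ 1 := pow_le_pow_of_le_one hS0 hS1 (by norm_num)
      _ = S := pow_one S
  have hzt : |z - S * t| ≤ (n ^ 2 + C) * S ^ 2 := by
    have e : z - S * t = ρ + S2 * u / 2 := by rw [hρ]; ring
    rw [e]
    have h3 : |S2 * u / 2| ≤ S ^ 2 * n ^ 2 := by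
      rw [abs_div, abs_two, abs_mul, abs_of_nonneg hS20]
      have := mul_le_mul hS2S ht2 (abs_nonneg _) (by positivity)
      have h4 : 0 ≤ S2 * |u| := by positivity
      linarith
    calc |ρ + S2 * u / 2| ≤ |ρ| + |S2 * u / 2| := abs_add_le _ _
      _ ≤ C * S ^ 2 + S ^ 2 * n ^ 2 :=
        add_le_add (hρb.trans (mul_le_mul_of_nonneg_left hS32 hC)) h3
      _ = _ := by ring
  have hSt : |S * t| ≤ n * S := by
    rw [abs_mul, abs_of_nonneg hS0]
    have := mul_le_mul_of_nonneg_left ht hS0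
    linarith
  have hzb : |z| ≤ K * S := by
    calc |z| = |(z - S * t) + S * t| := by rw [sub_add_cancel]
      _ ≤ |z - S * t| + |S * t| := abs_add_le _ _
      _ ≤ (n ^ 2 + C) * S ^ 2 + n * S := add_le_add hzt hSt
      _ ≤ (n ^ 2 + C) * S + n * S := by
        have := mul_le_mul_of_nonneg_left hS21 (by positivity : 0 ≤ (n : ℝ) ^ 2 + C)
        linarith
      _ ≤ K * S := by rw [hK]; nlinarith
  have hz1 : |z| ≤ 1 := hzb.trans hSK
  have h5 := Real.exp_bound hz1 (n := 3) (by norm_num)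
  have e5 : ∑ m ∈ range 3, z ^ m / (m.factorial : ℝ) = 1 + z + z ^ 2 / 2 := by
    simp [Finset.sum_range_succ, Nat.factorial]
  rw [e5] at h5
  have h6 : |Real.exp z - (1 + z + z ^ 2 / 2)| ≤ (K * S) ^ 3 := by
    refine h5.trans ?_
    have h7 : |z| ^ 3 ≤ (K * S) ^ 3 := pow_le_pow_left₀ (abs_nonneg _) hzb 3
    have h8 : ((Nat.succ 3 : ℕ) : ℝ) / ((Nat.factorial 3 : ℕ) * (3 : ℕ)) ≤ 1 := by
      norm_num [Nat.factorial]
    calc |z| ^ 3 * (((Nat.succ 3 : ℕ) : ℝ) / ((Nat.factorial 3 : ℕ) * (3 : ℕ))) ≤ |z| ^ 3 * 1 :=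
          mul_le_mul_of_nonneg_left h8 (by positivity)
      _ = |z| ^ 3 := mul_one _
      _ ≤ _ := h7
  have h8 : |z ^ 2 - (S * t) ^ 2| ≤ 2 * K ^ 2 * S ^ 3 := by
    have e : z ^ 2 - (S * t) ^ 2 = (z - S * t) * (z + S * t) := by ring
    rw [e, abs_mul]
    have h9 : |z + S * t| ≤ 2 * K * S := by
      refine (abs_add_le _ _).trans ?_
      have : n * S ≤ K * S := by
        refine mul_le_mul_of_nonneg_right ?_ hS0
        rw [hK]
        have : (0 : ℝ) ≤ n ^ 2 := by positivity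
        linarith
      linarith
    calc |z - S * t| * |z + S * t| ≤ ((n ^ 2 + C) * S ^ 2) * (2 * K * S) :=
          mul_le_mul hzt h9 (abs_nonneg _) (by positivity)
      _ = (n ^ 2 + C) * (2 * K * S ^ 3) := by ring
      _ ≤ K * (2 * K * S ^ 3) := by
        refine mul_le_mul_of_nonneg_right ?_ (by positivity)
        rw [hK]; linarith
      _ = _ := by ring
  have e : Real.exp z - (1 + S * t + (S ^ 2 * t ^ 2 + S2 * u) / 2) =
      (Real.exp z - (1 + z + z ^ 2 / 2)) + (ρ + (z ^ 2 - (S * t) ^ 2) / 2) := by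
    rw [hρ]; ring
  rw [e]
  refine (abs_add_le _ _).trans ?_
  have h9 : |ρ + (z ^ 2 - (S * t) ^ 2) / 2| ≤ C * S ^ 3 + K ^ 2 * S ^ 3 := by
    refine (abs_add_le _ _).trans (add_le_add hρb ?_)
    rw [abs_div, abs_two]
    linarith
  calc _ ≤ (K * S) ^ 3 + (C * S ^ 3 + K ^ 2 * S ^ 3) := add_le_add h6 h9
    _ = _ := by ring

end

end Pool.Agent.T2H02.Gap
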