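import Mathlib
import Pool.Agent.T2H02.Gap.Sing1
import Pool.Agent.T2H02.Gap.Ad
import Pool.Agent.T2H02.Gap.Haar

/-!
# The integral over the holonomy: counting colour singlets
-/

open MeasureTheory Matrix Filter
open scoped Topology RealInnerProductSpace Matrix.Norms.Frobenius
open Pool.Agent.H906R3.YM Pool.Agent.W793.YM Pool.Agent.TH618.YM

namespace Pool.Agent.T2H02.Gap

set_option linter.unusedSectionVars false
set_option linter.unusedVariables false

noncomputable section

variable {N n : ℕ} {G : Subgroup (UN N)}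
variable [CompactSpace G] [SecondCountableTopology G] [MeasurableSpace G] [BorelSpace G]
variable (B : Frame G n)

/-- the matrix of the adjoint action -/
def adm (P : G) : Matrix (Fin n) (Fin n) ℝ := fun i k => ⟪EuclideanSpace.single i (1 : ℝ),
  adL B P (EuclideanSpace.single k 1)⟫

lemma adm_eq (P : G) : adm B P = LinearMap.toMatrix (EuclideanSpace.basisFun (Fin n) ℝ).toBasis
    (EuclideanSpace.basisFun (Fin n) ℝ).toBasis (adL B P) := by
  ext i k
  rw [LinearMap.toMatrix_apply]
  simp [adm, EuclideanSpace.inner_single_left]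

lemma det_adm (P : G) (q : ℝ) : LinearMap.det (LinearMap.id - q • adL B P) = det (1 - q • adm B P) := by
  rw [adm_eq, ← LinearMap.det_toMatrix (EuclideanSpace.basisFun (Fin n) ℝ).toBasis, map_sub, map_smul,
    LinearMap.toMatrix_id]

lemma adm_le (P : G) (i k : Fin n) : |adm B P i k| ≤ 1 := by
  unfold adm
  refine (abs_real_inner_le_norm _ _).trans ?_
  rw [norm_adL]
  simp

lemma adL_cont_apply (v : En n) : Continuous fun P : G => adL B P v := by
  have h1 : (fun P : G => adL B P v) = fun P : G => cm B (mt P * lie B v * mt P⁻¹) := rfl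
  rw [h1]
  have h2 : Continuous (cm B) := (cm B).continuous_of_finiteDimensional
  refine h2.comp ?_
  exact (mt_cont.mul continuous_const).mul (mt_cont.comp continuous_inv)

lemma adm_cont (i k : Fin n) : Continuous fun P : G => adm B P i k :=
  continuous_const.inner (adL_cont_apply B _)

lemma adm_mul (P Q : G) : adm B (P * Q) = adm B P * adm B Q := by
  rw [adm_eq, adm_eq, adm_eq, ← LinearMap.toMatrix_comp]
  congr 1
  ext1 v
  exact adL_mul B P Q v

lemma adL_inner (P : G) (v w : En n) : ⟪adL B P v, adL B P w⟫ = ⟪v, w⟫ := by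
  have h1 := norm_adL B P (v + w)
  have h2 := norm_adL B P v
  have h3 := norm_adL B P w
  rw [map_add] at h1
  have h4 := norm_add_sq_real (adL B P v) (adL B P w)
  have h5 := norm_add_sq_real v w
  rw [h1, h2, h3] at h4
  linarith

lemma adm_inv (Q : G) (i k : Fin n) : adm B Q⁻¹ i k = adm B Q k i := by
  unfold adm
  have h := adL_inner B Q (EuclideanSpace.single i (1 : ℝ)) (adL B Q⁻¹ (EuclideanSpace.single k 1))
  rw [← adL_mul, mul_inv_cancel, adL_one] at h
  rw [← h, real_inner_comm]

lemma adm_col (P : G) (k : Fin n) : ∑ i, adm B P i k ^ 2 = 1 := by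
  have h := norm_adL B P (EuclideanSpace.single k (1 : ℝ))
  have h2 := EuclideanSpace.norm_sq_eq (adL B P (EuclideanSpace.single k (1 : ℝ)))
  rw [h] at h2
  simp only [PiLp.norm_single, norm_one, one_pow] at h2
  rw [h2]
  refine Finset.sum_congr rfl fun i _ => ?_
  simp [adm, EuclideanSpace.inner_single_left]

variable (μ : Measure G) [IsProbabilityMeasure μ] [μ.IsMulLeftInvariant]

lemma cont_int {f : G → ℝ} (hf : Continuous f) : Integrable f μ := by
  obtain ⟨M, hM⟩ := (isCompact_range hf).isBounded.exists_norm_le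
  exact Integrable.of_bound hf.aestronglyMeasurable M
    (Eventually.of_forall fun U => hM _ (Set.mem_range_self U))

/-- no invariant vectors -/
lemma int_adL (hinv : ∀ v : En n, (∀ P : G, adL B P v = v) → v = 0) (v : En n) :
    ∫ P, adL B P v ∂μ = 0 := by
  refine hinv _ fun Q => ?_
  have hint : Integrable (fun P : G => adL B P v) μ := by
    have hc := adL_cont_apply B v
    exact Integrable.of_bound hc.aestronglyMeasurable ‖v‖
      (Eventually.of_forall fun U => (norm_adL B U v).le)
  have h1 := (LinearMap.toContinuousLinearMap (adL B Q)).integral_comp_comm hint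
  have h2 : (LinearMap.toContinuousLinearMap (adL B Q)) (∫ P, adL B P v ∂μ) =
      adL B Q (∫ P, adL B P v ∂μ) := rfl
  rw [h2] at h1
  rw [← h1]
  have h3 : (fun P : G => (LinearMap.toContinuousLinearMap (adL B Q)) (adL B P v)) =
      fun P => (fun P => adL B P v) (Q * P) := by
    funext P
    exact (adL_mul B Q P v).symm
  rw [h3]
  exact integral_mul_left_eq_self (fun P => adL B P v) Q

lemma int_adm (hinv : ∀ v : En n, (∀ P : G, adL B P v = v) → v = 0) (i k : Fin n) :
    ∫ P, adm B P i k ∂μ = 0 := by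
  have hint : Integrable (fun P : G => adL B P (EuclideanSpace.single k 1)) μ := by
    have hc := adL_cont_apply B (EuclideanSpace.single k 1)
    exact Integrable.of_bound hc.aestronglyMeasurable ‖(EuclideanSpace.single k 1 : En n)‖
      (Eventually.of_forall fun U => (norm_adL B U _).le)
  have h1 := integral_inner (𝕜 := ℝ) hint (EuclideanSpace.single i (1 : ℝ))
  rw [int_adL B μ hinv, inner_zero_right] at h1
  exact h1

lemma int_trace (hinv : ∀ v : En n, (∀ P : G, adL B P v = v) → v = 0) :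
    ∫ P, trace (adm B P) ∂μ = 0 := by
  show ∫ P, ∑ i, adm B P i i ∂μ = 0
  rw [integral_finsetSum _ fun i _ => cont_int μ (adm_cont B i i)]
  exact Finset.sum_eq_zero fun i _ => int_adm B μ hinv i i

/-- the second moments of the matrix elements -/
def mm (i j k l : Fin n) : ℝ := ∫ P, adm B P i j * adm B P k l ∂μ

lemma mm_cont (i j k l : Fin n) : Continuous fun P : G => adm B P i j * adm B P k l :=
  (adm_cont B i j).mul (adm_cont B k l)

lemma trace_cont : Continuous fun P : G => trace (adm B P) := by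
  unfold trace
  exact continuous_finsetSum _ fun i _ => adm_cont B i i

lemma trace2_cont : Continuous fun P : G => trace (adm B P * adm B P) := by
  unfold trace
  refine continuous_finsetSum _ fun i _ => ?_
  have h : (fun P : G => (adm B P * adm B P).diag i) = fun P => ∑ j, adm B P i j * adm B P j i := by
    funext P; rfl
  rw [h]
  exact continuous_finsetSum _ fun j _ => mm_cont B i j j i

/-- the value at a quotient -/
lemma phi_mul (Q P : G) : trace (adm B (Q⁻¹ * P)) ^ 2 + trace (adm B (Q⁻¹ * P) * adm B (Q⁻¹ * P)) =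
    ∑ i, ∑ k, ∑ j, ∑ l, (adm B Q i j * adm B Q k l) *
      (adm B P i j * adm B P k l + adm B P i l * adm B P k j) := by
  have h1 : ∀ j l, adm B (Q⁻¹ * P) j l = ∑ i, adm B Q i j * adm B P i l := by
    intro j l
    rw [adm_mul, mul_apply]
    exact Finset.sum_congr rfl fun i _ => by rw [adm_inv]
  have h2 : trace (adm B (Q⁻¹ * P)) ^ 2 = ∑ i, ∑ k, ∑ j, ∑ l, (adm B Q i j * adm B Q k l) *
      (adm B P i j * adm B P k l) := by
    have e : trace (adm B (Q⁻¹ * P)) = ∑ i, ∑ j, adm B Q i j * adm B P i j := by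
      unfold trace
      simp only [diag_apply, h1]
      exact Finset.sum_comm
    rw [e, sq, Finset.sum_mul_sum]
    refine Finset.sum_congr rfl fun i _ => Finset.sum_congr rfl fun k _ => ?_
    rw [Finset.sum_mul_sum]
    exact Finset.sum_congr rfl fun j _ => Finset.sum_congr rfl fun l _ => by ring
  have h3 : trace (adm B (Q⁻¹ * P) * adm B (Q⁻¹ * P)) = ∑ i, ∑ k, ∑ j, ∑ l,
      (adm B Q i j * adm B Q k l) * (adm B P i l * adm B P k j) := by
    unfold trace
    simp only [diag_apply, mul_apply, h1, Finset.sum_mul_sum]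
    calc ∑ j, ∑ l, ∑ i, ∑ k, adm B Q i j * adm B P i l * (adm B Q k l * adm B P k j) =
        ∑ j, ∑ i, ∑ l, ∑ k, adm B Q i j * adm B P i l * (adm B Q k l * adm B P k j) :=
          Finset.sum_congr rfl fun j _ => Finset.sum_comm
      _ = ∑ i, ∑ j, ∑ l, ∑ k, adm B Q i j * adm B P i l * (adm B Q k l * adm B P k j) :=
          Finset.sum_comm
      _ = ∑ i, ∑ j, ∑ k, ∑ l, adm B Q i j * adm B P i l * (adm B Q k l * adm B P k j) :=
          Finset.sum_congr rfl fun i _ => Finset.sum_congr rfl fun j _ => Finset.sum_comm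
      _ = ∑ i, ∑ k, ∑ j, ∑ l, adm B Q i j * adm B P i l * (adm B Q k l * adm B P k j) :=
          Finset.sum_congr rfl fun i _ => Finset.sum_comm
      _ = _ := Finset.sum_congr rfl fun i _ => Finset.sum_congr rfl fun k _ =>
          Finset.sum_congr rfl fun j _ => Finset.sum_congr rfl fun l _ => by ring
  rw [h2, h3]
  simp only [← Finset.sum_add_distrib]
  refine Finset.sum_congr rfl fun i _ => Finset.sum_congr rfl fun k _ =>
    Finset.sum_congr rfl fun j _ => Finset.sum_congr rfl fun l _ => by ring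

/-- the second moment of the character is a sum of squares -/
lemma int_phi : ∫ P, (trace (adm B P) ^ 2 + trace (adm B P * adm B P)) ∂μ =
    ∑ i, ∑ k, ∑ j, ∑ l, mm B μ i j k l * (mm B μ i j k l + mm B μ i l k j) := by
  obtain ⟨φ, hφ⟩ : ∃ φ : G → ℝ, φ = fun P => trace (adm B P) ^ 2 + trace (adm B P * adm B P) := ⟨_, rfl⟩
  have h1 : ∀ Q : G, ∫ P, φ P ∂μ = ∑ i, ∑ k, ∑ j, ∑ l, (adm B Q i j * adm B Q k l) *
      (mm B μ i j k l + mm B μ i l k j) := by
    intro Q
    rw [← integral_mul_left_eq_self φ Q⁻¹]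
    have h2 : (fun P => φ (Q⁻¹ * P)) = fun P => ∑ i, ∑ k, ∑ j, ∑ l, (adm B Q i j * adm B Q k l) *
      (adm B P i j * adm B P k l + adm B P i l * adm B P k j) := by
      funext P; rw [hφ]; exact phi_mul B Q P
    rw [h2]
    have hc : ∀ i k j l : Fin n, Continuous fun P : G => (adm B Q i j * adm B Q k l) *
      (adm B P i j * adm B P k l + adm B P i l * adm B P k j) := fun i k j l =>
      continuous_const.mul ((mm_cont B i j k l).add (mm_cont B i l k j))
    rw [integral_finsetSum _ fun i _ => cont_int μ (continuous_finsetSum _ fun k _ =>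
      continuous_finsetSum _ fun j _ => continuous_finsetSum _ fun l _ => hc i k j l)]
    refine Finset.sum_congr rfl fun i _ => ?_
    rw [integral_finsetSum _ fun k _ => cont_int μ (
      continuous_finsetSum _ fun j _ => continuous_finsetSum _ fun l _ => hc i k j l)]
    refine Finset.sum_congr rfl fun k _ => ?_
    rw [integral_finsetSum _ fun j _ => cont_int μ (continuous_finsetSum _ fun l _ => hc i k j l)]
    refine Finset.sum_congr rfl fun j _ => ?_
    rw [integral_finsetSum _ fun l _ => cont_int μ (hc i k j l)]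
    refine Finset.sum_congr rfl fun l _ => ?_
    rw [integral_const_mul, integral_add (cont_int μ (mm_cont B i j k l))
      (cont_int μ (mm_cont B i l k j))]
    rfl
  have h2 : ∫ P, φ P ∂μ = ∫ Q, (∫ P, φ P ∂μ) ∂μ := by simp
  have h3 : (fun Q : G => ∫ P, φ P ∂μ) = fun Q => ∑ i, ∑ k, ∑ j, ∑ l,
      (adm B Q i j * adm B Q k l) * (mm B μ i j k l + mm B μ i l k j) := by
    funext Q; exact h1 Q
  rw [h3, hφ] at h2
  rw [h2]
  have hc : ∀ i k j l : Fin n, Continuous fun Q : G => (adm B Q i j * adm B Q k l) *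
      (mm B μ i j k l + mm B μ i l k j) := fun i k j l => (mm_cont B i j k l).mul continuous_const
  rw [integral_finsetSum _ fun i _ => cont_int μ (continuous_finsetSum _ fun k _ =>
      continuous_finsetSum _ fun j _ => continuous_finsetSum _ fun l _ => hc i k j l)]
  refine Finset.sum_congr rfl fun i _ => ?_
  rw [integral_finsetSum _ fun k _ => cont_int μ (
    continuous_finsetSum _ fun j _ => continuous_finsetSum _ fun l _ => hc i k j l)]
  refine Finset.sum_congr rfl fun k _ => ?_
  rw [integral_finsetSum _ fun j _ => cont_int μ (continuous_finsetSum _ fun l _ => hc i k j l)]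
  refine Finset.sum_congr rfl fun j _ => ?_
  rw [integral_finsetSum _ fun l _ => cont_int μ (hc i k j l)]
  refine Finset.sum_congr rfl fun l _ => ?_
  rw [integral_mul_const]
  rfl

lemma sym_sum (a : Fin n → Fin n → ℝ) :
    ∑ j, ∑ l, a j l * (a j l + a l j) = 1 / 2 * ∑ j, ∑ l, (a j l + a l j) ^ 2 := by
  have h : ∑ j, ∑ l, a j l * (a j l + a l j) = ∑ j, ∑ l, a l j * (a l j + a j l) := Finset.sum_comm
  have h2 : ∑ j, ∑ l, (a j l + a l j) ^ 2 = ∑ j, ∑ l, a j l * (a j l + a l j) +
      ∑ j, ∑ l, a l j * (a l j + a j l) := by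
    rw [← Finset.sum_add_distrib]
    refine Finset.sum_congr rfl fun j _ => ?_
    rw [← Finset.sum_add_distrib]
    exact Finset.sum_congr rfl fun l _ => by ring
  rw [h2, ← h]; ring

/-- there is a singlet in the symmetric square -/
lemma int_phi_ge (hn : 0 < n) : 2 ≤ ∫ P, (trace (adm B P) ^ 2 + trace (adm B P * adm B P)) ∂μ := by
  rw [int_phi]
  have h1 : ∀ i k : Fin n, ∑ j, ∑ l, mm B μ i j k l * (mm B μ i j k l + mm B μ i l k j) =
      1 / 2 * ∑ j, ∑ l, (mm B μ i j k l + mm B μ i l k j) ^ 2 := fun i k =>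
    sym_sum fun j l => mm B μ i j k l
  have h2 : ∀ i : Fin n, ∑ j, 2 * mm B μ i j i j ^ 2 ≤ ∑ k, ∑ j, ∑ l, mm B μ i j k l *
      (mm B μ i j k l + mm B μ i l k j) := by
    intro i
    have h3 : ∀ k : Fin n, 0 ≤ ∑ j, ∑ l, mm B μ i j k l * (mm B μ i j k l + mm B μ i l k j) := by
      intro k
      rw [h1]
      exact mul_nonneg (by norm_num) (Finset.sum_nonneg fun j _ => Finset.sum_nonneg fun l _ =>
        sq_nonneg _)
    have h4 := Finset.single_le_sum (fun k _ => h3 k) (Finset.mem_univ i)
    refine le_trans ?_ h4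
    rw [h1, Finset.mul_sum]
    refine Finset.sum_le_sum fun j _ => ?_
    have h5 := Finset.single_le_sum (f := fun l => (mm B μ i j i l + mm B μ i l i j) ^ 2)
      (fun l _ => sq_nonneg _) (Finset.mem_univ j)
    have h6 : (mm B μ i j i j + mm B μ i j i j) ^ 2 = 4 * mm B μ i j i j ^ 2 := by ring
    rw [h6] at h5
    linarith
  refine le_trans ?_ (Finset.sum_le_sum fun i _ => h2 i)
  -- Cauchy-Schwarz
  have h7 : ∑ i, ∑ j, mm B μ i j i j = n := by
    have e1 : ∀ i j : Fin n, mm B μ i j i j = ∫ P, adm B P i j ^ 2 ∂μ := by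
      intro i j; unfold mm
      refine integral_congr_ae (Eventually.of_forall fun P => ?_)
      simp only; ring
    calc ∑ i, ∑ j, mm B μ i j i j = ∑ j, ∑ i, ∫ P, adm B P i j ^ 2 ∂μ := by
          rw [Finset.sum_comm]
          exact Finset.sum_congr rfl fun j _ => Finset.sum_congr rfl fun i _ => e1 i j
      _ = ∑ j : Fin n, ∫ P, ∑ i, adm B P i j ^ 2 ∂μ := by
          refine Finset.sum_congr rfl fun j _ => ?_
          rw [integral_finsetSum _ fun i _ => cont_int μ (f := fun P : G => adm B P i j ^ 2)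
            ((adm_cont B i j).pow 2)]
      _ = ∑ j : Fin n, (1 : ℝ) := by
          refine Finset.sum_congr rfl fun j _ => ?_
          have : (fun P : G => ∑ i, adm B P i j ^ 2) = fun _ => 1 := by
            funext P; exact adm_col B P j
          rw [this]; simp
      _ = n := by simp
  have h8 : (∑ p : Fin n × Fin n, mm B μ p.1 p.2 p.1 p.2) ^ 2 ≤
      (Finset.univ : Finset (Fin n × Fin n)).card * ∑ p : Fin n × Fin n, mm B μ p.1 p.2 p.1 p.2 ^ 2 :=
    sq_sum_le_card_mul_sum_sq
  rw [Fintype.sum_prod_type, Fintype.sum_prod_type, h7, Finset.card_univ, Fintype.card_prod,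
    Fintype.card_fin] at h8
  push_cast at h8
  have hn' : (0 : ℝ) < n := by exact_mod_cast hn
  have h9 : 1 ≤ ∑ i, ∑ j, mm B μ i j i j ^ 2 := by
    have h10 : (n : ℝ) * n * 1 ≤ n * n * ∑ i, ∑ j, mm B μ i j i j ^ 2 := by
      rw [mul_one, ← sq]; rw [← sq] at h8; exact h8
    exact le_of_mul_le_mul_left h10 (by positivity)
  have h11 : ∑ i, ∑ j, 2 * mm B μ i j i j ^ 2 = 2 * ∑ i, ∑ j, mm B μ i j i j ^ 2 := by
    simp only [Finset.mul_sum]
  rw [h11]
  linarith

/-- **The integral over the holonomy.** -/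
theorem sing_bound (hn : 0 < n) (hinv : ∀ v : En n, (∀ P : G, adL B P v = v) → v = 0) :
    ∃ C q0 : ℝ, 0 ≤ C ∧ 0 < q0 ∧ q0 ≤ 1 ∧ ∀ (E : Type) [Fintype E] (q : E → ℝ),
    (∀ e, 0 ≤ q e) → ∑ e, q e ≤ q0 →
    (∑ e, q e ^ 2) - C * (∑ e, q e) ^ 3 ≤
      (∫ P, ∏ e, 1 / |LinearMap.det (LinearMap.id - q e • adL B P)| ∂μ) - 1 ∧
    (∫ P, ∏ e, 1 / |LinearMap.det (LinearMap.id - q e • adL B P)| ∂μ) - 1 ≤
      C * (∑ e, q e) ^ 2 ∧
    Integrable (fun P => ∏ e, 1 / |LinearMap.det (LinearMap.id - q e • adL B P)|) μ := by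
  obtain ⟨C, q0, hC, hq0, hq01, hexp⟩ := prod_expand n
  refine ⟨C + n ^ 2, q0, by positivity, hq0, hq01, fun E _ q hq hS => ?_⟩
  obtain ⟨S, hSd⟩ : ∃ S, S = ∑ e, q e := ⟨_, rfl⟩
  obtain ⟨S2, hS2d⟩ : ∃ S2, S2 = ∑ e, q e ^ 2 := ⟨_, rfl⟩
  have hS0 : 0 ≤ S := by rw [hSd]; exact Finset.sum_nonneg fun e _ => hq e
  have hS20 : 0 ≤ S2 := by rw [hS2d]; exact Finset.sum_nonneg fun e _ => sq_nonneg _
  have hqS : ∀ e, q e ≤ S := fun e => by
    rw [hSd]; exact Finset.single_le_sum (fun e _ => hq e) (Finset.mem_univ e)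
  have hS2S : S2 ≤ S ^ 2 := by
    rw [hS2d, sq]
    calc ∑ e, q e ^ 2 ≤ ∑ e, S * q e := Finset.sum_le_sum fun e _ => by
          rw [sq]; exact mul_le_mul_of_nonneg_right (hqS e) (hq e)
      _ = S * S := by rw [← Finset.mul_sum, ← hSd]
  have hS1 : S ≤ 1 := by rw [hSd]; exact hS.trans hq01
  obtain ⟨F, hF⟩ : ∃ F : G → ℝ, F = fun P => ∏ e, 1 / |det (1 - q e • adm B P)| := ⟨_, rfl⟩
  have hFe : (fun P => ∏ e, 1 / |LinearMap.det (LinearMap.id - q e • adL B P)|) = F := by
    rw [hF]; funext P
    exact Finset.prod_congr rfl fun e _ => by rw [det_adm]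
  obtain ⟨R, hR⟩ : ∃ R : G → ℝ, R = fun P => 1 + S * trace (adm B P) + (S ^ 2 * trace (adm B P) ^ 2 +
      S2 * trace (adm B P * adm B P)) / 2 := ⟨_, rfl⟩
  have hRc : Continuous R := by
    rw [hR]
    have h1 := trace_cont B
    have h2 := trace2_cont B
    fun_prop
  have hFR : ∀ P, |F P - R P| ≤ C * S ^ 3 := by
    intro P
    rw [hF, hR]
    have := hexp (adm B P) (adm_le B P) E q hq hS
    rw [← hSd, ← hS2d] at this
    exact this
  -- measurability of F
  have hFm : AEStronglyMeasurable F μ := by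
    rw [hF]
    refine Measurable.aestronglyMeasurable ?_
    refine Finset.measurable_prod _ fun e _ => ?_
    have hc : Continuous fun P : G => det (1 - q e • adm B P) := by
      refine Continuous.matrix_det (continuous_matrix fun i j => ?_)
      have h1 := adm_cont B i j
      have h2 : (fun P : G => (1 - q e • adm B P) i j) = fun P => (1 : Matrix (Fin n) (Fin n) ℝ) i j -
          q e * adm B P i j := rfl
      rw [h2]
      exact continuous_const.sub (continuous_const.mul h1)
    have : Measurable fun P : G => |det (1 - q e • adm B P)| := hc.abs.measurable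
    exact this.const_div 1
  have hFint : Integrable F μ := by
    have h1 : Integrable (fun P => F P - R P) μ := by
      refine Integrable.of_bound (hFm.sub hRc.aestronglyMeasurable) (C * S ^ 3)
        (Eventually.of_forall fun P => ?_)
      rw [Real.norm_eq_abs]; exact hFR P
    have h2 := h1.add (cont_int μ hRc)
    refine h2.congr (Eventually.of_forall fun P => ?_)
    simp
  have hRint := cont_int μ hRc
  have hdiff : |(∫ P, F P ∂μ) - ∫ P, R P ∂μ| ≤ C * S ^ 3 := by
    rw [← integral_sub hFint hRint]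
    refine (abs_integral_le_integral_abs).trans ?_
    calc ∫ P, |F P - R P| ∂μ ≤ ∫ _P : G, C * S ^ 3 ∂μ :=
          integral_mono (hFint.sub hRint).abs (integrable_const _) hFR
      _ = C * S ^ 3 := by simp
  have ht : ∫ P, trace (adm B P) ∂μ = 0 := int_trace B μ hinv
  obtain ⟨a, ha⟩ : ∃ a, a = ∫ P, trace (adm B P) ^ 2 ∂μ := ⟨_, rfl⟩
  obtain ⟨b, hb⟩ : ∃ b, b = ∫ P, trace (adm B P * adm B P) ∂μ := ⟨_, rfl⟩
  have hRval : ∫ P, R P ∂μ = 1 + (S ^ 2 * a + S2 * b) / 2 := by
    rw [hR]
    have c1 : Integrable (fun P : G => trace (adm B P)) μ := cont_int μ (trace_cont B)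
    have c2 : Integrable (fun P : G => trace (adm B P) ^ 2) μ := cont_int μ ((trace_cont B).pow 2)
    have c3 : Integrable (fun P : G => trace (adm B P * adm B P)) μ := cont_int μ (trace2_cont B)
    have e : (fun P : G => 1 + S * trace (adm B P) + (S ^ 2 * trace (adm B P) ^ 2 +
        S2 * trace (adm B P * adm B P)) / 2) = fun P => 1 + S * trace (adm B P) +
        ((S ^ 2 / 2) * trace (adm B P) ^ 2 + (S2 / 2) * trace (adm B P * adm B P)) := by
      funext P; ring
    have d1 : Integrable (fun P : G => 1 + S * trace (adm B P)) μ :=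
      (integrable_const _).add (c1.const_mul _)
    have d2 : Integrable (fun P : G => (S ^ 2 / 2) * trace (adm B P) ^ 2 +
        (S2 / 2) * trace (adm B P * adm B P)) μ := (c2.const_mul _).add (c3.const_mul _)
    rw [e, integral_add d1 d2, integral_add (integrable_const _) (c1.const_mul _),
      integral_add (c2.const_mul _) (c3.const_mul _), integral_const_mul, integral_const_mul,
      integral_const_mul, ht, ← ha, ← hb]
    simp
    ring
  have hab : 2 ≤ a + b := by
    have := int_phi_ge B μ hn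
    have c2 : Integrable (fun P : G => trace (adm B P) ^ 2) μ := cont_int μ ((trace_cont B).pow 2)
    have c3 : Integrable (fun P : G => trace (adm B P * adm B P)) μ := cont_int μ (trace2_cont B)
    rw [integral_add c2 c3, ← ha, ← hb] at this
    exact this
  have ha0 : 0 ≤ a := by rw [ha]; exact integral_nonneg fun P => sq_nonneg _
  have haN : a ≤ n ^ 2 := by
    rw [ha]
    calc ∫ P, trace (adm B P) ^ 2 ∂μ ≤ ∫ _P : G, (n : ℝ) ^ 2 ∂μ := by
          refine integral_mono (cont_int μ ((trace_cont B).pow 2)) (integrable_const _) fun P => ?_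
          have := trace_bound (adm_le B P)
          simp only
          rw [← sq_abs]
          exact pow_le_pow_left₀ (abs_nonneg _) this 2
      _ = _ := by simp
  have hbN : b ≤ n ^ 2 := by
    rw [hb]
    calc ∫ P, trace (adm B P * adm B P) ∂μ ≤ ∫ _P : G, (n : ℝ) ^ 2 ∂μ := by
          refine integral_mono (cont_int μ (trace2_cont B)) (integrable_const _) fun P => ?_
          exact (le_abs_self _).trans (trace_mul_bound (adm_le B P))
      _ = _ := by simp
  rw [hFe, ← hSd, ← hS2d]
  rw [hRval] at hdiff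
  have hd := abs_le.1 hdiff
  have hn2 : (0 : ℝ) ≤ n ^ 2 := by positivity
  have hS3 : S ^ 3 ≤ S ^ 2 := pow_le_pow_of_le_one hS0 hS1 (by norm_num)
  have hS30 : 0 ≤ S ^ 3 := by positivity
  refine ⟨?_, ?_, hFint⟩
  · have h1 : S2 * a ≤ S ^ 2 * a := mul_le_mul_of_nonneg_right hS2S ha0
    have h2 : S2 * 2 ≤ S2 * (a + b) := mul_le_mul_of_nonneg_left hab hS20
    have h3 : 0 ≤ (n : ℝ) ^ 2 * S ^ 3 := by positivity
    have h4 : (C + n ^ 2) * S ^ 3 = C * S ^ 3 + n ^ 2 * S ^ 3 := by ring
    rw [h4]
    linarith [hd.1]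
  · have h1 : S ^ 2 * a ≤ S ^ 2 * n ^ 2 := mul_le_mul_of_nonneg_left haN (by positivity)
    have h2 : S2 * b ≤ S ^ 2 * n ^ 2 := by
      calc S2 * b ≤ S2 * n ^ 2 := mul_le_mul_of_nonneg_left hbN hS20
        _ ≤ _ := mul_le_mul_of_nonneg_right hS2S hn2
    have h3 : C * S ^ 3 ≤ C * S ^ 2 := mul_le_mul_of_nonneg_left hS3 hC
    have h4 : (C + n ^ 2) * S ^ 2 = C * S ^ 2 + S ^ 2 * n ^ 2 := by ring
    rw [h4]
    linarith [hd.2]

end

end Pool.Agent.T2H02.Gap
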