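import Mathlib
import Pool.Agent.T2H02.Gap.Modes

/-!
# The spectrum of the magnetic energy: the one dimensional problem and the product basis
-/

open Finset
open Pool.Agent.H906R3.YM Pool.Agent.W793.YM

namespace Pool.Agent.T2H02.Gap

set_option linter.unusedSectionVars false
set_option linter.unusedVariables false

noncomputable section

variable {D L : ℕ}

/-- one dimensional eigenfunctions -/
def cN (L m x : ℕ) : ℝ := Real.cos (Real.pi * m * (2 * x + 1) / (2 * L))

/-- eigenvalues -/
def lN (L m : ℕ) : ℝ := 4 * Real.sin (Real.pi * m / (2 * L)) ^ 2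

/-- differences -/
def hN (L m x : ℕ) : ℝ := -2 * Real.sin (Real.pi * m * x / L) * Real.sin (Real.pi * m / (2 * L))

lemma cN_sub (hL : 0 < L) (m x : ℕ) : cN L m (x + 1) - cN L m x = hN L m (x + 1) := by
  have hL' : (L : ℝ) ≠ 0 := by exact_mod_cast hL.ne'
  unfold cN hN
  have h := Real.cos_sub_cos (Real.pi * m * (2 * (x + 1) + 1) / (2 * L))
    (Real.pi * m * (2 * x + 1) / (2 * L))
  have e1 : (Real.pi * m * (2 * (x + 1) + 1) / (2 * L) + Real.pi * m * (2 * x + 1) / (2 * L)) / 2 =
      Real.pi * m * (x + 1) / L := by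
    field_simp; ring
  have e2 : (Real.pi * m * (2 * (x + 1) + 1) / (2 * L) - Real.pi * m * (2 * x + 1) / (2 * L)) / 2 =
      Real.pi * m / (2 * L) := by
    field_simp; ring
  rw [e1, e2] at h
  push_cast
  exact h

lemma hN_sub (hL : 0 < L) (m x : ℕ) : hN L m x - hN L m (x + 1) = lN L m * cN L m x := by
  have hL' : (L : ℝ) ≠ 0 := by exact_mod_cast hL.ne'
  unfold hN lN cN
  have h := Real.sin_sub_sin (Real.pi * m * (x + 1) / L) (Real.pi * m * x / L)
  have e1 : (Real.pi * m * (x + 1) / L - Real.pi * m * x / L) / 2 = Real.pi * m / (2 * L) := by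
    field_simp; ring
  have e2 : (Real.pi * m * (x + 1) / L + Real.pi * m * x / L) / 2 =
      Real.pi * m * (2 * x + 1) / (2 * L) := by
    field_simp; ring
  rw [e1, e2] at h
  push_cast
  linear_combination (2 * Real.sin (Real.pi * m / (2 * L))) * h

lemma hN_zero (m : ℕ) : hN L m 0 = 0 := by simp [hN]

lemma hN_L (hL : 0 < L) (m : ℕ) : hN L m L = 0 := by
  have hL' : (L : ℝ) ≠ 0 := by exact_mod_cast hL.ne'
  unfold hN
  have : Real.pi * m * L / L = m * Real.pi := by field_simp
  rw [this, Real.sin_nat_mul_pi]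
  ring

lemma sbp_aux (hL : 0 < L) (m : ℕ) (F : ℕ → ℝ) (K : ℕ) :
    ∑ x ∈ range K, (F (x + 1) - F x) * (cN L m (x + 1) - cN L m x) =
      lN L m * (∑ x ∈ range K, F x * cN L m x) + F K * hN L m K := by
  induction K with
  | zero => simp [hN_zero]
  | succ K ih =>
    rw [sum_range_succ, sum_range_succ, ih, cN_sub hL]
    have := hN_sub hL m K
    linear_combination (F K) * this

/-- summation by parts -/
lemma sbp1 (hL : 0 < L) (m : ℕ) (F : ℕ → ℝ) :
    ∑ t : Fin L, (if (t : ℕ) + 1 < L then (F (t + 1) - F t) * (cN L m (t + 1) - cN L m t) else 0) =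
      lN L m * ∑ t : Fin L, F t * cN L m t := by
  rw [Fin.sum_univ_eq_sum_range (fun t => if t + 1 < L then (F (t + 1) - F t) *
    (cN L m (t + 1) - cN L m t) else 0), Fin.sum_univ_eq_sum_range (fun t => F t * cN L m t)]
  obtain ⟨K, rfl⟩ : ∃ K, L = K + 1 := ⟨L - 1, by omega⟩
  rw [sum_range_succ, sum_range_succ _ K, if_neg (by omega), add_zero]
  have h1 : ∑ x ∈ range K, (if x + 1 < K + 1 then (F (x + 1) - F x) *
      (cN (K + 1) m (x + 1) - cN (K + 1) m x) else 0) =
      ∑ x ∈ range K, (F (x + 1) - F x) * (cN (K + 1) m (x + 1) - cN (K + 1) m x) := by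
    refine sum_congr rfl fun x hx => if_pos ?_
    have := mem_range.1 hx
    omega
  rw [h1, sbp_aux hL]
  have h2 := hN_sub hL m K
  rw [hN_L hL, sub_zero] at h2
  rw [h2]; ring

/-! ### orthogonality and completeness -/

lemma lN_strict (hL : 0 < L) {m m' : ℕ} (hm : m < L) (hm' : m' < L) (h : lN L m = lN L m') : m = m' := by
  have hL' : (0 : ℝ) < L := by exact_mod_cast hL
  have hp := Real.pi_pos
  have hs : ∀ k : ℕ, k < L → 0 ≤ Real.pi * k / (2 * L) ∧ Real.pi * k / (2 * L) ≤ Real.pi / 2 := by
    intro k hk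
    refine ⟨by positivity, ?_⟩
    rw [div_le_div_iff₀ (by positivity) (by norm_num)]
    have : (k : ℝ) ≤ L := by exact_mod_cast hk.le
    nlinarith
  have h1 := hs m hm
  have h2 := hs m' hm'
  have e1 : 0 ≤ Real.sin (Real.pi * m / (2 * L)) :=
    Real.sin_nonneg_of_nonneg_of_le_pi h1.1 (by linarith)
  have e2 : 0 ≤ Real.sin (Real.pi * m' / (2 * L)) :=
    Real.sin_nonneg_of_nonneg_of_le_pi h2.1 (by linarith)
  unfold lN at h
  have e3 : Real.sin (Real.pi * m / (2 * L)) = Real.sin (Real.pi * m' / (2 * L)) :=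
    (sq_eq_sq₀ e1 e2).1 (by linarith)
  have e4 := Real.injOn_sin ⟨by linarith, h1.2⟩ ⟨by linarith, h2.2⟩ e3
  have e5 : (m : ℝ) = m' := by
    field_simp at e4
    exact e4
  exact_mod_cast e5

lemma cN_orth (hL : 0 < L) {m m' : ℕ} (hm : m < L) (hm' : m' < L) (h : m ≠ m') :
    ∑ t : Fin L, cN L m t * cN L m' t = 0 := by
  have h1 := sbp1 hL m (cN L m')
  have h2 := sbp1 hL m' (cN L m)
  have h3 : ∑ t : Fin L, (if (t : ℕ) + 1 < L then (cN L m' (t + 1) - cN L m' t) *
      (cN L m (t + 1) - cN L m t) else 0) = ∑ t : Fin L, (if (t : ℕ) + 1 < L then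
      (cN L m (t + 1) - cN L m t) * (cN L m' (t + 1) - cN L m' t) else 0) :=
    sum_congr rfl fun t _ => by rw [mul_comm]
  rw [h3, h2] at h1
  have h4 : ∑ t : Fin L, cN L m' t * cN L m t = ∑ t : Fin L, cN L m t * cN L m' t :=
    sum_congr rfl fun t _ => by rw [mul_comm]
  rw [h4] at h1
  have h5 : (lN L m' - lN L m) * ∑ t : Fin L, cN L m t * cN L m' t = 0 := by linarith
  rcases mul_eq_zero.1 h5 with h6 | h6
  · exact absurd (lN_strict hL hm hm' (by linarith)) h
  · exact h6

/-- square of the norm of the eigenfunctions -/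
def dN (L m : ℕ) : ℝ := ∑ t : Fin L, cN L m t * cN L m t

lemma cN_zero_pos {m : ℕ} (hm : m < L) : 0 < cN L m 0 := by
  have hL : (0 : ℝ) < L := by exact_mod_cast (by omega : 0 < L)
  have hp := Real.pi_pos
  unfold cN
  refine Real.cos_pos_of_mem_Ioo ⟨?_, ?_⟩
  · have : (0 : ℝ) ≤ Real.pi * m * (2 * (0 : ℕ) + 1) / (2 * L) := by positivity
    linarith
  · have : (m : ℝ) < L := by exact_mod_cast hm
    rw [div_lt_div_iff₀ (by positivity) (by norm_num)]
    push_cast
    nlinarith

lemma dN_pos {m : ℕ} (hm : m < L) : 0 < dN L m := by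
  have hL : 0 < L := by omega
  have h1 := cN_zero_pos hm
  unfold dN
  have h2 := single_le_sum (f := fun t : Fin L => cN L m t * cN L m t) (fun t _ => mul_self_nonneg _)
    (mem_univ (⟨0, hL⟩ : Fin L))
  have h3 : 0 < cN L m 0 * cN L m 0 := mul_pos h1 h1
  exact lt_of_lt_of_le h3 h2

/-- completeness in one dimension -/
lemma cN_complete (x y : Fin L) : ∑ m : Fin L, cN L m x * cN L m y / dN L m = if x = y then 1 else 0 := by
  obtain ⟨A, hA⟩ : ∃ A : Matrix (Fin L) (Fin L) ℝ, A = fun (m x : Fin L) => cN L m x := ⟨_, rfl⟩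
  obtain ⟨A', hA'⟩ : ∃ A' : Matrix (Fin L) (Fin L) ℝ, A' = fun (x m : Fin L) => cN L m x / dN L m := ⟨_, rfl⟩
  have h1 : A * A' = 1 := by
    ext m m'
    rw [Matrix.mul_apply, Matrix.one_apply, hA, hA']
    split_ifs with h
    · subst h
      have h2 : ∑ j : Fin L, cN L m j * (cN L m j / dN L m) = dN L m / dN L m := by
        have : ∀ j : Fin L, cN L m j * (cN L m j / dN L m) = cN L m j * cN L m j / dN L m :=
          fun j => by ring
        rw [sum_congr rfl fun j _ => this j, ← sum_div]
        rfl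
      rw [h2, div_self (dN_pos m.2).ne']
    · have : ∀ j : Fin L, cN L m j * (cN L m' j / dN L m') = cN L m j * cN L m' j / dN L m' :=
        fun j => by ring
      rw [sum_congr rfl fun j _ => this j, ← sum_div, cN_orth (by have := m.2; omega) m.2 m'.2
        (fun hc => h (Fin.ext hc)), zero_div]
  have h2 : A' * A = 1 := mul_eq_one_comm.1 h1
  have h3 := congrFun (congrFun h2 x) y
  rw [Matrix.mul_apply, Matrix.one_apply, hA, hA'] at h3
  rw [← h3]
  exact sum_congr rfl fun m _ => by ring

/-! ### the product basis -/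

/-- product eigenfunctions -/
def cD (m : St D L) (w : Pt D) : ℝ := ∏ j, cN L (m j) (w j)

/-- eigenvalues of the product eigenfunctions -/
def lD (m : St D L) : ℝ := ∑ j, lN L (m j)

lemma cD_complete (x y : St D L) : ∑ m : St D L, cD m (cst x) * cD m (cst y) / ∏ j, dN L (m j) =
    if x = y then 1 else 0 := by
  have h1 : ∀ m : St D L, cD m (cst x) * cD m (cst y) / ∏ j, dN L (m j) =
      ∏ j, (cN L (m j) (x j) * cN L (m j) (y j) / dN L (m j)) := by
    intro m
    unfold cD cst
    rw [← prod_mul_distrib, ← prod_div_distrib]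
  rw [sum_congr rfl fun m _ => h1 m]
  have h2 := Finset.prod_univ_sum (fun _ : Fin D => (univ : Finset (Fin L)))
    (fun j m => cN L m (x j) * cN L m (y j) / dN L m)
  rw [Fintype.piFinset_univ] at h2
  rw [← h2, prod_congr rfl fun j _ => cN_complete (x j) (y j)]
  by_cases h : x = y
  · subst h; simp
  · rw [if_neg h]
    obtain ⟨j, hj⟩ : ∃ j, x j ≠ y j := by
      by_contra hc
      push Not at hc
      exact h (funext hc)
    exact prod_eq_zero (mem_univ j) (if_neg hj)

/-- expansion of a function on the cube -/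
lemma cD_expand (φ : Pt D → ℝ) : ∃ γ : St D L → ℝ, ∀ w : Pt D, (∀ i, w i < L) →
    φ w = ∑ m, γ m * cD m w := by
  refine ⟨fun m => (∑ x : St D L, φ (cst x) * cD m (cst x)) / ∏ j, dN L (m j), fun w hw => ?_⟩
  obtain ⟨y, hy⟩ : ∃ y : St D L, cst y = w := ⟨fun i => ⟨w i, hw i⟩, rfl⟩
  rw [← hy]
  calc φ (cst y) = ∑ x : St D L, φ (cst x) * (if x = y then 1 else 0) := by simp
    _ = ∑ x : St D L, φ (cst x) * ∑ m : St D L, cD m (cst x) * cD m (cst y) / ∏ j, dN L (m j) := by
      refine sum_congr rfl fun x _ => ?_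
      rw [cD_complete]
    _ = _ := by
      simp only [mul_sum, sum_mul, sum_div]
      rw [sum_comm]
      exact sum_congr rfl fun m _ => sum_congr rfl fun x _ => by ring

/-! ### summation by parts in a direction -/

lemma sum_update (j : Fin D) (f : St D L → ℝ) :
    ∑ x : St D L, ∑ t : Fin L, f (Function.update x j t) = L * ∑ x, f x := by
  obtain ⟨σ, hσ⟩ : ∃ σ : St D L × Fin L → St D L × Fin L, σ = fun p =>
    (Function.update p.1 j p.2, p.1 j) := ⟨_, rfl⟩
  have hinv : Function.Involutive σ := by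
    intro p
    rw [hσ]
    simp
  have h1 := Equiv.sum_comp (Function.Involutive.toPerm σ hinv) fun p => f p.1
  have h2 : ∀ p, (Function.Involutive.toPerm σ hinv p) = (Function.update p.1 j p.2, p.1 j) := fun p => by
    show σ p = _
    rw [hσ]
  simp only [h2] at h1
  rw [Fintype.sum_prod_type, Fintype.sum_prod_type] at h1
  rw [h1]
  simp only [sum_const, card_univ, Fintype.card_fin, nsmul_eq_mul, mul_sum]

lemma cst_update (x : St D L) (j : Fin D) (t : Fin L) :
    cst (Function.update x j t) = Function.update (cst x) j (t : ℕ) := by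
  funext i
  unfold cst
  by_cases h : i = j
  · subst h; simp
  · simp [h]

lemma update_add_es (w : Pt D) (j : Fin D) (t : ℕ) :
    Function.update w j t + es j = Function.update w j (t + 1) := by
  funext i
  by_cases h : i = j
  · subst h; simp [es]
  · simp [es, h]

/-- summation by parts in the direction `j` -/
lemma sbpD (hL : 0 < L) (j : Fin D) (m : ℕ) (F : Pt D → ℝ) (g k : Pt D → ℝ)
    (hk : ∀ w t, k (Function.update w j t) = k w) (hg : ∀ w, g w = k w * cN L m (w j)) :
    ∑ x : St D L, (if (x j : ℕ) + 1 < L then (F (cst x + es j) - F (cst x)) *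
      (g (cst x + es j) - g (cst x)) else 0) = lN L m * ∑ x : St D L, F (cst x) * g (cst x) := by
  have hL' : (L : ℝ) ≠ 0 := by exact_mod_cast hL.ne'
  have h1 := sum_update j (fun x : St D L => if (x j : ℕ) + 1 < L then
    (F (cst x + es j) - F (cst x)) * (g (cst x + es j) - g (cst x)) else 0)
  have h2 := sum_update j (fun x : St D L => F (cst x) * g (cst x))
  have h3 : ∀ x : St D L, ∑ t : Fin L, (if ((Function.update x j t) j : ℕ) + 1 < L then
      (F (cst (Function.update x j t) + es j) - F (cst (Function.update x j t))) *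
      (g (cst (Function.update x j t) + es j) - g (cst (Function.update x j t))) else 0) =
      lN L m * ∑ t : Fin L, F (cst (Function.update x j t)) * g (cst (Function.update x j t)) := by
    intro x
    have h4 := sbp1 hL m fun t => F (Function.update (cst x) j t)
    have h5 : ∀ t : Fin L, (if ((Function.update x j t) j : ℕ) + 1 < L then
        (F (cst (Function.update x j t) + es j) - F (cst (Function.update x j t))) *
        (g (cst (Function.update x j t) + es j) - g (cst (Function.update x j t))) else 0) =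
        k (cst x) * (if (t : ℕ) + 1 < L then (F (Function.update (cst x) j (t + 1)) -
          F (Function.update (cst x) j t)) * (cN L m (t + 1) - cN L m t) else 0) := by
      intro t
      rw [Function.update_self, cst_update, update_add_es]
      split_ifs
      · rw [hg, hg, hk, hk, Function.update_self, Function.update_self]; ring
      · ring
    rw [sum_congr rfl fun t _ => h5 t, ← mul_sum, h4]
    have h6 : ∀ t : Fin L, F (cst (Function.update x j t)) * g (cst (Function.update x j t)) =
        k (cst x) * (F (Function.update (cst x) j t) * cN L m t) := by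
      intro t
      rw [cst_update, hg, hk, Function.update_self]; ring
    rw [sum_congr rfl fun t _ => h6 t, ← mul_sum]
    ring
  rw [sum_congr rfl fun x _ => h3 x, ← mul_sum, h2] at h1
  have h7 : (L : ℝ) * (lN L m * ∑ x : St D L, F (cst x) * g (cst x)) = L * ∑ x : St D L,
      (if (x j : ℕ) + 1 < L then (F (cst x + es j) - F (cst x)) *
      (g (cst x + es j) - g (cst x)) else 0) := by
    rw [← h1]; ring
  exact (mul_left_cancel₀ hL' h7).symm

end

end Pool.Agent.T2H02.Gap
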