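import Mathlib
import Pool.Agent.T2H02.Gap.Spec1

/-!
# The spectrum of the magnetic energy: the gap and the counting of the modes
-/

open Finset
open Pool.Agent.H906R3.YM Pool.Agent.W793.YM

namespace Pool.Agent.T2H02.Gap

set_option linter.unusedSectionVars false
set_option linter.unusedVariables false

noncomputable section

variable {D L : ℕ}

/-- bilinear magnetic energy -/
def MG (A U : Lk D L → ℝ) : ℝ := ∑ x : St D L, ∑ a : Fin D, ∑ b : Fin D,
  if PIn x a b then plqL A (cst x) a b * plqL U (cst x) a b else 0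

lemma MG_eq (A U : Lk D L → ℝ) : MG A U = ∑ e, ∑ e', Km D L e e' * (A e * U e') := by
  have h1 : ∀ (x : St D L) (i j : Fin D), (if PIn x i j then plqL A (cst x) i j *
      plqL U (cst x) i j else 0) =
      ∑ e, ∑ e', (if PIn x i j then cc x i j e * cc x i j e' else 0) * (A e * U e') := by
    intro x i j
    split_ifs
    · rw [plqL_sum A, plqL_sum U, sum_mul_sum]
      exact sum_congr rfl fun e _ => sum_congr rfl fun e' _ => by
        simp only [smul_eq_mul]; unfold cc; ring
    · simp
  unfold MG Km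
  simp only [h1, Finset.sum_mul]
  calc _ = ∑ x : St D L, ∑ i : Fin D, ∑ e : Lk D L, ∑ j : Fin D, ∑ e' : Lk D L,
        (if PIn x i j then cc x i j e * cc x i j e' else 0) * (A e * U e') :=
        Finset.sum_congr rfl fun x _ => Finset.sum_congr rfl fun i _ => Finset.sum_comm
    _ = ∑ x : St D L, ∑ e : Lk D L, ∑ i : Fin D, ∑ j : Fin D, ∑ e' : Lk D L,
        (if PIn x i j then cc x i j e * cc x i j e' else 0) * (A e * U e') :=
        Finset.sum_congr rfl fun x _ => Finset.sum_comm
    _ = ∑ e : Lk D L, ∑ x : St D L, ∑ i : Fin D, ∑ j : Fin D, ∑ e' : Lk D L,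
        (if PIn x i j then cc x i j e * cc x i j e' else 0) * (A e * U e') := Finset.sum_comm
    _ = ∑ e : Lk D L, ∑ x : St D L, ∑ i : Fin D, ∑ e' : Lk D L, ∑ j : Fin D,
        (if PIn x i j then cc x i j e * cc x i j e' else 0) * (A e * U e') :=
        Finset.sum_congr rfl fun e _ => Finset.sum_congr rfl fun x _ =>
          Finset.sum_congr rfl fun i _ => Finset.sum_comm
    _ = ∑ e : Lk D L, ∑ x : St D L, ∑ e' : Lk D L, ∑ i : Fin D, ∑ j : Fin D,
        (if PIn x i j then cc x i j e * cc x i j e' else 0) * (A e * U e') :=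
        Finset.sum_congr rfl fun e _ => Finset.sum_congr rfl fun x _ => Finset.sum_comm
    _ = _ := Finset.sum_congr rfl fun e _ => Finset.sum_comm

lemma Km_symm (e e' : Lk D L) : Km D L e e' = Km D L e' e := by
  rw [Km_eq, Km_eq]
  exact sum_congr rfl fun l _ => by ring

/-- weak eigenvector equation -/
def Eig (A : Lk D L → ℝ) (κ : ℝ) : Prop := ∀ U, MG A U = κ * ∑ e, A e * U e

lemma eig_bb (l : Lk D L) : Eig (bb D L l) (kap D L l) := by
  intro U
  rw [MG_eq, sum_comm, mul_sum]
  refine sum_congr rfl fun e' _ => ?_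
  calc ∑ e, Km D L e e' * (bb D L l e * U e') = (∑ e, Km D L e' e * bb D L l e) * U e' := by
        rw [sum_mul]
        exact sum_congr rfl fun e _ => by rw [Km_symm]; ring
    _ = _ := by rw [bb_eig]; ring

lemma MG_eq' (A U : Lk D L → ℝ) : MG A U = ∑ e, A e * ∑ e', Km D L e e' * U e' := by
  rw [MG_eq]
  refine sum_congr rfl fun e _ => ?_
  rw [mul_sum]
  exact sum_congr rfl fun e' _ => by ring

lemma eig_sum {ι : Type*} (s : Finset ι) (a : ι → ℝ) (A : ι → Lk D L → ℝ) {κ : ℝ}
    (h : ∀ i ∈ s, Eig (A i) κ) : Eig (fun e => ∑ i ∈ s, a i * A i e) κ := by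
  intro U
  have h1 : ∀ V : Lk D L → ℝ, ∑ e, (∑ i ∈ s, a i * A i e) * V e = ∑ i ∈ s, a i * ∑ e, A i e * V e := by
    intro V
    simp only [sum_mul, mul_sum]
    rw [sum_comm]
    exact sum_congr rfl fun i _ => sum_congr rfl fun e _ => by ring
  rw [MG_eq', h1, h1, mul_sum]
  refine sum_congr rfl fun i hi => ?_
  have h2 := h i hi U
  rw [MG_eq'] at h2
  rw [h2]; ring

/-! ### gradients of the product functions -/

/-- discrete derivative -/
def dD (m : St D L) (i : Fin D) (w : Pt D) : ℝ := cD m (w + es i) - cD m w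

/-- pairing with the derivatives of the product functions -/
def bt (A : Lk D L → ℝ) (i : Fin D) (m : St D L) : ℝ :=
  ∑ x : St D L, lv 0 A (cst x) i * dD m i (cst x)

/-- the component `i` of the gradient -/
def uf (i : Fin D) (m : St D L) (e : Lk D L) : ℝ := if dir e = i then dD m (dir e) (cst (src e)) else 0

/-- the gradient -/
def gf (m : St D L) (e : Lk D L) : ℝ := dD m (dir e) (cst (src e))

lemma sum_links (A : Lk D L → ℝ) (V : Pt D → Fin D → ℝ) :
    ∑ e, A e * V (cst (src e)) (dir e) = ∑ i, ∑ x : St D L, lv 0 A (cst x) i * V (cst x) i := by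
  have h1 := Fintype.sum_subtype_add_sum_subtype (fun p : St D L × Fin D => (p.1 p.2 : ℕ) + 1 < L)
    (fun p => lv 0 A (cst p.1) p.2 * V (cst p.1) p.2)
  have h2 : ∑ p : {p : St D L × Fin D // ¬((p.1 p.2 : ℕ) + 1 < L)},
      lv 0 A (cst p.1.1) p.1.2 * V (cst p.1.1) p.1.2 = 0 := by
    refine sum_eq_zero fun p _ => ?_
    have : lv 0 A (cst p.1.1) p.1.2 = 0 := by
      unfold lv
      rw [dif_neg]
      rintro ⟨_, h⟩
      exact p.2 h
    rw [this, zero_mul]
  rw [h2, add_zero, Fintype.sum_prod_type, sum_comm] at h1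
  rw [← h1]
  refine sum_congr rfl fun e _ => ?_
  have := lv_link 0 A e
  show A e * V (cst (src e)) (dir e) = lv 0 A (cst (src e)) (dir e) * V (cst (src e)) (dir e)
  rw [this]

lemma sum_uf (A : Lk D L → ℝ) (i : Fin D) (m : St D L) : ∑ e, A e * uf i m e = bt A i m := by
  have h := sum_links A fun w k => if k = i then dD m k w else 0
  unfold uf
  rw [h, sum_eq_single i]
  · unfold bt
    exact sum_congr rfl fun x _ => by rw [if_pos rfl]
  · intro k _ hk
    exact sum_eq_zero fun x _ => by rw [if_neg hk, mul_zero]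
  · intro hc; exact absurd (mem_univ _) hc

lemma sum_gf (A : Lk D L → ℝ) (m : St D L) : ∑ e, A e * gf m e = ∑ i, bt A i m :=
  sum_links A fun w k => dD m k w

lemma lv_of_fn (V : Pt D → Fin D → ℝ) {w : Pt D} {k : Fin D} (h1 : ∀ i, w i < L) (h2 : w k + 1 < L) :
    lv (D := D) (L := L) 0 (fun e => V (cst (src e)) (dir e)) w k = V w k := by
  obtain ⟨e, he, hk⟩ := exists_link h1 h2
  have := lv_link (D := D) (L := L) 0 (fun e => V (cst (src e)) (dir e)) e
  rw [he, hk] at this
  exact this

lemma in_add {w : Pt D} {a : Fin D} (h : ∀ k, w k < L) (ha : w a + 1 < L) (k : Fin D) :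
    (w + es a) k < L := by
  by_cases hk : k = a
  · subst hk; simpa [es] using ha
  · simpa [es, hk] using h k

/-- circulation of a field given by a function on the lattice -/
lemma plqL_of_fn (V : Pt D → Fin D → ℝ) {w : Pt D} {i j : Fin D} (hij : i ≠ j) (h : ∀ k, w k < L)
    (hi : w i + 1 < L) (hj : w j + 1 < L) :
    plqL (D := D) (L := L) (fun e => V (cst (src e)) (dir e)) w i j =
      V w i + V (w + es i) j - V (w + es j) i - V w j := by
  have e2 : (w + es i) j + 1 < L := by simpa [es, hij.symm] using hj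
  have e3 : (w + es j) i + 1 < L := by simpa [es, hij] using hi
  unfold plqL
  rw [lv_of_fn V h hi, lv_of_fn V (in_add h hi) e2, lv_of_fn V (in_add h hj) e3, lv_of_fn V h hj]

lemma MG_gf (A : Lk D L → ℝ) (m : St D L) : MG A (gf m) = 0 := by
  unfold MG
  refine sum_eq_zero fun x _ => sum_eq_zero fun a _ => sum_eq_zero fun b _ => ?_
  split_ifs with h
  · have h1 := plqL_of_fn (fun w k => dD m k w) h.1.ne (cst_lt x) h.2.1 h.2.2
    have h2 : plqL (gf m) (cst x) a b = 0 := by
      show plqL (fun e => dD m (dir e) (cst (src e))) (cst x) a b = 0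
      rw [h1]
      unfold dD
      rw [add_right_comm (cst x) (es b) (es a)]
      ring
    rw [h2, mul_zero]
  · rfl

/-! ### the product structure of the derivatives -/

/-- the product over the other directions -/
def oth (m : St D L) (s : Finset (Fin D)) (w : Pt D) : ℝ := ∏ l ∈ s, cN L (m l) (w l)

lemma oth_update (m : St D L) (s : Finset (Fin D)) (j : Fin D) (hj : j ∉ s) (w : Pt D) (t : ℕ) :
    oth m s (Function.update w j t) = oth m s w := by
  unfold oth
  refine prod_congr rfl fun l hl => ?_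
  rw [Function.update_of_ne]
  rintro rfl
  exact hj hl

lemma cD_split (m : St D L) (i : Fin D) (w : Pt D) :
    cD m w = cN L (m i) (w i) * oth m (univ.erase i) w :=
  (mul_prod_erase univ (fun l => cN L (m l) (w l)) (mem_univ i)).symm

lemma dD_split (m : St D L) (i : Fin D) (w : Pt D) :
    dD m i w = (cN L (m i) (w i + 1) - cN L (m i) (w i)) * oth m (univ.erase i) w := by
  unfold dD
  rw [cD_split m i, cD_split m i]
  have h1 : oth m (univ.erase i) (w + es i) = oth m (univ.erase i) w := by
    unfold oth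
    refine prod_congr rfl fun l hl => ?_
    have : l ≠ i := (mem_erase.1 hl).1
    simp [es, this]
  have h2 : (w + es i) i = w i + 1 := by simp [es]
  rw [h1, h2]; ring

lemma dD_split2 (m : St D L) {i j : Fin D} (hij : j ≠ i) (w : Pt D) :
    dD m i w = ((cN L (m i) (w i + 1) - cN L (m i) (w i)) * oth m ((univ.erase i).erase j) w) *
      cN L (m j) (w j) := by
  rw [dD_split]
  have : oth m (univ.erase i) w = cN L (m j) (w j) * oth m ((univ.erase i).erase j) w :=
    (mul_prod_erase (univ.erase i) (fun l => cN L (m l) (w l))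
      (mem_erase.2 ⟨hij, mem_univ j⟩)).symm
  rw [this]; ring

lemma kk_update (m : St D L) {i j : Fin D} (hij : j ≠ i) (w : Pt D) (t : ℕ) :
    (cN L (m i) ((Function.update w j t) i + 1) - cN L (m i) ((Function.update w j t) i)) *
      oth m ((univ.erase i).erase j) (Function.update w j t) =
    (cN L (m i) (w i + 1) - cN L (m i) (w i)) * oth m ((univ.erase i).erase j) w := by
  rw [oth_update m _ j (by simp), Function.update_of_ne hij.symm]

lemma lv_out (A : Lk D L → ℝ) {w : Pt D} {i : Fin D} (h : ¬ w i + 1 < L) : lv 0 A w i = 0 := by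
  unfold lv
  rw [dif_neg]
  rintro ⟨_, h1⟩
  exact h h1

/-- the pairing of the circulations in one plane -/
lemma theta (hL : 0 < L) (A : Lk D L → ℝ) {i j : Fin D} (hij : j ≠ i) (m : St D L) :
    ∑ x : St D L, (if (x i : ℕ) + 1 < L ∧ (x j : ℕ) + 1 < L then
      plqL A (cst x) i j * plqL (uf i m) (cst x) i j else 0) =
    lN L (m j) * bt A i m - lN L (m i) * bt A j m := by
  have h1 := sbpD (D := D) hL j (m j) (fun w => lv 0 A w i) (fun w => dD m i w) _
    (fun w t => kk_update m hij w t) (fun w => dD_split2 m hij w)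
  have h2 := sbpD (D := D) hL i (m i) (fun w => lv 0 A w j) (fun w => dD m j w) _
    (fun w t => kk_update m hij.symm w t) (fun w => dD_split2 m hij.symm w)
  unfold bt
  rw [← h1, ← h2, ← sum_sub_distrib]
  refine sum_congr rfl fun x _ => ?_
  by_cases hi : (x i : ℕ) + 1 < L
  · by_cases hj : (x j : ℕ) + 1 < L
    · rw [if_pos ⟨hi, hj⟩, if_pos hj, if_pos hi]
      have e1 : plqL (uf i m) (cst x) i j = dD m i (cst x) - dD m i (cst x + es j) := by
        have := plqL_of_fn (fun w k => if k = i then dD m k w else 0) hij.symm (cst_lt x)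
          (i := i) (j := j) hi hj
        rw [if_pos rfl, if_pos rfl, if_neg hij, if_neg hij] at this
        calc _ = _ := this
          _ = _ := by ring
      rw [e1]
      unfold plqL dD
      rw [add_right_comm (cst x) (es j) (es i)]
      ring
    · rw [if_neg (fun h => hj h.2), if_neg hj, if_pos hi]
      have e1 : lv 0 A (cst x) j = 0 := lv_out A hj
      have e2 : lv 0 A (cst x + es i) j = 0 := by
        refine lv_out A ?_
        have : (cst x + es i) j = x j := by simp [es, hij, cst]
        rw [this]; exact hj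
      rw [e1, e2]; ring
  · have e1 : lv 0 A (cst x) i = 0 := lv_out A hi
    have e2 : lv 0 A (cst x + es j) i = 0 := by
      refine lv_out A ?_
      have : (cst x + es j) i = x i := by simp [es, hij.symm, cst]
      rw [this]; exact hi
    rw [if_neg (fun h => hi h.1), if_neg hi, e1, e2]
    split_ifs <;> ring

lemma plqL_anti (A : Lk D L → ℝ) (w : Pt D) (i j : Fin D) : plqL A w i j = -plqL A w j i := by
  unfold plqL; ring

lemma pair_sum (i : Fin D) (θ : Fin D → Fin D → ℝ) (hs : ∀ a b, θ a b = θ b a)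
    (h0 : ∀ a b, a ≠ i → b ≠ i → θ a b = 0) :
    ∑ a, ∑ b, (if a < b then θ a b else 0) = ∑ j, if j = i then 0 else θ i j := by
  have h1 : ∀ a b, (if a < b then θ a b else 0) = (if a = i then (if i < b then θ i b else 0) else 0) +
      (if b = i then (if a < i then θ i a else 0) else 0) := by
    intro a b
    by_cases ha : a = i
    · subst ha
      by_cases hb : b = a
      · subst hb; simp
      · simp [hb]
    · by_cases hb : b = i
      · subst hb; simp [ha, hs a b]
      · simp [ha, hb, h0 a b ha hb]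
  rw [sum_congr rfl fun a _ => sum_congr rfl fun b _ => h1 a b]
  simp only [sum_add_distrib]
  have h2 : ∑ a, ∑ b, (if a = i then (if i < b then θ i b else 0) else 0) =
      ∑ j, if i < j then θ i j else 0 := by
    rw [sum_comm]
    exact sum_congr rfl fun b _ => by simp
  have h3 : ∑ a, ∑ b, (if b = i then (if a < i then θ i a else 0) else 0) =
      ∑ j, if j < i then θ i j else 0 := sum_congr rfl fun a _ => by simp
  rw [h2, h3, ← sum_add_distrib]
  refine sum_congr rfl fun j _ => ?_
  rcases lt_trichotomy i j with h | h | h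
  · rw [if_pos h, if_neg h.not_gt, if_neg h.ne', add_zero]
  · subst h; simp
  · rw [if_neg h.not_gt, if_pos h, if_neg h.ne, zero_add]

/-- **The identity for the magnetic energy.** -/
lemma MG_uf (hL : 0 < L) (A : Lk D L → ℝ) (i : Fin D) (m : St D L) :
    MG A (uf i m) = lD m * bt A i m - lN L (m i) * ∑ k, bt A k m := by
  obtain ⟨θ, hθ⟩ : ∃ θ : Fin D → Fin D → ℝ, θ = fun a b => ∑ x : St D L,
    (if (x a : ℕ) + 1 < L ∧ (x b : ℕ) + 1 < L then
      plqL A (cst x) a b * plqL (uf i m) (cst x) a b else 0) := ⟨_, rfl⟩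
  have h1 : MG A (uf i m) = ∑ a, ∑ b, (if a < b then θ a b else 0) := by
    unfold MG
    rw [sum_comm]
    refine sum_congr rfl fun a _ => ?_
    rw [sum_comm]
    refine sum_congr rfl fun b _ => ?_
    rw [hθ]
    by_cases hab : a < b
    · rw [if_pos hab]
      refine sum_congr rfl fun x _ => ?_
      by_cases hx : (x a : ℕ) + 1 < L ∧ (x b : ℕ) + 1 < L
      · rw [if_pos ⟨hab, hx.1, hx.2⟩, if_pos hx]
      · rw [if_neg (fun h => hx ⟨h.2.1, h.2.2⟩), if_neg hx]
    · rw [if_neg hab]
      exact sum_eq_zero fun x _ => if_neg fun h => hab h.1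
  have hs : ∀ a b, θ a b = θ b a := by
    intro a b
    rw [hθ]
    refine sum_congr rfl fun x _ => ?_
    by_cases hx : (x a : ℕ) + 1 < L ∧ (x b : ℕ) + 1 < L
    · rw [if_pos hx, if_pos ⟨hx.2, hx.1⟩, plqL_anti A, plqL_anti (uf i m)]; ring
    · rw [if_neg hx, if_neg fun h => hx ⟨h.2, h.1⟩]
  have h0 : ∀ a b, a ≠ i → b ≠ i → θ a b = 0 := by
    intro a b ha hb
    rw [hθ]
    refine sum_eq_zero fun x _ => ?_
    split_ifs with hx
    · by_cases hab : a = b
      · subst hab
        have : plqL A (cst x) a a = 0 := by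
          have := plqL_anti A (cst x) a a
          linarith
        rw [this, zero_mul]
      · have h2 := plqL_of_fn (fun w k => if k = i then dD m k w else 0) hab (cst_lt x) hx.1 hx.2
        rw [if_neg ha, if_neg hb, if_neg ha, if_neg hb] at h2
        have h3 : plqL (uf i m) (cst x) a b = 0 := by
          calc _ = _ := h2
            _ = 0 := by ring
        rw [h3, mul_zero]
    · rfl
  rw [h1, pair_sum i θ hs h0]
  have h2 : ∀ j, (if j = i then 0 else θ i j) =
      lN L (m j) * bt A i m - lN L (m i) * bt A j m := by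
    intro j
    by_cases hj : j = i
    · subst hj; simp
    · rw [if_neg hj, hθ]
      exact theta hL A hj m
  rw [sum_congr rfl fun j _ => h2 j, sum_sub_distrib, ← sum_mul, ← mul_sum]
  rfl

/-! ### consequences for the eigenvectors -/

lemma eig_div {A : Lk D L → ℝ} {κ : ℝ} (h : Eig A κ) (hκ : κ ≠ 0) (m : St D L) :
    ∑ k, bt A k m = 0 := by
  have h1 := h (gf m)
  rw [MG_gf, sum_gf] at h1
  rcases mul_eq_zero.1 h1.symm with h2 | h2
  · exact absurd h2 hκ
  · exact h2

lemma eig_val (hL : 0 < L) {A : Lk D L → ℝ} {κ : ℝ} (h : Eig A κ) (hκ : κ ≠ 0) (i : Fin D)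
    (m : St D L) (hb : bt A i m ≠ 0) : lD m = κ := by
  have h1 := h (uf i m)
  rw [MG_uf hL, sum_uf, eig_div h hκ, mul_zero, sub_zero] at h1
  exact mul_right_cancel₀ hb h1

lemma bt_zero (A : Lk D L → ℝ) (i : Fin D) (m : St D L) (hm : (m i : ℕ) = 0) : bt A i m = 0 := by
  unfold bt
  refine sum_eq_zero fun x _ => ?_
  rw [dD_split, hm]
  simp [cN]

/-- completeness of the derivatives -/
lemma bt_complete (A : Lk D L → ℝ) (h : ∀ i m, bt A i m = 0) : A = 0 := by
  funext e0
  obtain ⟨φ, hφ⟩ : ∃ φ : Pt D → ℝ, φ = fun w => if (∀ j, j ≠ dir e0 → w j = cst (src e0) j) ∧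
    cst (src e0) (dir e0) < w (dir e0) then 1 else 0 := ⟨_, rfl⟩
  obtain ⟨γ, hγ⟩ := cD_expand (L := L) φ
  have h1 : ∑ x : St D L, lv 0 A (cst x) (dir e0) * (φ (cst x + es (dir e0)) - φ (cst x)) = 0 := by
    have h2 : ∀ x : St D L, lv 0 A (cst x) (dir e0) * (φ (cst x + es (dir e0)) - φ (cst x)) =
        ∑ m, γ m * (lv 0 A (cst x) (dir e0) * dD m (dir e0) (cst x)) := by
      intro x
      by_cases hx : cst x (dir e0) + 1 < L
      · rw [hγ _ (in_add (cst_lt x) hx), hγ _ (cst_lt x), ← sum_sub_distrib, mul_sum]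
        exact sum_congr rfl fun m _ => by unfold dD; ring
      · rw [lv_out A hx]; simp
    rw [sum_congr rfl fun x _ => h2 x, sum_comm]
    refine sum_eq_zero fun m _ => ?_
    rw [← mul_sum]
    have := h (dir e0) m
    unfold bt at this
    rw [this, mul_zero]
  have h3 : ∀ x : St D L, φ (cst x + es (dir e0)) - φ (cst x) = if x = src e0 then 1 else 0 := by
    intro x
    rw [hφ]
    simp only
    have e1 : (cst x + es (dir e0)) (dir e0) = cst x (dir e0) + 1 := by simp [es]
    have e2 : ∀ j, j ≠ dir e0 → (cst x + es (dir e0)) j = cst x j := fun j hj => by simp [es, hj]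
    rw [e1]
    have e3 : (∀ j, j ≠ dir e0 → (cst x + es (dir e0)) j = cst (src e0) j) ↔
        (∀ j, j ≠ dir e0 → cst x j = cst (src e0) j) :=
      ⟨fun h j hj => by rw [← e2 j hj]; exact h j hj, fun h j hj => by rw [e2 j hj]; exact h j hj⟩
    by_cases hc : ∀ j, j ≠ dir e0 → cst x j = cst (src e0) j
    · by_cases hx : x = src e0
      · subst hx
        rw [if_pos rfl, if_pos ⟨e3.2 hc, by omega⟩, if_neg (fun h => by omega)]
        ring
      · rw [if_neg hx]
        have hne : cst x (dir e0) ≠ cst (src e0) (dir e0) := by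
          intro heq
          apply hx
          funext j
          by_cases hj : j = dir e0
          · rw [hj]; exact Fin.ext heq
          · exact Fin.ext (hc j hj)
        by_cases hlt : cst (src e0) (dir e0) < cst x (dir e0)
        · rw [if_pos ⟨e3.2 hc, by omega⟩, if_pos ⟨hc, hlt⟩]; ring
        · rw [if_neg (fun h => by omega), if_neg (fun h => hlt h.2)]; ring
    · rw [if_neg (fun h => hc (e3.1 h.1)), if_neg (fun h => hc h.1), if_neg]
      · ring
      · rintro rfl
        exact hc fun j _ => rfl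
  rw [sum_congr rfl fun x _ => by rw [h3 x]] at h1
  simp only [mul_ite, mul_one, mul_zero, sum_ite_eq', mem_univ, if_true] at h1
  rw [lv_link] at h1
  exact h1

lemma lN_mono (hL : 0 < L) {m : ℕ} (h1 : 1 ≤ m) (hm : m < L) : lN L 1 ≤ lN L m := by
  have hL' : (0 : ℝ) < L := by exact_mod_cast hL
  have hp := Real.pi_pos
  have hm1 : (1 : ℝ) ≤ m := by exact_mod_cast h1
  have hmL : (m : ℝ) ≤ L := by exact_mod_cast hm.le
  have e1 : Real.pi * (1 : ℕ) / (2 * L) ≤ Real.pi * m / (2 * L) := by
    refine div_le_div_of_nonneg_right ?_ (by positivity)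
    push_cast
    nlinarith
  have e2 : Real.pi * m / (2 * L) ≤ Real.pi / 2 := by
    rw [div_le_div_iff₀ (by positivity) (by norm_num)]
    nlinarith
  have e0 : 0 ≤ Real.pi * (1 : ℕ) / (2 * L) := by positivity
  unfold lN
  have h2 : Real.sin (Real.pi * (1 : ℕ) / (2 * L)) ≤ Real.sin (Real.pi * m / (2 * L)) :=
    Real.sin_le_sin_of_le_of_le_pi_div_two (by linarith) e2 e1
  have h3 : 0 ≤ Real.sin (Real.pi * (1 : ℕ) / (2 * L)) :=
    Real.sin_nonneg_of_nonneg_of_le_pi e0 (by linarith)
  have := pow_le_pow_left₀ h3 h2 2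
  linarith

lemma lN_nonneg (m : ℕ) : 0 ≤ lN L m := by unfold lN; positivity

lemma bb_ne (l : Lk D L) : bb D L l ≠ 0 := by
  intro h
  have := bb_orth l l
  rw [h] at this
  simp at this

/-- the lowest positive eigenvalue -/
def kmin (L : ℕ) : ℝ := 2 * lN L 1

/-- **The gap of the magnetic energy.** -/
lemma kap_ge (hL : 0 < L) (l : Lk D L) (hl : 0 < kap D L l) : kmin L ≤ kap D L l := by
  have h1 : ∃ i m, bt (bb D L l) i m ≠ 0 := by
    by_contra hc
    push Not at hc
    exact bb_ne l (bt_complete _ hc)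
  obtain ⟨i, m, hb⟩ := h1
  have h2 := eig_val hL (eig_bb l) hl.ne' i m hb
  have h3 := eig_div (eig_bb l) hl.ne' m
  have hmi : (m i : ℕ) ≠ 0 := fun h => hb (bt_zero _ i m h)
  have h4 : ∃ k, k ≠ i ∧ bt (bb D L l) k m ≠ 0 := by
    by_contra hc
    push Not at hc
    rw [sum_eq_single i (fun k _ hk => hc k hk) (fun h => absurd (mem_univ _) h)] at h3
    exact hb h3
  obtain ⟨k, hki, hbk⟩ := h4
  have hmk : (m k : ℕ) ≠ 0 := fun h => hbk (bt_zero _ k m h)
  rw [← h2]
  unfold lD kmin
  have e1 := lN_mono hL (Nat.one_le_iff_ne_zero.2 hmi) (m i).2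
  have e2 := lN_mono hL (Nat.one_le_iff_ne_zero.2 hmk) (m k).2
  have e3 : ∑ j ∈ {i, k}, lN L (m j) ≤ ∑ j, lN L (m j) :=
    sum_le_sum_of_subset_of_nonneg (subset_univ _) fun j _ _ => lN_nonneg _
  rw [sum_pair hki.symm] at e3
  linarith

lemma Om_zero {v : Lk D L → ℝ} (h : ∀ l, ∑ e, bb D L l e * v e = 0) : v = 0 := by
  have : Om v = 0 := by
    funext l
    rw [Om_apply]
    exact h l
  exact (LinearEquiv.map_eq_zero_iff Om).1 this

/-- the lowest positive eigenvalue is attained -/
lemma kap_att (hD : 2 ≤ D) (hL : 2 ≤ L) : ∃ l : Lk D L, kap D L l = kmin L := by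
  by_contra hc
  push Not at hc
  obtain ⟨i0, hi0⟩ : ∃ i0 : Fin D, i0 = ⟨0, by omega⟩ := ⟨_, rfl⟩
  obtain ⟨i1, hi1⟩ : ∃ i1 : Fin D, i1 = ⟨1, by omega⟩ := ⟨_, rfl⟩
  have h01 : i0 ≠ i1 := by rw [hi0, hi1]; simp
  obtain ⟨m, hm⟩ : ∃ m : St D L, m = fun j => if j = i0 ∨ j = i1 then ⟨1, by omega⟩ else ⟨0, by omega⟩ :=
    ⟨_, rfl⟩
  have hm0 : (m i0 : ℕ) = 1 := by rw [hm]; simp
  have hm1 : (m i1 : ℕ) = 1 := by rw [hm]; simp
  have hmj : ∀ j, j ≠ i0 → j ≠ i1 → (m j : ℕ) = 0 := fun j h0 h1 => by rw [hm]; simp [h0, h1]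
  have hlD : lD m = kmin L := by
    unfold lD kmin
    have e1 : ∑ j ∈ {i0, i1}, lN L (m j) = ∑ j, lN L (m j) := by
      refine sum_subset (subset_univ _) fun j _ hj => ?_
      simp only [mem_insert, mem_singleton, not_or] at hj
      rw [hmj j hj.1 hj.2]
      simp [lN]
    rw [← e1, sum_pair h01, hm0, hm1]; ring
  have h1 : (fun e => uf i0 m e - uf i1 m e) = (0 : Lk D L → ℝ) := by
    refine Om_zero fun l => ?_
    have h2 := eig_bb l (uf i0 m)
    have h3 := eig_bb l (uf i1 m)
    rw [MG_uf (by omega), sum_uf, hm0] at h2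
    rw [MG_uf (by omega), sum_uf, hm1] at h3
    have h4 : (kap D L l - lD m) * (bt (bb D L l) i0 m - bt (bb D L l) i1 m) = 0 := by linarith
    rcases mul_eq_zero.1 h4 with h5 | h5
    · exact absurd (by rw [hlD] at h5; linarith) (hc l)
    · simp only [mul_sub, sum_sub_distrib, sum_uf]
      exact h5
  -- the value at the origin
  have hL00 : 0 < L := by omega
  have hL01 : 0 + 1 < L := by omega
  obtain ⟨e0, he0⟩ : ∃ e0 : Lk D L, e0 = ⟨((fun _ => ⟨0, hL00⟩ : St D L), i0), hL01⟩ := ⟨_, rfl⟩
  have hdir : dir e0 = i0 := by rw [he0]; rfl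
  have hsrc : cst (src e0) = 0 := by rw [he0]; rfl
  have h2 := congrFun h1 e0
  unfold uf at h2
  rw [if_pos hdir, if_neg (by rw [hdir]; exact h01), sub_zero, hsrc, hdir, dD_split, hm0] at h2
  have hL0 : (0 : ℝ) < L := by exact_mod_cast (by omega : 0 < L)
  have hL2 : (2 : ℝ) ≤ L := by exact_mod_cast hL
  have hp := Real.pi_pos
  have h3 : cN L 1 ((0 : Pt D) i0 + 1) - cN L 1 ((0 : Pt D) i0) ≠ 0 := by
    have : cN L 1 ((0 : Pt D) i0 + 1) - cN L 1 ((0 : Pt D) i0) = hN L 1 (0 + 1) := cN_sub (by omega) 1 0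
    rw [this]
    unfold hN
    have s1 : 0 < Real.sin (Real.pi * (1 : ℕ) * ((0 + 1 : ℕ) : ℝ) / L) := by
      refine Real.sin_pos_of_pos_of_lt_pi (by positivity) ?_
      push_cast
      rw [div_lt_iff₀ hL0]
      nlinarith
    have s2 : 0 < Real.sin (Real.pi * (1 : ℕ) / (2 * L)) := by
      refine Real.sin_pos_of_pos_of_lt_pi (by positivity) ?_
      push_cast
      rw [div_lt_iff₀ (by positivity)]
      nlinarith
    have := mul_pos s1 s2
    intro h
    nlinarith
  have h4 : oth m (univ.erase i0) 0 ≠ 0 := by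
    unfold oth
    refine prod_ne_zero_iff.2 fun l _ => ?_
    exact (cN_zero_pos (m l).2).ne'
  exact (mul_ne_zero h3 h4) h2

/-- **Counting of the modes.** -/
lemma count_modes (hL : 0 < L) {κ : ℝ} (hκ : κ ≠ 0) :
    (univ.filter fun l : Lk D L => kap D L l = κ).card ≤
      D * (univ.filter fun m : St D L => lD m = κ).card := by
  classical
  obtain ⟨Φ, hΦ⟩ : ∃ Φ : ({l : Lk D L // kap D L l = κ} → ℝ) →ₗ[ℝ] (Fin D × {m : St D L // lD m = κ} → ℝ),
      ∀ a p, Φ a p = bt (fun e => ∑ l, a l * bb D L l.1 e) p.1 p.2.1 := by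
    have hlin : ∀ (a : {l : Lk D L // kap D L l = κ} → ℝ) (i : Fin D) (m : St D L),
        bt (fun e => ∑ l, a l * bb D L l.1 e) i m = ∑ l, a l * bt (bb D L l.1) i m := by
      intro a i m
      rw [← sum_uf]
      simp only [← sum_uf, sum_mul, mul_sum]
      rw [sum_comm]
      exact sum_congr rfl fun l _ => sum_congr rfl fun e _ => by ring
    refine ⟨{ toFun := fun a p => bt (fun e => ∑ l, a l * bb D L l.1 e) p.1 p.2.1
              map_add' := fun a b => ?_
              map_smul' := fun s a => ?_ }, fun a p => rfl⟩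
    · funext p
      show bt (fun e => ∑ l, (a + b) l * bb D L l.1 e) p.1 p.2.1 =
        bt (fun e => ∑ l, a l * bb D L l.1 e) p.1 p.2.1 + bt (fun e => ∑ l, b l * bb D L l.1 e) p.1 p.2.1
      rw [hlin, hlin, hlin]
      simp only [Pi.add_apply, add_mul, sum_add_distrib]
    · funext p
      show bt (fun e => ∑ l, (s • a) l * bb D L l.1 e) p.1 p.2.1 =
        s • bt (fun e => ∑ l, a l * bb D L l.1 e) p.1 p.2.1
      rw [hlin, hlin]
      simp only [Pi.smul_apply, smul_eq_mul, mul_sum]
      exact sum_congr rfl fun l _ => by ring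
  have hinj : Function.Injective Φ := by
    refine (injective_iff_map_eq_zero Φ).2 fun a ha => ?_
    have hE : Eig (fun e => ∑ l, a l * bb D L l.1 e) κ :=
      eig_sum univ a (fun l => bb D L l.1) fun l _ => by
        have := eig_bb l.1
        rw [l.2] at this
        exact this
    have h1 : (fun e => ∑ l, a l * bb D L l.1 e) = (0 : Lk D L → ℝ) := by
      refine bt_complete _ fun i m => ?_
      by_contra hb
      have h2 := eig_val hL hE hκ i m hb
      have h3 := congrFun ha (i, ⟨m, h2⟩)
      rw [hΦ] at h3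
      exact hb h3
    funext l0
    have h4 : ∑ e, bb D L l0.1 e * (∑ l, a l * bb D L l.1 e) = 0 := by
      refine sum_eq_zero fun e _ => ?_
      have := congrFun h1 e
      simp only [Pi.zero_apply] at this
      rw [this, mul_zero]
    have h5 : ∑ e, bb D L l0.1 e * (∑ l, a l * bb D L l.1 e) = a l0 := by
      simp only [mul_sum]
      rw [sum_comm]
      calc ∑ l, ∑ e, bb D L l0.1 e * (a l * bb D L l.1 e) =
          ∑ l : {l : Lk D L // kap D L l = κ}, a l * (if l0.1 = l.1 then 1 else 0) := by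
            refine sum_congr rfl fun l _ => ?_
            rw [← bb_orth, mul_sum]
            exact sum_congr rfl fun e _ => by ring
        _ = a l0 := by
            rw [sum_eq_single l0]
            · simp
            · intro l _ hl
              rw [if_neg, mul_zero]
              exact fun h => hl (Subtype.ext h.symm)
            · intro h; exact absurd (mem_univ _) h
    rw [h4] at h5
    exact h5.symm
  have h1 := LinearMap.finrank_le_finrank_of_injective hinj
  rw [Module.finrank_fintype_fun_eq_card, Module.finrank_fintype_fun_eq_card, Fintype.card_prod,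
    Fintype.card_fin, Fintype.card_subtype, Fintype.card_subtype] at h1
  exact h1

/-- **Domination of the sums over the modes.** -/
lemma sum_modes (hL : 0 < L) (h : ℝ → ℝ) (hh : ∀ κ, 0 ≤ h κ) :
    ∑ l : Lk D L, (if 0 < kap D L l then h (kap D L l) else 0) ≤
      D * ∑ m : St D L, if kmin L ≤ lD m then h (lD m) else 0 := by
  classical
  obtain ⟨V, hV⟩ : ∃ V, V = (univ.filter fun l : Lk D L => 0 < kap D L l).image (kap D L) := ⟨_, rfl⟩
  have hVmin : ∀ v ∈ V, 0 < v ∧ kmin L ≤ v := by
    intro v hv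
    rw [hV] at hv
    obtain ⟨l, hl, rfl⟩ := mem_image.1 hv
    have := (mem_filter.1 hl).2
    exact ⟨this, kap_ge hL l this⟩
  rw [← sum_filter, Finset.sum_comp h (kap D L), ← hV]
  calc ∑ v ∈ V, ((univ.filter fun l : Lk D L => 0 < kap D L l).filter fun l => kap D L l = v).card • h v ≤
      ∑ v ∈ V, (D : ℝ) * ∑ m : St D L, (if lD m = v then h (lD m) else 0) := by
        refine sum_le_sum fun v hv => ?_
        have h1 : ((univ.filter fun l : Lk D L => 0 < kap D L l).filter fun l => kap D L l = v).card ≤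
            (univ.filter fun l : Lk D L => kap D L l = v).card := by
          refine card_le_card fun l hl => ?_
          simp only [mem_filter, mem_univ, true_and] at hl ⊢
          exact hl.2
        have h2 := count_modes (D := D) hL (hVmin v hv).1.ne'
        have h3 : (((univ.filter fun l : Lk D L => 0 < kap D L l).filter fun l => kap D L l = v).card : ℝ) ≤
            D * ((univ.filter fun m : St D L => lD m = v).card : ℝ) := by
          exact_mod_cast h1.trans h2
        rw [nsmul_eq_mul]
        calc _ ≤ D * ((univ.filter fun m : St D L => lD m = v).card : ℝ) * h v :=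
              mul_le_mul_of_nonneg_right h3 (hh v)
          _ = D * ∑ m : St D L, (if lD m = v then h (lD m) else 0) := by
              rw [mul_assoc]
              congr 1
              rw [← sum_filter, sum_congr rfl fun m hm => by rw [(mem_filter.1 hm).2],
                sum_const, nsmul_eq_mul]
    _ = D * ∑ m : St D L, ∑ v ∈ V, (if lD m = v then h (lD m) else 0) := by
        rw [← mul_sum, sum_comm]
    _ ≤ D * ∑ m : St D L, if kmin L ≤ lD m then h (lD m) else 0 := by
        refine mul_le_mul_of_nonneg_left (sum_le_sum fun m _ => ?_) (Nat.cast_nonneg _)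
        rw [sum_ite_eq]
        by_cases hm : lD m ∈ V
        · rw [if_pos hm, if_pos (hVmin _ hm).2]
        · rw [if_neg hm]
          split_ifs
          · exact hh _
          · exact le_rfl

end

end Pool.Agent.T2H02.Gap
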