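import Mathlib
import Pool.Agent.T2H02.Gap.Spec2
import Pool.Agent.T2H02.Gap.Gauss2

/-!
# The sum over the modes of the decay factors
-/

open Finset
open Pool.Agent.H906R3.YM Pool.Agent.W793.YM

namespace Pool.Agent.T2H02.Gap

set_option linter.unusedSectionVars false
set_option linter.unusedVariables false

noncomputable section

variable {D L : ℕ}

lemma lam_anti {κ κ' : ℝ} (h : κ ≤ κ') : lam κ' ≤ lam κ := by
  unfold lam
  refine Real.exp_le_exp.2 ?_
  have h1 : Real.sqrt κ / 2 ≤ Real.sqrt κ' / 2 := by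
    have := Real.sqrt_le_sqrt h
    linarith
  have h2 := Real.arsinh_le_arsinh.2 h1
  linarith

lemma arsinh_le_self {x : ℝ} (hx : 0 ≤ x) : Real.arsinh x ≤ x := by
  have h1 := Real.self_le_sinh_iff.2 (Real.arsinh_nonneg_iff.2 hx)
  rwa [Real.sinh_arsinh] at h1

lemma arsinh_ge {x : ℝ} (hx : 0 ≤ x) : x / Real.exp (Real.arsinh x) ≤ Real.arsinh x := by
  obtain ⟨a, ha⟩ : ∃ a, a = Real.arsinh x := ⟨_, rfl⟩
  have hxa : x = Real.sinh a := by rw [ha, Real.sinh_arsinh]
  have ha0 : 0 ≤ a := by rw [ha]; exact Real.arsinh_nonneg_iff.2 hx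
  rw [← ha, hxa, div_le_iff₀ (Real.exp_pos _), Real.sinh_eq]
  have h1 := Real.add_one_le_exp (-(2 * a))
  have h2 : Real.exp (-a) = Real.exp (-(2 * a)) * Real.exp a := by
    rw [← Real.exp_add]; congr 1; ring
  rw [h2]
  have h3 := Real.exp_pos a
  nlinarith

/-- lower bound for the lowest decay factor -/
lemma lam_kmin_ge (hL : 0 < L) : Real.exp (-(5 / L)) ≤ lam (kmin L) := by
  have hL' : (0 : ℝ) < L := by exact_mod_cast hL
  unfold lam
  refine Real.exp_le_exp.2 (neg_le_neg ?_)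
  have h1 : Real.sqrt (kmin L) ≤ 5 / L := by
    refine Real.sqrt_le_iff.2 ⟨by positivity, ?_⟩
    unfold kmin lN
    have h2 : Real.sin (Real.pi * (1 : ℕ) / (2 * L)) ≤ Real.pi * (1 : ℕ) / (2 * L) :=
      Real.sin_le (by positivity)
    have hle : Real.pi * ((1 : ℕ) : ℝ) / (2 * L) ≤ Real.pi := by
      push_cast
      rw [div_le_iff₀ (by positivity)]
      have : (1 : ℝ) ≤ L := by exact_mod_cast hL
      nlinarith [Real.pi_pos]
    have h3 : 0 ≤ Real.sin (Real.pi * (1 : ℕ) / (2 * L)) :=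
      Real.sin_nonneg_of_nonneg_of_le_pi (by positivity) hle
    have h4 := pow_le_pow_left₀ h3 h2 2
    have hp : Real.pi ^ 2 ≤ 10 := by
      have := Real.pi_lt_d2
      nlinarith [Real.pi_pos]
    calc 2 * (4 * Real.sin (Real.pi * (1 : ℕ) / (2 * L)) ^ 2) ≤
        2 * (4 * (Real.pi * (1 : ℕ) / (2 * L)) ^ 2) := by linarith
      _ = 2 * Real.pi ^ 2 / L ^ 2 := by push_cast; field_simp; ring
      _ ≤ 25 / L ^ 2 := by
        refine div_le_div_of_nonneg_right ?_ (by positivity)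
        linarith
      _ = (5 / L) ^ 2 := by rw [div_pow]; norm_num
  have h2 := arsinh_le_self (x := Real.sqrt (kmin L) / 2) (by positivity)
  linarith

/-- the sum of the coordinates -/
def s1 (m : St D L) : ℝ := ∑ j, ((m j : ℕ) : ℝ)

lemma s1_nonneg (m : St D L) : 0 ≤ s1 m := Finset.sum_nonneg fun j _ => Nat.cast_nonneg _

/-- upper bound for the decay factors -/
lemma lam_lD_le (hL : 0 < L) (m : St D L) : lam (lD m) ≤ Real.exp (-(1 / (D + 1) * s1 m / L)) := by
  have hL' : (0 : ℝ) < L := by exact_mod_cast hL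
  have hp := Real.pi_pos
  rcases Nat.eq_zero_or_pos D with hD | hD
  · subst hD
    have : s1 m = 0 := by unfold s1; simp
    rw [this]
    unfold lam
    refine Real.exp_le_exp.2 ?_
    have := Real.arsinh_nonneg_iff.2 (by positivity : 0 ≤ Real.sqrt (lD m) / 2)
    rw [mul_zero, zero_div, neg_zero]
    linarith
  have hD' : (0 : ℝ) < D := by exact_mod_cast hD
  obtain ⟨y, hy⟩ : ∃ y, y = s1 m / (L * Real.sqrt D) := ⟨_, rfl⟩
  have hs1 := s1_nonneg m
  have hy0 : 0 ≤ y := by rw [hy]; positivity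
  have hsD : 0 < Real.sqrt D := Real.sqrt_pos.2 hD'
  have hsD2 : Real.sqrt D ^ 2 = D := Real.sq_sqrt hD'.le
  -- Jordan
  have h1 : ∀ j, 4 * (((m j : ℕ) : ℝ) / L) ^ 2 ≤ lN L (m j) := by
    intro j
    have hmL : ((m j : ℕ) : ℝ) ≤ L := by exact_mod_cast (m j).2.le
    have h2 := Real.mul_le_sin (x := Real.pi * (m j : ℕ) / (2 * L)) (by positivity) (by
      rw [div_le_div_iff₀ (by positivity) (by norm_num)]
      nlinarith)
    have h3 : 2 / Real.pi * (Real.pi * (m j : ℕ) / (2 * L)) = ((m j : ℕ) : ℝ) / L := by field_simp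
    rw [h3] at h2
    unfold lN
    have := pow_le_pow_left₀ (by positivity) h2 2
    linarith
  have h2 : (2 * y) ^ 2 ≤ lD m := by
    have h3 : (∑ j : Fin D, ((m j : ℕ) : ℝ)) ^ 2 ≤ D * ∑ j : Fin D, ((m j : ℕ) : ℝ) ^ 2 := by
      have := sq_sum_le_card_mul_sum_sq (s := (univ : Finset (Fin D))) (f := fun j => ((m j : ℕ) : ℝ))
      simpa using this
    calc (2 * y) ^ 2 = 4 * (∑ j : Fin D, ((m j : ℕ) : ℝ)) ^ 2 / (L ^ 2 * D) := by
          rw [hy, mul_pow, div_pow, mul_pow, hsD2]; unfold s1; ring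
      _ ≤ 4 * (D * ∑ j : Fin D, ((m j : ℕ) : ℝ) ^ 2) / (L ^ 2 * D) := by
          refine div_le_div_of_nonneg_right ?_ (by positivity)
          linarith
      _ = ∑ j, 4 * (((m j : ℕ) : ℝ) / L) ^ 2 := by
          rw [← mul_sum]
          simp only [div_pow, ← sum_div]
          field_simp
      _ ≤ lD m := Finset.sum_le_sum fun j _ => h1 j
  have h3 : y ≤ Real.sqrt (lD m) / 2 := by
    have : 2 * y ≤ Real.sqrt (lD m) := Real.le_sqrt_of_sq_le h2
    linarith
  have h4 := Real.arsinh_le_arsinh.2 h3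
  have h5 := arsinh_ge hy0
  have hyD : y ≤ Real.sqrt D := by
    rw [hy, div_le_iff₀ (by positivity)]
    calc s1 m ≤ ∑ _j : Fin D, (L : ℝ) := Finset.sum_le_sum fun j _ => by
          exact_mod_cast (m j).2.le
      _ = D * L := by simp
      _ = Real.sqrt D * (L * Real.sqrt D) := by
          calc (D : ℝ) * L = Real.sqrt D ^ 2 * L := by rw [hsD2]
            _ = _ := by ring
  have h6 : Real.exp (Real.arsinh y) ≤ 2 * Real.sqrt (D + 1) := by
    rw [Real.exp_arsinh]
    have e1 : Real.sqrt (1 + y ^ 2) ≤ Real.sqrt (D + 1) := by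
      refine Real.sqrt_le_sqrt ?_
      have := pow_le_pow_left₀ hy0 hyD 2
      rw [hsD2] at this
      linarith
    have e2 : Real.sqrt D ≤ Real.sqrt (D + 1) := Real.sqrt_le_sqrt (by linarith)
    linarith
  have h7 : y / (2 * Real.sqrt (D + 1)) ≤ Real.arsinh y :=
    (div_le_div_of_nonneg_left hy0 (Real.exp_pos _) h6).trans h5
  have h8 : 1 / (D + 1) * s1 m / L ≤ 2 * (y / (2 * Real.sqrt (D + 1))) := by
    have e1 : Real.sqrt D * Real.sqrt (D + 1) ≤ D + 1 := by
      rw [← Real.sqrt_mul hD'.le]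
      refine Real.sqrt_le_iff.2 ⟨by positivity, ?_⟩
      nlinarith
    have hsD1 : 0 < Real.sqrt ((D : ℝ) + 1) := Real.sqrt_pos.2 (by linarith)
    have e2 : 2 * (y / (2 * Real.sqrt (D + 1))) = s1 m / L * (1 / (Real.sqrt D * Real.sqrt (D + 1))) := by
      rw [hy]; field_simp
    rw [e2]
    have e3 : 1 / ((D : ℝ) + 1) ≤ 1 / (Real.sqrt D * Real.sqrt (D + 1)) :=
      one_div_le_one_div_of_le (by positivity) e1
    calc 1 / (D + 1) * s1 m / L = s1 m / L * (1 / (D + 1)) := by ring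
      _ ≤ _ := mul_le_mul_of_nonneg_left e3 (by positivity)
  unfold lam
  refine Real.exp_le_exp.2 (neg_le_neg ?_)
  linarith

/-- the constant in the sum over the modes -/
def CS (D : ℕ) : ℝ := D * (Real.exp 5 * (1 / (1 - Real.exp (-(1 / (D + 1))))) ^ D)

lemma CS_nonneg : 0 ≤ CS D := by
  unfold CS
  have h1 : Real.exp (-(1 / ((D : ℝ) + 1))) < 1 := by
    rw [Real.exp_lt_one_iff]
    have : (0 : ℝ) < 1 / (D + 1) := by positivity
    linarith
  have h2 : 0 < 1 - Real.exp (-(1 / ((D : ℝ) + 1))) := by linarith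
  positivity

lemma geom_le {r : ℝ} (h0 : 0 ≤ r) (h1 : r < 1) (K : ℕ) : ∑ t ∈ range K, r ^ t ≤ 1 / (1 - r) := by
  rw [le_div_iff₀ (by linarith), ← neg_sub r 1, mul_neg, geom_sum_mul]
  have := pow_nonneg h0 K
  linarith

/-- **The sum over the modes.** -/
theorem sum_lam (hL : 0 < L) {τ : ℕ} (hτ : L ≤ τ) :
    ∑ l : Lk D L, (if 0 < kap D L l then lam (kap D L l) ^ τ else 0) ≤ CS D * lam (kmin L) ^ τ := by
  have hL' : (0 : ℝ) < L := by exact_mod_cast hL
  have h1 := sum_modes (D := D) hL (fun κ => lam κ ^ τ) fun κ => (pow_pos (lam_pos κ) τ).le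
  refine h1.trans ?_
  unfold CS
  rw [mul_assoc]
  refine mul_le_mul_of_nonneg_left ?_ (Nat.cast_nonneg _)
  obtain ⟨r, hr⟩ : ∃ r, r = Real.exp (-(1 / ((D : ℝ) + 1))) := ⟨_, rfl⟩
  rw [← hr]
  have hr0 : 0 ≤ r := by rw [hr]; exact (Real.exp_pos _).le
  have hr1 : r < 1 := by
    rw [hr, Real.exp_lt_one_iff]
    have : (0 : ℝ) < 1 / (D + 1) := by positivity
    linarith
  have hq : 0 < lam (kmin L) ^ τ := pow_pos (lam_pos _) τ
  have h2 : ∀ m : St D L, (if kmin L ≤ lD m then lam (lD m) ^ τ else 0) ≤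
      lam (kmin L) ^ τ * (Real.exp 5 * ∏ j, r ^ (m j : ℕ)) := by
    intro m
    have hpr : ∏ j, r ^ (m j : ℕ) = Real.exp (-(1 / (D + 1) * s1 m)) := by
      rw [hr]
      simp only [← Real.exp_nat_mul]
      rw [← Real.exp_sum]
      congr 1
      unfold s1
      rw [mul_sum, ← sum_neg_distrib]
      exact Finset.sum_congr rfl fun j _ => by ring
    rw [hpr, ← Real.exp_add]
    split_ifs with hm
    · by_cases hs : 5 ≤ 1 / (D + 1) * s1 m
      · have h3 : lam (lD m) ^ τ ≤ Real.exp (-(1 / (D + 1) * s1 m / L)) ^ τ :=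
          pow_le_pow_left₀ (lam_pos _).le (lam_lD_le hL m) τ
        have h4 : Real.exp (-(5 / L)) ^ τ ≤ lam (kmin L) ^ τ :=
          pow_le_pow_left₀ (Real.exp_pos _).le (lam_kmin_ge hL) τ
        have hτL : (1 : ℝ) ≤ τ / L := by
          rw [le_div_iff₀ hL', one_mul]; exact_mod_cast hτ
        calc lam (lD m) ^ τ ≤ Real.exp (-(1 / (D + 1) * s1 m / L)) ^ τ := h3
          _ = Real.exp (-(5 / L)) ^ τ * Real.exp ((5 - 1 / (D + 1) * s1 m) * (τ / L)) := by
              rw [← Real.exp_nat_mul, ← Real.exp_nat_mul, ← Real.exp_add]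
              congr 1
              ring
          _ ≤ lam (kmin L) ^ τ * Real.exp (5 + -(1 / (D + 1) * s1 m)) := by
              refine mul_le_mul h4 (Real.exp_le_exp.2 ?_) (Real.exp_pos _).le hq.le
              nlinarith
      · push Not at hs
        calc lam (lD m) ^ τ ≤ lam (kmin L) ^ τ := pow_le_pow_left₀ (lam_pos _).le (lam_anti hm) τ
          _ = lam (kmin L) ^ τ * 1 := (mul_one _).symm
          _ ≤ _ := by
              refine mul_le_mul_of_nonneg_left ?_ hq.le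
              exact Real.one_le_exp (by linarith)
    · exact mul_nonneg hq.le (Real.exp_pos _).le
  calc ∑ m : St D L, (if kmin L ≤ lD m then lam (lD m) ^ τ else 0) ≤
      ∑ m : St D L, lam (kmin L) ^ τ * (Real.exp 5 * ∏ j, r ^ (m j : ℕ)) :=
        Finset.sum_le_sum fun m _ => h2 m
    _ = lam (kmin L) ^ τ * (Real.exp 5 * ∏ _j : Fin D, ∑ t : Fin L, r ^ (t : ℕ)) := by
        rw [← mul_sum, ← mul_sum]
        have h3 := Finset.prod_univ_sum (fun _ : Fin D => (univ : Finset (Fin L)))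
          (fun _ t => r ^ (t : ℕ))
        rw [Fintype.piFinset_univ] at h3
        rw [h3]
    _ ≤ lam (kmin L) ^ τ * (Real.exp 5 * ∏ _j : Fin D, (1 / (1 - r))) := by
        refine mul_le_mul_of_nonneg_left (mul_le_mul_of_nonneg_left ?_ (Real.exp_pos _).le) hq.le
        refine Finset.prod_le_prod (fun j _ => Finset.sum_nonneg fun t _ => pow_nonneg hr0 _)
          fun j _ => ?_
        rw [Fin.sum_univ_eq_sum_range (fun t => r ^ t)]
        exact geom_le hr0 hr1 L
    _ = Real.exp 5 * (1 / (1 - r)) ^ D * lam (kmin L) ^ τ := by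
        rw [prod_const, card_univ, Fintype.card_fin]; ring

lemma kmin_pos (hL : 2 ≤ L) : 0 < kmin L := by
  have hL' : (2 : ℝ) ≤ L := by exact_mod_cast hL
  have hp := Real.pi_pos
  unfold kmin lN
  have : 0 < Real.sin (Real.pi * (1 : ℕ) / (2 * L)) := by
    refine Real.sin_pos_of_pos_of_lt_pi (by positivity) ?_
    push_cast
    rw [div_lt_iff₀ (by positivity)]
    nlinarith
  positivity

/-- the lowest decay factor occurs -/
theorem sum_sq_lam (hD : 2 ≤ D) (hL : 2 ≤ L) (τ : ℕ) :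
    (lam (kmin L) ^ τ) ^ 2 ≤
      ∑ l : Lk D L, (if 0 < kap D L l then lam (kap D L l) ^ τ else 0) ^ 2 := by
  obtain ⟨l, hl⟩ := kap_att hD hL
  have h1 := Finset.single_le_sum (f := fun l : Lk D L =>
    (if 0 < kap D L l then lam (kap D L l) ^ τ else 0) ^ 2) (fun l _ => sq_nonneg _) (mem_univ l)
  refine le_trans (le_of_eq ?_) h1
  simp only [hl, kmin_pos hL, if_true]

/-- the lowest frequency -/
lemma lam_kmin (hL : 2 ≤ L) : lam (kmin L) =
    Real.exp (-(2 * Real.arsinh (Real.sqrt 2 * Real.sin (Real.pi / (2 * L))))) := by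
  have hL' : (2 : ℝ) ≤ L := by exact_mod_cast hL
  have hp := Real.pi_pos
  unfold lam kmin lN
  have h0 : 0 ≤ Real.sin (Real.pi / (2 * L)) := by
    refine Real.sin_nonneg_of_nonneg_of_le_pi (by positivity) ?_
    rw [div_le_iff₀ (by positivity)]
    nlinarith
  have h1 : Real.sqrt (2 * (4 * Real.sin (Real.pi * (1 : ℕ) / (2 * L)) ^ 2)) / 2 =
      Real.sqrt 2 * Real.sin (Real.pi / (2 * L)) := by
    rw [Nat.cast_one, mul_one]
    have e : 2 * (4 * Real.sin (Real.pi / (2 * L)) ^ 2) = 2 * (2 * Real.sin (Real.pi / (2 * L))) ^ 2 := by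
      ring
    rw [e, Real.sqrt_mul (by norm_num), Real.sqrt_sq (by positivity)]
    ring
  rw [h1]

end

end Pool.Agent.T2H02.Gap
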