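import Mathlib
import Pool.Agent.T2H02.Gap.LapZ
import Pool.Agent.T2H02.Gap.Gauss3
import Pool.Agent.T2H02.Gap.Sing2
import Pool.Agent.T2H02.Gap.Spec3
import Pool.Agent.T2H02.Gap.Ker

/-!
# The traces of the transfer matrix at weak coupling
-/

open MeasureTheory Filter Finset
open scoped Matrix.Norms.Frobenius Topology
open Pool.Agent.H906R3.YM Pool.Agent.W793.YM Pool.Agent.TH618.YM

namespace Pool.Agent.T2H02.Gap

set_option linter.unusedSectionVars false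
set_option linter.unusedVariables false

noncomputable section

variable {N n D L : ℕ} {G : Subgroup (UN N)}
variable [CompactSpace G] [SecondCountableTopology G] [MeasurableSpace G] [BorelSpace G]

/-- the decay factors of the modes -/
def qv (D L τ : ℕ) (l : Lk D L) : ℝ := if 0 < kap D L l then lam (kap D L l) ^ τ else 0

lemma qv_nonneg (τ : ℕ) (l : Lk D L) : 0 ≤ qv D L τ l := by
  unfold qv
  split_ifs
  · exact (pow_pos (lam_pos _) _).le
  · exact le_rfl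

/-- the integrand over the holonomy -/
def RR (B : Frame G n) (D L τ : ℕ) (P : G) : ℝ :=
  ∏ l : Lk D L, 1 / |LinearMap.det (LinearMap.id - qv D L τ l • adL B P)|

/-- the base of the exponential prefactor -/
def b0 (n D L : ℕ) (κ b : ℝ) : ℝ := κ ^ (2 * Fintype.card (Lk D L)) *
  ((b ^ 12) ^ (2 * Fintype.card (Lk D L) * n))⁻¹ *
  ((Real.sqrt (2 * Real.pi) ^ (2 * n)) ^ Fintype.card (Lk D L) *
    ∏ l : Lk D L, if 0 < kap D L l then lam (kap D L l) ^ n else 1)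

lemma b0_pos {κ b : ℝ} (hκ : 0 < κ) (hb : 0 < b) : 0 < b0 n D L κ b := by
  unfold b0
  have h1 : 0 < ∏ l : Lk D L, if 0 < kap D L l then lam (kap D L l) ^ n else 1 := by
    refine Finset.prod_pos fun l _ => ?_
    split_ifs
    · exact pow_pos (lam_pos _) _
    · exact one_pos
  have h2 : 0 < Real.sqrt (2 * Real.pi) := Real.sqrt_pos.2 (by positivity)
  positivity

lemma JP_RR (B : Frame G n) (m : ℕ) (P : G) : JP B D L (2 * m + 1) P =
    (Real.sqrt (2 * Real.pi) ^ (n * (2 * m + 1 + 1))) ^ Fintype.card (Lk D L) *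
      (∏ l : Lk D L, if 0 < kap D L l then (lam (kap D L l) ^ (m + 1)) ^ n else 1) *
      RR B D L (2 * (m + 1)) P := by
  rw [JP_eq, mul_assoc]
  congr 1
  unfold RR
  rw [← Finset.prod_mul_distrib]
  refine Finset.prod_congr rfl fun l _ => ?_
  unfold qv mdf
  split_ifs with h
  · have e : 2 * m + 1 + 1 = 2 * (m + 1) := by ring
    rw [e]
    have e2 : Real.sqrt (lam (kap D L l) ^ (2 * (m + 1))) = lam (kap D L l) ^ (m + 1) := by
      rw [mul_comm 2 (m + 1), pow_mul, Real.sqrt_sq (pow_pos (lam_pos _) _).le]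
    rw [e2, mul_one_div]
  · rw [zero_smul, sub_zero, LinearMap.det_id]
    norm_num

lemma b0_pow (κ b : ℝ) (m : ℕ) : b0 n D L κ b ^ (m + 1) =
    κ ^ ((2 * m + 1 + 1) * Fintype.card (Lk D L)) *
      ((b ^ 12) ^ ((2 * m + 1 + 1) * Fintype.card (Lk D L) * n))⁻¹ *
      ((Real.sqrt (2 * Real.pi) ^ (n * (2 * m + 1 + 1))) ^ Fintype.card (Lk D L) *
      (∏ l : Lk D L, if 0 < kap D L l then (lam (kap D L l) ^ (m + 1)) ^ n else 1)) := by
  unfold b0
  rw [mul_pow, mul_pow, mul_pow, inv_pow, ← pow_mul, ← pow_mul, ← pow_mul, ← pow_mul, ← pow_mul,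
    ← Finset.prod_pow]
  have e1 : 2 * Fintype.card (Lk D L) * (m + 1) = (2 * m + 1 + 1) * Fintype.card (Lk D L) := by ring
  have e2 : 12 * (2 * Fintype.card (Lk D L) * n) * (m + 1) =
    12 * ((2 * m + 1 + 1) * Fintype.card (Lk D L) * n) := by ring
  have e3 : 2 * n * (Fintype.card (Lk D L) * (m + 1)) =
    n * (2 * m + 1 + 1) * Fintype.card (Lk D L) := by ring
  have e4 : 12 * (2 * Fintype.card (Lk D L) * n * (m + 1)) =
    12 * ((2 * m + 1 + 1) * Fintype.card (Lk D L) * n) := by ring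
  have e5 : ∏ l : Lk D L, (if 0 < kap D L l then lam (kap D L l) ^ n else 1) ^ (m + 1) =
      ∏ l : Lk D L, if 0 < kap D L l then (lam (kap D L l) ^ (m + 1)) ^ n else 1 := by
    refine Finset.prod_congr rfl fun l _ => ?_
    split_ifs
    · rw [← pow_mul, ← pow_mul, mul_comm]
    · rw [one_pow]
  rw [e1, e5]
  first
    | rw [e2, e3, ← pow_mul, ← pow_mul]
    | rw [e4, e3, ← pow_mul, ← pow_mul]

/-- the frequency of the first excitation (of the square of the transfer matrix) -/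
def wL (L : ℕ) : ℝ := 8 * Real.arsinh (Real.sqrt 2 * Real.sin (Real.pi / (2 * L)))

lemma q1_eq (hL : 2 ≤ L) (m : ℕ) : (lam (kmin L) ^ (2 * (m + 1))) ^ 2 =
    Real.exp (-(wL L * (m + 1))) := by
  rw [lam_kmin hL, ← Real.exp_nat_mul, ← Real.exp_nat_mul]
  congr 1
  unfold wL
  push_cast
  ring

lemma wL_pos (hL : 2 ≤ L) : 2 / L ≤ wL L := by
  have hL' : (2 : ℝ) ≤ L := by exact_mod_cast hL
  have hLp : (0 : ℝ) < L := by linarith
  obtain ⟨y, hy⟩ : ∃ y, y = Real.sqrt 2 * Real.sin (Real.pi / (2 * L)) := ⟨_, rfl⟩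
  have hs : 1 / L ≤ Real.sin (Real.pi / (2 * L)) := by
    have h1 : 2 / Real.pi * (Real.pi / (2 * L)) ≤ Real.sin (Real.pi / (2 * L)) := by
      refine Real.mul_le_sin (by positivity) ?_
      refine div_le_div_of_nonneg_left Real.pi_pos.le (by norm_num) (by linarith)
    have h2 : 2 / Real.pi * (Real.pi / (2 * L)) = 1 / L := by
      field_simp
    rw [← h2]; exact h1
  have h2 : 1 ≤ Real.sqrt 2 := Real.one_le_sqrt.2 (by norm_num)
  have hy1 : 1 / L ≤ y := by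
    rw [hy]
    calc 1 / (L : ℝ) = 1 * (1 / L) := (one_mul _).symm
      _ ≤ Real.sqrt 2 * Real.sin (Real.pi / (2 * L)) := by
        refine mul_le_mul h2 hs (by positivity) (by positivity)
  have hy0 : 0 < y := lt_of_lt_of_le (by positivity) hy1
  have hs1 : Real.sin (Real.pi / (2 * L)) ≤ 1 := Real.sin_le_one _
  have hs0 : 0 ≤ Real.sin (Real.pi / (2 * L)) := le_trans (by positivity) hs
  have hy2 : y ^ 2 ≤ 2 := by
    rw [hy, mul_pow, Real.sq_sqrt (by norm_num)]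
    have := pow_le_one₀ (n := 2) hs0 hs1
    linarith
  have hy3 : y ≤ 3 / 2 := by nlinarith
  have he : Real.exp (Real.arsinh y) ≤ 4 := by
    rw [Real.exp_arsinh]
    have : Real.sqrt (1 + y ^ 2) ≤ 2 := Real.sqrt_le_iff.2 ⟨by norm_num, by linarith⟩
    linarith
  have h3 := arsinh_ge hy0.le
  have h4 : y / 4 ≤ Real.arsinh y := by
    refine le_trans ?_ h3
    exact div_le_div_of_nonneg_left hy0.le (Real.exp_pos _) he
  unfold wL
  rw [← hy]
  have h5 : 2 / (L : ℝ) = 2 * (1 / L) := by ring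
  rw [h5]
  linarith

lemma wL_le (hL : 2 ≤ L) : wL L ≤ 20 / L := by
  have h1 := lam_kmin_ge (L := L) (by omega)
  rw [lam_kmin hL, Real.exp_le_exp] at h1
  unfold wL
  have h2 : 20 / (L : ℝ) = 4 * (5 / L) := by ring
  rw [h2]
  linarith

lemma q1_small (hL : 2 ≤ L) {A m : ℕ} (hm : A * L ≤ m + 1) :
    lam (kmin L) ^ (2 * (m + 1)) ≤ Real.exp (-A) := by
  have hL' : (2 : ℝ) ≤ L := by exact_mod_cast hL
  have hLp : (0 : ℝ) < L := by linarith
  rw [lam_kmin hL, ← Real.exp_nat_mul]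
  refine Real.exp_le_exp.2 ?_
  have h1 := wL_pos hL
  unfold wL at h1
  have h2 : (A : ℝ) * L ≤ m + 1 := by exact_mod_cast hm
  push_cast
  obtain ⟨a, ha⟩ : ∃ a, a = Real.arsinh (Real.sqrt 2 * Real.sin (Real.pi / (2 * L))) := ⟨_, rfl⟩
  rw [← ha] at h1 ⊢
  have h3 : 2 / (L : ℝ) * ((A : ℝ) * L) ≤ 8 * a * (m + 1) := mul_le_mul h1 h2 (by positivity)
    (le_trans (by positivity) h1)
  have h4 : 2 / (L : ℝ) * ((A : ℝ) * L) = 2 * A := by field_simp
  rw [h4] at h3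
  linarith

lemma ZP_cont (μ : Measure G) [IsProbabilityMeasure μ] (j : ℕ) (β : ℝ) :
    Continuous fun P : G => ZP μ D L j β P := by
  unfold ZP
  refine ccont _ (f := fun (P : G) (U : Fin (j + 1) → Lk D L → G) => Real.exp (-(β * act j P U))) ?_
  exact Real.continuous_exp.comp (continuous_const.mul (act_cont j)).neg

/-- **The traces of the transfer matrix at weak coupling.** -/
theorem trace_asy (hD : 2 ≤ D) (B : Frame G n) (hn : 0 < n) (hG : IsClosed (G : Set (UN N)))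
    (μ : Measure G) [IsProbabilityMeasure μ] [μ.IsHaarMeasure]
    (hinv : ∀ v : En n, (∀ P : G, adL B P v = v) → v = 0) :
    ∃ (C : ℝ) (A : ℕ), 1 ≤ C ∧ 1 ≤ A ∧ ∀ (L : ℕ), 2 ≤ L → ∀ (Y b : ℝ), 1 ≤ Y → (L : ℝ) ≤ Y →
      C * Y ^ (2 * D + 6) ≤ b → ∃ b0 : ℝ, 0 < b0 ∧ ∀ m : ℕ, A * L ≤ m + 1 →
      2 * ((m : ℝ) + 1) ≤ Y →
      (1 - (b ^ 3)⁻¹) * (1 + Real.exp (-(wL L * (m + 1))) / 2) * b0 ^ (m + 1) ≤
        ∫ P, ZP μ D L (2 * m + 1) (b ^ 24) P ∂μ ∧
      ∫ P, ZP μ D L (2 * m + 1) (b ^ 24) P ∂μ ≤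
        (1 + (b ^ 3)⁻¹) * (1 + C * Real.exp (-(wL L * (m + 1)))) * b0 ^ (m + 1) := by
  obtain ⟨κ, C', r0, hCh⟩ := exists_Ch B hG μ
  obtain ⟨C1, hC1, hlap⟩ := lap_rel D B hG μ hCh
  obtain ⟨C2, q0, hC2, hq0, hq01, hsing⟩ := sing_bound B μ hn hinv
  have hκ := hCh.κpos
  obtain ⟨c, hc⟩ : ∃ c, c = CS D := ⟨_, rfl⟩
  have hc0 : 0 ≤ c := by rw [hc]; exact CS_nonneg
  obtain ⟨A, hA⟩ := exists_nat_ge ((c + 2 * C2 * c ^ 3 + 1) / q0)
  have hA' : c + 2 * C2 * c ^ 3 + 1 ≤ A * q0 := by rwa [div_le_iff₀ hq0] at hA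
  have hA1 : 1 ≤ A * q0 := by
    have : 0 ≤ c + 2 * C2 * c ^ 3 := by positivity
    linarith
  have hAge : (1 : ℝ) ≤ A := by
    have hA0 : (0 : ℝ) ≤ A := Nat.cast_nonneg A
    have := mul_le_mul_of_nonneg_left hq01 hA0
    linarith
  have hAp : (0 : ℝ) < A := by linarith
  have hAn : 1 ≤ A := by exact_mod_cast hAge
  have hexpA : Real.exp (-(A : ℝ)) ≤ 1 / A := by
    rw [Real.exp_neg, one_div]
    refine inv_anti₀ hAp ?_
    have := Real.add_one_le_exp (A : ℝ)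
    linarith
  refine ⟨max C1 (C2 * c ^ 2), A, le_trans hC1 (le_max_left _ _), hAn, ?_⟩
  intro L hL Y b hY hLY hb
  have hYp : 0 < Y ^ (2 * D + 6) := by positivity
  have hb1 : C1 * Y ^ (2 * D + 6) ≤ b :=
    (mul_le_mul_of_nonneg_right (le_max_left _ _) hYp.le).trans hb
  have hbpos : 0 < b := lt_of_lt_of_le (by positivity) hb1
  have hbone : 1 ≤ b := by
    refine le_trans ?_ hb1
    exact one_le_mul_of_one_le_of_one_le hC1 (one_le_pow₀ hY)
  have hinvb : (b ^ 3)⁻¹ ≤ 1 := inv_le_one_of_one_le₀ (one_le_pow₀ hbone)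
  refine ⟨b0 n D L κ b, b0_pos hκ hbpos, ?_⟩
  intro m hm hmY
  obtain ⟨q, hq⟩ : ∃ q, q = lam (kmin L) ^ (2 * (m + 1)) := ⟨_, rfl⟩
  have hqp : 0 < q := by rw [hq]; exact pow_pos (lam_pos _) _
  have hqA : q ≤ 1 / A := by rw [hq]; exact (q1_small hL hm).trans hexpA
  have hLm : L ≤ 2 * (m + 1) := by
    have : 1 * L ≤ A * L := Nat.mul_le_mul_right L hAn
    omega
  have hS : ∑ l, qv D L (2 * (m + 1)) l ≤ c * q := by
    rw [hc, hq]
    exact sum_lam (by omega) hLm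
  have hS0 : 0 ≤ ∑ l, qv D L (2 * (m + 1)) l := Finset.sum_nonneg fun l _ => qv_nonneg _ l
  have hS2 : q ^ 2 ≤ ∑ l, qv D L (2 * (m + 1)) l ^ 2 := by
    rw [hq]
    exact sum_sq_lam hD hL _
  have hcq : c * q ≤ q0 := by
    have h1 : c * q ≤ c * (1 / A) := mul_le_mul_of_nonneg_left hqA hc0
    have h2 : c * (1 / (A : ℝ)) ≤ q0 := by
      rw [mul_one_div, div_le_iff₀ hAp]
      have : 0 ≤ 2 * C2 * c ^ 3 := by positivity
      linarith
    linarith
  have hcq3 : C2 * (c * q) ^ 3 ≤ q ^ 2 / 2 := by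
    have h1 : 2 * C2 * c ^ 3 * q ≤ 1 := by
      have h2 : 2 * C2 * c ^ 3 * q ≤ 2 * C2 * c ^ 3 * (1 / A) :=
        mul_le_mul_of_nonneg_left hqA (by positivity)
      have h3 : 2 * C2 * c ^ 3 * (1 / (A : ℝ)) ≤ 1 := by
        rw [mul_one_div, div_le_iff₀ hAp]
        have := mul_le_mul_of_nonneg_left hq01 hAp.le
        linarith
      linarith
    have h4 : C2 * (c * q) ^ 3 = (2 * C2 * c ^ 3 * q) * (q ^ 2 / 2) := by ring
    rw [h4]
    have := mul_le_mul_of_nonneg_right h1 (by positivity : 0 ≤ q ^ 2 / 2)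
    linarith
  obtain ⟨h1, h2, h3⟩ := hsing (Lk D L) (qv D L (2 * (m + 1))) (fun l => qv_nonneg _ l)
    (hS.trans hcq)
  change (∑ l, qv D L (2 * (m + 1)) l ^ 2) - C2 * (∑ l, qv D L (2 * (m + 1)) l) ^ 3 ≤
    (∫ P, RR B D L (2 * (m + 1)) P ∂μ) - 1 at h1
  change (∫ P, RR B D L (2 * (m + 1)) P ∂μ) - 1 ≤ C2 * (∑ l, qv D L (2 * (m + 1)) l) ^ 2 at h2
  change Integrable (fun P => RR B D L (2 * (m + 1)) P) μ at h3
  have hR1 : 1 + q ^ 2 / 2 ≤ ∫ P, RR B D L (2 * (m + 1)) P ∂μ := by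
    have h4 : C2 * (∑ l, qv D L (2 * (m + 1)) l) ^ 3 ≤ C2 * (c * q) ^ 3 :=
      mul_le_mul_of_nonneg_left (pow_le_pow_left₀ hS0 hS 3) hC2
    linarith
  have hR2 : ∫ P, RR B D L (2 * (m + 1)) P ∂μ ≤ 1 + max C1 (C2 * c ^ 2) * q ^ 2 := by
    have h4 : C2 * (∑ l, qv D L (2 * (m + 1)) l) ^ 2 ≤ C2 * (c * q) ^ 2 :=
      mul_le_mul_of_nonneg_left (pow_le_pow_left₀ hS0 hS 2) hC2
    have h5 : C2 * (c * q) ^ 2 = C2 * c ^ 2 * q ^ 2 := by ring
    have h6 : C2 * c ^ 2 * q ^ 2 ≤ max C1 (C2 * c ^ 2) * q ^ 2 :=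
      mul_le_mul_of_nonneg_right (le_max_right _ _) (by positivity)
    linarith
  have hqe : q ^ 2 = Real.exp (-(wL L * (m + 1))) := by rw [hq]; exact q1_eq hL m
  rw [← hqe]
  obtain ⟨b1, hb1d⟩ : ∃ b1, b1 = b0 n D L κ b ^ (m + 1) := ⟨_, rfl⟩
  have hb1p : 0 < b1 := by rw [hb1d]; exact pow_pos (b0_pos hκ hbpos) _
  have hY2 : ((2 * m + 1 : ℕ) : ℝ) + 1 ≤ Y := by
    push_cast; linarith
  have hL2 := fun P => hlap L (2 * m + 1) Y b hY hLY hY2 hb1 P
  have hJ : ∀ P : G, κ ^ ((2 * m + 1 + 1) * Fintype.card (Lk D L)) *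
      ((b ^ 12) ^ ((2 * m + 1 + 1) * Fintype.card (Lk D L) * n))⁻¹ * JP B D L (2 * m + 1) P =
      b1 * RR B D L (2 * (m + 1)) P := by
    intro P
    rw [JP_RR, hb1d, b0_pow]
    ring
  rw [← hb1d]
  have hZi : Integrable (fun P => ZP μ D L (2 * m + 1) (b ^ 24) P) μ :=
    cint μ (ZP_cont μ (2 * m + 1) (b ^ 24))
  constructor
  · calc (1 - (b ^ 3)⁻¹) * (1 + q ^ 2 / 2) * b1 = (1 - (b ^ 3)⁻¹) * b1 * (1 + q ^ 2 / 2) := by ring
      _ ≤ (1 - (b ^ 3)⁻¹) * b1 * ∫ P, RR B D L (2 * (m + 1)) P ∂μ :=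
          mul_le_mul_of_nonneg_left hR1 (mul_nonneg (by linarith) hb1p.le)
      _ = ∫ P, (1 - (b ^ 3)⁻¹) * b1 * RR B D L (2 * (m + 1)) P ∂μ := (integral_const_mul _ _).symm
      _ ≤ ∫ P, ZP μ D L (2 * m + 1) (b ^ 24) P ∂μ := by
          refine integral_mono (h3.const_mul _) hZi fun P => ?_
          have := (hL2 P).2.1
          rw [hJ P] at this
          simp only
          linarith
  · calc ∫ P, ZP μ D L (2 * m + 1) (b ^ 24) P ∂μ ≤
        ∫ P, (1 + (b ^ 3)⁻¹) * b1 * RR B D L (2 * (m + 1)) P ∂μ := by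
          refine integral_mono hZi (h3.const_mul _) fun P => ?_
          have := (hL2 P).2.2
          rw [hJ P] at this
          simp only
          linarith
      _ = (1 + (b ^ 3)⁻¹) * b1 * ∫ P, RR B D L (2 * (m + 1)) P ∂μ := integral_const_mul _ _
      _ ≤ (1 + (b ^ 3)⁻¹) * b1 * (1 + max C1 (C2 * c ^ 2) * q ^ 2) :=
          mul_le_mul_of_nonneg_left hR2 (by positivity)
      _ = _ := by ring

end

end Pool.Agent.T2H02.Gap
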