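import Mathlib

/-!
# From the traces to the first two eigenvalues
-/

namespace Pool.Agent.T2H02.Gap

set_option linter.unusedVariables false

noncomputable section

/-- The hypotheses on the traces `z`, with the first two eigenvalues `t`, `u`. -/
structure Tr (z : ℕ → ℝ) (t u : ℝ) : Prop where
  t0 : 0 ≤ t
  u0 : 0 ≤ u
  add : ∀ j k, z (j + k) ≤ t ^ j * z k
  two : ∀ m, t ^ (m + 1) + u ^ (m + 1) ≤ z m
  sub : u < t → ∀ k j, z (k + 2 * j) - t ^ (k + 2 * j + 1) ≤ u ^ (2 * j) * (z k - t ^ (k + 1))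

lemma Tr.one {z : ℕ → ℝ} {t u : ℝ} (h : Tr z t u) (m : ℕ) : t ^ (m + 1) ≤ z m := by
  have := h.two m
  have := pow_nonneg h.u0 (m + 1)
  linarith

/-- the bounds on the first eigenvalue -/
lemma num_t {t a1 δ : ℝ} {M : ℕ} (ht : 0 ≤ t) (ha : 0 ≤ a1 * δ) (h1 : t ^ (M + 1) ≤ 1 + a1 * δ)
    (h2 : 1 - (1 + a1) * δ ≤ t ^ M) (h3 : 0 ≤ (1 + a1) * δ) (m : ℕ) (hm : m ≤ M) :
    t ^ m ≤ 1 + a1 * δ ∧ 1 - (1 + a1) * δ ≤ t ^ m := by
  rcases le_total 1 t with h | h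
  · refine ⟨(pow_le_pow_right₀ h (by omega)).trans h1, ?_⟩
    have := one_le_pow₀ (n := m) h
    linarith
  · refine ⟨?_, h2.trans (pow_le_pow_of_le_one ht h hm)⟩
    have := pow_le_one₀ (n := m) ht h
    linarith

lemma num_zM {C δ e : ℝ} (hC : 1 ≤ C) (hδ : 0 ≤ δ) (hδ1 : δ ≤ 1) (he : e ≤ δ) :
    (1 + δ) * (1 + C * e) ≤ 1 + (1 + 2 * C) * δ := by
  have h1 : C * e ≤ C * δ := mul_le_mul_of_nonneg_left he (by linarith)
  have h2 : (1 + δ) * (1 + C * e) ≤ (1 + δ) * (1 + C * δ) :=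
    mul_le_mul_of_nonneg_left (by linarith) (by linarith)
  have h3 : C * δ * δ ≤ C * δ * 1 := mul_le_mul_of_nonneg_left hδ1 (by positivity)
  have h4 : (1 + δ) * (1 + C * δ) = 1 + δ + C * δ + C * δ * δ := by ring
  have h5 : 1 + (1 + 2 * C) * δ = 1 + δ + C * δ + C * δ * 1 := by ring
  rw [h5]
  linarith

lemma num_tM {z : ℕ → ℝ} {t u : ℝ} (hT : Tr z t u) {C δ e : ℝ} {M : ℕ} (hC : 1 ≤ C) (hδ : 0 ≤ δ)
    (hδ1 : δ ≤ 1) (he : 0 ≤ e) (hzM : z M ≤ 1 + (1 + 2 * C) * δ)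
    (h2M : (1 - δ) * (1 + e / 2) ≤ z (M + M)) (m : ℕ) (hm : m ≤ M) :
    t ^ m ≤ 1 + (1 + 2 * C) * δ ∧ 1 - (2 + 2 * C) * δ ≤ t ^ m := by
  have ht2 : 1 - (1 + (1 + 2 * C)) * δ ≤ t ^ M := by
    have h3 : (1 - δ) * 1 ≤ (1 - δ) * (1 + e / 2) :=
      mul_le_mul_of_nonneg_left (by linarith) (by linarith)
    have h4 : 1 - δ ≤ t ^ M * (1 + (1 + 2 * C) * δ) := by
      calc 1 - δ ≤ z (M + M) := by linarith
        _ ≤ t ^ M * z M := hT.add M M
        _ ≤ _ := mul_le_mul_of_nonneg_left hzM (pow_nonneg hT.t0 M)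
    have h5 : (1 - (1 + (1 + 2 * C)) * δ) * (1 + (1 + 2 * C) * δ) ≤ 1 - δ := by
      have h6 : 0 ≤ (1 + (1 + 2 * C)) * ((1 + 2 * C) * (δ * δ)) := by positivity
      have h7 : (1 - (1 + (1 + 2 * C)) * δ) * (1 + (1 + 2 * C) * δ) =
        1 - δ - (1 + (1 + 2 * C)) * ((1 + 2 * C) * (δ * δ)) := by ring
      rw [h7]; linarith
    have h6 : 0 < 1 + (1 + 2 * C) * δ := by positivity
    exact le_of_mul_le_mul_right (h5.trans h4) h6
  have h := num_t hT.t0 (by positivity) ((hT.one M).trans hzM) ht2 (by positivity) m hm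
  refine ⟨h.1, ?_⟩
  have h8 : 1 + (1 + 2 * C) = 2 + 2 * C := by ring
  rw [← h8]
  exact h.2

lemma num_B {z : ℕ → ℝ} {t u : ℝ} (hT : Tr z t u) {C δ e : ℝ} {m : ℕ} (hC : 1 ≤ C) (hδ : 0 ≤ δ)
    (hδ1 : δ ≤ 1) (he : δ ≤ e) (hz : z m ≤ (1 + δ) * (1 + C * e))
    (ht : 1 - (2 + 2 * C) * δ ≤ t ^ (m + 1)) : u ^ (m + 1) ≤ (3 + 4 * C) * e := by
  have h1 := hT.two m
  have h4 : δ * (C * e) ≤ 1 * (C * e) := mul_le_mul_of_nonneg_right hδ1 (by
    have : 0 ≤ e := hδ.trans he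
    positivity)
  have h5 : (3 + 2 * C) * δ ≤ (3 + 2 * C) * e := mul_le_mul_of_nonneg_left he (by linarith)
  have h6 : (1 + δ) * (1 + C * e) = 1 + δ + C * e + δ * (C * e) := by ring
  rw [h6] at hz
  have h7 : (3 + 2 * C) * δ = δ + (2 + 2 * C) * δ := by ring
  have h8 : (3 + 4 * C) * e = (3 + 2 * C) * e + C * e + C * e := by ring
  rw [h8]
  linarith

lemma num_C {z : ℕ → ℝ} {t u : ℝ} (hT : Tr z t u) (hut : u < t) {C δ E e : ℝ} {k j : ℕ}
    (hC : 1 ≤ C) (hδ : 0 ≤ δ) (hδ1 : δ ≤ 1 / 4) (hE : 0 ≤ E) (he0 : 0 ≤ e) (he : e ≤ 1)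
    (hδE : (2 + 2 * C) * δ ≤ E / 8)
    (hz1 : (1 - δ) * (1 + E / 2) ≤ z (k + 2 * j)) (hz2 : z k ≤ (1 + δ) * (1 + C * e))
    (ht1 : t ^ (k + 2 * j + 1) ≤ 1 + (1 + 2 * C) * δ)
    (ht2 : 1 - (2 + 2 * C) * δ ≤ t ^ (k + 1)) : E / 4 ≤ u ^ (2 * j) * (3 + 4 * C) := by
  have h1 := hT.sub hut k j
  have h6 : z k - t ^ (k + 1) ≤ 3 + 4 * C := by
    have h7 : C * e ≤ C * 1 := mul_le_mul_of_nonneg_left he (by linarith)
    have h8 : (1 + δ) * (1 + C * e) ≤ (1 + δ) * (1 + C * 1) :=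
      mul_le_mul_of_nonneg_left (by linarith) (by linarith)
    have h9 : δ * C ≤ 1 * C := mul_le_mul_of_nonneg_right (by linarith) (by linarith)
    have h10 : (1 + δ) * (1 + C * 1) = 1 + C + δ + δ * C := by ring
    have h11 : (2 + 2 * C) * δ = 2 * δ + 2 * (δ * C) := by ring
    rw [h11] at ht2
    rw [h10] at h8
    linarith
  have h7 : u ^ (2 * j) * (z k - t ^ (k + 1)) ≤ u ^ (2 * j) * (3 + 4 * C) :=
    mul_le_mul_of_nonneg_left h6 (pow_nonneg hT.u0 _)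
  have h8 : δ * E ≤ 1 / 4 * E := mul_le_mul_of_nonneg_right hδ1 hE
  have h9 : (1 - δ) * (1 + E / 2) = 1 + E / 2 - δ - δ * E / 2 := by ring
  have h10 : (2 + 2 * C) * δ = δ + (1 + 2 * C) * δ := by ring
  rw [h9] at hz1
  rw [h10] at hδE
  linarith

lemma num_D {t u w A a3 M k j : ℝ} {Mn jn : ℕ} (hMn : (Mn : ℝ) = M) (hjn : (jn : ℝ) = j)
    (hA : 0 ≤ A) (ha3 : 1 ≤ a3)
    (hM : 0 < M) (hj : M / 8 ≤ 2 * j) (hu0 : 0 < u) (hk : w * k ≤ 20 * A)
    (h1 : u ^ Mn ≤ a3 * Real.exp (-(w * M)))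
    (h2 : Real.exp (-(w * (k + 2 * j))) / 4 ≤ u ^ (2 * jn) * a3) :
    Real.log u + w ≤ Real.log a3 / M ∧
    -((20 * A + Real.log (4 * a3)) * 8 / M) ≤ Real.log u + w := by
  have ha0 : 0 < a3 := by linarith
  constructor
  · rw [le_div_iff₀ hM]
    have h3 := Real.log_le_log (pow_pos hu0 Mn) h1
    rw [Real.log_pow, Real.log_mul ha0.ne' (Real.exp_pos _).ne', Real.log_exp, hMn] at h3
    have : (Real.log u + w) * M = M * Real.log u + w * M := by ring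
    rw [this]; linarith
  · have h1 : Real.exp (-(w * (k + 2 * j))) / (4 * a3) ≤ u ^ (2 * jn) := by
      rw [div_le_iff₀ (by positivity)]
      linarith
    have h2 := Real.log_le_log (by positivity) h1
    rw [Real.log_pow, Real.log_div (Real.exp_pos _).ne' (by positivity), Real.log_exp] at h2
    push_cast at h2
    rw [hjn] at h2
    have h4 : -(20 * A + Real.log (4 * a3)) ≤ (2 * j) * (Real.log u + w) := by
      have e1 : w * (k + 2 * j) = w * k + 2 * j * w := by ring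
      have e2 : 2 * j * (Real.log u + w) = 2 * j * Real.log u + 2 * j * w := by ring
      rw [e1] at h2
      rw [e2]
      linarith
    have hlog4 : 0 ≤ Real.log (4 * a3) := Real.log_nonneg (by linarith)
    have h5 : 0 ≤ 20 * A + Real.log (4 * a3) := by positivity
    rw [neg_le, div_eq_mul_inv, ← neg_le_neg_iff, neg_neg, ← div_eq_mul_inv, ← neg_div,
      div_le_iff₀ hM]
    rcases le_total 0 (Real.log u + w) with h | h
    · have : 0 ≤ (Real.log u + w) * M := by positivity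
      linarith
    · have h6 : (2 * j) * (Real.log u + w) ≤ M / 8 * (Real.log u + w) :=
        mul_le_mul_of_nonpos_right hj h
      linarith

lemma num_E {t M : ℝ} {Mn : ℕ} (hMn : (Mn : ℝ) = M) (hM : 0 < M) (ht : 0 < t) (h1 : t ^ Mn ≤ 2)
    (h2 : 1 / 2 ≤ t ^ Mn) : |Real.log t| ≤ 1 / M := by
  have he : 2 ≤ Real.exp 1 := by
    have := Real.add_one_le_exp (1 : ℝ)
    linarith
  rw [abs_le]
  constructor
  · rw [neg_le, le_div_iff₀ hM]
    have h3 : Real.exp (-1) ≤ t ^ Mn := by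
      refine le_trans ?_ h2
      rw [Real.exp_neg, one_div]
      exact inv_anti₀ (by norm_num) he
    have h4 := Real.log_le_log (Real.exp_pos _) h3
    rw [Real.log_pow, Real.log_exp, hMn] at h4
    linarith
  · rw [le_div_iff₀ hM]
    have h4 := Real.log_le_log (pow_pos ht Mn) (h1.trans he)
    rw [Real.log_pow, Real.log_exp, hMn] at h4
    linarith

/-- the number of steps -/
lemma num_M {L : ℕ} {w l A : ℝ} (hL : 2 ≤ L) (hA : 1 ≤ A) (hw0 : 0 < w) (hw2 : w ≤ 20 / L)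
    (hl : 320 * A + 330 ≤ l) : ∃ M : ℕ, w * M ≤ l ∧ l ≤ w * (M + 1) ∧ L * l / 40 ≤ M ∧
    8 * A * L ≤ M ∧ (16 : ℝ) ≤ M := by
  have hL' : (2 : ℝ) ≤ L := by exact_mod_cast hL
  have hLp : (0 : ℝ) < L := by linarith
  have hlp : 0 < l := by linarith
  have hlw : 0 ≤ l / w := by positivity
  have hM1 : (⌊l / w⌋₊ : ℝ) ≤ l / w := Nat.floor_le hlw
  have hM2 : l / w < ⌊l / w⌋₊ + 1 := Nat.lt_floor_add_one _
  have hML : L * l / 20 ≤ l / w := by
    rw [le_div_iff₀ hw0]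
    have h1 : w * L ≤ 20 := by rw [le_div_iff₀ hLp] at hw2; exact hw2
    have h2 := mul_le_mul_of_nonneg_left h1 hlp.le
    have h3 : ↑L * l / 20 * w = l * (w * L) / 20 := by ring
    rw [h3]; linarith
  have hLl : L * (320 * A + 330) ≤ L * l := mul_le_mul_of_nonneg_left hl hLp.le
  have hLA : 1 * 2 ≤ A * L := mul_le_mul hA hL' (by norm_num) (by linarith)
  have e : L * (320 * A + 330) = 320 * (A * L) + 330 * L := by ring
  rw [e] at hLl
  have h40 : L * l / 40 ≤ ⌊l / w⌋₊ := by linarith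
  refine ⟨⌊l / w⌋₊, ?_, ?_, h40, ?_, ?_⟩
  · rw [le_div_iff₀ hw0] at hM1; linarith
  · rw [div_lt_iff₀ hw0] at hM2; linarith
  · linarith
  · linarith

theorem gap_num (C : ℝ) (A : ℕ) (hC : 1 ≤ C) (hA : 1 ≤ A) : ∃ l0 C' : ℝ, 1 ≤ l0 ∧ 1 ≤ C' ∧
    ∀ (L : ℕ), 2 ≤ L → ∀ (w l t u : ℝ) (z : ℕ → ℝ), 0 < w → w ≤ 20 / L → l0 ≤ l →
    Tr z t u →
    (∀ m : ℕ, A * L ≤ m + 1 → w * (m + 1) ≤ 4 * l →
      (1 - Real.exp (-l)) * (1 + Real.exp (-(w * (m + 1))) / 2) ≤ z m ∧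
      z m ≤ (1 + Real.exp (-l)) * (1 + C * Real.exp (-(w * (m + 1))))) →
    u < t ∧ 0 < u ∧ |Real.log t - Real.log u - w| ≤ C' / (L * l) := by
  obtain ⟨a3, ha3⟩ : ∃ a3, a3 = 3 + 4 * C := ⟨_, rfl⟩
  have ha3p : 1 ≤ a3 := by rw [ha3]; linarith
  have hlog3 : 0 ≤ Real.log a3 := Real.log_nonneg ha3p
  have hlog4 : 0 ≤ Real.log (4 * a3) := Real.log_nonneg (by linarith)
  obtain ⟨c1, hc1⟩ : ∃ c1, c1 = 1 + Real.log a3 + (20 * A + Real.log (4 * a3)) * 8 := ⟨_, rfl⟩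
  have hA' : (1 : ℝ) ≤ A := by exact_mod_cast hA
  have hc1p : 1 ≤ c1 := by
    have : 0 ≤ (20 * (A : ℝ) + Real.log (4 * a3)) * 8 := by positivity
    rw [hc1]; linarith
  obtain ⟨l0, hl0⟩ : ∃ l0, l0 = 2 * Real.log (8 * a3) + Real.log (4 * a3 * Real.exp 10) +
    (320 * A + 330) := ⟨_, rfl⟩
  have hl1 : 0 ≤ Real.log (8 * a3) := Real.log_nonneg (by linarith)
  have he10 : 1 ≤ Real.exp 10 := Real.one_le_exp (by norm_num)
  have ha3e : 4 * a3 * 1 ≤ 4 * a3 * Real.exp 10 := mul_le_mul_of_nonneg_left he10 (by linarith)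
  have hl2 : 0 ≤ Real.log (4 * a3 * Real.exp 10) := Real.log_nonneg (by linarith)
  refine ⟨l0, 40 * c1, by rw [hl0]; linarith, by linarith, ?_⟩
  intro L hL w l t u z hw0 hw2 hl hT hz
  rw [hl0] at hl
  have hL' : (2 : ℝ) ≤ L := by exact_mod_cast hL
  have hLp : (0 : ℝ) < L := by linarith
  have hw10 : w ≤ 10 := hw2.trans (by rw [div_le_iff₀ hLp]; linarith)
  have hlp : 0 < l := by linarith
  obtain ⟨M, hM1, hM2, hM40, hM8, hM16⟩ := num_M (A := A) hL hA' hw0 hw2 (by linarith : _ ≤ l)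
  have hMpos : (0 : ℝ) < M := by linarith
  have hMA : 8 * (A * L) ≤ M := by
    have : (8 * (A * L) : ℝ) ≤ M := by linarith
    exact_mod_cast this
  have hM16' : 16 ≤ M := by exact_mod_cast hM16
  have hAL : 1 ≤ A * L := Nat.mul_pos (by omega) (by omega)
  have hALR : (A : ℝ) * L ≤ M := by
    have : A * L ≤ M := by omega
    exact_mod_cast this
  obtain ⟨δ, hδ⟩ : ∃ δ, δ = Real.exp (-l) := ⟨_, rfl⟩
  have hδ0 : 0 < δ := by rw [hδ]; exact Real.exp_pos _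
  have hs1 : Real.exp (-(l / 2)) * (8 * a3) ≤ 1 := by
    have h8 : 0 < 8 * a3 := by linarith
    calc Real.exp (-(l / 2)) * (8 * a3) = Real.exp (-(l / 2) + Real.log (8 * a3)) := by
          rw [Real.exp_add, Real.exp_log h8]
      _ ≤ 1 := by rw [Real.exp_le_one_iff]; linarith
  have hs2 : δ * (4 * a3 * Real.exp 10) ≤ 1 := by
    have h8 : 0 < 4 * a3 * Real.exp 10 := by positivity
    calc δ * (4 * a3 * Real.exp 10) = Real.exp (-l + Real.log (4 * a3 * Real.exp 10)) := by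
          rw [Real.exp_add, Real.exp_log h8, hδ]
      _ ≤ 1 := by rw [Real.exp_le_one_iff]; linarith
  have hδa : δ * (4 * a3 * 1) ≤ 1 := (mul_le_mul_of_nonneg_left ha3e hδ0.le).trans hs2
  have hδa' : (2 + 2 * C) * δ ≤ 1 / 4 := by
    have h1 : (2 + 2 * C) * δ ≤ a3 * δ := mul_le_mul_of_nonneg_right (by rw [ha3]; linarith) hδ0.le
    linarith
  have hδ14 : δ ≤ 1 / 4 := by
    have h1 : 1 * δ ≤ (2 + 2 * C) * δ := mul_le_mul_of_nonneg_right (by linarith) hδ0.le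
    linarith
  have hδ1 : δ ≤ 1 := by linarith
  rw [← hδ] at hz
  have hwM1 : w * (((M + M : ℕ) : ℝ) + 1) = w * M + w * M + w := by push_cast; ring
  have hwM2 : w * ((M : ℝ) + 1) = w * M + w := by ring
  -- the first eigenvalue
  have htm : ∀ m ≤ M, t ^ m ≤ 1 + (1 + 2 * C) * δ ∧ 1 - (2 + 2 * C) * δ ≤ t ^ m := by
    have h1 := (hz M (by omega) (by rw [hwM2]; linarith)).2
    have hE1 : Real.exp (-(w * (M + 1))) ≤ δ := by
      rw [hδ]; exact Real.exp_le_exp.2 (by linarith)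
    have h2 := (hz (M + M) (by omega) (by rw [hwM1]; linarith)).1
    exact num_tM hT hC hδ0.le hδ1 (Real.exp_pos _).le
      (h1.trans (num_zM hC hδ0.le hδ1 hE1)) h2
  -- the upper bound on the second eigenvalue
  have hu1 : u ^ M ≤ a3 * Real.exp (-(w * M)) := by
    obtain ⟨m, hm⟩ : ∃ m, M = m + 1 := ⟨M - 1, by omega⟩
    have hmc : ((m : ℝ) + 1) = M := by rw [hm]; push_cast; ring
    have h2 := (hz m (by omega) (by rw [hmc]; linarith)).2
    rw [hmc] at h2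
    have hE2 : δ ≤ Real.exp (-(w * M)) := by
      rw [hδ]; exact Real.exp_le_exp.2 (by linarith)
    have h3 := (htm M le_rfl).2
    have h4 := num_B hT hC hδ0.le hδ1 hE2 h2 (by rw [← hm]; exact h3)
    rw [← hm] at h4
    rw [ha3]; exact h4
  have hut : u < t := by
    have h1 : Real.exp (-(w * M)) ≤ Real.exp 10 * δ := by
      rw [hδ, ← Real.exp_add]
      exact Real.exp_le_exp.2 (by linarith)
    have h2 : u ^ M ≤ 1 / 4 := by
      calc u ^ M ≤ a3 * Real.exp (-(w * M)) := hu1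
        _ ≤ a3 * (Real.exp 10 * δ) := mul_le_mul_of_nonneg_left h1 (by linarith)
        _ ≤ 1 / 4 := by linarith
    have h3 := (htm M le_rfl).2
    by_contra h
    push Not at h
    have := pow_le_pow_left₀ hT.t0 h M
    linarith
  -- the lower bound on the second eigenvalue
  obtain ⟨j, hj⟩ : ∃ j, j = M / 8 := ⟨_, rfl⟩
  have hj1 : 8 * j ≤ M := by omega
  have hj2 : M < 8 * j + 8 := by omega
  have hj0 : 0 < j := by omega
  have hjM : (M : ℝ) / 8 ≤ 2 * j := by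
    have h1 : (M : ℝ) < 8 * j + 8 := by exact_mod_cast hj2
    linarith
  obtain ⟨k, hk⟩ : ∃ k, A * L = k + 1 := ⟨A * L - 1, by omega⟩
  have hk' : (k : ℝ) + 1 = A * L := by
    have : ((A * L : ℕ) : ℝ) = ((k + 1 : ℕ) : ℝ) := by rw [hk]
    push_cast at this
    linarith
  have hkM : 2 * (k + 2 * j + 1) ≤ M := by
    rw [hk] at hMA; omega
  have hkM' : 2 * ((k : ℝ) + 2 * j + 1) ≤ M := by exact_mod_cast hkM
  obtain ⟨E, hE⟩ : ∃ E, E = Real.exp (-(w * (A * L + 2 * j))) := ⟨_, rfl⟩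
  have hE0 : 0 < E := by rw [hE]; exact Real.exp_pos _
  have hkj : (((k + 2 * j : ℕ) : ℝ) + 1) = A * L + 2 * j := by rw [← hk']; push_cast; ring
  have hwk : w * (A * L + 2 * j) * 2 ≤ l := by
    have h1 : (A * L + 2 * j : ℝ) * 2 ≤ M := by rw [← hk']; linarith
    have h2 := mul_le_mul_of_nonneg_left h1 hw0.le
    linarith
  have hEl : Real.exp (-(l / 2)) ≤ E := by
    rw [hE]
    exact Real.exp_le_exp.2 (by linarith)
  have hδE : (2 + 2 * C) * δ ≤ E / 8 := by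
    have h1 : δ = Real.exp (-(l / 2)) * Real.exp (-(l / 2)) := by
      rw [hδ, ← Real.exp_add]; congr 1; ring
    have h2 : (2 + 2 * C) * δ ≤ a3 * δ := mul_le_mul_of_nonneg_right (by rw [ha3]; linarith) hδ0.le
    calc (2 + 2 * C) * δ ≤ a3 * δ := h2
      _ = Real.exp (-(l / 2)) * (8 * a3) * Real.exp (-(l / 2)) / 8 := by
          rw [h1]; ring
      _ ≤ 1 * Real.exp (-(l / 2)) / 8 := by
          have := mul_le_mul_of_nonneg_right hs1 (Real.exp_pos (-(l / 2))).le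
          linarith
      _ ≤ E / 8 := by linarith
  have hwA : w * (A * L) ≤ w * M := mul_le_mul_of_nonneg_left hALR hw0.le
  have hlow : E / 4 ≤ u ^ (2 * j) * a3 := by
    have h2 := (hz (k + 2 * j) (by omega) (by rw [hkj]; linarith)).1
    rw [hkj, ← hE] at h2
    have h4 := (hz k (by omega) (by rw [hk']; linarith)).2
    rw [ha3]
    refine num_C hT hut hC hδ0.le hδ14 hE0.le (Real.exp_pos _).le ?_ hδE h2 h4
      (htm _ (by omega)).1 (htm _ (by omega)).2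
    rw [Real.exp_le_one_iff]
    have : 0 ≤ w * ((k : ℝ) + 1) := by positivity
    linarith
  have hu0 : 0 < u := by
    rcases hT.u0.eq_or_lt with h | h
    · rw [← h, zero_pow (by omega), zero_mul] at hlow
      linarith
    · exact h
  have ht0 : 0 < t := hu0.trans hut
  refine ⟨hut, hu0, ?_⟩
  have hwLA : w * (A * L) ≤ 20 * A := by
    have h1 : w * L ≤ 20 := by rw [le_div_iff₀ hLp] at hw2; exact hw2
    have h2 := mul_le_mul_of_nonneg_right h1 (by linarith : (0 : ℝ) ≤ A)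
    have h3 : w * L * A = w * (A * L) := by ring
    linarith
  rw [hE] at hlow
  obtain ⟨hD1, hD2⟩ := num_D (t := t) rfl rfl (by linarith : (0 : ℝ) ≤ A) ha3p hMpos hjM hu0 hwLA hu1 hlow
  have hEt := num_E rfl hMpos ht0 ((htm M le_rfl).1.trans (by
    have : (2 + 2 * C) * δ = δ + (1 + 2 * C) * δ := by ring
    linarith)) (by linarith [(htm M le_rfl).2])
  have hfin : 1 / (M : ℝ) ≤ 40 / (L * l) := by
    rw [div_le_div_iff₀ hMpos (by positivity)]
    linarith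
  have hc2 : c1 / M ≤ 40 * c1 / (L * l) := by
    have hc : 40 * c1 / (L * l) = c1 * (40 / (L * l)) := by ring
    rw [hc, div_eq_mul_one_div]
    exact mul_le_mul_of_nonneg_left hfin (by linarith)
  refine le_trans ?_ hc2
  have e1 : c1 / M = 1 / M + Real.log a3 / M + (20 * A + Real.log (4 * a3)) * 8 / M := by
    rw [hc1]; ring
  have e2 : 0 ≤ Real.log a3 / M := by positivity
  have e3 : 0 ≤ (20 * A + Real.log (4 * a3)) * 8 / M := by positivity
  rw [abs_le] at hEt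
  rw [abs_le, e1]
  constructor <;> linarith [hEt.1, hEt.2]

end

end Pool.Agent.T2H02.Gap
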