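import Mathlib
import Pool.Agent.T2H02.Gap.Op
import Pool.Agent.T2H02.Gap.Num

/-!
# The first two singular values from the traces
-/

open MeasureTheory Filter
open scoped Topology

namespace Pool.Agent.T2H02.Gap

noncomputable section

variable {H : Type*} [SeminormedAddCommGroup H] [InnerProductSpace ℝ H]
variable {T : H →ₗ[ℝ] H} {Ω : Type*} [MeasurableSpace Ω] {ν : Measure Ω} {c : Ω → H}

lemma sec_nonneg (hT : Kern T ν c) : 0 ≤ sec2 T := by
  unfold sec2
  rcases Set.eq_empty_or_nonempty (secSet T) with h | h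
  · rw [h, Real.sSup_empty]
  · obtain ⟨s, f, g, hf, hg, hfg, hs⟩ := h
    exact le_csSup (bdd_sec hT) ⟨f, g, hf, hg, hfg, fun a b => by
      rw [zero_mul]; exact sq_nonneg _⟩

lemma top_add_sec (hT : Kern T ν c) (hH : ∃ f : H, ‖f‖ ^ 2 = 1) (k : ℕ) :
    top2 T ^ (k + 1) + sec2 T ^ (k + 1) ≤ zt T ν c k := by
  have h0 := sec_nonneg hT
  rcases h0.eq_or_lt with h | h
  · rw [← h, zero_pow (by omega), add_zero]
    exact top_pow_le hT hH k
  · have key : ∀ η : ℝ, 0 < η → η ≤ sec2 T →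
        top2 T ^ (k + 1) + (sec2 T - η) ^ (k + 1) ≤ zt T ν c k := by
      intro η hη hη2
      have hne : (secSet T).Nonempty := by
        rcases Set.eq_empty_or_nonempty (secSet T) with h1 | h1
        · exfalso
          unfold sec2 at h
          rw [h1, Real.sSup_empty] at h
          exact lt_irrefl _ h
        · exact h1
      have hlt : sec2 T - η < sSup (secSet T) := by
        show sec2 T - η < sec2 T
        linarith
      obtain ⟨s, hs, hs2⟩ := exists_lt_of_lt_csSup hne hlt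
      have h1 := top_add_sec_le hT hH k hs (by linarith)
      have h2 : (sec2 T - η) ^ (k + 1) ≤ s ^ (k + 1) := pow_le_pow_left₀ (by linarith) hs2.le _
      linarith
    have hl : Tendsto (fun η : ℝ => top2 T ^ (k + 1) + (sec2 T - η) ^ (k + 1)) (𝓝[>] 0)
        (𝓝 (top2 T ^ (k + 1) + (sec2 T - 0) ^ (k + 1))) := by
      have : Continuous fun η : ℝ => top2 T ^ (k + 1) + (sec2 T - η) ^ (k + 1) := by fun_prop
      exact (this.tendsto 0).mono_left nhdsWithin_le_nhds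
    rw [sub_zero] at hl
    refine le_of_tendsto hl ?_
    have : Set.Ioc 0 (sec2 T) ∈ 𝓝[>] (0 : ℝ) := Ioc_mem_nhdsGT h
    filter_upwards [this] with η hη
    exact key η hη.1 hη.2

lemma Tr_of (hT : Kern T ν c) (hH : ∃ f : H, ‖f‖ ^ 2 = 1) {b : ℝ} (hb : 0 < b) :
    Tr (fun m => zt T ν c m / b ^ (m + 1)) (top2 T / b) (sec2 T / b) where
  t0 := div_nonneg (top_nonneg hT) hb.le
  u0 := div_nonneg (sec_nonneg hT) hb.le
  add j k := by
    rw [div_pow, div_mul_div_comm, ← pow_add, show j + (k + 1) = j + k + 1 by ring]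
    exact div_le_div_of_nonneg_right (zt_add_le hT j k) (pow_pos hb _).le
  two m := by
    rw [div_pow, div_pow, ← add_div]
    exact div_le_div_of_nonneg_right (top_add_sec hT hH m) (pow_pos hb _).le
  sub h k j := by
    have h' : sec2 T < top2 T := (div_lt_div_iff_of_pos_right hb).1 h
    have h1 := zt_sub_le hT hH h' (sec_nonneg hT) k j
    have e1 : zt T ν c (k + 2 * j) / b ^ (k + 2 * j + 1) - (top2 T / b) ^ (k + 2 * j + 1) =
        (zt T ν c (k + 2 * j) - top2 T ^ (k + 2 * j + 1)) / b ^ (k + 2 * j + 1) := by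
      rw [div_pow, sub_div]
    have e2 : (sec2 T / b) ^ (2 * j) * (zt T ν c k / b ^ (k + 1) - (top2 T / b) ^ (k + 1)) =
        (sec2 T ^ (2 * j) * (zt T ν c k - top2 T ^ (k + 1))) / b ^ (k + 2 * j + 1) := by
      rw [div_pow, div_pow, ← sub_div, div_mul_div_comm, ← pow_add,
        show 2 * j + (k + 1) = k + 2 * j + 1 by ring]
    rw [e1, e2]
    exact div_le_div_of_nonneg_right h1 (pow_pos hb _).le

/-- **The gap from the traces.** -/
theorem gap_abs (C : ℝ) (A : ℕ) (hC : 1 ≤ C) (hA : 1 ≤ A) : ∃ l0 C' : ℝ, 1 ≤ l0 ∧ 1 ≤ C' ∧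
    ∀ (H : Type) [SeminormedAddCommGroup H] [InnerProductSpace ℝ H] (T : H →ₗ[ℝ] H) (Ω : Type)
    [MeasurableSpace Ω] (ν : Measure Ω) (c : Ω → H), Kern T ν c → (∃ f : H, ‖f‖ ^ 2 = 1) →
    ∀ (L : ℕ), 2 ≤ L → ∀ (w l b : ℝ), 0 < w → w ≤ 20 / L → l0 ≤ l → 0 < b →
    (∀ m : ℕ, A * L ≤ m + 1 → w * (m + 1) ≤ 4 * l →
      (1 - Real.exp (-l)) * (1 + Real.exp (-(w * (m + 1))) / 2) * b ^ (m + 1) ≤ zt T ν c m ∧
      zt T ν c m ≤ (1 + Real.exp (-l)) * (1 + C * Real.exp (-(w * (m + 1)))) * b ^ (m + 1)) →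
    sec2 T < top2 T ∧ 0 < sec2 T ∧ |Real.log (top2 T / sec2 T) - w| ≤ C' / (L * l) := by
  obtain ⟨l0, C', hl0, hC', h⟩ := gap_num C A hC hA
  refine ⟨l0, C', hl0, hC', ?_⟩
  intro H _ _ T Ω _ ν c hT hH L hL w l b hw0 hw hl hb hz
  obtain ⟨h1, h2, h3⟩ := h L hL w l _ _ _ hw0 hw hl (Tr_of hT hH hb) (fun m hm1 hm2 => by
    have hbp : 0 < b ^ (m + 1) := pow_pos hb _
    obtain ⟨h4, h5⟩ := hz m hm1 hm2
    refine ⟨?_, ?_⟩
    · rw [le_div_iff₀ hbp]; exact h4
    · rw [div_le_iff₀ hbp]; exact h5)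
  have h4 : sec2 T < top2 T := (div_lt_div_iff_of_pos_right hb).1 h1
  have h5 : 0 < sec2 T := by
    by_contra h6
    push Not at h6
    have := div_nonpos_of_nonpos_of_nonneg h6 hb.le
    linarith
  refine ⟨h4, h5, ?_⟩
  rw [← Real.log_div (h2.trans h1).ne' h2.ne'] at h3
  rw [div_div_div_cancel_right₀ hb.ne'] at h3
  exact h3

end

end Pool.Agent.T2H02.Gap
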