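import Mathlib
import Pool.Agent.T2H02.Gap.Ker

/-!
# Averages over groups, abstract version
-/

open MeasureTheory Filter Function
open scoped Topology

namespace Pool.Agent.T2H02.Gap

set_option linter.unusedSectionVars false
set_option linter.unusedVariables false

noncomputable section

/-! ### invariance of the Haar measure -/

section haar

variable {Γ : Type*} [Group Γ] [TopologicalSpace Γ] [IsTopologicalGroup Γ] [SecondCountableTopology Γ]
  [MeasurableSpace Γ] [BorelSpace Γ]

/-- a left invariant probability measure is invariant under the inversion -/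
lemma inv_of_left (μ : Measure Γ) [IsProbabilityMeasure μ] [μ.IsMulLeftInvariant] :
    μ.IsInvInvariant := by
  refine ⟨Measure.ext fun A hA => ?_⟩
  rw [Measure.inv_apply]
  obtain ⟨f, hf⟩ : ∃ f : Γ → ENNReal, f = A.indicator 1 := ⟨_, rfl⟩
  have hfm : Measurable f := by rw [hf]; exact measurable_one.indicator hA
  have h1 : μ A = ∫⁻ x, f x ∂μ := by rw [hf, lintegral_indicator_one hA]
  have h2 : μ A⁻¹ = ∫⁻ x, f x⁻¹ ∂μ := by
    rw [hf, ← lintegral_indicator_one hA.inv]
    refine lintegral_congr fun x => ?_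
    by_cases hx : x⁻¹ ∈ A
    · rw [Set.indicator_of_mem hx, Set.indicator_of_mem (Set.mem_inv.2 hx)]; rfl
    · rw [Set.indicator_of_notMem hx, Set.indicator_of_notMem (fun h => hx (Set.mem_inv.1 h))]
  rw [h1, h2]
  have h3 : ∀ y : Γ, ∫⁻ x, f (x⁻¹ * y) ∂μ = ∫⁻ x, f x⁻¹ ∂μ := by
    intro y
    have := lintegral_mul_left_eq_self (μ := μ) (fun x => f x⁻¹) y⁻¹
    rw [← this]
    refine lintegral_congr fun x => ?_
    congr 1
    rw [_root_.mul_inv_rev, inv_inv]
  have h4 : ∀ x : Γ, ∫⁻ y, f (x⁻¹ * y) ∂μ = ∫⁻ y, f y ∂μ := fun x => lintegral_mul_left_eq_self f x⁻¹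
  calc ∫⁻ x, f x⁻¹ ∂μ = ∫⁻ _y : Γ, (∫⁻ x, f x⁻¹ ∂μ) ∂μ := by simp
    _ = ∫⁻ y, ∫⁻ x, f (x⁻¹ * y) ∂μ ∂μ := lintegral_congr fun y => (h3 y).symm
    _ = ∫⁻ x, ∫⁻ y, f (x⁻¹ * y) ∂μ ∂μ := by
        refine lintegral_lintegral_swap ?_
        refine (hfm.comp ?_).aemeasurable
        exact (measurable_snd.inv.mul measurable_fst)
    _ = ∫⁻ _x : Γ, (∫⁻ y, f y ∂μ) ∂μ := lintegral_congr h4
    _ = ∫⁻ y, f y ∂μ := by simp

lemma right_of_left (μ : Measure Γ) [IsProbabilityMeasure μ] [μ.IsMulLeftInvariant] :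
    μ.IsMulRightInvariant := by
  have h := inv_of_left μ
  have h2 : μ.inv.IsMulRightInvariant := inferInstance
  rwa [Measure.inv_eq_self] at h2

end haar

/-! ### averages over a group acting on a space -/

section abst

variable {X : Type*} [TopologicalSpace X] [CompactSpace X] [T2Space X] [SecondCountableTopology X]
  [MeasurableSpace X] [BorelSpace X] (ν : Measure X) [IsProbabilityMeasure ν]
  {Γ : Type*} [Group Γ] [TopologicalSpace Γ] [IsTopologicalGroup Γ] [CompactSpace Γ] [T2Space Γ]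
  [SecondCountableTopology Γ] [MeasurableSpace Γ] [BorelSpace Γ] (γ : Measure Γ)
  [IsProbabilityMeasure γ] [γ.IsMulLeftInvariant]

/-- A continuous measure preserving action. -/
structure GA (ac : Γ → X → X) : Prop where
  cont : Continuous (uncurry ac)
  mul : ∀ g h U, ac g (ac h U) = ac (g * h) U
  one : ∀ U, ac 1 U = U
  int : ∀ g (F : X → ℝ), Continuous F → ∫ U, F (ac g U) ∂ν = ∫ U, F U ∂ν

/-- average over the group -/
def avk (ac : Γ → X → X) (k : X → X → ℝ) (U V : X) : ℝ := ∫ g, k (ac g U) V ∂γ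

variable {ν} {ac : Γ → X → X} {k : X → X → ℝ}

lemma GA.left (h : GA ν ac) (U : X) : Continuous fun g => ac g U :=
  h.cont.comp (by fun_prop : Continuous fun g : Γ => (g, U))

lemma avk_cont (h : GA ν ac) (hk : Continuous (uncurry k)) : Continuous (uncurry (avk γ ac k)) := by
  have h1 : Continuous (uncurry fun (p : X × X) (g : Γ) => k (ac g p.1) p.2) := by
    have e : Continuous fun q : (X × X) × Γ => (ac q.2 q.1.1, q.1.2) :=
      (h.cont.comp (by fun_prop : Continuous fun q : (X × X) × Γ => (q.2, q.1.1))).prodMk (by fun_prop)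
    exact hk.comp e
  exact ccont γ h1

lemma ga_move (h : GA ν ac) (hi : ∀ g U V, k (ac g U) (ac g V) = k U V) (g : Γ) (U V : X) :
    k U (ac g V) = k (ac g⁻¹ U) V := by
  rw [← hi g⁻¹ U (ac g V), h.mul, inv_mul_cancel, h.one]

lemma avk_symm (h : GA ν ac) (hs : ∀ U V, k U V = k V U)
    (hi : ∀ g U V, k (ac g U) (ac g V) = k U V) (U V : X) : avk γ ac k U V = avk γ ac k V U := by
  have hinv := inv_of_left γ
  unfold avk
  rw [← integral_inv_eq_self (fun g => k (ac g V) U) γ]
  refine integral_congr_ae (Eventually.of_forall fun g => ?_)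
  simp only
  rw [← ga_move h hi, hs]

lemma avk_inv (h : GA ν ac) (hi : ∀ g U V, k (ac g U) (ac g V) = k U V) (g : Γ) (U V : X) :
    avk γ ac k U (ac g V) = avk γ ac k U V := by
  unfold avk
  rw [← integral_mul_left_eq_self (μ := γ) (fun g' => k (ac g' U) V) g⁻¹]
  refine integral_congr_ae (Eventually.of_forall fun g' => ?_)
  simp only
  rw [ga_move h hi, h.mul]

lemma it_inv (h : GA ν ac) (hk : Continuous (uncurry k))
    (hi : ∀ g U V, k (ac g U) (ac g V) = k U V) (g : Γ) (m : ℕ) (U V : X) :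
    it ν k m (ac g U) (ac g V) = it ν k m U V := by
  induction m generalizing U with
  | zero => exact hi g U V
  | succ m ih =>
    rw [it_succ, it_succ, ← h.int g]
    · refine integral_congr_ae (Eventually.of_forall fun W => ?_)
      simp only
      rw [hi, ih]
    · exact (left_cont hk _).mul (right_cont (it_cont _ hk m) _)

/-- the iterates of the averaged kernel -/
lemma it_avk (h : GA ν ac) (hk : Continuous (uncurry k))
    (hi : ∀ g U V, k (ac g U) (ac g V) = k U V) (m : ℕ) (U V : X) :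
    it ν (avk γ ac k) m U V = ∫ g, it ν k m (ac g U) V ∂γ := by
  induction m generalizing U V with
  | zero => rfl
  | succ m ih =>
    have hit := it_cont ν hk m
    have hK := avk_cont γ h hk
    calc it ν (avk γ ac k) (m + 1) U V = ∫ W, avk γ ac k U W * it ν (avk γ ac k) m W V ∂ν :=
          it_succ _ _ _ _ _
      _ = ∫ W, ∫ g, avk γ ac k U W * it ν k m (ac g W) V ∂γ ∂ν := by
          refine integral_congr_ae (Eventually.of_forall fun W => ?_)
          simp only
          rw [ih, integral_const_mul]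
      _ = ∫ g, ∫ W, avk γ ac k U W * it ν k m (ac g W) V ∂ν ∂γ := by
          refine cswap ν γ (f := fun W g => avk γ ac k U W * it ν k m (ac g W) V) ?_
          refine ((left_cont hK U).comp continuous_fst).mul ?_
          refine (right_cont hit V).comp ?_
          exact h.cont.comp (by fun_prop : Continuous fun p : X × Γ => (p.2, p.1))
      _ = ∫ _g : Γ, (∫ W, avk γ ac k U W * it ν k m W V ∂ν) ∂γ := by
          refine integral_congr_ae (Eventually.of_forall fun g => ?_)
          simp only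
          rw [← h.int g (fun W => avk γ ac k U W * it ν k m W V)
            ((left_cont hK U).mul (right_cont hit V))]
          refine integral_congr_ae (Eventually.of_forall fun W => ?_)
          simp only
          rw [avk_inv γ h hi]
      _ = ∫ W, avk γ ac k U W * it ν k m W V ∂ν := by simp
      _ = ∫ W, ∫ g, k (ac g U) W * it ν k m W V ∂γ ∂ν := by
          refine integral_congr_ae (Eventually.of_forall fun W => ?_)
          simp only
          rw [integral_mul_const]
          rfl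
      _ = ∫ g, ∫ W, k (ac g U) W * it ν k m W V ∂ν ∂γ := by
          refine cswap ν γ (f := fun W g => k (ac g U) W * it ν k m W V) ?_
          refine Continuous.mul ?_ ((right_cont hit V).comp continuous_fst)
          exact hk.comp (f := fun q : X × Γ => (ac q.2 U, q.1))
            (((h.left U).comp continuous_snd).prodMk continuous_fst)
      _ = _ := by
          refine integral_congr_ae (Eventually.of_forall fun g => ?_)
          simp only
          rw [it_succ]

variable {H : Type*} [Group H] [TopologicalSpace H] [IsTopologicalGroup H] [CompactSpace H]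
  [T2Space H] [SecondCountableTopology H] [MeasurableSpace H] [BorelSpace H] (μ : Measure H)
  [IsProbabilityMeasure μ] [μ.IsMulLeftInvariant]

/-- **The tree gauge**, abstract version. -/
theorem tree_abs (h : GA ν ac) {Φ : X → X → ℝ} (hΦ : Continuous (uncurry Φ))
    (hinv : ∀ g A Z, Φ (ac g A) (ac g Z) = Φ A Z) {ι : H → Γ} (hι : Continuous ι)
    (hιm : ∀ P Q, ι (P * Q) = ι P * ι Q) {e : Γ → H} (he : Continuous e) {c : X → Γ}
    (hc : Continuous c) (hcg : ∀ v Y, c (ac v Y) = ι (e v) * c Y * v⁻¹) :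
    ∫ V, ∫ g, Φ (ac g V) V ∂γ ∂ν = ∫ P, ∫ Y, Φ (ac (c Y) Y) (ac (ι P) Y) ∂ν ∂μ := by
  have hi1 : ι 1 = 1 := by
    have := hιm 1 1
    rw [mul_one] at this
    exact left_eq_mul.1 this
  have hii : ∀ P, ι P⁻¹ = (ι P)⁻¹ := fun P => by
    refine eq_inv_of_mul_eq_one_left ?_
    rw [← hιm, inv_mul_cancel, hi1]
  obtain ⟨Ψ, hΨ⟩ : ∃ Ψ : Γ → X → ℝ, Ψ = fun g Y => Φ (ac g Y) Y := ⟨_, rfl⟩
  have hΨc : Continuous (uncurry Ψ) := by
    rw [hΨ]
    exact hΦ.comp (f := fun q : Γ × X => (ac q.1 q.2, q.2)) (h.cont.prodMk continuous_snd)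
  have h1 : ∀ (P : H) (Y : X), Φ (ac (c Y) Y) (ac (ι P) Y) = Ψ ((ι P)⁻¹ * c Y) Y := by
    intro P Y
    rw [ga_move h hinv, h.mul, hΨ]
  have h2 : ∀ (P : H) (v : Γ), ∫ Y, Ψ ((ι P)⁻¹ * c Y) Y ∂ν =
      ∫ Y, Ψ (v⁻¹ * ((ι P)⁻¹ * ι (e v)) * c Y) Y ∂ν := by
    intro P v
    have hcc : Continuous fun Y : X => Ψ ((ι P)⁻¹ * c Y) Y :=
      hΨc.comp (f := fun Y : X => ((ι P)⁻¹ * c Y, Y)) ((continuous_const.mul hc).prodMk continuous_id)
    rw [← h.int v _ hcc]
    refine integral_congr_ae (Eventually.of_forall fun Y => ?_)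
    simp only
    rw [hΨ]
    simp only
    rw [h.mul, ga_move h hinv, h.mul, hcg]
    congr 2
    group
  calc ∫ V, ∫ g, Φ (ac g V) V ∂γ ∂ν = ∫ Y, ∫ v, Ψ v Y ∂γ ∂ν := by rw [hΨ]
    _ = ∫ Y, ∫ v, ∫ P, Ψ (v⁻¹ * ((ι P)⁻¹ * ι (e v)) * c Y) Y ∂μ ∂γ ∂ν := by
        refine integral_congr_ae (Eventually.of_forall fun Y => ?_)
        simp only
        have e1 : ∀ v : Γ, ∫ P, Ψ (v⁻¹ * ((ι P)⁻¹ * ι (e v)) * c Y) Y ∂μ =
            ∫ P, Ψ ((ι P * v)⁻¹ * c Y) Y ∂μ := by
          intro v
          rw [← integral_mul_left_eq_self (μ := μ)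
            (fun P => Ψ (v⁻¹ * ((ι P)⁻¹ * ι (e v)) * c Y) Y) (e v)]
          refine integral_congr_ae (Eventually.of_forall fun P => ?_)
          simp only
          congr 1
          rw [hιm]
          group
        rw [integral_congr_ae (Eventually.of_forall e1)]
        rw [cswap γ μ (f := fun v P => Ψ ((ι P * v)⁻¹ * c Y) Y)]
        · have e2 : ∀ P : H, ∫ v, Ψ ((ι P * v)⁻¹ * c Y) Y ∂γ = ∫ v, Ψ v Y ∂γ := by
            intro P
            have hinv2 := inv_of_left γ
            have e3 := integral_mul_left_eq_self (μ := γ) (fun v => Ψ (v⁻¹ * c Y) Y) (ι P)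
            have e4 := integral_mul_left_eq_self (μ := γ) (fun v => Ψ v⁻¹ Y) (c Y)⁻¹
            have e5 := integral_inv_eq_self (fun v => Ψ v Y) γ
            rw [e3, ← e5, ← e4]
            refine integral_congr_ae (Eventually.of_forall fun v => ?_)
            simp only
            congr 1
            group
          rw [integral_congr_ae (Eventually.of_forall e2)]
          simp
        · exact hΨc.comp (f := fun q : Γ × H => ((ι q.2 * q.1)⁻¹ * c Y, Y))
            (((((hι.comp continuous_snd).mul continuous_fst).inv).mul continuous_const).prodMk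
              continuous_const)
    _ = ∫ v, ∫ Y, ∫ P, Ψ (v⁻¹ * ((ι P)⁻¹ * ι (e v)) * c Y) Y ∂μ ∂ν ∂γ := by
        refine cswap ν γ (f := fun Y v => ∫ P, Ψ (v⁻¹ * ((ι P)⁻¹ * ι (e v)) * c Y) Y ∂μ) ?_
        refine ccont μ (f := fun (q : X × Γ) P => Ψ (q.2⁻¹ * ((ι P)⁻¹ * ι (e q.2)) * c q.1) q.1) ?_
        refine hΨc.comp (f := fun q : (X × Γ) × H =>
          (q.1.2⁻¹ * ((ι q.2)⁻¹ * ι (e q.1.2)) * c q.1.1, q.1.1)) ?_
        have c1 : Continuous fun q : (X × Γ) × H => c q.1.1 := hc.comp (by fun_prop)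
        have c2 : Continuous fun q : (X × Γ) × H => q.1.2 := by fun_prop
        have c3 : Continuous fun q : (X × Γ) × H => ι (e q.1.2) := hι.comp (he.comp c2)
        have c4 : Continuous fun q : (X × Γ) × H => ι q.2 := hι.comp continuous_snd
        exact ((c2.inv.mul (c4.inv.mul c3)).mul c1).prodMk (by fun_prop)
    _ = ∫ v, ∫ P, ∫ Y, Ψ (v⁻¹ * ((ι P)⁻¹ * ι (e v)) * c Y) Y ∂ν ∂μ ∂γ := by
        refine integral_congr_ae (Eventually.of_forall fun v => ?_)
        refine cswap ν μ (f := fun Y P => Ψ (v⁻¹ * ((ι P)⁻¹ * ι (e v)) * c Y) Y) ?_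
        refine hΨc.comp (f := fun q : X × H => (v⁻¹ * ((ι q.2)⁻¹ * ι (e v)) * c q.1, q.1)) ?_
        have c1 : Continuous fun q : X × H => c q.1 := hc.comp continuous_fst
        have c4 : Continuous fun q : X × H => ι q.2 := hι.comp continuous_snd
        exact ((continuous_const.mul (c4.inv.mul continuous_const)).mul c1).prodMk continuous_fst
    _ = ∫ _v : Γ, (∫ P, ∫ Y, Ψ ((ι P)⁻¹ * c Y) Y ∂ν ∂μ) ∂γ := by
        refine integral_congr_ae (Eventually.of_forall fun v => ?_)
        refine integral_congr_ae (Eventually.of_forall fun P => ?_)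
        exact (h2 P v).symm
    _ = ∫ P, ∫ Y, Ψ ((ι P)⁻¹ * c Y) Y ∂ν ∂μ := by simp
    _ = _ := by
        refine integral_congr_ae (Eventually.of_forall fun P => ?_)
        refine integral_congr_ae (Eventually.of_forall fun Y => ?_)
        exact (h1 P Y).symm

lemma int_cons (ν : Measure X) [IsProbabilityMeasure ν] (j : ℕ) {F : (Fin (j + 1) → X) → ℝ}
    (hF : Continuous F) : ∫ W, F W ∂(Measure.pi fun _ => ν) =
      ∫ x, ∫ W, F (Fin.cons x W) ∂(Measure.pi fun _ : Fin j => ν) ∂ν := by
  have h := (measurePreserving_piFinSuccAbove (fun _ : Fin (j + 1) => ν) 0).symm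
  have h1 : ∀ p : X × (Fin j → X), (MeasurableEquiv.piFinSuccAbove (fun _ : Fin (j + 1) => X) 0).symm p =
      Fin.cons p.1 p.2 := by
    intro p
    funext i
    refine Fin.cases ?_ (fun i => ?_) i
    · simp [MeasurableEquiv.piFinSuccAbove]
    · simp [MeasurableEquiv.piFinSuccAbove]
  have hc : Continuous fun p : X × (Fin j → X) => F (Fin.cons p.1 p.2) := by
    refine hF.comp (continuous_pi fun i => ?_)
    refine Fin.cases ?_ (fun i => ?_) i
    · exact continuous_fst
    · exact (continuous_apply i).comp continuous_snd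
  have h2 : ∫ W, F W ∂(Measure.pi fun _ : Fin (j + 1) => ν) =
      ∫ p : X × (Fin j → X), F (Fin.cons p.1 p.2) ∂(ν.prod (Measure.pi fun _ : Fin j => ν)) := by
    rw [← h.map_eq, integral_map h.measurable.aemeasurable hF.aestronglyMeasurable]
    refine integral_congr_ae (Eventually.of_forall fun p => ?_)
    simp only
    rw [h1]
  rw [h2, integral_prod (fun p : X × (Fin j → X) => F (Fin.cons p.1 p.2)) (cint _ hc)]

end abst

end

end Pool.Agent.T2H02.Gap
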