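import Mathlib
import Pool.Agent.T2H02.Gap.GaugeA
import Pool.Agent.T2H02.Gap.Quad
import Pool.Agent.T2H02.Gap.LapZ

/-!
# The transfer matrix and its traces
-/

open MeasureTheory Filter Function
open scoped Topology
open Pool.Agent.H906R3.YM Pool.Agent.W793.YM Pool.Agent.TH618.YM

namespace Pool.Agent.T2H02.Gap

set_option linter.unusedSectionVars false
set_option linter.unusedVariables false

noncomputable section

variable {N D L : ℕ} {G : Subgroup (UN N)}
variable [CompactSpace G] [SecondCountableTopology G] [MeasurableSpace G] [BorelSpace G]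

lemma gt_one (U : Lk D L → G) : gt (fun _ => 1) U = U := by
  funext e; unfold gt; simp

lemma gt_cont : Continuous fun p : (St D L → G) × (Lk D L → G) => gt p.1 p.2 := by
  unfold gt
  refine continuous_pi fun e => ?_
  exact ((((continuous_apply (src e)).comp continuous_fst)).mul
    ((continuous_apply e).comp continuous_snd)).mul ((continuous_apply (tgt e)).comp continuous_fst).inv

lemma mag_gt (g : St D L → G) (U : Lk D L → G) : mag (gt g U) = mag U := by
  unfold mag
  refine Finset.sum_congr rfl fun x _ => Finset.sum_congr rfl fun i _ => Finset.sum_congr rfl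
    fun j _ => ?_
  split_ifs with h
  · rw [plq_gt g U h.1.ne (cst_lt x) h.2.1 h.2.2]
    unfold en
    rw [dg_conj]
  · rfl

lemma kin_gt (g : St D L → G) (U V : Lk D L → G) : kin (gt g U) (gt g V) = kin U V := by
  unfold kin gt
  refine Finset.sum_congr rfl fun e _ => ?_
  have : g (src e) * U e * (g (tgt e))⁻¹ * (g (src e) * V e * (g (tgt e))⁻¹)⁻¹ =
      g (src e) * (U e * (V e)⁻¹) * (g (src e))⁻¹ := by group
  rw [this]
  unfold en
  rw [dg_conj]

lemma kin_symm (U V : Lk D L → G) : kin U V = kin V U := by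
  unfold kin
  refine Finset.sum_congr rfl fun e _ => ?_
  unfold en
  have : U e * (V e)⁻¹ = (V e * (U e)⁻¹)⁻¹ := by group
  rw [this, dg_inv]

lemma chn_zero' (A Z : Lk D L → G) (W : Fin 0 → Lk D L → G) : chn 0 A W Z = kin A Z := rfl

lemma chn_succ' (j : ℕ) (A Z : Lk D L → G) (W : Fin (j + 1) → Lk D L → G) :
    chn (j + 1) A W Z = kin A (W 0) + mag (W 0) + chn j (W 0) (fun i => W i.succ) Z := rfl

lemma chn_cons (j : ℕ) (A Z w : Lk D L → G) (W : Fin j → Lk D L → G) :
    chn (j + 1) A (Fin.cons w W) Z = kin A w + mag w + chn j w W Z := rfl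

lemma act_cons (j : ℕ) (P : G) (Y : Lk D L → G) (W : Fin j → Lk D L → G) :
    act j P (Fin.cons Y W) = mag Y + chn j (hat Y) W (cj P Y) := rfl

lemma chn_gt (g : St D L → G) (j : ℕ) (A : Lk D L → G) (W : Fin j → Lk D L → G) (Z : Lk D L → G) :
    chn j (gt g A) (fun i => gt g (W i)) (gt g Z) = chn j A W Z := by
  induction j generalizing A with
  | zero => rw [chn_zero', chn_zero', kin_gt]
  | succ j ih => rw [chn_succ', chn_succ', kin_gt, mag_gt, ih]

lemma cj_eq (P : G) (Y : Lk D L → G) : cj P Y = gt (fun _ => P) Y := rfl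

lemma mag_cj (P : G) (Y : Lk D L → G) : mag (cj P Y) = mag Y := mag_gt (fun _ => P) Y

attribute [local irreducible] mag kin chn act gt hat cj

variable (μ : Measure G) [IsProbabilityMeasure μ] [μ.IsMulLeftInvariant]

/-- the measure on the configurations -/
abbrev νm (μ : Measure G) (D L : ℕ) : Measure (Lk D L → G) := Measure.pi fun _ => μ

/-- the measure on the gauge transformations -/
abbrev γm (μ : Measure G) (D L : ℕ) : Measure (St D L → G) := Measure.pi fun _ => μ

lemma gt_mp (g : St D L → G) : MeasurePreserving (gt g) (νm μ D L) (νm μ D L) := by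
  have hr := right_of_left μ
  have h1 : gt g = fun (U : Lk D L → G) e => g (src e) * U e * (g (tgt e))⁻¹ := by
    funext U e; unfold gt; rfl
  rw [h1]
  refine measurePreserving_pi (fun _ => μ) (fun _ => μ) (f := fun e u => g (src e) * u * (g (tgt e))⁻¹)
    fun e => ?_
  exact (measurePreserving_mul_right μ (g (tgt e))⁻¹).comp (measurePreserving_mul_left μ (g (src e)))

lemma int_gt (g : St D L → G) {F : (Lk D L → G) → ℝ} (hF : Continuous F) :
    ∫ U, F (gt g U) ∂(νm μ D L) = ∫ U, F U ∂(νm μ D L) := by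
  have h := gt_mp (D := D) (L := L) μ g
  have h2 := integral_map (μ := νm μ D L) h.measurable.aemeasurable (hF.aestronglyMeasurable
    (μ := Measure.map (gt g) (νm μ D L)))
  rw [h.map_eq] at h2
  exact h2.symm

lemma int_gt_pi (g : St D L → G) (j : ℕ) {F : (Fin j → Lk D L → G) → ℝ} (hF : Continuous F) :
    ∫ W, F (fun i => gt g (W i)) ∂(Measure.pi fun _ : Fin j => νm μ D L) =
      ∫ W, F W ∂(Measure.pi fun _ : Fin j => νm μ D L) := by
  have h : MeasurePreserving (fun (W : Fin j → Lk D L → G) i => gt g (W i))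
      (Measure.pi fun _ : Fin j => νm μ D L) (Measure.pi fun _ : Fin j => νm μ D L) :=
    measurePreserving_pi _ _ fun _ => gt_mp μ g
  have h2 := integral_map (μ := Measure.pi fun _ : Fin j => νm μ D L) h.measurable.aemeasurable
    (hF.aestronglyMeasurable (μ := Measure.map (fun (W : Fin j → Lk D L → G) i => gt g (W i))
      (Measure.pi fun _ : Fin j => νm μ D L)))
  rw [h.map_eq] at h2
  exact h2.symm

lemma ga_gt : GA (νm μ D L) (gt : (St D L → G) → (Lk D L → G) → (Lk D L → G)) where
  cont := gt_cont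
  mul g h U := gt_gt g h U
  one U := gt_one U
  int g F hF := int_gt μ g hF

/-! ### the kernels -/

/-- the kernel without the average over the gauge group -/
def kk (β : ℝ) (U V : Lk D L → G) : ℝ :=
  Real.exp (-(β * (1 / 2 * mag U + kin U V + 1 / 2 * mag V)))

lemma kk_cont (β : ℝ) : Continuous (uncurry (kk (D := D) (L := L) (G := G) β)) := by
  have h1 : Continuous fun p : (Lk D L → G) × (Lk D L → G) => mag p.1 := mag_cont.comp continuous_fst
  have h2 : Continuous fun p : (Lk D L → G) × (Lk D L → G) => mag p.2 := mag_cont.comp continuous_snd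
  have h3 : Continuous fun p : (Lk D L → G) × (Lk D L → G) => kin p.1 p.2 := kin_cont
  have h4 : Continuous fun p : (Lk D L → G) × (Lk D L → G) =>
      Real.exp (-(β * (1 / 2 * mag p.1 + kin p.1 p.2 + 1 / 2 * mag p.2))) :=
    Real.continuous_exp.comp (continuous_const.mul (((continuous_const.mul h1).add h3).add
      (continuous_const.mul h2))).neg
  exact h4

lemma kk_symm (β : ℝ) (U V : Lk D L → G) : kk β U V = kk β V U := by
  unfold kk
  have : 1 / 2 * mag U + kin U V + 1 / 2 * mag V = 1 / 2 * mag V + kin V U + 1 / 2 * mag U := by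
    rw [kin_symm U V]; ring
  rw [this]

lemma kk_gt (β : ℝ) (g : St D L → G) (U V : Lk D L → G) : kk β (gt g U) (gt g V) = kk β U V := by
  unfold kk
  rw [mag_gt, mag_gt, kin_gt]

lemma kk_half (β : ℝ) (U w : Lk D L → G) : kk β U w * Real.exp (-(β * (1 / 2 * mag w))) =
    Real.exp (-(β * (1 / 2 * mag U))) * Real.exp (-(β * (kin U w + mag w))) := by
  unfold kk
  rw [← Real.exp_add, ← Real.exp_add]
  have : -(β * (1 / 2 * mag U + kin U w + 1 / 2 * mag w)) + -(β * (1 / 2 * mag w)) =
      -(β * (1 / 2 * mag U)) + -(β * (kin U w + mag w)) := by ring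
  rw [this]

lemma kk_zero (β : ℝ) (U V : Lk D L → G) : kk β U V = Real.exp (-(β * (1 / 2 * mag U))) *
    Real.exp (-(β * kin U V)) * Real.exp (-(β * (1 / 2 * mag V))) := by
  unfold kk
  rw [← Real.exp_add, ← Real.exp_add]
  have : -(β * (1 / 2 * mag U + kin U V + 1 / 2 * mag V)) =
      -(β * (1 / 2 * mag U)) + -(β * kin U V) + -(β * (1 / 2 * mag V)) := by ring
  rw [this]

attribute [local irreducible] kk

/-- the kernel of the transfer matrix -/
def KK (β : ℝ) (U V : Lk D L → G) : ℝ := avk (γm μ D L) gt (kk β) U V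

lemma KK_eq (β : ℝ) : KK (D := D) (L := L) μ β = avk (γm μ D L) gt (kk β) := rfl

lemma KK_cont (β : ℝ) : Continuous (uncurry (KK (D := D) (L := L) μ β)) := by
  rw [KK_eq]
  exact avk_cont (γm μ D L) (ga_gt μ) (kk_cont β)

lemma KK_symm (β : ℝ) (U V : Lk D L → G) : KK μ β U V = KK μ β V U := by
  rw [KK_eq]
  exact avk_symm (γm μ D L) (ga_gt μ) (kk_symm β) (kk_gt β) U V

/-! ### the kernels in terms of the energy of the chain -/

/-- the integral of the chain -/
def Ic (β : ℝ) (j : ℕ) (A Z : Lk D L → G) : ℝ :=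
  ∫ W : Fin j → Lk D L → G, Real.exp (-(β * chn j A W Z)) ∂(Measure.pi fun _ => νm μ D L)

lemma expchn_cont (β : ℝ) (j : ℕ) :
    Continuous (fun p : (Lk D L → G) × (Fin j → Lk D L → G) × (Lk D L → G) =>
      Real.exp (-(β * chn j p.1 p.2.1 p.2.2))) :=
  Real.continuous_exp.comp (continuous_const.mul (chn_cont j)).neg

lemma Ic_cont (β : ℝ) (j : ℕ) : Continuous (uncurry (Ic (D := D) (L := L) μ β j)) := by
  have h : Continuous (uncurry fun (p : (Lk D L → G) × (Lk D L → G)) (W : Fin j → Lk D L → G) =>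
      Real.exp (-(β * chn j p.1 W p.2))) :=
    (expchn_cont β j).comp (f := fun q : ((Lk D L → G) × (Lk D L → G)) × (Fin j → Lk D L → G) =>
      (q.1.1, q.2, q.1.2)) (by fun_prop)
  exact ccont _ h

lemma Ic_zero (β : ℝ) (A Z : Lk D L → G) : Ic μ β 0 A Z = Real.exp (-(β * kin A Z)) := by
  unfold Ic
  simp only [chn_zero']
  simp

lemma Ic_succ (β : ℝ) (j : ℕ) (A Z : Lk D L → G) : Ic μ β (j + 1) A Z =
    ∫ w, Real.exp (-(β * (kin A w + mag w))) * Ic μ β j w Z ∂(νm μ D L) := by
  unfold Ic
  have hc : Continuous (fun W : Fin (j + 1) → Lk D L → G =>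
      Real.exp (-(β * chn (j + 1) A W Z))) := (expchn_cont β (j + 1)).comp
    (f := fun W : Fin (j + 1) → Lk D L → G => (A, W, Z)) (by fun_prop)
  rw [int_cons (νm μ D L) j hc]
  refine integral_congr_ae (Eventually.of_forall fun w => ?_)
  simp only
  rw [← integral_const_mul]
  refine integral_congr_ae (Eventually.of_forall fun W => ?_)
  simp only
  rw [← Real.exp_add, chn_cons]
  have : -(β * (kin A w + mag w + chn j w W Z)) =
      -(β * (kin A w + mag w)) + -(β * chn j w W Z) := by ring
  rw [this]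

lemma it_kk_eq (β : ℝ) (m : ℕ) (U V : Lk D L → G) : it (νm μ D L) (kk β) m U V =
    Real.exp (-(β * (1 / 2 * mag U))) * Ic μ β m U V * Real.exp (-(β * (1 / 2 * mag V))) := by
  induction m generalizing U with
  | zero => rw [Ic_zero, ← kk_zero]; rfl
  | succ m ih =>
    rw [it_succ, Ic_succ, ← integral_const_mul, ← integral_mul_const]
    refine integral_congr_ae (Eventually.of_forall fun w => ?_)
    simp only
    rw [ih]
    have e := kk_half β U w
    linear_combination (Ic μ β m w V * Real.exp (-(β * (1 / 2 * mag V)))) * e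

/-- **The traces of the transfer matrix.** -/
theorem trace_KK [NeZero L] (β : ℝ) (m : ℕ) : ∫ V, it (νm μ D L) (KK μ β) m V V ∂(νm μ D L) =
    ∫ P, ZP μ D L m β P ∂μ := by
  obtain ⟨Φ, hΦ⟩ : ∃ Φ : (Lk D L → G) → (Lk D L → G) → ℝ, Φ = fun A Z =>
    Real.exp (-(β * mag Z)) * Ic μ β m A Z := ⟨_, rfl⟩
  have hΦc : Continuous (uncurry Φ) := by
    rw [hΦ]
    have h1 : Continuous fun p : (Lk D L → G) × (Lk D L → G) => Real.exp (-(β * mag p.2)) :=
      Real.continuous_exp.comp (continuous_const.mul (mag_cont.comp continuous_snd)).neg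
    exact h1.mul (Ic_cont μ β m)
  have hinv : ∀ g A Z, Φ (gt g A) (gt g Z) = Φ A Z := by
    intro g A Z
    rw [hΦ]
    simp only
    rw [mag_gt]
    congr 1
    unfold Ic
    have hc : Continuous (fun W : Fin m → Lk D L → G =>
        Real.exp (-(β * chn m (gt g A) W (gt g Z)))) := (expchn_cont β m).comp
      (f := fun W : Fin m → Lk D L → G => (gt g A, W, gt g Z)) (by fun_prop)
    rw [← int_gt_pi μ g m hc]
    refine integral_congr_ae (Eventually.of_forall fun W => ?_)
    simp only
    rw [chn_gt]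
  have h1 : ∀ V : Lk D L → G, it (νm μ D L) (KK μ β) m V V = ∫ g, Φ (gt g V) V ∂(γm μ D L) := by
    intro V
    rw [KK_eq, it_avk (γm μ D L) (ga_gt μ) (kk_cont β) (kk_gt β)]
    refine integral_congr_ae (Eventually.of_forall fun g => ?_)
    simp only
    rw [it_kk_eq, hΦ, mag_gt]
    simp only
    have : Real.exp (-(β * mag V)) = Real.exp (-(β * (1 / 2 * mag V))) *
        Real.exp (-(β * (1 / 2 * mag V))) := by
      rw [← Real.exp_add]
      have : -(β * mag V) = -(β * (1 / 2 * mag V)) + -(β * (1 / 2 * mag V)) := by ring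
      rw [this]
    rw [this]; ring
  have h2 := tree_abs (γm μ D L) μ (ga_gt (D := D) (L := L) μ) hΦc hinv
    (ι := fun (P : G) (_ : St D L) => P) (by fun_prop) (fun P Q => rfl)
    (e := fun v => v 0) (by fun_prop) (c := fun Y x => comb Y x)
    (continuous_pi fun x => comb_cont x) (fun v Y => by
      funext x
      exact comb_gt v Y x)
  rw [integral_congr_ae (Eventually.of_forall h1), h2]
  refine integral_congr_ae (Eventually.of_forall fun P => ?_)
  simp only
  unfold ZP
  have hc : Continuous (fun U : Fin (m + 1) → Lk D L → G => Real.exp (-(β * act m P U))) :=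
    Real.continuous_exp.comp (continuous_const.mul
      ((act_cont m).comp (f := fun U : Fin (m + 1) → Lk D L → G => (P, U)) (by fun_prop))).neg
  rw [int_cons (νm μ D L) m hc]
  refine integral_congr_ae (Eventually.of_forall fun Y => ?_)
  rw [hΦ]
  simp only
  rw [← cj_eq, mag_cj]
  unfold Ic
  rw [← integral_const_mul]
  refine integral_congr_ae (Eventually.of_forall fun W => ?_)
  simp only
  rw [← Real.exp_add, act_cons]
  have : -(β * (mag Y + chn m (hat Y) W (cj P Y))) =
      -(β * mag Y) + -(β * chn m (hat Y) W (cj P Y)) := by ring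
  rw [this]
  unfold hat
  rfl

end

end Pool.Agent.T2H02.Gap
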