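import Mathlib
import Pool.Agent.T2H02.Gap.Asy0
import Pool.Agent.T2H02.Gap.Asy
import Pool.Agent.T2H02.Gap.Gauge

/-!
# The gap of the transfer matrix
-/

open MeasureTheory Filter Function
open scoped Topology
open Pool.Agent.H906R3.YM Pool.Agent.W793.YM Pool.Agent.TH618.YM

namespace Pool.Agent.T2H02.Gap

set_option linter.unusedSectionVars false
set_option linter.unusedVariables false

noncomputable section

/-- the choice of the scales -/
lemma scales (C1 l0 : ℝ) (hC1 : 1 ≤ C1) (hl0 : 1 ≤ l0) (p : ℕ) (hp : 1 ≤ p) : ∃ C : ℝ, 1 ≤ C ∧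
    ∀ (L : ℕ), 2 ≤ L → ∀ β : ℝ, C * (L : ℝ) ^ (48 * p) ≤ β → ∃ b l : ℝ, 1 ≤ b ∧ b ^ 24 = β ∧
      l0 ≤ l ∧ 8 * l = Real.log β ∧ Real.exp (-l) = (b ^ 3)⁻¹ ∧ C1 * (4 * l * L) ^ p ≤ b := by
  have hp' : (1 : ℝ) ≤ p := by exact_mod_cast hp
  have hpp : (0 : ℝ) < p := by linarith
  obtain ⟨c, hc⟩ : ∃ c, c = C1 * (24 * p : ℝ) ^ p := ⟨_, rfl⟩
  have hc1 : 1 ≤ c := by
    rw [hc]
    exact one_le_mul_of_one_le_of_one_le hC1 (one_le_pow₀ (by linarith))
  refine ⟨max (c ^ 48) (Real.exp (8 * l0)), le_trans (one_le_pow₀ hc1) (le_max_left _ _), ?_⟩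
  intro L hL β hβ
  have hL' : (2 : ℝ) ≤ L := by exact_mod_cast hL
  have hLp : (0 : ℝ) < L := by linarith
  have hL1 : (1 : ℝ) ≤ (L : ℝ) ^ (48 * p) := one_le_pow₀ (by linarith)
  have hβ1 : c ^ 48 * (L : ℝ) ^ (48 * p) ≤ β :=
    (mul_le_mul_of_nonneg_right (le_max_left _ _) (by positivity)).trans hβ
  have hβ2 : Real.exp (8 * l0) ≤ β := by
    refine le_trans ?_ hβ
    calc Real.exp (8 * l0) = Real.exp (8 * l0) * 1 := (mul_one _).symm
      _ ≤ _ := mul_le_mul (le_max_right _ _) hL1 (by norm_num) (by positivity)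
  have hβp : 0 < β := lt_of_lt_of_le (Real.exp_pos _) hβ2
  have hlogβ : 8 * l0 ≤ Real.log β := by
    rw [Real.le_log_iff_exp_le hβp]; exact hβ2
  obtain ⟨b, hb⟩ : ∃ b, b = Real.exp (Real.log β / 24) := ⟨_, rfl⟩
  have hbp : 0 < b := by rw [hb]; exact Real.exp_pos _
  have hb24 : b ^ 24 = β := by
    rw [hb, ← Real.exp_nat_mul]
    have : ((24 : ℕ) : ℝ) * (Real.log β / 24) = Real.log β := by push_cast; ring
    rw [this, Real.exp_log hβp]
  have hb1 : 1 ≤ b := by rw [hb]; exact Real.one_le_exp (by linarith)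
  have hlb : Real.log b = Real.log β / 24 := by rw [hb, Real.log_exp]
  refine ⟨b, Real.log β / 8, hb1, hb24, by linarith, by ring, ?_, ?_⟩
  · rw [hb, ← Real.exp_nat_mul, ← Real.exp_neg]
    congr 1
    push_cast; ring
  · -- the choice of b
    have h1 : 4 * (Real.log β / 8) * L = (12 * Real.log b) * L := by rw [hlb]; ring
    rw [h1, mul_pow]
    have hlogb : 0 ≤ Real.log b := Real.log_nonneg hb1
    have h2 : Real.log b ≤ b ^ ((1 : ℝ) / (2 * p)) / (1 / (2 * p)) :=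
      Real.log_le_rpow_div hbp.le (by positivity)
    have h3 : (12 * Real.log b) ^ p ≤ (24 * p : ℝ) ^ p * Real.sqrt b := by
      have h4 : 12 * Real.log b ≤ (24 * p) * b ^ ((1 : ℝ) / (2 * p)) := by
        have : b ^ ((1 : ℝ) / (2 * p)) / (1 / (2 * p)) = b ^ ((1 : ℝ) / (2 * p)) * (2 * p) := by
          field_simp
        rw [this] at h2
        linarith
      calc (12 * Real.log b) ^ p ≤ ((24 * p) * b ^ ((1 : ℝ) / (2 * p))) ^ p :=
            pow_le_pow_left₀ (by positivity) h4 p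
        _ = (24 * p : ℝ) ^ p * (b ^ ((1 : ℝ) / (2 * p))) ^ p := mul_pow _ _ _
        _ = (24 * p : ℝ) ^ p * Real.sqrt b := by
            congr 1
            rw [← Real.rpow_natCast (b ^ ((1 : ℝ) / (2 * p))) p, ← Real.rpow_mul hbp.le,
              Real.sqrt_eq_rpow]
            congr 1
            field_simp
    have h5 : c * (L : ℝ) ^ p ≤ Real.sqrt b := by
      refine Real.le_sqrt_of_sq_le ?_
      by_contra h
      push Not at h
      have h6 : b ^ 24 < ((c * (L : ℝ) ^ p) ^ 2) ^ 24 := pow_lt_pow_left₀ h hbp.le (by norm_num)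
      have h7 : ((c * (L : ℝ) ^ p) ^ 2) ^ 24 = c ^ 48 * (L : ℝ) ^ (48 * p) := by
        rw [← pow_mul, mul_pow, ← pow_mul]
        congr 2
        ring
      rw [h7, hb24] at h6
      linarith
    have h8 : Real.sqrt b * Real.sqrt b = b := Real.mul_self_sqrt hbp.le
    calc C1 * ((12 * Real.log b) ^ p * (L : ℝ) ^ p) ≤
          C1 * (((24 * p : ℝ) ^ p * Real.sqrt b) * (L : ℝ) ^ p) := by gcongr
      _ = (c * (L : ℝ) ^ p) * Real.sqrt b := by rw [hc]; ring
      _ ≤ Real.sqrt b * Real.sqrt b := mul_le_mul_of_nonneg_right h5 (Real.sqrt_nonneg _)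
      _ = b := h8

variable {N n D L : ℕ} {G : Subgroup (UN N)}
variable [CompactSpace G] [SecondCountableTopology G] [MeasurableSpace G] [BorelSpace G]

/-- **The gap of the transfer matrix.** -/
theorem gap_main (hD : 2 ≤ D) (B : Frame G n) (hn : 0 < n) (hG : IsClosed (G : Set (UN N)))
    (μ : Measure G) [IsProbabilityMeasure μ] [μ.IsHaarMeasure]
    (hinv : ∀ v : En n, (∀ P : G, adL B P v = v) → v = 0) :
    ∃ C : ℝ, 1 ≤ C ∧ ∀ L : ℕ, 2 ≤ L → ∀ β : ℝ, C * (L : ℝ) ^ (96 * D + 288) ≤ β →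
      sec2 (opT (νm μ D L) (KK μ β) (KK_cont μ β)) < top2 (opT (νm μ D L) (KK μ β) (KK_cont μ β)) ∧
      0 < sec2 (opT (νm μ D L) (KK μ β) (KK_cont μ β)) ∧
      |1 / 2 * Real.log (top2 (opT (νm μ D L) (KK μ β) (KK_cont μ β)) /
        sec2 (opT (νm μ D L) (KK μ β) (KK_cont μ β))) -
        4 * Real.arsinh (Real.sqrt 2 * Real.sin (Real.pi / (2 * L)))| ≤ C / (L * Real.log β) := by
  obtain ⟨C1, A, hC1, hA, hasy⟩ := trace_asy hD B hn hG μ hinv
  obtain ⟨l0, C', hl0, hC', hgap⟩ := gap_abs C1 A hC1 hA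
  obtain ⟨C2, hC2, hsc⟩ := scales C1 l0 hC1 hl0 (2 * D + 6) (by omega)
  refine ⟨max C2 (4 * C'), le_trans hC2 (le_max_left _ _), ?_⟩
  intro L hL β hβ
  have hL' : (2 : ℝ) ≤ L := by exact_mod_cast hL
  have hLp : (0 : ℝ) < L := by linarith
  have : NeZero L := ⟨by omega⟩
  have hpow : 96 * D + 288 = 48 * (2 * D + 6) := by ring
  rw [hpow] at hβ
  obtain ⟨b, l, hb1, hb24, hl, hlβ, hexp, hCb⟩ := hsc L hL β
    ((mul_le_mul_of_nonneg_right (le_max_left _ _) (by positivity)).trans hβ)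
  have hlpos : 0 < l := by linarith
  have hY1 : 1 ≤ 4 * l * (L : ℝ) := by
    have : 1 * 1 ≤ l * (L : ℝ) := mul_le_mul (by linarith) (by linarith) (by norm_num) hlpos.le
    linarith
  have hY2 : (L : ℝ) ≤ 4 * l * L := by
    have : 1 * (L : ℝ) ≤ 4 * l * L := mul_le_mul_of_nonneg_right (by linarith) hLp.le
    linarith
  obtain ⟨b0, hb0, hz⟩ := hasy L hL (4 * l * L) b hY1 hY2 hCb
  have hw1 := wL_pos hL
  have hw2 := wL_le hL
  have hw0 : 0 < wL L := lt_of_lt_of_le (by positivity) hw1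
  obtain ⟨h1, h2, h3⟩ := hgap (CF (Lk D L → G) (νm μ D L))
    (opT (νm μ D L) (KK μ β) (KK_cont μ β)) (Lk D L → G) (νm μ D L)
    (col (νm μ D L) (KK μ β) (KK_cont μ β))
    (kern_opT (νm μ D L) (KK_cont μ β) (KK_symm μ β))
    ⟨CF.mk (νm μ D L) (fun _ => 1) continuous_const, by
      rw [norm_cf]
      simp [CF.fn_mk]⟩ L hL (wL L) l b0 hw0 hw2 hl hb0 (fun m hm1 hm2 => by
        rw [zt_eq (νm μ D L) (KK_cont μ β) (KK_symm μ β), trace_KK, hexp, ← hb24]
        refine hz m hm1 ?_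
        have h4 : 2 / L * ((m : ℝ) + 1) ≤ wL L * (m + 1) :=
          mul_le_mul_of_nonneg_right hw1 (by positivity)
        have h5 : 2 / L * ((m : ℝ) + 1) ≤ 4 * l := h4.trans hm2
        rw [div_mul_eq_mul_div, div_le_iff₀ hLp] at h5
        exact h5)
  refine ⟨h1, h2, ?_⟩
  have hlogβ : 0 < Real.log β := by rw [← hlβ]; linarith
  have h6 : |1 / 2 * Real.log (top2 (opT (νm μ D L) (KK μ β) (KK_cont μ β)) /
        sec2 (opT (νm μ D L) (KK μ β) (KK_cont μ β))) -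
        4 * Real.arsinh (Real.sqrt 2 * Real.sin (Real.pi / (2 * L)))| =
      1 / 2 * |Real.log (top2 (opT (νm μ D L) (KK μ β) (KK_cont μ β)) /
        sec2 (opT (νm μ D L) (KK μ β) (KK_cont μ β))) - wL L| := by
    rw [← abs_of_pos (by norm_num : (0 : ℝ) < 1 / 2), ← abs_mul, abs_of_pos (by norm_num : (0 : ℝ) < 1 / 2)]
    congr 1
    unfold wL
    ring
  rw [h6]
  calc 1 / 2 * |Real.log (top2 (opT (νm μ D L) (KK μ β) (KK_cont μ β)) /
        sec2 (opT (νm μ D L) (KK μ β) (KK_cont μ β))) - wL L| ≤ 1 / 2 * (C' / (L * l)) :=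
        mul_le_mul_of_nonneg_left h3 (by norm_num)
    _ = 4 * C' / (L * Real.log β) := by rw [← hlβ]; field_simp; ring
    _ ≤ max C2 (4 * C') / (L * Real.log β) :=
        div_le_div_of_nonneg_right (le_max_right _ _) (by positivity)

end

end Pool.Agent.T2H02.Gap
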